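import Pool.Agent.P.MP_e45b92_nt.UG.IfaceC

/-! Step ACT. -/

set_option autoImplicit false

namespace Pool.Agent.P.MP_e45b92_nt.UG

open MeasureTheory Set

theorem p_ACT : S_ACT := by
  intro h g D t Λ E K k ε W hk
  classical
  have h0 : (0 : ℝ) < h := by exact_mod_cast (by have := W.h20; omega : 0 < h)
  have e0 := W.e0
  have N0 : 0 < D + g := by have := W.D0; omega
  have hM : Λ + k * E ≤ Λ + K * E := by gcongr
  have g1 : (1 : ℝ) ≤ 2 ^ (3 * g) := one_le_pow₀ one_le_two
  have T0 : 0 < Tk Λ E k := by unfold Tk; positivity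
  have X0 : ∀ n, 0 < Xs ε g n h (Tk Λ E k) := fun n => by unfold Xs; positivity
  have up : ∀ n, Act ε g D n h (Tk Λ E k) → Xs ε g (n + (D + g)) h (Tk Λ E k) ≤ 1 := fun n a =>
    (le_mul_of_one_le_right (X0 _).le g1).trans a.2
  have A : ∀ i, Act ε g D (i * (D + g)) h (Tk Λ E k) → i ≤ 2 * (Λ + K * E) := by
    intro i a
    have u := up _ a
    rw [Xs, div_le_one (by positivity), pow_add, ← mul_assoc, Tk, ← pow_mul] at u
    have v : (2 : ℝ) ^ (i * (D + g) + (D + g)) ≤ 2 ^ ((Λ + k * E) * 2) :=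
      le_of_mul_le_mul_left ((mul_le_mul_of_nonneg_right W.hg (by positivity)).trans u) h0
    have := (pow_le_pow_iff_right₀ one_lt_two).1 v
    have := Nat.le_mul_of_pos_right i N0
    omega
  have B : ∀ i d, Act ε g D (i * (D + g)) h (Tk Λ E k) →
      Act ε g D ((i + d) * (D + g)) h (Tk Λ E k) → (d + 1) * (D + g) ≤ Λ + K * E := by
    intro i d a b
    have u := up _ b
    have e : Xs ε g ((i + d) * (D + g) + (D + g)) h (Tk Λ E k) =
        Xs ε g (i * (D + g)) h (Tk Λ E k) * 2 ^ ((d + 1) * (D + g)) := by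
      rw [Xs, Xs, div_mul_eq_mul_div, mul_assoc, ← pow_add]
      congr 3
      ring
    have v : (2 : ℝ) ^ ((d + 1) * (D + g)) ≤ Tk Λ E k := by
      calc _ ≤ Tk Λ E k * Xs ε g (i * (D + g)) h (Tk Λ E k) * 2 ^ ((d + 1) * (D + g)) :=
            le_mul_of_one_le_left (by positivity) (g1.trans a.1)
        _ = Tk Λ E k * Xs ε g ((i + d) * (D + g) + (D + g)) h (Tk Λ E k) := by rw [e, mul_assoc]
        _ ≤ _ := mul_le_of_le_one_right T0.le u
    exact ((pow_le_pow_iff_right₀ one_lt_two).1 v).trans hM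
  obtain ⟨act, hact⟩ : ∃ act : Finset ℕ, ∀ i, i ∈ act ↔ Act ε g D (i * (D + g)) h (Tk Λ E k) :=
    ⟨(Finset.range (2 * (Λ + K * E) + 1)).filter fun i => Act ε g D (i * (D + g)) h (Tk Λ E k),
      fun i => by
        rw [Finset.mem_filter, Finset.mem_range]
        exact ⟨And.right, fun a => ⟨Nat.lt_succ_of_le (A i a), a⟩⟩⟩
  refine ⟨act, hact, ?_, fun i hi => by have := A i ((hact i).1 hi); omega⟩
  rcases act.eq_empty_or_nonempty with rfl | hne
  · exact Nat.zero_le _
  obtain ⟨d, hd⟩ := Nat.exists_eq_add_of_le (act.min'_le _ (act.max'_mem hne))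
  have hc : act.card ≤ d + 1 := by
    have : act ⊆ Finset.Icc (act.min' hne) (act.max' hne) := fun i hi =>
      Finset.mem_Icc.2 ⟨act.min'_le i hi, act.le_max' i hi⟩
    have := Finset.card_le_card this
    rw [Nat.card_Icc] at this
    omega
  refine hc.trans ((Nat.le_div_iff_mul_le N0).2 (B _ d ((hact _).1 (act.min'_mem hne)) ?_))
  rw [← hd]
  exact (hact _).1 (act.max'_mem hne)

end Pool.Agent.P.MP_e45b92_nt.UG
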