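import Pool.Agent.P.MP_e45b92_nt.UG.Base

/-! Counting primitive points in boxes, and dyadic martingales. -/

set_option autoImplicit false

namespace Pool.Agent.P.MP_e45b92_nt.UG

open MeasureTheory Set

-- deps:
def S_OV0 : Prop := ∀ (q : ℤ) (s l : ℝ), q ≠ 0 → ∫ θ, cnt s l (q * θ) ∂μ1 = l

-- deps:
def S_HER : Prop := ∀ (b : ℕ) (s l θ : ℝ), 0 < b → 0 ≤ l →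
  ∑ j ∈ Finset.range b, cnt s l (θ + j / b) ≤ b * l + 1

-- deps: OV0 HER
def S_OV : Prop := ∀ (q q' : ℤ) (s l s' l' : ℝ), 1 ≤ q → 1 ≤ q' → 0 ≤ l → 0 ≤ l' →
  ∫ θ, cnt s l (q * θ) * cnt s' l' (q' * θ) ∂μ1 ≤ l * l' + l' * (Int.gcd q q' : ℝ) / q'

-- deps: OV0
def S_M2 : Prop := ∀ (A B : ℤ) (s l : ℝ), B ≠ 0 → 0 ≤ l →
  ∫ z, cnt s l (A * z.1 + B * z.2) ∂μ2 = l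

-- deps: M2 HER
def S_IND : Prop := ∀ (A B A' B' : ℤ) (s l s' l' : ℝ), A * B' ≠ A' * B → B' ≠ 0 → 0 ≤ l → 0 ≤ l' →
  ∫ z, cnt s l (A * z.1 + B * z.2) * cnt s' l' (A' * z.1 + B' * z.2) ∂μ2 ≤ l * l'

-- deps:
def S_GS : Prop := ∀ Q Λ : ℝ, 0 ≤ Q → 0 ≤ Λ → Real.log Q ≤ Λ →
  ∑ m ∈ Finset.Ioc 0 ⌊Q⌋, ∑ n ∈ Finset.Ioc 0 ⌊Q⌋, (Int.gcd m n : ℝ) ≤ Q ^ 2 * (1 + Λ) ∧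
  ∑ m ∈ Finset.Ioc 0 ⌊Q⌋, ∑ n ∈ Finset.Ioc 0 ⌊Q⌋, (Int.gcd m n : ℝ) ^ 2 ≤ Q ^ 3

-- deps: OV0 OV GS
def S_NV : Prop := ∀ Q₀ Q₁ s X τ ω Λ : ℝ, 0 < Q₀ → Q₀ ≤ Q₁ → 0 ≤ X → 0 ≤ ω → 0 ≤ Λ →
  Real.log Q₁ ≤ Λ →
  ∫ z, (((box z.1 z.2 Q₀ Q₁ s X τ ω).card : ℝ) - nmean Q₀ Q₁ X ω) ^ 2 ∂μ2 ≤
    X * ω * Q₁ ^ 2 * ((X + Q₁ * ω) * (1 + Λ) + Q₁ / Q₀)

-- deps:
def S_MOB : Prop := ∀ α β Q₀ Q₁ s X τ ω : ℝ, 0 ≤ Q₀ →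
  ((pbox α β Q₀ Q₁ s X τ ω).card : ℝ) = ∑ d ∈ Finset.Icc 1 ⌊Q₁⌋₊,
    (ArithmeticFunction.moebius d : ℝ) *
      ((box α β (Q₀ / d) (Q₁ / d) (s / d) (X / d) τ ω).card : ℝ)

-- deps:
def S_ZT : Prop := HasSum (fun d : ℕ => (ArithmeticFunction.moebius d : ℝ) / (d : ℝ) ^ 3) c0 ∧
  (riemannZeta 3).re = Z3

-- deps: ZT
def S_PCM : Prop := ∀ Q₀ Q₁ X ω : ℝ, 1 ≤ Q₀ → Q₀ ≤ Q₁ → 0 ≤ X → 0 ≤ ω →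
  |∑ d ∈ Finset.Icc 1 ⌊Q₁⌋₊, (ArithmeticFunction.moebius d : ℝ) *
      nmean (Q₀ / d) (Q₁ / d) (X / d) ω - c0 * X * ω * ((Q₁ ^ 2 - Q₀ ^ 2) / 2)| ≤ 3 * X * ω * Q₁

-- deps: MOB NV
def S_PCV : Prop := ∀ Q₀ Q₁ s X τ ω Λ : ℝ, 1 ≤ Q₀ → Q₀ ≤ Q₁ → 0 ≤ X → 0 ≤ ω → 0 ≤ Λ →
  Real.log Q₁ ≤ Λ → (X + Q₁ * ω) * (1 + Λ) ≤ 1 →
  ∫ z, (((pbox z.1 z.2 Q₀ Q₁ s X τ ω).card : ℝ) - ∑ d ∈ Finset.Icc 1 ⌊Q₁⌋₊,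
      (ArithmeticFunction.moebius d : ℝ) * nmean (Q₀ / d) (Q₁ / d) (X / d) ω) ^ 2 ∂μ2 ≤
    9 * X * ω * Q₁ ^ 2 * (1 + Q₁ / Q₀)

-- deps: MOB PCM PCV
def S_PC : Prop := ∀ Q₀ Q₁ s X τ ω Λ u : ℝ, 1 ≤ Q₀ → Q₀ ≤ Q₁ → 0 ≤ X → 0 ≤ ω → 0 ≤ Λ →
  Real.log Q₁ ≤ Λ → (X + Q₁ * ω) * (1 + Λ) ≤ 1 → 0 < u →
  μ2.real {z | u + 3 * X * ω * Q₁ ≤ |((pbox z.1 z.2 Q₀ Q₁ s X τ ω).card : ℝ) -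
      c0 * X * ω * ((Q₁ ^ 2 - Q₀ ^ 2) / 2)|} ≤ 9 * X * ω * Q₁ ^ 2 * (1 + Q₁ / Q₀) / u ^ 2

-- deps: PC
def S_GB1 : Prop := ∀ (h S t a b : ℕ) (σ : Bool) (k : ℤ) (T X ℓ Λ : ℝ), 20 ≤ h → 0 < X → 0 < ℓ →
  0 ≤ Λ → Real.log T ≤ Λ → 24 * (h : ℝ) ^ 2 * 2 ^ t ≤ T → (X * 2 ^ S + T * ℓ) * (1 + Λ) ≤ 1 →
  a < h * S → b < h * t →
  μ2.real {z | gmean h T X ℓ a b / h <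
      |((gbox z.1 z.2 h T X ℓ a b σ k).card : ℝ) - gmean h T X ℓ a b|} ≤
    3456 * (h : ℝ) ^ 6 * 4 ^ t / (X * ℓ * T ^ 2)

-- deps: GB1
def S_GB : Prop := ∀ (h S t : ℕ) (T X ℓ Λ : ℝ), 20 ≤ h → 0 < X → 0 < ℓ → 0 ≤ Λ →
  Real.log T ≤ Λ → 24 * (h : ℝ) ^ 2 * 2 ^ t ≤ T → (X * 2 ^ S + T * ℓ) * (1 + Λ) ≤ 1 →
  μ2.real {z | ¬ Good z.1 z.2 h T X ℓ S t} ≤
    21000 * (h : ℝ) ^ 9 * S * t * 4 ^ t / (X * ℓ * T ^ 2)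

-- deps:
def S_WSU : Prop := ∀ (α β : ℝ) (h S t s₀ s₁ : ℕ) (k₀ k₁ : ℤ) (T X ℓ : ℝ), 20 ≤ h → 0 < T →
  0 < X → 0 < ℓ → Good α β h T X ℓ S t → s₀ ≤ s₁ → s₁ ≤ S → -(h + 3 : ℤ) ≤ k₀ → k₀ ≤ k₁ →
  k₁ ≤ h + 4 →
  ∑ v ∈ fam α β h T X ℓ t s₀ s₁ k₀ k₁, 1 / (v.1 * |xc α v|) ≤
    (1 + 5 / h) * (2 * c0 * Real.log 2 * (s₁ - s₀) * (k₁ - k₀) * (ℓ / h) * T)

-- deps: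
def S_WSL : Prop := ∀ (α β : ℝ) (h S t s₀ s₁ : ℕ) (k₀ k₁ : ℤ) (T X ℓ : ℝ), 20 ≤ h → 0 < T →
  0 < X → 0 < ℓ → Good α β h T X ℓ S t → s₀ ≤ s₁ → s₁ ≤ S → -(h + 3 : ℤ) ≤ k₀ → k₀ ≤ k₁ →
  k₁ ≤ h + 4 →
  (1 - 5 / h) * (1 - 1 / 2 ^ t) *
      (2 * c0 * Real.log 2 * (s₁ - s₀) * (k₁ - k₀) * (ℓ / h) * T) ≤
    ∑ v ∈ fam α β h T X ℓ t s₀ s₁ k₀ k₁, 1 / (v.1 * |xc α v|)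

-- deps:
def S_CELL : Prop := ∀ (n : ℕ) (g f₁ f₂ : ℝ → ℝ), LC n g → (∀ β ∈ Ico (0 : ℝ) 1, 0 ≤ g β) →
  Integrable f₁ μ1 → Integrable f₂ μ1 →
  (∀ β ∈ Ico (0 : ℝ) 1, ∫ x in Cl n β, f₁ x ≤ ∫ x in Cl n β, f₂ x) →
  ∫ β, g β * f₁ β ∂μ1 ≤ ∫ β, g β * f₂ β ∂μ1

-- deps: CELL
def S_CORE : Prop := ∀ (n : ℕ → ℕ) (Z : ℕ → ℝ → ℝ) (γ : ℝ) (m : ℕ), Monotone n → 0 ≤ γ →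
  (∀ i < m, LC (n (i + 1)) (Z i)) → (∀ i < m, ∀ β, 0 ≤ Z i β) →
  (∀ i < m, ∀ β ∈ Ico (0 : ℝ) 1, ∫ x in Cl (n i) β, Z i x ≤ γ / 2 ^ n i) →
  ∫ β, ∏ i ∈ Finset.range m, Z i β ∂μ1 ≤ γ ^ m

-- deps: CORE
def S_PROD : Prop := ∀ (n : ℕ → ℕ) (H : ℕ → Set ℝ) (Bad : Set ℝ) (p : ℝ) (m : ℕ), Monotone n →
  0 ≤ p → p ≤ 1 → (∀ i < m, LS (n (i + 1)) (H i)) →
  (∀ i < m, ∀ β ∈ Ico (0 : ℝ) 1, β ∉ Bad → p ≤ Pr (n i) (H i) β) →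
  μ1.real {β | ∀ i < m, β ∉ H i} ≤ (1 - p) ^ m + μ1.real Bad

-- deps: CORE
def S_BIN : Prop := ∀ (n : ℕ → ℕ) (A : ℕ → Set ℝ) (Bad : Set ℝ) (p : ℝ) (K n₀ : ℕ), Monotone n →
  0 < p → 0 < K → (∀ k < K, LS (n (k + 1)) (A k)) →
  (∀ k < K, ∀ β ∈ Ico (0 : ℝ) 1, β ∉ Bad → Pr (n k) (A k) β ≤ p) →
  μ1.real {β | n₀ ≤ {k | k < K ∧ β ∈ A k}.ncard} ≤ 3 * (K * p) ^ n₀ + μ1.real Bad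

-- deps: CELL
def S_W1 : Prop := ∀ (n : ℕ → ℕ) (H : ℕ → Set ℝ) (m j : ℕ) (g : ℝ → ℝ), Monotone n →
  (∀ i < m, LS (n (i + 1)) (H i)) →
  (∀ i < m, ∀ β ∈ Ico (0 : ℝ) 1, Pr (n i) (H i) β ≤ 1 / 2) → j ≤ m → LC (n j) g →
  (∀ β ∈ Ico (0 : ℝ) 1, 0 ≤ g β) →
  ∫ β, Wt n H m β * g β ∂μ1 = ∫ β, Wt n H j β * g β ∂μ1

-- deps: CELL
def S_W2 : Prop := ∀ (n : ℕ → ℕ) (H H' : ℕ → Set ℝ) (m : ℕ), Monotone n →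
  (∀ i < m, LS (n (i + 1)) (H i)) → (∀ i < m, LS (n (i + 1)) (H' i)) →
  (∀ i < m, ∀ β ∈ Ico (0 : ℝ) 1, Pr (n i) (H i) β ≤ 1 / 2) →
  (∀ i < m, ∀ β ∈ Ico (0 : ℝ) 1, Pr (n i) (H' i) β ≤ 1 / 2) →
  ∫ β, Wt n H m β * Wt n H' m β ∂μ1 ≤ 1 + 4 * ∑ i ∈ Finset.range m,
    ∫ β, Wt n H i β * Wt n H' i β * (H i ∩ H' i).indicator 1 β ∂μ1

-- deps: CELL W1
def S_W3 : Prop := ∀ (n : ℕ → ℕ) (H : ℕ → Set ℝ) (m : ℕ), Monotone n →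
  (∀ i < m, LS (n (i + 1)) (H i)) →
  (∀ i < m, ∀ β ∈ Ico (0 : ℝ) 1, Pr (n i) (H i) β ≤ 1 / 2) →
  (∀ j ≤ m, ∫ β, Wt n H j β ∂μ1 = 1) ∧
  (∀ j ≤ m, ∀ (n' : ℕ) (A : Set ℝ) (p : ℝ), LS n' A →
    (∀ β ∈ Ico (0 : ℝ) 1, Pr (n j) A β ≤ p) → ∫ β, Wt n H j β * A.indicator 1 β ∂μ1 ≤ p) ∧
  (∀ (j : ℕ) (A : Set ℝ) (p : ℝ), j + 2 ≤ m → LS (n (j + 2)) A →
    (∀ β ∈ Ico (0 : ℝ) 1, Pr (n j) A β ≤ p) → ∫ β, Wt n H m β * A.indicator 1 β ∂μ1 ≤ 4 * p)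

-- deps:
def S_W4 : Prop := ∀ (n : ℕ → ℕ) (H : ℕ → Set ℝ) (act : Finset ℕ) (j m₀ : ℕ) (p Wm β : ℝ),
  0 ≤ p → p ≤ 1 / 2 → act.card ≤ m₀ → 1 ≤ Wm * (1 - p) ^ m₀ → (∀ i, i ∉ act → H i = ∅) →
  (∀ i < j, Pr (n i) (H i) β ≤ p) → Wt n H j β ≤ Wm

/-- The common hypotheses on the families of hit sets. -/
structure Fams (n : ℕ → ℕ) (H Γ : ℕ → ℕ → Set ℝ) (act : ℕ → Finset ℕ) (Bad : Set ℝ)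
    (K m m₀ n₀ : ℕ) (p p' Wm : ℝ) : Prop where
  mono : Monotone n
  K0 : 0 < K
  p0 : 0 ≤ p
  p1 : p ≤ 1 / 2
  q0 : 0 ≤ p'
  W : 1 ≤ Wm * (1 - p) ^ m₀
  lsH : ∀ k i, LS (n (i + 1)) (H k i)
  lsΓ : ∀ k i, LS (n (i + 2)) (Γ k i)
  off : ∀ k < K, ∀ i, i ∉ act k → H k i = ∅ ∧ Γ k i = ∅
  card : ∀ k < K, (act k).card ≤ m₀
  top : ∀ k < K, ∀ i ∈ act k, i + 2 ≤ m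
  bad : MeasurableSet Bad
  few : ∀ β ∈ Ico (0 : ℝ) 1, β ∉ Bad → ∀ i, {k | k < K ∧ β ∈ H k i}.ncard ≤ n₀

-- deps: W2 W3 W4
def S_LMV : Prop := ∀ (n : ℕ → ℕ) (H Γ : ℕ → ℕ → Set ℝ) (act : ℕ → Finset ℕ) (Bad : Set ℝ)
  (K m m₀ n₀ : ℕ) (p p' Wm : ℝ), Fams n H Γ act Bad K m m₀ n₀ p p' Wm →
  (∀ k < K, ∀ i, ∀ β ∈ Ico (0 : ℝ) 1, Pr (n i) (H k i) β ≤ p) →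
  ∫ β, (∑ k ∈ Finset.range K, Wt n (H k) m β - K) ^ 2 ∂μ1 ≤
    4 * K * Wm * n₀ * m₀ * p + 4 * m * (K : ℝ) ^ 2 * Wm ^ 2 * μ1.real Bad

-- deps: W3 W4 LMV
def S_LM0 : Prop := ∀ (n : ℕ → ℕ) (H Γ : ℕ → ℕ → Set ℝ) (act : ℕ → Finset ℕ) (Bad : Set ℝ)
  (E : ℕ → Set ℝ) (K m m₀ n₀ : ℕ) (p p' Wm : ℝ), Fams n H Γ act Bad K m m₀ n₀ p p' Wm →
  (∀ k, MeasurableSet (E k)) →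
  (∀ k < K, ∀ i, ∀ β ∈ Ico (0 : ℝ) 1, Pr (n i) (H k i) β ≤ p ∧ Pr (n i) (Γ k i) β ≤ p') →
  μ1.real {β | ∀ k < K, (∃ i, β ∈ H k i ∨ β ∈ Γ k i) ∨ β ∈ E k} ≤
    16 * Wm * n₀ * m₀ * p / K + 8 * m₀ * p' +
      2 * Wm / K * ∑ k ∈ Finset.range K, μ1.real (E k) + 16 * m * Wm ^ 2 * μ1.real Bad

-- deps: LM0
def S_LM : Prop := ∀ (n : ℕ → ℕ) (H Γ : ℕ → ℕ → Set ℝ) (act : ℕ → Finset ℕ) (Bad : Set ℝ)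
  (E : ℕ → Set ℝ) (K m m₀ n₀ : ℕ) (p p' Wm : ℝ), Fams n H Γ act Bad K m m₀ n₀ p p' Wm →
  (∀ k, MeasurableSet (E k)) →
  (∀ k < K, ∀ i, ∀ β ∈ Ico (0 : ℝ) 1, β ∉ Bad →
    Pr (n i) (H k i) β ≤ p ∧ Pr (n i) (Γ k i) β ≤ p') →
  μ1.real {β | ∀ k < K, (∃ i, β ∈ H k i ∨ β ∈ Γ k i) ∨ β ∈ E k} ≤
    16 * Wm * n₀ * m₀ * p / K + 8 * m₀ * p' +
      2 * Wm / K * ∑ k ∈ Finset.range K, μ1.real (E k) + (1 + 16 * m * Wm ^ 2) * μ1.real Bad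

-- deps:
def S_FUB : Prop := ∀ (S B : Set (ℝ × ℝ)) (E : ℕ → Set (ℝ × ℝ)) (K : ℕ) (c w w' : ℝ),
  MeasurableSet S → MeasurableSet B → (∀ k, MeasurableSet (E k)) →
  (∀ α, μ1.real {β | (α, β) ∈ S} ≤ c + w * ∑ k ∈ Finset.range K, μ1.real {β | (α, β) ∈ E k} +
    w' * μ1.real {β | (α, β) ∈ B}) →
  μ2.real S ≤ c + w * ∑ k ∈ Finset.range K, μ2.real (E k) + w' * μ2.real B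

-- deps:
def S_TR : Prop := ∀ P : ℝ × ℝ → Prop, (∀ (z : ℝ × ℝ) (m n : ℤ), P z → P (z.1 + m, z.2 + n)) →
  (∀ᵐ z ∂μ2, P z) → ∀ᵐ z : ℝ × ℝ, P z

-- deps:
def S_BON : Prop := ∀ (F : Finset V3) (c ρ : V3 → ℝ) (δ η : ℝ), 0 ≤ δ → (∀ v ∈ F, 0 < ρ v) →
  (∀ v ∈ F, ∑ w ∈ F.filter fun w => w ≠ v ∧ ρ w ≤ ρ v ∧ |c w - c v| < 2 * ρ v, ρ w ≤ η * ρ v) →
  ∑ v ∈ F, (2 * ρ v * (1 - η) - 2 * δ) ≤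
    volume.real (⋃ v ∈ F, Ioo (c v - ρ v + δ) (c v + ρ v - δ))

-- deps:
def S_MEAS : Prop :=
  (∀ ε T : ℝ, MeasurableSet {z : ℝ × ℝ | Solv z.1 z.2 ε T}) ∧
  (∀ (T ε X : ℝ) (t s₀ s₁ : ℕ), MeasurableSet {z : ℝ × ℝ | Hit z.1 z.2 T ε t X s₀ s₁}) ∧
  (∀ Q δ u : ℝ, MeasurableSet {z : ℝ × ℝ | Rare z.1 z.2 Q δ u})

end Pool.Agent.P.MP_e45b92_nt.UG
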