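import Pool.Agent.P.MP_e45b92_nt.UG.IfaceC
import Pool.Agent.P.MP_e45b92_nt.UG.IfaceA

/-! Step BAD. -/

set_option autoImplicit false

namespace Pool.Agent.P.MP_e45b92_nt.UG

open MeasureTheory Set

namespace BADx

theorem num {h s t P ε G : ℝ} (h1 : 1 ≤ h) (hs : 0 ≤ s) (ht : 0 ≤ t) (hP : 1 ≤ P) (e0 : 0 < ε)
    (e1 : ε ≤ 1) (hG : 0 < G) :
    21000 * h ^ 9 * s * t * P / (ε * G / h) + (21000 * h ^ 9 * (s + 1) * t * P / G + 4 / G) ≤
      50000 * h ^ 10 * (s + 1) * (t + 1) * P / (ε * G) := by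
  have h0 : 0 < h := by linarith
  have e : 21000 * h ^ 9 * s * t * P / (ε * G / h) +
      (21000 * h ^ 9 * (s + 1) * t * P / G + 4 / G) =
      (21000 * h ^ 10 * (s * t * P) + 21000 * h ^ 9 * ((s + 1) * t * P) * ε + 4 * ε) / (ε * G) := by
    field_simp
    ring
  rw [e]
  refine div_le_div_of_nonneg_right ?_ (by positivity)
  have w1 : 1 ≤ (s + 1) * (t + 1) * P :=
    one_le_mul_of_one_le_of_one_le (one_le_mul_of_one_le_of_one_le (by linarith) (by linarith)) hP
  have a1 : h ^ 10 * (s * t * P) ≤ h ^ 10 * ((s + 1) * (t + 1) * P) := by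
    gcongr <;> linarith
  have a2 : h ^ 9 * ((s + 1) * t * P) * ε ≤ h ^ 10 * ((s + 1) * (t + 1) * P) * 1 := by
    gcongr
    · norm_num
    · linarith
  have a3 : 1 ≤ h ^ 10 * ((s + 1) * (t + 1) * P) :=
    one_le_mul_of_one_le_of_one_le (one_le_pow₀ h1) w1
  linarith

end BADx

theorem p_BAD (hN0 : S_N0) (hN0P : S_N0P) (hGB : S_GB) (hACT : S_ACT) : S_BAD := by
  intro h g D t Λ E K n₀ ε W
  have h1 : (1 : ℝ) ≤ h := by exact_mod_cast le_trans (by norm_num) W.h20
  have e0 := W.e0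
  have hG : ∀ n, ∀ k ∈ Finset.range K, μ2.real {z : ℝ × ℝ | Act ε g D n h (Tk Λ E k) ∧
      ¬ Good z.1 z.2 h (Tk Λ E k) (Xs ε g n h (Tk Λ E k)) (1 / 2 ^ n) (D + g) t} ≤
      21000 * (h : ℝ) ^ 9 * (D + g) * t * 4 ^ t / (ε * 2 ^ g / h) := by
    intro n k hk
    by_cases hA : Act ε g D n h (Tk Λ E k)
    · obtain ⟨-, -, -, -, a5, a6, a7⟩ := hN0P h g D t Λ E K n k ε W (Finset.mem_range.1 hk) hA
      have T0 : 0 < Tk Λ E k := by unfold Tk; positivity
      have X0 : 0 < Xs ε g n h (Tk Λ E k) := by unfold Xs; positivity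
      have b := hGB h (D + g) t _ _ (1 / 2 ^ n) (Λ + K * E) W.h20 X0 (by positivity)
        (by positivity) a6 a7 a5
      have e : Xs ε g n h (Tk Λ E k) * (1 / 2 ^ n) * Tk Λ E k ^ 2 = ε * 2 ^ g / h := by
        unfold Xs
        field_simp
        ring
      rw [e, Nat.cast_add] at b
      simpa only [hA, true_and] using b
    · simp only [hA, false_and, ofPred_false, measureReal_empty]
      positivity
  have hI : ∀ i ∈ Finset.range (2 * (Λ + K * E) + 2), μ2.real {z : ℝ × ℝ |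
      ¬ ((∀ k < K, Act ε g D (i * (D + g)) h (Tk Λ E k) →
      Good z.1 z.2 h (Tk Λ E k) (Xs ε g (i * (D + g)) h (Tk Λ E k)) (1 / 2 ^ (i * (D + g)))
        (D + g) t) ∧
      {k | k < K ∧ Act ε g D (i * (D + g)) h (Tk Λ E k) ∧
        z.2 ∈ HitP (i * (D + g) + (D + g)) z.1 (Tk Λ E k) ε t
          (Xs ε g (i * (D + g)) h (Tk Λ E k)) 0 D}.ncard ≤ n₀)} ≤
      3 * (K * (20 * ε * (D + g + 1))) ^ (n₀ + 1) +
        K * (50000 * (h : ℝ) ^ 10 * (D + g + 1) * (t + 1) * 4 ^ t / (ε * 2 ^ g)) := by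
    intro i _
    have b1 := (measureReal_biUnion_finset_le (Finset.range K) _).trans
      (Finset.sum_le_card_nsmul _ _ _ (hG (i * (D + g))))
    have b2 := hN0 h g D t Λ E K (i * (D + g)) (n₀ + 1) ε W
    refine le_trans (measureReal_mono ?_ (measure_ne_top _ _))
      ((measureReal_union_le _ _).trans ((add_le_add b1 b2).trans ?_))
    · intro z hz
      by_contra hc
      rw [mem_union, not_or] at hc
      refine hz ⟨fun k hk hA => ?_, Nat.lt_succ_iff.1 (not_le.1 hc.2)⟩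
      by_contra hg
      exact hc.1 (mem_biUnion (Finset.mem_coe.2 (Finset.mem_range.2 hk)) ⟨hA, hg⟩)
    · have := mul_le_mul_of_nonneg_left (BADx.num (s := D + g) (t := t) (P := 4 ^ t) (G := 2 ^ g)
        h1 (by positivity) (by positivity) (one_le_pow₀ (by norm_num)) e0 W.e1 (by positivity))
        (Nat.cast_nonneg K : (0 : ℝ) ≤ K)
      rw [Finset.card_range, nsmul_eq_mul]
      linarith
  have b := (measureReal_biUnion_finset_le (Finset.range (2 * (Λ + K * E) + 2)) _).trans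
    (Finset.sum_le_card_nsmul _ _ _ hI)
  rw [Finset.card_range, nsmul_eq_mul] at b
  push_cast at b
  refine le_trans (measureReal_mono ?_ (measure_ne_top _ _)) b
  intro z hz
  obtain ⟨i, hi⟩ := not_forall.1 hz
  refine mem_biUnion (Finset.mem_coe.2 (Finset.mem_range.2 ?_)) hi
  by_contra hc
  have no : ∀ k < K, ¬ Act ε g D (i * (D + g)) h (Tk Λ E k) := fun k hk hA => by
    obtain ⟨act, a1, -, a3⟩ := hACT h g D t Λ E K k ε W hk
    have := a3 i ((a1 i).2 hA)
    omega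
  refine hi ⟨fun k hk hA => absurd hA (no k hk), ?_⟩
  rw [eq_empty_of_forall_notMem (s := {k | k < K ∧ _}) fun k hk => no k hk.1 hk.2.1, ncard_empty]
  exact Nat.zero_le _

end Pool.Agent.P.MP_e45b92_nt.UG
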