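import Pool.Agent.P.MP_e45b92_nt.UG.IfaceA

/-! Step BIN. -/

set_option autoImplicit false

namespace Pool.Agent.P.MP_e45b92_nt.UG

open MeasureTheory Set

theorem p_BIN (hCORE : S_CORE) : S_BIN := by
  classical
  intro n A Bad p K n₀ hn hp hK hA h
  have hK' : (0 : ℝ) < K := by exact_mod_cast hK
  set c : ℝ := 1 / (K * p) with hc
  have hc0 : 0 < c := by positivity
  let B : ℕ → Set ℝ := fun k => A k ∩ {β | Pr (n k) (A k) β ≤ p}
  have hB : ∀ k < K, LS (n (k + 1)) (B k) := fun k hk β β' e hβ =>
    ⟨hA k hk β β' e hβ.1, ((LC_Pr (n k) (A k)).mono (hn k.le_succ) β β' e).ge.trans hβ.2⟩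
  let Z : ℕ → ℝ → ℝ := fun k β => 1 + c * (B k).indicator 1 β
  have hZ : ∀ k < K, LC (n (k + 1)) (Z k) := fun k hk β β' e => by
    simp only [Z, (hB k hk).indicator β β' e]
  have hZ1 : ∀ k β, 1 ≤ Z k β := fun k β =>
    le_add_of_nonneg_right (mul_nonneg hc0.le (indicator_nonneg (fun _ _ => zero_le_one) _))
  have h1 := hCORE n Z (1 + 1 / K) K hn (by positivity) hZ (fun k _ β => zero_le_one.trans (hZ1 k β))
    fun k hk β _ => by
      have hm := (hB k hk).measurableSet
      have : IsFiniteMeasure (volume.restrict (Cl (n k) β)) :=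
        isFiniteMeasure_restrict.2 (volume_Cl_ne_top _ _)
      have h2 : volume.real (B k ∩ Cl (n k) β) ≤ p / 2 ^ n k := by
        by_cases h3 : Pr (n k) (A k) β ≤ p
        · rw [le_div_iff₀' (by positivity)]
          refine le_trans ?_ h3
          exact mul_le_mul_of_nonneg_left (measureReal_mono (inter_subset_inter_left _
            inter_subset_left) (measure_ne_top_of_subset inter_subset_right
              (volume_Cl_ne_top _ _))) (by positivity)
        · rw [eq_empty_of_forall_notMem (s := B k ∩ Cl (n k) β) fun x hx =>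
            h3 ((LC_Pr (n k) (A k) x β hx.2).ge.trans hx.1.2), measureReal_empty]
          positivity
      have h4 : Integrable ((B k).indicator (1 : ℝ → ℝ)) (volume.restrict (Cl (n k) β)) :=
        (integrable_const (1 : ℝ)).indicator hm
      rw [integral_add (integrable_const _) (h4.const_mul c),
        integral_const_mul, integral_indicator_one hm, measureReal_restrict_apply hm]
      simp only [integral_const, measureReal_restrict_apply MeasurableSet.univ, univ_inter,
        volume_Cl, smul_eq_mul, mul_one]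
      refine (add_le_add_right (mul_le_mul_of_nonneg_left h2 hc0.le) _).trans_eq ?_
      rw [hc]
      field_simp
  have h2 : (1 + 1 / (K : ℝ)) ^ K ≤ 3 := by
    refine (pow_le_pow_left₀ (by positivity) ((add_comm _ _).trans_le
      (Real.add_one_le_exp (1 / K))) K).trans ?_
    rw [← Real.exp_nat_mul, mul_one_div_cancel hK'.ne']
    linarith [Real.exp_one_lt_d9]
  have hL : LC (n K) fun β => ∏ k ∈ Finset.range K, Z k β := fun β β' e =>
    Finset.prod_congr rfl fun k hk =>
      (hZ k (Finset.mem_range.1 hk)).mono (hn (Finset.mem_range.1 hk)) β β' e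
  have h3 := markov (.of_forall fun β => Finset.prod_nonneg fun k _ =>
    zero_le_one.trans (hZ1 k β)) hL.integrable (pow_pos hc0 n₀)
  have h4 : {β | n₀ ≤ {k | k < K ∧ β ∈ A k}.ncard} ≤ᵐ[μ1]
      ({β | c ^ n₀ ≤ ∏ k ∈ Finset.range K, Z k β} ∪ Bad : Set ℝ) := by
    refine (ae_restrict_iff' measurableSet_Ico).2 (.of_forall fun β hβ h5 => ?_)
    by_cases hb : β ∈ Bad
    · exact .inr hb
    refine .inl ?_
    have e : {k | k < K ∧ β ∈ A k} = ↑((Finset.range K).filter fun k => β ∈ A k) := by
      ext k; simp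
    have h6 : n₀ ≤ {k | k < K ∧ β ∈ A k}.ncard := h5
    rw [e, ncard_coe_finset] at h6
    calc c ^ n₀ ≤ (1 + c) ^ n₀ := pow_le_pow_left₀ hc0.le (by linarith) _
      _ ≤ (1 + c) ^ ((Finset.range K).filter fun k => β ∈ A k).card :=
        pow_le_pow_right₀ (by linarith) h6
      _ = ∏ k ∈ (Finset.range K).filter fun k => β ∈ A k, Z k β := by
        rw [← Finset.prod_const]
        refine Finset.prod_congr rfl fun k hk => ?_
        obtain ⟨h7, h8⟩ := Finset.mem_filter.1 hk
        simp only [Z, indicator_of_mem (show β ∈ B k from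
          ⟨h8, h k (Finset.mem_range.1 h7) β hβ hb⟩), Pi.one_apply, mul_one]
      _ ≤ _ := Finset.prod_le_prod_of_subset_of_one_le (Finset.filter_subset _ _)
        (fun k _ => zero_le_one.trans (hZ1 k β)) fun k _ _ => hZ1 k β
  refine (ENNReal.toReal_mono (measure_ne_top _ _) (measure_mono_ae h4)).trans
    ((measureReal_union_le _ _).trans (add_le_add_left (h3.trans ?_) _))
  rw [hc, one_div, inv_pow, div_inv_eq_mul]
  exact mul_le_mul_of_nonneg_right (h1.trans h2) (by positivity)

end Pool.Agent.P.MP_e45b92_nt.UG
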