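import Pool.Agent.P.MP_e45b92_nt.UG.IfaceA

/-! Step BON. -/

set_option autoImplicit false

namespace Pool.Agent.P.MP_e45b92_nt.UG

open MeasureTheory Set

theorem p_BON : S_BON := by
  intro F c ρ δ η hδ hρ h
  let I : V3 → Set ℝ := fun v => Ioo (c v - ρ v + δ) (c v + ρ v - δ)
  let A : V3 → Set ℝ := fun v => I v \ ⋃ w ∈ F.filter fun w => w ≠ v ∧ ρ w ≤ ρ v, I w
  have hI : ∀ v, volume (I v) ≠ ⊤ := fun v => measure_Ioo_lt_top.ne
  have hA : ∀ v, volume (A v) ≠ ⊤ := fun v => measure_ne_top_of_subset sdiff_subset (hI v)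
  have hU : ∀ G : Finset V3, volume (⋃ w ∈ G, I w) ≠ ⊤ := fun G =>
    (measure_biUnion_lt_top G.finite_toSet fun w _ => (hI w).lt_top).ne
  have h1 : volume.real (⋃ v ∈ F, A v) = ∑ v ∈ F, volume.real (A v) := by
    refine measureReal_biUnion_finset (fun v hv w hw hvw => disjoint_left.2 fun x hx hx' => ?_)
      (fun v _ => measurableSet_Ioo.diff (Finset.measurableSet_biUnion _ fun _ _ =>
        measurableSet_Ioo)) fun v _ => hA v
    rcases le_total (ρ v) (ρ w) with h | h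
    · exact hx'.2 (mem_biUnion (Finset.mem_coe.2 (Finset.mem_filter.2 ⟨hv, hvw, h⟩)) hx.1)
    · exact hx.2 (mem_biUnion (Finset.mem_coe.2 (Finset.mem_filter.2 ⟨hw, hvw.symm, h⟩)) hx'.1)
  refine le_trans (Finset.sum_le_sum fun v hv => ?_) (h1.ge.trans (measureReal_mono
    (iUnion₂_mono fun v _ => sdiff_subset) (hU F)))
  let G := F.filter fun w => w ≠ v ∧ ρ w ≤ ρ v ∧ |c w - c v| < 2 * ρ v
  have h2 : I v ⊆ A v ∪ ⋃ w ∈ G, I w := fun x hx => by
    by_cases hx' : x ∈ A v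
    · exact .inl hx'
    · obtain ⟨w, hw, h3⟩ := mem_iUnion₂.1 (not_not.1 fun h3 => hx' ⟨hx, h3⟩)
      obtain ⟨h4, h5, h6⟩ := Finset.mem_filter.1 hw
      refine .inr (mem_iUnion₂.2 ⟨w, Finset.mem_filter.2 ⟨h4, h5, h6, abs_lt.2 ?_⟩, h3⟩)
      constructor <;> linarith [hx.1, hx.2, h3.1, h3.2]
  have h3 := (measureReal_mono h2 (measure_union_ne_top (hA v) (hU G))).trans
    ((measureReal_union_le _ _).trans (add_le_add_right (measureReal_biUnion_finset_le G I) _))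
  have h4 : ∑ w ∈ G, volume.real (I w) ≤ ∑ w ∈ G, 2 * ρ w := Finset.sum_le_sum fun w hw => by
    rw [Real.volume_real_Ioo]
    exact max_le (by linarith) (by linarith [hρ w (Finset.mem_filter.1 hw).1])
  have h5 : 2 * ρ v - 2 * δ ≤ volume.real (I v) := by
    rw [Real.volume_real_Ioo]
    exact le_max_of_le_left (by linarith)
  rw [← Finset.mul_sum] at h4
  have h6 : ∑ w ∈ G, ρ w ≤ η * ρ v := h v hv
  linarith

end Pool.Agent.P.MP_e45b92_nt.UG
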