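import Pool.Agent.P.MP_e45b92_nt.UG.IfaceA

/-! Step CELL. -/

set_option autoImplicit false

namespace Pool.Agent.P.MP_e45b92_nt.UG

open MeasureTheory Set

namespace CELLx

theorem cell_div (n : ℕ) (j : ℤ) : cell n ((j : ℝ) / 2 ^ n) = j := by
  rw [cell, mul_div_cancel₀ _ (by positivity), Int.floor_intCast]

theorem div_mem {n : ℕ} {j : ℤ} (hj : j ∈ Finset.Ico (0 : ℤ) (2 ^ n)) :
    (j : ℝ) / 2 ^ n ∈ Ico (0 : ℝ) 1 := by
  obtain ⟨h0, h1⟩ := Finset.mem_Ico.1 hj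
  have a0 : (0 : ℝ) ≤ j := by exact_mod_cast h0
  have a1 : (j : ℝ) < 2 ^ n := by exact_mod_cast h1
  exact ⟨by positivity, (div_lt_one (by positivity)).2 a1⟩

theorem split {n : ℕ} {g f : ℝ → ℝ} (hg : LC n g) (hf : Integrable f μ1) :
    ∫ β, g β * f β ∂μ1 = ∑ j ∈ Finset.Ico (0 : ℤ) (2 ^ n),
      g ((j : ℝ) / 2 ^ n) * ∫ x in Cl n ((j : ℝ) / 2 ^ n), f x := by
  have e : Ico (0 : ℝ) 1 = ⋃ j ∈ Finset.Ico (0 : ℤ) (2 ^ n), Cl n ((j : ℝ) / 2 ^ n) := by
    refine Subset.antisymm (fun β hβ => ?_) (iUnion₂_subset fun j hj => Cl_subset (div_mem hj))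
    exact mem_iUnion₂.2 ⟨cell n β, cell_mem hβ, (cell_div n _).symm⟩
  have c : ∀ j : ℤ, EqOn (fun β => g ((j : ℝ) / 2 ^ n) * f β) (fun β => g β * f β)
      (Cl n ((j : ℝ) / 2 ^ n)) := fun j β hβ => by
    dsimp only
    rw [hg β _ hβ]
  change ∫ β in Ico (0 : ℝ) 1, g β * f β = _
  rw [e, integral_biUnion_finset _ (fun j _ => measurableSet_Cl _ _)]
  · refine Finset.sum_congr rfl fun j _ => ?_
    rw [← setIntegral_congr_fun (measurableSet_Cl _ _) (c j), integral_const_mul]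
  · intro i _ j _ hij
    refine disjoint_left.2 fun x h1 h2 => hij ?_
    rw [← cell_div n i, ← cell_div n j]
    exact Eq.trans (Eq.symm h1) h2
  · intro j hj
    exact IntegrableOn.congr_fun ((integrableOn_Cl (div_mem hj) hf).const_mul _) (c j)
      (measurableSet_Cl _ _)

end CELLx

open CELLx in
theorem p_CELL : S_CELL := by
  intro n g f₁ f₂ hg h0 h1 h2 h
  rw [split hg h1, split hg h2]
  exact Finset.sum_le_sum fun j hj =>
    mul_le_mul_of_nonneg_left (h _ (div_mem hj)) (h0 _ (div_mem hj))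

end Pool.Agent.P.MP_e45b92_nt.UG
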