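import Pool.Agent.P.MP_e45b92_nt.UG.IfaceA

/-! Step CORE. -/

set_option autoImplicit false

namespace Pool.Agent.P.MP_e45b92_nt.UG

open MeasureTheory Set

theorem p_CORE (hCELL : S_CELL) : S_CORE := by
  intro n Z γ m hn hγ
  induction m with
  | zero => intro _ _ _; simp
  | succ m ih =>
    intro h1 h2 h3
    have hlt : ∀ i < m, i < m + 1 := fun i hi => Nat.lt_succ_of_lt hi
    have ih' := ih (fun i hi => h1 i (hlt i hi)) (fun i hi => h2 i (hlt i hi))
      (fun i hi => h3 i (hlt i hi))
    have hLC : LC (n m) fun β => ∏ i ∈ Finset.range m, Z i β := by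
      intro β β' e
      refine Finset.prod_congr rfl fun i hi => ?_
      have hi' := Finset.mem_range.1 hi
      exact (h1 i (hlt i hi')).mono (hn hi') β β' e
    have h0 : ∀ β ∈ Ico (0 : ℝ) 1, 0 ≤ ∏ i ∈ Finset.range m, Z i β := fun β _ =>
      Finset.prod_nonneg fun i hi => h2 i (hlt i (Finset.mem_range.1 hi)) β
    have key := hCELL (n m) _ (Z m) (fun _ => γ) hLC h0 (h1 m (Nat.lt_succ_self m)).integrable
      (integrable_const γ) (fun β hβ => by
        refine (h3 m (Nat.lt_succ_self m) β hβ).trans (le_of_eq ?_)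
        rw [setIntegral_const, volume_Cl, smul_eq_mul]; ring)
    simp only [Finset.prod_range_succ]
    refine key.trans ?_
    rw [integral_mul_const, pow_succ]
    exact mul_le_mul_of_nonneg_right ih' hγ

end Pool.Agent.P.MP_e45b92_nt.UG
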