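import Pool.Agent.P.MP_e45b92_nt.UG.IfaceA

/-! The upper half. -/

set_option autoImplicit false

namespace Pool.Agent.P.MP_e45b92_nt.UG

open MeasureTheory Set

-- deps:
def S_CROSS : Prop :=
  (∀ v u u' : V3, Prim v → dot u v = 0 → dot u' v = 0 →
    ∃ k : ℤ, crs u u' = (k * v.1, k * v.2.1, k * v.2.2)) ∧
  (∀ v w : V3, Prim v → Prim w → 0 < v.1 → 0 < w.1 → crs v w = 0 → v = w) ∧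
  (∀ ξ : V3, ξ ≠ 0 → ∃ (k : ℤ) (u : V3), 1 ≤ k ∧ Prim u ∧ ξ = (k * u.1, k * u.2.1, k * u.2.2)) ∧
  (∀ v w w' : V3, Prim v → v.1 ≠ 0 → (crs v w).2 = (crs v w').2 →
    ∃ k : ℤ, w' = (w.1 + k * v.1, w.2.1 + k * v.2.1, w.2.2 + k * v.2.2))

-- deps:
def S_PL : Prop := ∀ (φ ψ : V3 → ℝ) (Γ : Set V3) (c a b : ℝ) (S : Finset V3),
  (∀ u w, φ (u - w) = φ u - φ w) → (∀ u w, ψ (u - w) = ψ u - ψ w) →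
  (∀ u ∈ Γ, ∀ w ∈ Γ, u - w ∈ Γ) → (∀ u ∈ Γ, φ u = 0 → ψ u = 0 → u = 0) →
  0 < c → 0 < a → 0 < b → (∀ u ∈ Γ, ∀ w ∈ Γ, ∃ k : ℤ, φ u * ψ w - ψ u * φ w = k * c) →
  S.Nonempty → (∀ u ∈ S, u ∈ Γ ∧ u ≠ 0 ∧ |φ u| ≤ a ∧ |ψ u| ≤ b) →
  ∃ w ∈ Γ, w ≠ 0 ∧
    ((S.filter fun u => φ w * ψ u - ψ w * φ u ≠ 0).card : ℝ) ≤ 12 * a * b / c ∧
    ((S.filter fun u => φ w * ψ u - ψ w * φ u = 0).card : ℝ) ≤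
      3 / max (|φ w| / a) (|ψ w| / b)

-- deps: CROSS PL
def S_ISO1 : Prop := ∀ (α T ε A : ℝ) (t j : ℕ) (F : Finset V3) (v : V3), 0 < T → 0 < ε → 0 < A →
  Prim v → T / 2 ^ t < v.1 → (v.1 : ℝ) ≤ T → xc α v ≠ 0 →
  Iso v (A * ε / |xc α v|) (A * T * |xc α v| / 2) →
  (∀ w ∈ F, Prim w ∧ 0 < w.1 ∧ (w.1 : ℝ) ≤ T ∧ w ≠ v ∧ |xc α w| ≤ 2 ^ j * |xc α v| ∧
    |ctr w - ctr v| < 2 * rad α T ε v) →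
  (F.card : ℝ) ≤ 2 * 2 ^ t * (48 * ε * 2 ^ j * 2 ^ t + 12 * 2 ^ j / A)

-- deps: ISO1
def S_ISO : Prop := ∀ (α T ε A : ℝ) (t D : ℕ) (F : Finset V3) (v : V3), 0 < T → 0 < ε → 0 < A →
  Prim v → T / 2 ^ t < v.1 → (v.1 : ℝ) ≤ T → xc α v ≠ 0 →
  Iso v (A * ε / |xc α v|) (A * T * |xc α v| / 2) →
  (∀ w ∈ F, Prim w ∧ T / 2 ^ t < w.1 ∧ (w.1 : ℝ) ≤ T ∧ xc α w ≠ 0 ∧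
    |xc α w| ≤ 2 ^ D * |xc α v|) →
  ∑ w ∈ F.filter fun w => w ≠ v ∧ rad α T ε w ≤ rad α T ε v ∧
      |ctr w - ctr v| < 2 * rad α T ε v, rad α T ε w ≤
    (D + 1) * 200 * 8 ^ t * (ε + 1 / A) * rad α T ε v

-- deps: CROSS PL
def S_NI1 : Prop := ∀ (α T U : ℝ) (ξ : V3) (F : Finset V3), 0 < T → 0 < U → Prim ξ → 1 ≤ ξ.2.2 →
  (∀ v ∈ F, Prim v ∧ 0 < v.1 ∧ (v.1 : ℝ) ≤ T ∧ |xc α v| ≤ 2 * U ∧ dot ξ v = 0) →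
  (F.card : ℝ) ≤ 1 + 24 * U * T / ξ.2.2

-- deps: CROSS NI1
def S_NI : Prop := ∀ (α β T U ℓ a₀ b₀ w₀ : ℝ) (t : ℕ) (F : Finset V3), 0 < T → 0 < U → 0 ≤ ℓ →
  0 ≤ a₀ → a₀ * (2 * U) * 2 ^ t / T < w₀ → NoK α a₀ w₀ →
  (∀ v ∈ F, Prim v ∧ T / 2 ^ t < v.1 ∧ (v.1 : ℝ) ≤ T ∧ |xc α v| ≤ 2 * U ∧
    |yc β v| ≤ v.1 * ℓ ∧ ¬ Iso v a₀ b₀) →
  (F.card : ℝ) ≤ Psi α β (24 * U * T) ℓ a₀ 0 b₀ w₀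

-- deps: M2
def S_DVS : Prop := ∀ W ℓ a₀ b₁ b₀ w₀ Λ : ℝ, 0 ≤ W → 0 ≤ ℓ → 0 ≤ w₀ → 1 ≤ a₀ → 0 ≤ b₁ →
  0 ≤ b₀ → 0 ≤ Λ → Real.log b₀ ≤ Λ →
  ∫ z, Psi z.1 z.2 W ℓ a₀ b₁ b₀ w₀ ∂μ2 = pmean W ℓ a₀ b₁ b₀ w₀ ∧
  pmean W ℓ a₀ b₁ b₀ w₀ ≤ 6 * a₀ * (w₀ * b₀ + b₀ ^ 2 * ℓ + W * w₀ * (1 + Λ) + W * ℓ * b₀)

-- deps: OV M2 IND GS
def S_DVB : Prop := ∀ W ℓ a₀ b₁ b₀ w₀ Λ : ℝ, 0 ≤ W → 0 ≤ ℓ → 0 ≤ w₀ → 1 ≤ a₀ → 0 < b₁ →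
  b₁ ≤ b₀ → 0 ≤ Λ → Real.log b₀ ≤ Λ →
  ∫ z, (Psi z.1 z.2 W ℓ a₀ b₁ b₀ w₀ - pmean W ℓ a₀ b₁ b₀ w₀) ^ 2 ∂μ2 ≤
    (1 + W / b₁) ^ 2 * (2 * (w₀ + b₀ * ℓ)) * (3 * a₀) * (b₀ ^ 2 * (1 + Λ)) / b₁

-- deps: DVS DVB
def S_DV : Prop := ∀ (T U ℓ ε A B θ Λ : ℝ) (t : ℕ), 1 ≤ T → 0 < U → 0 < ℓ → 0 < ε → 1 ≤ A →
  1 ≤ B → 0 < θ → θ ≤ 1 → 0 ≤ Λ → Real.log T ≤ Λ → U ≤ A * ε → A * U ≤ 1 →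
  2400 * A ^ 3 * ε ≤ θ → 2 ^ t * (1 + Λ) * B ≤ U * T ^ 2 * ℓ →
  μ2.real {z | θ * (U * T ^ 2 * ℓ) ≤ Psi z.1 z.2 (24 * U * T) ℓ (A * ε / U) 0 (A * T * U)
      (3 * A * ε * 2 ^ t / T)} ≤
    1 / B + 100 * B ^ 3 * A * (1 + Λ) / (θ * (U * T ^ 2 * ℓ))

-- deps: OV0
def S_NOK : Prop := ∀ a₀ w₀ : ℝ, 0 ≤ a₀ → 0 ≤ w₀ →
  μ2.real {z | ¬ NoK z.1 a₀ w₀} ≤ 2 * a₀ * w₀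

/-- Few short covectors at the scale `U`. -/
def Few (α β T U ℓ ε A : ℝ) (h : ℕ) : Prop :=
  Psi α β (24 * U * T) ℓ (A * ε / U) 0 (A * T * U) (3 * A * ε * 2 ^ h / T) <
      1 / (h * 2 ^ h) * (U * T ^ 2 * ℓ) ∧
    NoK α (A * ε / U) (3 * A * ε * 2 ^ h / T)

-- deps: NI
def S_UB1 : Prop := ∀ (α β T X ℓ ε A : ℝ) (h D : ℕ) (F : Finset V3), 0 < h → 0 < T → 0 < X →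
  0 < ℓ → 0 < ε → 0 < A → (∀ s < D, Few α β T (X * 2 ^ s) ℓ ε A h) →
  (∀ v ∈ F, Prim v ∧ T / 2 ^ h < v.1 ∧ (v.1 : ℝ) ≤ T ∧ InR X 0 D (xc α v) ∧
    |yc β v| ≤ v.1 * ℓ ∧ ¬ Iso v (A * ε / |xc α v|) (A * T * |xc α v| / 2)) →
  ∑ v ∈ F, rad α T ε v ≤ ε * ℓ * D / h

-- deps: BON ISO
def S_UB2 : Prop := ∀ (α β T X ε A : ℝ) (h D n n' : ℕ) (F : Finset V3), 2 ≤ h → 0 < T → 0 < X →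
  0 < ε → 0 < A → (D + 1) * 200 * 8 ^ h * (ε + 1 / A) ≤ 1 / h →
  1 / 2 ^ n' ≤ ε / (h * T ^ 2 * X * 2 ^ D) →
  (∀ v ∈ F, Prim v ∧ T / 2 ^ h < v.1 ∧ (v.1 : ℝ) ≤ T ∧ InR X 0 D (xc α v) ∧
    Iso v (A * ε / |xc α v|) (A * T * |xc α v| / 2) ∧
    Ioo (ctr v - rad α T ε v) (ctr v + rad α T ε v) ⊆ Cl n β) →
  (1 - 2 / h) * ∑ v ∈ F, 2 * rad α T ε v ≤ volume.real (Full n' α T ε ∩ Cl n β)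

-- deps: WSL UB1 UB2
def S_UB : Prop := ∀ (α β T X ε A : ℝ) (h D n n' : ℕ), 20 ≤ h → 0 < T → 0 < X → 0 < ε → 0 < A →
  (D + 1) * 200 * 8 ^ h * (ε + 1 / A) ≤ 1 / h → ε * 2 ^ h / (T ^ 2 * X) ≤ 1 / 2 ^ n / h →
  1 / 2 ^ n' ≤ ε / (h * T ^ 2 * X * 2 ^ D) → Good α β h T X (1 / 2 ^ n) D h →
  (∀ s < D, Few α β T (X * 2 ^ s) (1 / 2 ^ n) ε A h) →
  (1 - 13 / h) * (4 * c0 * ε * Real.log 2 * D) ≤ Pr n (Full n' α T ε) β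

-- deps: GB DV NOK
def S_UT1 : Prop := ∀ (h g D n : ℕ) (T ε Λ B R : ℝ), 20 ≤ h → 0 < ε → 1 ≤ T → 0 ≤ Λ →
  Real.log T ≤ Λ → 1 ≤ B → 0 < R → 2400 * A0 h D ^ 3 * ε ≤ 1 / (h * 2 ^ h) →
  24 * (h : ℝ) ^ 2 * 2 ^ h ≤ T → R ≤ T * Xs ε g n h T → Xs ε g n h T * 2 ^ D * R ≤ 1 →
  (1 / R + ε * 2 ^ g / h / R) * (1 + Λ) ≤ 1 → 1 ≤ R * ε → A0 h D ≤ R →
  2 ^ h * (1 + Λ) * B ≤ ε * 2 ^ g / h →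
  μ2.real {z | ¬ (Good z.1 z.2 h T (Xs ε g n h T) (1 / 2 ^ n) D h ∧
      ∀ s < D, Few z.1 z.2 T (Xs ε g n h T * 2 ^ s) (1 / 2 ^ n) ε (A0 h D) h)} ≤
    D * (21000 * (h : ℝ) ^ 10 * 4 ^ h / (ε * 2 ^ g / h) + 1 / B +
      100 * B ^ 3 * A0 h D * (1 + Λ) * (h * 2 ^ h) / (ε * 2 ^ g / h) +
      6 * A0 h D ^ 2 * ε ^ 2 * 2 ^ h / R)

-- deps: UB UT1 PROD FUB MEAS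
def S_UT0 : Prop := ∀ (h g D n m : ℕ) (T ε Λ B R : ℝ), 20 ≤ h → 0 < ε → 1 ≤ T → 0 ≤ Λ →
  Real.log T ≤ Λ → 1 ≤ B → 0 < R → 2400 * A0 h D ^ 3 * ε ≤ 1 / (h * 2 ^ h) →
  24 * (h : ℝ) ^ 2 * 2 ^ h ≤ T → R ≤ T * Xs ε g n h T →
  Xs ε g (n + m * (D + g)) h T * R ≤ 1 →
  (1 / R + ε * 2 ^ g / h / R) * (1 + Λ) ≤ 1 → 1 ≤ R * ε → A0 h D ≤ R →
  2 ^ h * (1 + Λ) * B ≤ ε * 2 ^ g / h → (h : ℝ) ^ 2 * 2 ^ h ≤ 2 ^ g →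
  μ2.real {z | ¬ Solv z.1 z.2 ε T} ≤
    Real.exp (-((1 - 13 / h) * (4 * c0 * ε * Real.log 2 * D) * m)) +
    m * (D * (21000 * (h : ℝ) ^ 10 * 4 ^ h / (ε * 2 ^ g / h) + 1 / B +
      100 * B ^ 3 * A0 h D * (1 + Λ) * (h * 2 ^ h) / (ε * 2 ^ g / h) +
      6 * A0 h D ^ 2 * ε ^ 2 * 2 ^ h / R))

-- deps: UT0
def S_UT : Prop := ∀ (h g : ℕ) (T ε L : ℝ), 20 ≤ h → 1 ≤ T → L = Real.log T →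
  21000 * (h : ℝ) ^ 10 * 4 ^ h ≤ L → L ^ 30 ≤ 2 ^ g → (h + 6) * g ≤ L → 1 / L ^ 2 ≤ ε →
  A0 h (h * g) ≤ L → 2400 * A0 h (h * g) ^ 3 * ε ≤ 1 / (h * 2 ^ h) →
  μ2.real {z | ¬ Solv z.1 z.2 ε T} ≤
    Real.exp (-((1 - 14 / h) * (4 * c0 * ε) * (L - (h + 6) * g))) + 1 / L ^ 2

-- deps: UT
def S_UF : Prop := ∀ c : ℝ, Z3 / 4 < c → ∃ η T₀ : ℝ, 0 < η ∧ ∀ T, T₀ ≤ T →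
  μ2.real {z | ¬ Solv z.1 z.2 (eps c T) T} ≤ 2 / Real.log T ^ (1 + η)

-- deps: UF
def S_UBC : Prop := ∀ᵐ z ∂μ2, ∀ c : ℝ, Z3 / 4 < c → ∃ T₀ : ℝ, ∀ T, T₀ ≤ T →
  Solv z.1 z.2 (eps c T) T

end Pool.Agent.P.MP_e45b92_nt.UG
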