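import Pool.Agent.P.MP_e45b92_nt.UG.IfaceC
import Pool.Agent.P.MP_e45b92_nt.UG.IfaceB

/-! Step COV. -/

set_option autoImplicit false

namespace Pool.Agent.P.MP_e45b92_nt.UG

open MeasureTheory Set

namespace COVx

theorem near {P a : ℝ} (hP : 1 < P) (ha : 1 < a) : ∃ i : ℕ, P ^ i < a ∧ a ≤ P ^ (i + 1) := by
  obtain ⟨n, h1, h2⟩ := exists_nat_pow_near ha.le hP
  rcases h1.lt_or_eq with h | h
  · exact ⟨n, h, h2.le⟩
  · cases n with
    | zero => rw [pow_zero] at h; exact absurd h ha.ne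
    | succ m => exact ⟨m, h ▸ pow_lt_pow_right₀ hP (Nat.lt_succ_self m), h.ge⟩

theorem inr {X x : ℝ} {N : ℕ} (hX : 0 < X) (hN : 0 < N) (h : X < |x|) :
    ∃ i : ℕ, InR (X * 2 ^ (i * N)) 0 N x := by
  have hP : (1 : ℝ) < 2 ^ N := one_lt_pow₀ one_lt_two hN.ne'
  have h1 : 1 < |x| / X := (one_lt_div hX).2 h
  rcases le_total 0 x with c | c
  · obtain ⟨i, a, b⟩ := exists_nat_pow_near h1.le hP
    rw [abs_of_nonneg c] at a b
    rw [le_div_iff₀ hX] at a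
    rw [div_lt_iff₀ hX, pow_succ] at b
    rw [← pow_mul, mul_comm N] at a b
    exact ⟨i, Or.inl ⟨by linarith, by linarith⟩⟩
  · obtain ⟨i, a, b⟩ := near hP h1
    rw [abs_of_nonpos c] at a b
    rw [lt_div_iff₀ hX] at a
    rw [div_le_iff₀ hX, pow_succ] at b
    rw [← pow_mul, mul_comm N] at a b
    exact ⟨i, Or.inr ⟨by linarith, by linarith⟩⟩

theorem split {Z x : ℝ} {D g : ℕ} (h : InR Z 0 (D + g) x) : InR Z 0 D x ∨ InR Z D (D + g) x := by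
  rcases h with h | h
  · rcases lt_or_ge x (Z * 2 ^ D) with c | c
    · exact Or.inl (Or.inl ⟨h.1, c⟩)
    · exact Or.inr (Or.inl ⟨c, h.2⟩)
  · rcases lt_or_ge x (-(Z * 2 ^ D)) with c | c
    · exact Or.inr (Or.inr ⟨h.1, c⟩)
    · exact Or.inl (Or.inr ⟨c, h.2⟩)

theorem bds {Z x : ℝ} {N : ℕ} (hZ : 0 < Z) (h : InR Z 0 N x) : Z ≤ |x| ∧ |x| ≤ Z * 2 ^ N := by
  rcases h with ⟨a, b⟩ | ⟨a, b⟩ <;> rw [pow_zero, mul_one] at *
  · rw [abs_of_nonneg (by linarith)]; exact ⟨a, b.le⟩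
  · rw [abs_of_nonpos (by linarith)]; exact ⟨by linarith, by linarith⟩

theorem prim (hCROSS : S_CROSS) {α β ε T : ℝ} (h : Solv α β ε T) :
    ∃ u : V3, Prim u ∧ 1 ≤ u.1 ∧ (u.1 : ℝ) ≤ T ∧ |xc α u| * |yc β u| < ε / T := by
  obtain ⟨p, r, q, h1, h2, h3⟩ := h
  obtain ⟨k, u, hk, hu, e⟩ := hCROSS.2.2.1 (q, p, r) fun c => by
    have : q = 0 := congrArg Prod.fst c
    omega
  simp only [Prod.mk.injEq] at e
  obtain ⟨rfl, rfl, rfl⟩ := e
  have a1 : 1 ≤ u.1 := by nlinarith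
  have a2 : u.1 ≤ k * u.1 := by nlinarith
  have k1 : (1 : ℝ) ≤ k := by exact_mod_cast hk
  refine ⟨u, hu, a1, le_trans (by exact_mod_cast a2) h2, lt_of_le_of_lt ?_ h3⟩
  have e1 : ((k * u.2.1 : ℤ) : ℝ) + (k * u.1 : ℤ) * α = k * xc α u := by
    rw [xc]; push_cast; ring
  have e2 : ((k * u.2.2 : ℤ) : ℝ) + (k * u.1 : ℤ) * β = k * yc β u := by
    rw [yc]; push_cast; ring
  rw [e1, e2, abs_mul, abs_mul, abs_of_nonneg (by linarith : (0 : ℝ) ≤ k)]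
  exact mul_le_mul (le_mul_of_one_le_left (abs_nonneg _) k1)
    (le_mul_of_one_le_left (abs_nonneg _) k1) (abs_nonneg _) (by positivity)

end COVx

open COVx in
theorem p_COV (hCROSS : S_CROSS) : S_COV := by
  intro α β T ε X R t D g hT hε hε1 hR hX hN hXR hS
  obtain ⟨u, hu, h1, h2, h3⟩ := prim hCROSS hS
  rcases le_or_gt (u.1 : ℝ) (T / 2 ^ t) with c | c
  · have e : xc α (u.1, -round (u.1 * α), u.2.2) = u.1 * α - round (u.1 * α) := by
      simp only [xc]; push_cast; ring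
    refine Or.inl ⟨(u.1, -round (u.1 * α), u.2.2), h1, c, lt_of_le_of_lt ?_ h3, ?_⟩
    · refine mul_le_mul_of_nonneg_right ?_ (abs_nonneg _)
      rw [e]
      refine (round_le _ (-u.2.1)).trans_eq ?_
      rw [xc]; push_cast; ring_nf
    · rw [e]; exact abs_sub_round _
  have hP : 0 < R * 2 ^ (D + g) := by positivity
  rcases le_or_gt |xc α u| (R * 2 ^ (D + g) / T) with c1 | c1
  · exact Or.inr (Or.inl ⟨u, h1, h2, h3, c1⟩)
  rcases le_or_gt 1 (|xc α u| * (R * 2 ^ (D + g))) with c2 | c2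
  · refine Or.inr (Or.inr (Or.inl ⟨(u.1, u.2.2, u.2.1), h1, h2, (mul_comm _ _).trans_lt h3, ?_⟩))
    change |yc β u| ≤ _
    rw [lt_div_iff₀ hT] at h3
    rw [le_div_iff₀ hT]
    have a1 : 0 ≤ |yc β u| * T := by positivity
    nlinarith [mul_le_mul_of_nonneg_right c2 a1, mul_le_mul_of_nonneg_right (h3.le.trans hε1) hP.le]
  obtain ⟨i, hi⟩ := inr hX hN (hXR.trans_lt c1)
  obtain ⟨b1, b2⟩ := bds (by positivity) hi
  refine Or.inr (Or.inr (Or.inr ⟨i, ?_, ?_, (split hi).imp (fun h => ⟨u, hu, c, h2, h, h3⟩)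
    fun h => ⟨u, hu, c, h2, h, h3⟩⟩))
  · have a1 := (div_lt_iff₀ hT).1 (c1.trans_le b2)
    refine le_of_mul_le_mul_right ?_ (by positivity : (0 : ℝ) < 2 ^ (D + g))
    linarith
  · rw [add_mul, one_mul, pow_add]
    linarith [mul_le_mul_of_nonneg_right b1 hP.le]

end Pool.Agent.P.MP_e45b92_nt.UG
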