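import Pool.Agent.P.MP_e45b92_nt.UG.IfaceB

/-! Step CROSS. -/

set_option autoImplicit false

namespace Pool.Agent.P.MP_e45b92_nt.UG

open MeasureTheory Set

namespace CROSSx

theorem bez {v : V3} (h : Prim v) : ∃ a b c : ℤ, a * v.1 + b * v.2.1 + c * v.2.2 = 1 := by
  unfold Prim at h
  have h1 := Int.gcd_eq_gcd_ab v.1 (Int.gcd v.2.1 v.2.2)
  have h2 := Int.gcd_eq_gcd_ab v.2.1 v.2.2
  rw [h] at h1
  refine ⟨Int.gcdA v.1 (Int.gcd v.2.1 v.2.2),
    Int.gcdA v.2.1 v.2.2 * Int.gcdB v.1 (Int.gcd v.2.1 v.2.2),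
    Int.gcdB v.2.1 v.2.2 * Int.gcdB v.1 (Int.gcd v.2.1 v.2.2), ?_⟩
  push_cast at h1
  linear_combination -h1 - Int.gcdB v.1 (Int.gcd v.2.1 v.2.2) * h2

theorem par {v : V3} (h : Prim v) {x y z : ℤ} (h1 : v.2.1 * z - v.2.2 * y = 0)
    (h2 : v.2.2 * x - v.1 * z = 0) (h3 : v.1 * y - v.2.1 * x = 0) :
    ∃ k : ℤ, x = k * v.1 ∧ y = k * v.2.1 ∧ z = k * v.2.2 := by
  obtain ⟨a, b, c, e⟩ := bez h
  refine ⟨a * x + b * y + c * z, ?_, ?_, ?_⟩
  · linear_combination -x * e - b * h3 + c * h2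
  · linear_combination -y * e + a * h3 - c * h1
  · linear_combination -z * e - a * h2 + b * h1

end CROSSx

open CROSSx in
theorem p_CROSS : S_CROSS := by
  refine ⟨?_, ?_, ?_, ?_⟩
  · intro v u u' hv hu hu'
    simp only [dot] at hu hu'
    obtain ⟨k, e1, e2, e3⟩ := par hv (x := (crs u u').1) (y := (crs u u').2.1)
      (z := (crs u u').2.2)
      (by simp only [crs]; linear_combination u.1 * hu' - u'.1 * hu)
      (by simp only [crs]; linear_combination u.2.1 * hu' - u'.2.1 * hu)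
      (by simp only [crs]; linear_combination u.2.2 * hu' - u'.2.2 * hu)
    exact ⟨k, Prod.ext e1 (Prod.ext e2 e3)⟩
  · intro v w hv hw hv0 hw0 h
    have h1 : v.2.1 * w.2.2 - v.2.2 * w.2.1 = 0 := congrArg (fun t : V3 => t.1) h
    have h2 : v.2.2 * w.1 - v.1 * w.2.2 = 0 := congrArg (fun t : V3 => t.2.1) h
    have h3 : v.1 * w.2.1 - v.2.1 * w.1 = 0 := congrArg (fun t : V3 => t.2.2) h
    obtain ⟨k, e1, e2, e3⟩ := par hv h1 h2 h3
    obtain ⟨a, b, c, e⟩ := bez hw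
    have hk : k * (a * v.1 + b * v.2.1 + c * v.2.2) = 1 := by
      rw [e1, e2, e3] at e
      linear_combination e
    have hk0 : 0 < k := by
      rw [e1] at hw0
      exact (mul_pos_iff_of_pos_right hv0).1 hw0
    have hk1 : k = 1 := Int.eq_one_of_mul_eq_one_right hk0.le hk
    rw [hk1, one_mul] at e1 e2 e3
    exact Prod.ext e1.symm (Prod.ext e2.symm e3.symm)
  · intro ξ hξ
    obtain ⟨x, y, z⟩ := ξ
    have hpos : 0 < Int.gcd x (Int.gcd y z) := by
      rcases Nat.eq_zero_or_pos (Int.gcd x (Int.gcd y z)) with h0 | h0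
      · exfalso
        rw [Int.gcd_eq_zero_iff] at h0
        obtain ⟨hx, hyz⟩ := h0
        have hyz' : Int.gcd y z = 0 := by exact_mod_cast hyz
        rw [Int.gcd_eq_zero_iff] at hyz'
        exact hξ (by rw [hx, hyz'.1, hyz'.2]; rfl)
      · exact h0
    obtain ⟨x', hx⟩ : ((Int.gcd x (Int.gcd y z) : ℕ) : ℤ) ∣ x := Int.gcd_dvd_left _ _
    obtain ⟨y', hy⟩ : ((Int.gcd x (Int.gcd y z) : ℕ) : ℤ) ∣ y :=
      (Int.gcd_dvd_right _ _).trans (Int.gcd_dvd_left _ _)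
    obtain ⟨z', hz⟩ : ((Int.gcd x (Int.gcd y z) : ℕ) : ℤ) ∣ z :=
      (Int.gcd_dvd_right _ _).trans (Int.gcd_dvd_right _ _)
    generalize hg : Int.gcd x (Int.gcd y z) = g at hpos hx hy hz
    refine ⟨g, (x', y', z'), by exact_mod_cast hpos, ?_, Prod.ext hx (Prod.ext hy hz)⟩
    unfold Prim
    rw [hx, hy, hz, Int.gcd_mul_left, Nat.cast_mul, Int.natCast_natAbs, Nat.abs_cast,
      Int.gcd_mul_left, Int.natAbs_natCast] at hg
    exact Nat.eq_of_mul_eq_mul_left hpos (by rw [mul_one]; exact hg)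
  · intro v w w' hv h0 h
    have h2 : v.2.2 * w.1 - v.1 * w.2.2 = v.2.2 * w'.1 - v.1 * w'.2.2 :=
      congrArg (fun t : ℤ × ℤ => t.1) h
    have h3 : v.1 * w.2.1 - v.2.1 * w.1 = v.1 * w'.2.1 - v.2.1 * w'.1 :=
      congrArg (fun t : ℤ × ℤ => t.2) h
    have h1 : v.2.1 * (w'.2.2 - w.2.2) - v.2.2 * (w'.2.1 - w.2.1) = 0 := by
      apply mul_left_cancel₀ h0
      linear_combination v.2.1 * h2 + v.2.2 * h3
    obtain ⟨k, e1, e2, e3⟩ := par hv (x := w'.1 - w.1) h1 (by linear_combination -h2)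
      (by linear_combination -h3)
    refine ⟨k, Prod.ext ?_ (Prod.ext ?_ ?_)⟩
    · show w'.1 = w.1 + k * v.1
      linear_combination e1
    · show w'.2.1 = w.2.1 + k * v.2.1
      linear_combination e2
    · show w'.2.2 = w.2.2 + k * v.2.2
      linear_combination e3

end Pool.Agent.P.MP_e45b92_nt.UG
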