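import Pool.Agent.P.MP_e45b92_nt.UG.IfaceB

/-! Step DV. -/

set_option autoImplicit false

namespace Pool.Agent.P.MP_e45b92_nt.UG

open MeasureTheory Set

namespace DVx

theorem pos_of_mem {b₁ b₀ : ℝ} (h : 0 ≤ b₁) {B : ℤ} (hB : B ∈ Finset.Ioc ⌊b₁⌋ ⌊b₀⌋) :
    (0 : ℝ) ≤ B := by
  have := (Finset.mem_Ioc.1 hB).1
  have h2 : 0 ≤ ⌊b₁⌋ := Int.floor_nonneg.2 h
  exact_mod_cast (by omega : 0 ≤ B)

theorem Psi_nonneg {α β W ℓ a₀ b₁ b₀ w₀ : ℝ} (hW : 0 ≤ W) (hl : 0 ≤ ℓ) (hw : 0 ≤ w₀)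
    (hb : 0 ≤ b₁) : 0 ≤ Psi α β W ℓ a₀ b₁ b₀ w₀ := by
  refine Finset.sum_nonneg fun A _ => Finset.sum_nonneg fun B hB => ?_
  have h0 := pos_of_mem hb hB
  exact mul_nonneg (by positivity) (cnt_nonneg (by positivity))

theorem Psi_bdd {W ℓ a₀ b₁ b₀ w₀ : ℝ} (hW : 0 ≤ W) (hl : 0 ≤ ℓ) (hw : 0 ≤ w₀) (hb : 0 ≤ b₁) :
    ∃ C : ℝ, ∀ α β : ℝ, |Psi α β W ℓ a₀ b₁ b₀ w₀| ≤ C := by
  refine ⟨∑ _A ∈ Finset.Icc (-⌊a₀⌋) ⌊a₀⌋, ∑ B ∈ Finset.Ioc ⌊b₁⌋ ⌊b₀⌋,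
    (1 + W / B) * (2 * (w₀ + B * ℓ) + 1), fun α β => ?_⟩
  rw [abs_of_nonneg (Psi_nonneg hW hl hw hb)]
  refine Finset.sum_le_sum fun A _ => Finset.sum_le_sum fun B hB => ?_
  have h0 := pos_of_mem hb hB
  exact mul_le_mul_of_nonneg_left cnt_le (by positivity)

theorem Psi_split {α β W ℓ a₀ b₁ b₀ w₀ : ℝ} (h0 : 0 ≤ b₁) (h1 : b₁ ≤ b₀) :
    Psi α β W ℓ a₀ 0 b₀ w₀ = Psi α β W ℓ a₀ 0 b₁ w₀ + Psi α β W ℓ a₀ b₁ b₀ w₀ := by
  unfold Psi
  rw [← Finset.sum_add_distrib]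
  refine Finset.sum_congr rfl fun A _ => ?_
  rw [← Finset.Ioc_union_Ioc_eq_Ioc (Int.floor_mono h0) (Int.floor_mono h1),
    Finset.sum_union (Finset.Ioc_disjoint_Ioc_of_le le_rfl)]

end DVx

theorem p_DV (hDVS : S_DVS) (hDVB : S_DVB) : S_DV := by
  intro T U ℓ ε A B θ Λ t hT hU hl hε hA hB hθ hθ1 hΛ hlog hUA hAU hAθ hN
  have hT0 : 0 < T := by linarith
  have hA0 : 0 < A := by linarith
  have hB0 : 0 < B := by linarith
  set N : ℝ := U * T ^ 2 * ℓ with hNdef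
  have hN0 : 0 < N := by positivity
  set P : ℝ := 2 ^ t with hP
  have hP0 : 0 < P := by positivity
  have hA2 : A ≤ A ^ 2 := by nlinarith
  have hA3 : A ^ 2 ≤ A ^ 3 := by nlinarith
  have hε1 : ε ≤ 1 := by
    have : 1 ≤ A ^ 3 := one_le_pow₀ hA
    nlinarith
  have hPL : P * (1 + Λ) ≤ N / B := by rw [le_div_iff₀ hB0]; exact hN
  have hPB : P ≤ N / B := by nlinarith
  have hNB : N / B ≤ N := div_le_self hN0.le hB
  have hNB0 : 0 < N / B := by positivity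
  have ha : 1 ≤ A * ε / U := by rw [le_div_iff₀ hU]; linarith
  have hb0T : A * T * U ≤ T := by nlinarith
  have hb10 : U * T / B ≤ A * T * U := by
    have h1 : U * T / B ≤ U * T := div_le_self (by positivity) hB
    have h2 : 0 < U * T := by positivity
    nlinarith
  have hb1 : 0 < U * T / B := by positivity
  have hl0 : Real.log (A * T * U) ≤ Λ :=
    (Real.log_le_log (by positivity) hb0T).trans hlog
  have hl1 : Real.log (U * T / B) ≤ Λ :=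
    (Real.log_le_log hb1 (hb10.trans hb0T)).trans hlog
  have hW : 0 ≤ 24 * U * T := by positivity
  have hw : 0 ≤ 3 * A * ε * P / T := by positivity
  obtain ⟨m1, m2⟩ := hDVS (24 * U * T) ℓ (A * ε / U) 0 (U * T / B) (3 * A * ε * P / T) Λ hW hl.le
    hw ha le_rfl hb1.le hΛ hl1
  obtain ⟨-, m3⟩ := hDVS (24 * U * T) ℓ (A * ε / U) (U * T / B) (A * T * U) (3 * A * ε * P / T) Λ
    hW hl.le hw ha hb1.le (by positivity) hΛ hl0
  have m4 := hDVB (24 * U * T) ℓ (A * ε / U) (U * T / B) (A * T * U) (3 * A * ε * P / T) Λ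
    hW hl.le hw ha hb1 hb10 hΛ hl0
  have k0 : 0 < A ^ 3 * ε := by positivity
  have k1 : A * ε ≤ A ^ 3 * ε := mul_le_mul_of_nonneg_right (hA2.trans hA3) hε.le
  have k2 : A ^ 2 * ε ≤ A ^ 3 * ε := mul_le_mul_of_nonneg_right hA3 hε.le
  have k3 : A ^ 2 * ε ^ 2 ≤ A ^ 3 * ε := by
    have : A ^ 2 * ε * ε ≤ A ^ 3 * ε * 1 := mul_le_mul k2 hε1 hε.le k0.le
    nlinarith
  have k4 : A ^ 3 * ε ^ 2 ≤ A ^ 3 * ε := by
    have : A ^ 3 * ε * ε ≤ A ^ 3 * ε * 1 := mul_le_mul_of_nonneg_left hε1 k0.le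
    nlinarith
  have n2 : pmean (24 * U * T) ℓ (A * ε / U) 0 (U * T / B) (3 * A * ε * P / T) ≤
      θ / 4 * (N / B) := by
    refine m2.trans ?_
    have e : 6 * (A * ε / U) * (3 * A * ε * P / T * (U * T / B) + (U * T / B) ^ 2 * ℓ +
        24 * U * T * (3 * A * ε * P / T) * (1 + Λ) + 24 * U * T * ℓ * (U * T / B)) =
        18 * (A ^ 2 * ε ^ 2 * (P / B)) + 6 * (A * ε * (N / B / B)) +
        432 * (A ^ 2 * ε ^ 2 * (P * (1 + Λ))) + 144 * (A * ε * (N / B)) := by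
      rw [hNdef]; field_simp; ring
    rw [e]
    have t1 : A ^ 2 * ε ^ 2 * (P / B) ≤ A ^ 3 * ε * (N / B) :=
      mul_le_mul k3 ((div_le_self hP0.le hB).trans hPB) (by positivity) k0.le
    have t2 : A * ε * (N / B / B) ≤ A ^ 3 * ε * (N / B) :=
      mul_le_mul k1 (div_le_self hNB0.le hB) (by positivity) k0.le
    have t3 : A ^ 2 * ε ^ 2 * (P * (1 + Λ)) ≤ A ^ 3 * ε * (N / B) :=
      mul_le_mul k3 hPL (by positivity) k0.le
    have t4 : A * ε * (N / B) ≤ A ^ 3 * ε * (N / B) := mul_le_mul_of_nonneg_right k1 hNB0.le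
    have t5 : 2400 * A ^ 3 * ε * (N / B) ≤ θ * (N / B) := mul_le_mul_of_nonneg_right hAθ hNB0.le
    nlinarith
  have n3 : pmean (24 * U * T) ℓ (A * ε / U) (U * T / B) (A * T * U) (3 * A * ε * P / T) ≤
      θ / 4 * N := by
    refine m3.trans ?_
    have e : 6 * (A * ε / U) * (3 * A * ε * P / T * (A * T * U) + (A * T * U) ^ 2 * ℓ +
        24 * U * T * (3 * A * ε * P / T) * (1 + Λ) + 24 * U * T * ℓ * (A * T * U)) =
        18 * (A ^ 3 * ε ^ 2 * P) + 6 * (A ^ 3 * ε * N) +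
        432 * (A ^ 2 * ε ^ 2 * (P * (1 + Λ))) + 144 * (A ^ 2 * ε * N) := by
      rw [hNdef]; field_simp; ring
    rw [e]
    have t1 : A ^ 3 * ε ^ 2 * P ≤ A ^ 3 * ε * N :=
      mul_le_mul k4 (hPB.trans hNB) (by positivity) k0.le
    have t3 : A ^ 2 * ε ^ 2 * (P * (1 + Λ)) ≤ A ^ 3 * ε * N :=
      mul_le_mul k3 (hPL.trans hNB) (by positivity) k0.le
    have t4 : A ^ 2 * ε * N ≤ A ^ 3 * ε * N := mul_le_mul_of_nonneg_right k2 hN0.le
    have t5 : 2400 * A ^ 3 * ε * N ≤ θ * N := mul_le_mul_of_nonneg_right hAθ hN0.le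
    nlinarith
  have n4 : (1 + 24 * U * T / (U * T / B)) ^ 2 * (2 * (3 * A * ε * P / T + A * T * U * ℓ)) *
      (3 * (A * ε / U)) * ((A * T * U) ^ 2 * (1 + Λ)) / (U * T / B) ≤
      15000 * (A ^ 3 * ε) * (B ^ 3 * A * N * (1 + Λ)) := by
    have e : (1 + 24 * U * T / (U * T / B)) ^ 2 * (2 * (3 * A * ε * P / T + A * T * U * ℓ)) *
        (3 * (A * ε / U)) * ((A * T * U) ^ 2 * (1 + Λ)) / (U * T / B) =
        (1 + 24 * B) ^ 2 * (3 * (ε * P) + N) * (6 * A ^ 4 * ε * B * (1 + Λ)) := by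
      rw [hNdef]; field_simp; ring
    rw [e]
    have t1 : (1 + 24 * B) ^ 2 ≤ (25 * B) ^ 2 := by gcongr; linarith
    have t2 : 3 * (ε * P) + N ≤ 4 * N := by
      have : ε * P ≤ 1 * N := mul_le_mul hε1 (hPB.trans hNB) hP0.le zero_le_one
      linarith
    calc _ ≤ (25 * B) ^ 2 * (4 * N) * (6 * A ^ 4 * ε * B * (1 + Λ)) := by gcongr
      _ = _ := by ring
  set f₁ : ℝ × ℝ → ℝ := fun z =>
    Psi z.1 z.2 (24 * U * T) ℓ (A * ε / U) 0 (U * T / B) (3 * A * ε * P / T) with hf₁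
  set f₂ : ℝ × ℝ → ℝ := fun z =>
    Psi z.1 z.2 (24 * U * T) ℓ (A * ε / U) (U * T / B) (A * T * U) (3 * A * ε * P / T) -
      pmean (24 * U * T) ℓ (A * ε / U) (U * T / B) (A * T * U) (3 * A * ε * P / T) with hf₂
  have hsub : {z : ℝ × ℝ | θ * N ≤ Psi z.1 z.2 (24 * U * T) ℓ (A * ε / U) 0 (A * T * U)
      (3 * A * ε * P / T)} ⊆ {z | θ * N / 2 ≤ f₁ z} ∪ {z | θ * N / 4 ≤ |f₂ z|} := by
    intro z hz
    simp only [mem_ofPred_eq, mem_union] at hz ⊢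
    rw [DVx.Psi_split hb1.le hb10] at hz
    by_contra hc
    push Not at hc
    have h1 := le_abs_self (f₂ z)
    simp only [hf₁, hf₂] at hc h1
    linarith [hc.1, hc.2]
  obtain ⟨C₁, hC₁⟩ := DVx.Psi_bdd (a₀ := A * ε / U) (b₀ := U * T / B) hW hl.le hw le_rfl
  obtain ⟨C₂, hC₂⟩ := DVx.Psi_bdd (a₀ := A * ε / U) (b₀ := A * T * U) hW hl.le hw hb1.le
  have i1 : Integrable f₁ μ2 := integrable_of_bdd (measurable_Psi _ _ _ _ _ _) C₁ fun z => hC₁ _ _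
  have i2 : Integrable (fun z => f₂ z ^ 2) μ2 := by
    refine integrable_of_bdd (((measurable_Psi _ _ _ _ _ _).sub_const _).pow_const 2)
      ((C₂ + |pmean (24 * U * T) ℓ (A * ε / U) (U * T / B) (A * T * U) (3 * A * ε * P / T)|) ^ 2)
      fun z => ?_
    rw [abs_pow]
    refine pow_le_pow_left₀ (abs_nonneg _) ((abs_sub _ _).trans ?_) 2
    linarith [hC₂ z.1 z.2]
  have hθN : 0 < θ * N := by positivity
  have p1 := markov (μ := μ2) (f := f₁)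
    (Filter.Eventually.of_forall fun z => DVx.Psi_nonneg hW hl.le hw le_rfl) i1
    (u := θ * N / 2) (by positivity)
  have p2 := cheb (μ := μ2) (f := f₂) i2 (u := θ * N / 4) (by positivity)
  have q1 : (∫ z, f₁ z ∂μ2) / (θ * N / 2) ≤ 1 / B := by
    rw [div_le_iff₀ (by positivity), hf₁, m1]
    refine n2.trans ?_
    have e : 1 / B * (θ * N / 2) = θ / 2 * (N / B) := by ring
    rw [e]
    exact mul_le_mul_of_nonneg_right (by linarith) hNB0.le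
  have q2 : (∫ z, f₂ z ^ 2 ∂μ2) / (θ * N / 4) ^ 2 ≤ 100 * B ^ 3 * A * (1 + Λ) / (θ * N) := by
    rw [div_le_iff₀ (by positivity), hf₂]
    refine (m4.trans n4).trans ?_
    have e : 100 * B ^ 3 * A * (1 + Λ) / (θ * N) * (θ * N / 4) ^ 2 =
        25 / 4 * θ * (B ^ 3 * A * N * (1 + Λ)) := by field_simp; ring
    rw [e]
    exact mul_le_mul_of_nonneg_right (by linarith) (by positivity)
  calc _ ≤ μ2.real ({z | θ * N / 2 ≤ f₁ z} ∪ {z | θ * N / 4 ≤ |f₂ z|}) :=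
        measureReal_mono hsub (measure_ne_top _ _)
    _ ≤ μ2.real {z | θ * N / 2 ≤ f₁ z} + μ2.real {z | θ * N / 4 ≤ |f₂ z|} :=
        measureReal_union_le _ _
    _ ≤ _ := add_le_add (p1.trans q1) (p2.trans q2)

end Pool.Agent.P.MP_e45b92_nt.UG
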