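import Pool.Agent.P.MP_e45b92_nt.UG.IfaceB
import Pool.Agent.P.MP_e45b92_nt.UG.IfaceA

/-! Step DVB. -/

set_option autoImplicit false

namespace Pool.Agent.P.MP_e45b92_nt.UG

open MeasureTheory Set

namespace DVBx

theorem expand {ι : Type} (I : Finset ι) (c lam : ι → ℝ) (f : ι → ℝ × ℝ → ℝ)
    (h1 : ∀ i ∈ I, Integrable (f i) μ2)
    (h2 : ∀ i ∈ I, ∀ j ∈ I, Integrable (fun z => f i z * f j z) μ2)
    (h3 : ∀ i ∈ I, ∫ z, f i z ∂μ2 = lam i) :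
    ∫ z, (∑ i ∈ I, c i * f i z - ∑ i ∈ I, c i * lam i) ^ 2 ∂μ2 =
      ∑ i ∈ I, ∑ j ∈ I, c i * c j * (∫ z, f i z * f j z ∂μ2 - lam i * lam j) := by
  have e : ∀ z, (∑ i ∈ I, c i * f i z - ∑ i ∈ I, c i * lam i) ^ 2 =
      ∑ i ∈ I, ∑ j ∈ I, c i * c j *
        (f i z * f j z - lam j * f i z - lam i * f j z + lam i * lam j) := by
    intro z
    rw [← Finset.sum_sub_distrib, sq, Finset.sum_mul_sum]
    exact Finset.sum_congr rfl fun i _ => Finset.sum_congr rfl fun j _ => by ring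
  have k : ∀ i ∈ I, ∀ j ∈ I, Integrable (fun z => c i * c j *
      (f i z * f j z - lam j * f i z - lam i * f j z + lam i * lam j)) μ2 := fun i hi j hj =>
    ((((h2 i hi j hj).sub ((h1 i hi).const_mul _)).sub ((h1 j hj).const_mul _)).add
      (integrable_const _)).const_mul _
  simp only [e]
  rw [integral_finsetSum _ fun i hi => integrable_finsetSum _ fun j hj => k i hi j hj]
  refine Finset.sum_congr rfl fun i hi => ?_
  rw [integral_finsetSum _ fun j hj => k i hi j hj]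
  refine Finset.sum_congr rfl fun j hj => ?_
  have a1 : Integrable (fun z => lam j * f i z) μ2 := (h1 i hi).const_mul _
  have a2 : Integrable (fun z => lam i * f j z) μ2 := (h1 j hj).const_mul _
  have a3 : Integrable (fun z => f i z * f j z - lam j * f i z) μ2 := (h2 i hi j hj).sub a1
  have a4 : Integrable (fun z => f i z * f j z - lam j * f i z - lam i * f j z) μ2 := a3.sub a2
  rw [integral_const_mul, integral_add a4 (integrable_const _), integral_sub a3 a2,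
    integral_sub (h2 i hi j hj) a1, integral_const_mul, integral_const_mul, h3 i hi, h3 j hj]
  simp only [integral_const, probReal_univ, smul_eq_mul, one_mul]
  ring

theorem meas (A B : ℤ) (s l : ℝ) :
    Measurable fun z : ℝ × ℝ => cnt s l (A * z.1 + B * z.2) :=
  (measurable_cnt _ _).comp (by fun_prop)

theorem int1 (A B : ℤ) (s l : ℝ) (hl : 0 ≤ l) :
    Integrable (fun z : ℝ × ℝ => cnt s l (A * z.1 + B * z.2)) μ2 :=
  integrable_of_bdd (meas A B s l) (l + 1) fun _ => abs_cnt_le hl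

theorem int2 (A B A' B' : ℤ) (s l s' l' : ℝ) (hl : 0 ≤ l) (hl' : 0 ≤ l') :
    Integrable (fun z : ℝ × ℝ =>
      cnt s l (A * z.1 + B * z.2) * cnt s' l' (A' * z.1 + B' * z.2)) μ2 :=
  integrable_of_bdd ((meas A B s l).mul (meas A' B' s' l')) ((l + 1) * (l' + 1)) fun _ => by
    rw [abs_mul]
    exact mul_le_mul (abs_cnt_le hl) (abs_cnt_le hl') (abs_nonneg _) (by linarith)

theorem par (hOV : S_OV) (A B A' B' : ℤ) (s l s' l' : ℝ) (hB : 1 ≤ B) (hB' : 1 ≤ B')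
    (hl : 0 ≤ l) (hl' : 0 ≤ l') :
    ∫ z, cnt s l (A * z.1 + B * z.2) * cnt s' l' (A' * z.1 + B' * z.2) ∂μ2 ≤
      l * l' + l' * (Int.gcd B B' : ℝ) / B' := by
  have hi := int2 A B A' B' s l s' l' hl hl'
  unfold μ2 at hi ⊢
  rw [integral_prod _ hi]
  have h := integral_mono (μ := μ1) hi.integral_prod_left
    (integrable_const (l * l' + l' * (Int.gcd B B' : ℝ) / B')) fun x => by
      have e : ∀ y : ℝ, cnt s l (A * x + B * y) * cnt s' l' (A' * x + B' * y) =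
          cnt (s - A * x) l (B * y) * cnt (s' - A' * x) l' (B' * y) := fun y => by
        rw [add_comm (A * x), add_comm (A' * x), cnt_add, cnt_add]
      simp only [e]
      exact hOV B B' _ l _ l' hB hB' hl hl'
  simpa using h

theorem one_par (S : Finset ℤ) (A B B' : ℤ) (hB : B ≠ 0) (g : ℝ) (hg : 0 ≤ g) :
    ∑ A' ∈ S, (if A * B' = A' * B then g else 0) ≤ g := by
  rw [← Finset.sum_filter, Finset.sum_const, nsmul_eq_mul]
  have : (S.filter fun A' => A * B' = A' * B).card ≤ 1 := by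
    refine Finset.card_le_one.2 fun a ha b hb => ?_
    have h1 := (Finset.mem_filter.1 ha).2
    have h2 := (Finset.mem_filter.1 hb).2
    exact mul_right_cancel₀ hB (h1.symm.trans h2)
  have h : ((S.filter fun A' => A * B' = A' * B).card : ℝ) ≤ 1 := by exact_mod_cast this
  nlinarith

end DVBx

theorem p_DVB (hOV : S_OV) (hM2 : S_M2) (hIND : S_IND) (hGS : S_GS) : S_DVB := by
  intro W ℓ a₀ b₁ b₀ w₀ Λ hW hℓ hw ha hb1 hb hΛ hlog
  set SA : Finset ℤ := Finset.Icc (-⌊a₀⌋) ⌊a₀⌋ with hSA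
  set SB : Finset ℤ := Finset.Ioc ⌊b₁⌋ ⌊b₀⌋ with hSB
  have hmem : ∀ B ∈ SB, 1 ≤ B ∧ b₁ < B ∧ (B : ℝ) ≤ b₀ := fun B hB => by
    have h := Finset.mem_Ioc.1 hB
    have h0 : 0 ≤ ⌊b₁⌋ := Int.floor_nonneg.2 hb1.le
    exact ⟨by omega, Int.floor_lt.1 h.1, Int.le_floor.1 h.2⟩
  have hI : ∀ i ∈ SA ×ˢ SB, 1 ≤ i.2 ∧ b₁ < i.2 ∧ (i.2 : ℝ) ≤ b₀ := fun i hi =>
    hmem i.2 (Finset.mem_product.1 hi).2
  have hlam : ∀ i ∈ SA ×ˢ SB, 0 ≤ 2 * (w₀ + i.2 * ℓ) := fun i hi => by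
    have : (0 : ℝ) < i.2 := hb1.trans (hI i hi).2.1
    positivity
  have key := DVBx.expand (SA ×ˢ SB) (fun i => 1 + W / i.2) (fun i => 2 * (w₀ + i.2 * ℓ))
    (fun i z => cnt (-(w₀ + i.2 * ℓ)) (2 * (w₀ + i.2 * ℓ)) (i.1 * z.1 + i.2 * z.2))
    (fun i hi => DVBx.int1 _ _ _ _ (hlam i hi))
    (fun i hi j hj => DVBx.int2 _ _ _ _ _ _ _ _ (hlam i hi) (hlam j hj))
    (fun i hi => hM2 _ _ _ _ (by have := (hI i hi).1; omega) (hlam i hi))
  have e1 : ∀ z : ℝ × ℝ, Psi z.1 z.2 W ℓ a₀ b₁ b₀ w₀ = ∑ i ∈ SA ×ˢ SB, (1 + W / i.2) *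
      cnt (-(w₀ + i.2 * ℓ)) (2 * (w₀ + i.2 * ℓ)) (i.1 * z.1 + i.2 * z.2) := fun z => by
    rw [Finset.sum_product]; rfl
  have e2 : pmean W ℓ a₀ b₁ b₀ w₀ =
      ∑ i ∈ SA ×ˢ SB, (1 + W / i.2) * (2 * (w₀ + i.2 * ℓ)) := by
    rw [Finset.sum_product]; rfl
  simp only [e1, e2]
  rw [key]
  set M : ℝ := (1 + W / b₁) ^ 2 * (2 * (w₀ + b₀ * ℓ)) / b₁ with hM
  have hb0 : 0 < b₀ := hb1.trans_le hb
  have hM0 : 0 ≤ M := by positivity
  have hc : ∀ i ∈ SA ×ˢ SB, 0 ≤ 1 + W / i.2 ∧ 1 + W / i.2 ≤ 1 + W / b₁ := fun i hi => by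
    have h := (hI i hi).2.1
    have : (0 : ℝ) < i.2 := hb1.trans h
    exact ⟨by positivity, by gcongr⟩
  have pair : ∀ i ∈ SA ×ˢ SB, ∀ j ∈ SA ×ˢ SB, (1 + W / i.2) * (1 + W / j.2) *
      (∫ z, cnt (-(w₀ + i.2 * ℓ)) (2 * (w₀ + i.2 * ℓ)) (i.1 * z.1 + i.2 * z.2) *
        cnt (-(w₀ + j.2 * ℓ)) (2 * (w₀ + j.2 * ℓ)) (j.1 * z.1 + j.2 * z.2) ∂μ2 -
        2 * (w₀ + i.2 * ℓ) * (2 * (w₀ + j.2 * ℓ))) ≤
      if i.1 * j.2 = j.1 * i.2 then M * (Int.gcd i.2 j.2 : ℝ) else 0 := by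
    intro i hi j hj
    have hcc : 0 ≤ (1 + W / i.2) * (1 + W / j.2) := mul_nonneg (hc i hi).1 (hc j hj).1
    split_ifs with hp
    · have h := DVBx.par hOV i.1 i.2 j.1 j.2 (-(w₀ + i.2 * ℓ)) _ (-(w₀ + j.2 * ℓ)) _
        (hI i hi).1 (hI j hj).1 (hlam i hi) (hlam j hj)
      have h2 : 2 * (w₀ + j.2 * ℓ) * (Int.gcd i.2 j.2 : ℝ) / j.2 ≤
          2 * (w₀ + b₀ * ℓ) * (Int.gcd i.2 j.2 : ℝ) / b₁ := by
        have := (hI j hj).2.1.le
        have := (hI j hj).2.2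
        gcongr
      have h3 : (1 + W / i.2) * (1 + W / j.2) ≤ (1 + W / b₁) ^ 2 := by
        rw [sq]; exact mul_le_mul (hc i hi).2 (hc j hj).2 (hc j hj).1 (by positivity)
      refine (mul_le_mul_of_nonneg_left (b := _)
        (c := 2 * (w₀ + b₀ * ℓ) * (Int.gcd i.2 j.2 : ℝ) / b₁) (by linarith) hcc).trans ?_
      refine (mul_le_mul_of_nonneg_right h3 (by positivity)).trans (le_of_eq ?_)
      rw [hM]; ring
    · have h := hIND i.1 i.2 j.1 j.2 (-(w₀ + i.2 * ℓ)) _ (-(w₀ + j.2 * ℓ)) _ hp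
        (by have := (hI j hj).1; omega) (hlam i hi) (hlam j hj)
      exact mul_nonpos_of_nonneg_of_nonpos hcc (by linarith)
  refine (Finset.sum_le_sum fun i hi => Finset.sum_le_sum fun j hj => pair i hi j hj).trans ?_
  have inner : ∀ i ∈ SA ×ˢ SB,
      ∑ j ∈ SA ×ˢ SB, (if i.1 * j.2 = j.1 * i.2 then M * (Int.gcd i.2 j.2 : ℝ) else 0) ≤
        ∑ B' ∈ SB, M * (Int.gcd i.2 B' : ℝ) := fun i hi => by
    rw [Finset.sum_product_right]
    exact Finset.sum_le_sum fun B' _ =>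
      DVBx.one_par SA i.1 i.2 B' (by have := (hI i hi).1; omega) (M * (Int.gcd i.2 B' : ℝ))
        (by positivity)
  refine (Finset.sum_le_sum inner).trans ?_
  rw [Finset.sum_product]
  simp only [Finset.sum_const, nsmul_eq_mul, ← Finset.mul_sum]
  have hsub : SB ⊆ Finset.Ioc 0 ⌊b₀⌋ :=
    Finset.Ioc_subset_Ioc_left (Int.floor_nonneg.2 hb1.le)
  have hg : ∑ B ∈ SB, ∑ B' ∈ SB, (Int.gcd B B' : ℝ) ≤ b₀ ^ 2 * (1 + Λ) := by
    refine le_trans ?_ (hGS b₀ Λ hb0.le hΛ hlog).1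
    refine (Finset.sum_le_sum fun B _ => Finset.sum_le_sum_of_subset_of_nonneg hsub
      fun _ _ _ => by positivity).trans ?_
    exact Finset.sum_le_sum_of_subset_of_nonneg hsub fun _ _ _ => by positivity
  have hcard : (SA.card : ℝ) ≤ 3 * a₀ := by
    have h0 : 0 ≤ ⌊a₀⌋ := Int.floor_nonneg.2 (by linarith)
    have h1 : (SA.card : ℤ) = 2 * ⌊a₀⌋ + 1 := by
      rw [hSA, Int.card_Icc, Int.toNat_of_nonneg (by omega)]; ring
    have h2 : (SA.card : ℝ) = 2 * ⌊a₀⌋ + 1 := by exact_mod_cast h1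
    linarith [Int.floor_le a₀]
  calc (SA.card : ℝ) * (M * ∑ B ∈ SB, ∑ B' ∈ SB, (Int.gcd B B' : ℝ))
      ≤ 3 * a₀ * (M * (b₀ ^ 2 * (1 + Λ))) := by gcongr
    _ = _ := by rw [hM]; ring

end Pool.Agent.P.MP_e45b92_nt.UG
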