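import Pool.Agent.P.MP_e45b92_nt.UG.IfaceB
import Pool.Agent.P.MP_e45b92_nt.UG.IfaceA

/-! Step DVS. -/

set_option autoImplicit false

namespace Pool.Agent.P.MP_e45b92_nt.UG

open MeasureTheory Set

namespace DVSx

theorem harm (n : ℕ) : ∑ B ∈ Finset.Ioc (0 : ℤ) n, 1 / (B : ℝ) ≤ 1 + Real.log n := by
  refine le_trans (le_of_eq ?_) (harmonic_le_one_add_log n)
  induction n with
  | zero => simp
  | succ n ih =>
    rw [harmonic_succ, Nat.cast_succ, ← Finset.insert_Ioc_right_eq_Ioc_add_one (by omega),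
      Finset.sum_insert (by simp), ih]
    push_cast
    rw [add_comm, one_div]

end DVSx

theorem p_DVS (hM2 : S_M2) : S_DVS := by
  intro W ℓ a₀ b₁ b₀ w₀ Λ hW hℓ hw ha hb1 hb0 hΛ hl
  have f1 : 0 ≤ ⌊b₁⌋ := Int.floor_nonneg.2 hb1
  have pos : ∀ B ∈ Finset.Ioc ⌊b₁⌋ ⌊b₀⌋, 0 < B := fun B hB => f1.trans_lt (Finset.mem_Ioc.1 hB).1
  constructor
  · have it : ∀ A : ℤ, ∀ B ∈ Finset.Ioc ⌊b₁⌋ ⌊b₀⌋, Integrable (fun z : ℝ × ℝ => (1 + W / B) *
        cnt (-(w₀ + B * ℓ)) (2 * (w₀ + B * ℓ)) (A * z.1 + B * z.2)) μ2 := fun A B hB => by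
      have := pos B hB
      exact (integrable_of_bdd ((measurable_cnt _ _).comp (by fun_prop)) _
        fun z => abs_cnt_le (by positivity)).const_mul _
    simp only [Psi, pmean]
    rw [integral_finsetSum _ fun A _ => integrable_finsetSum _ (it A)]
    refine Finset.sum_congr rfl fun A _ => ?_
    rw [integral_finsetSum _ (it A)]
    refine Finset.sum_congr rfl fun B hB => ?_
    have := pos B hB
    rw [integral_const_mul, hM2 A B _ _ this.ne' (by positivity)]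
  obtain ⟨n, hn⟩ := Int.eq_ofNat_of_zero_le (Int.floor_nonneg.2 hb0)
  obtain ⟨m, hm⟩ := Int.eq_ofNat_of_zero_le (Int.floor_nonneg.2 (zero_le_one.trans ha))
  have n1 : (n : ℝ) ≤ b₀ := by simpa [hn] using Int.floor_le b₀
  have m1 : (m : ℝ) ≤ a₀ := by simpa [hm] using Int.floor_le a₀
  have h1 : ∑ B ∈ Finset.Ioc (0 : ℤ) n, 1 / (B : ℝ) ≤ 1 + Λ := by
    refine (DVSx.harm n).trans (add_le_add_right ?_ 1)
    rcases n.eq_zero_or_pos with rfl | h
    · simpa using hΛ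
    · exact (Real.log_le_log (by exact_mod_cast h) n1).trans hl
  have h2 : ∑ B ∈ Finset.Ioc ⌊b₁⌋ ⌊b₀⌋, (1 + W / B) * (2 * (w₀ + B * ℓ)) ≤
      ∑ B ∈ Finset.Ioc (0 : ℤ) n, (2 * (w₀ + b₀ * ℓ + W * ℓ) + 2 * (W * w₀) * (1 / (B : ℝ))) := by
    rw [← hn]
    refine (Finset.sum_le_sum fun B hB => ?_).trans (Finset.sum_le_sum_of_subset_of_nonneg
      (Finset.Ioc_subset_Ioc_left f1) fun B hB _ => ?_)
    · have B0 : (0 : ℝ) < B := by exact_mod_cast pos B hB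
      have B1 := mul_le_mul_of_nonneg_right (Int.le_floor.1 (Finset.mem_Ioc.1 hB).2) hℓ
      have e : (1 + W / B) * (2 * (w₀ + B * ℓ)) =
          2 * (w₀ + B * ℓ + W * ℓ) + 2 * (W * w₀) * (1 / (B : ℝ)) := by field_simp; ring
      linarith
    · have := (Finset.mem_Ioc.1 hB).1
      positivity
  rw [Finset.sum_add_distrib, ← Finset.mul_sum _ (fun B : ℤ => 1 / (B : ℝ)), Finset.sum_const,
    nsmul_eq_mul, Int.card_Ioc, sub_zero, Int.toNat_natCast] at h2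
  have h3 : (n : ℝ) * (2 * (w₀ + b₀ * ℓ + W * ℓ)) ≤ b₀ * (2 * (w₀ + b₀ * ℓ + W * ℓ)) := by gcongr
  have h4 := mul_le_mul_of_nonneg_left h1 (show 0 ≤ 2 * (W * w₀) by positivity)
  have h5 : ((Finset.Icc (-⌊a₀⌋) ⌊a₀⌋).card : ℝ) ≤ 3 * a₀ := by
    rw [Int.card_Icc, hm, show ((m : ℤ) + 1 - -m).toNat = 2 * m + 1 by omega]
    push_cast
    linarith
  rw [pmean, Finset.sum_const, nsmul_eq_mul]
  refine (mul_le_mul_of_nonneg_left (h2.trans (add_le_add h3 h4)) (Nat.cast_nonneg _)).trans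
    ((mul_le_mul_of_nonneg_right h5 (by positivity)).trans (le_of_eq (by ring)))

end Pool.Agent.P.MP_e45b92_nt.UG
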