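import Pool.Agent.P.MP_e45b92_nt.UG.IfaceC

/-! Step EXC. -/

set_option autoImplicit false

namespace Pool.Agent.P.MP_e45b92_nt.UG

open MeasureTheory Set

theorem p_EXC (hFM : S_FM) : S_EXC := by
  intro h g D t Λ E K k ε hW hk
  have hε := hW.e0
  have hg : 1 ≤ ε * 2 ^ g :=
    le_trans (by exact_mod_cast le_trans (by norm_num) hW.h20) hW.hg
  have hT : 0 < Tk Λ E k := by unfold Tk; positivity
  have hT' : Tk Λ E k ≤ 2 ^ (Λ + K * E) :=
    pow_le_pow_right₀ one_le_two (by gcongr)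
  set T := Tk Λ E k
  have mono : ∀ {α β Q δ u u' : ℝ}, u ≤ u' → Rare α β Q δ u → Rare α β Q δ u' :=
    fun h ⟨v, a, b, c, d⟩ => ⟨v, a, b, c, d.trans h⟩
  have h1 : 1 / 2 ≤ ε / T * 2 ^ (Λ + K * E + g) := by
    rw [div_mul_eq_mul_div, le_div_iff₀ hT, pow_add]
    nlinarith
  have h2 : 2 ^ (3 * g) * 2 ^ (D + g) / T ≤ ε / T * 2 ^ (D + 5 * g) := by
    rw [div_mul_eq_mul_div, ← pow_add, show D + 5 * g = g + (3 * g + (D + g)) by ring, pow_add _ g,
      ← mul_assoc]
    exact div_le_div_of_nonneg_right (le_mul_of_one_le_left (by positivity) hg) hT.le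
  have h3 := hFM (T / 2 ^ t) (ε / T) (Λ + K * E + g) (by positivity) (by positivity)
  have h4 := hFM T (ε / T) (D + 5 * g) hT.le (by positivity)
  have h5 := (μ2_swap _).trans_le h4
  refine (measureReal_mono (fun z hz => hz.imp (mono h1) (Or.imp (mono h2) (mono h2)))).trans
    ((measureReal_union_le _ _).trans ((add_le_add h3 ((measureReal_union_le _ _).trans
      (add_le_add h4 h5))).trans_eq ?_))
  push_cast
  field_simp
  ring

end Pool.Agent.P.MP_e45b92_nt.UG
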