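import Pool.Agent.P.MP_e45b92_nt.UG.IfaceC
import Pool.Agent.P.MP_e45b92_nt.UG.IfaceA

/-! Step FB. -/

set_option autoImplicit false

namespace Pool.Agent.P.MP_e45b92_nt.UG

open MeasureTheory Set

namespace FBx

theorem int1 (q : ℤ) (s : ℝ) {l : ℝ} (hl : 0 ≤ l) :
    Integrable (fun θ : ℝ => cnt s l (q * θ)) μ1 :=
  integrable_of_bdd ((measurable_cnt _ _).comp (by fun_prop)) (l + 1) fun _ => abs_cnt_le hl

theorem step (hOV0 : S_OV0) {Q u w η : ℝ} (hQ : 0 ≤ Q) (hu : 0 ≤ u) (hw : 0 ≤ w) (hη : 0 < η) :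
    μ2.real {z | ∃ v : V3, 1 ≤ v.1 ∧ (v.1 : ℝ) ≤ Q ∧ |xc z.1 v| ≤ u ∧ |yc z.2 v| ≤ w} ≤
      Q * ((2 * u + η) * (2 * w + η)) := by
  have h1 : 0 ≤ 2 * u + η := by linarith
  have h2 : 0 ≤ 2 * w + η := by linarith
  set f : ℝ × ℝ → ℝ := fun z => ∑ q ∈ Finset.Icc (1 : ℤ) ⌊Q⌋,
    cnt (-u) (2 * u + η) (q * z.1) * cnt (-w) (2 * w + η) (q * z.2) with hf
  have hint : ∀ q : ℤ, Integrable (fun z : ℝ × ℝ =>
      cnt (-u) (2 * u + η) (q * z.1) * cnt (-w) (2 * w + η) (q * z.2)) μ2 := fun q =>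
    (int1 q (-u) h1).mul_prod (int1 q (-w) h2)
  have hsub : {z : ℝ × ℝ | ∃ v : V3, 1 ≤ v.1 ∧ (v.1 : ℝ) ≤ Q ∧ |xc z.1 v| ≤ u ∧ |yc z.2 v| ≤ w} ⊆
      {z | 1 ≤ f z} := by
    rintro z ⟨v, hv1, hv2, hx, hy⟩
    rw [abs_le] at hx hy
    simp only [xc, yc] at hx hy
    have a1 : 1 ≤ cnt (-u) (2 * u + η) (v.1 * z.1) :=
      one_le_cnt (n := v.2.1) hx.1 (by linarith [hx.2])
    have a2 : 1 ≤ cnt (-w) (2 * w + η) (v.1 * z.2) :=
      one_le_cnt (n := v.2.2) hy.1 (by linarith [hy.2])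
    have hm : v.1 ∈ Finset.Icc (1 : ℤ) ⌊Q⌋ := Finset.mem_Icc.2 ⟨hv1, Int.le_floor.2 hv2⟩
    have := Finset.single_le_sum (f := fun q : ℤ =>
      cnt (-u) (2 * u + η) (q * z.1) * cnt (-w) (2 * w + η) (q * z.2))
      (fun q _ => mul_nonneg (cnt_nonneg h1) (cnt_nonneg h2)) hm
    exact le_trans (one_le_mul_of_one_le_of_one_le a1 a2) this
  refine (measureReal_mono hsub).trans ?_
  refine (markov (Filter.Eventually.of_forall fun z => Finset.sum_nonneg fun q _ =>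
    mul_nonneg (cnt_nonneg h1) (cnt_nonneg h2)) (integrable_finsetSum _ fun q _ => hint q)
    one_pos).trans ?_
  rw [div_one, integral_finsetSum _ fun q _ => hint q]
  have e : ∀ q ∈ Finset.Icc (1 : ℤ) ⌊Q⌋, ∫ z : ℝ × ℝ,
      cnt (-u) (2 * u + η) (q * z.1) * cnt (-w) (2 * w + η) (q * z.2) ∂μ2 =
        (2 * u + η) * (2 * w + η) := by
    intro q hq
    have hq0 : q ≠ 0 := by have := (Finset.mem_Icc.1 hq).1; omega
    rw [μ2, integral_prod_mul (fun θ : ℝ => cnt (-u) (2 * u + η) (q * θ))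
      (fun θ : ℝ => cnt (-w) (2 * w + η) (q * θ)), hOV0 q _ _ hq0, hOV0 q _ _ hq0]
  rw [Finset.sum_congr rfl e, Finset.sum_const, nsmul_eq_mul, Int.card_Icc]
  refine mul_le_mul_of_nonneg_right ?_ (mul_nonneg h1 h2)
  have h3 : 0 ≤ ⌊Q⌋ := Int.floor_nonneg.2 hQ
  have h4 : (((⌊Q⌋ + 1 - 1).toNat : ℕ) : ℤ) = ⌊Q⌋ := by omega
  have h5 : (((⌊Q⌋ + 1 - 1).toNat : ℕ) : ℝ) = (⌊Q⌋ : ℝ) := by exact_mod_cast h4
  rw [h5]; exact Int.floor_le Q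

end FBx

theorem p_FB (hOV0 : S_OV0) : S_FB := by
  intro Q u w hQ hu hw
  have hc : Continuous fun η : ℝ => Q * ((2 * u + η) * (2 * w + η)) := by fun_prop
  have ht := (hc.tendsto 0).mono_left (nhdsWithin_le_nhds (s := Ioi (0 : ℝ)))
  have e : Q * ((2 * u + 0) * (2 * w + 0)) = 4 * Q * u * w := by ring
  rw [e] at ht
  exact ge_of_tendsto ht (Filter.eventually_of_mem self_mem_nhdsWithin fun η hη =>
    FBx.step hOV0 hQ hu hw hη)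

end Pool.Agent.P.MP_e45b92_nt.UG
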