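import Pool.Agent.P.MP_e45b92_nt.UG.IfaceC

/-! Step FINAL. -/

set_option autoImplicit false

namespace Pool.Agent.P.MP_e45b92_nt.UG

open MeasureTheory Set

namespace FINALx

theorem shift {α β ε T : ℝ} (m n : ℤ) : Solv (α + m) (β + n) ε T ↔ Solv α β ε T := by
  constructor
  · rintro ⟨p, r, q, a, b, c⟩
    refine ⟨p + q * m, r + q * n, q, a, b, ?_⟩
    convert c using 3 <;> push_cast <;> ring
  · rintro ⟨p, r, q, a, b, c⟩
    refine ⟨p - q * m, r - q * n, q, a, b, ?_⟩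
    convert c using 3 <;> push_cast <;> ring

end FINALx

theorem p_FINAL (hUBC : S_UBC) (hLFIN : S_LFIN) (hTR : S_TR) (hZT : S_ZT) : S_FINAL := by
  unfold S_FINAL
  rw [hZT.2]
  refine hTR _ (fun z m n h => ?_) ?_
  · simpa only [FINALx.shift] using h
  · filter_upwards [hUBC, hLFIN] with z h1 h2 c
    exact ⟨h1 c, h2 c⟩

end Pool.Agent.P.MP_e45b92_nt.UG
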