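import Pool.Agent.P.MP_e45b92_nt.UG.IfaceC

/-! Step FM. -/

set_option autoImplicit false

namespace Pool.Agent.P.MP_e45b92_nt.UG

open MeasureTheory Set

theorem p_FM (hFB : S_FB) : S_FM := by
  intro Q δ S hQ hδ
  induction S with
  | zero =>
    have h := hFB Q δ (1 / 2) hQ hδ.le (by norm_num)
    refine le_trans (measureReal_mono ?_) (h.trans (le_of_eq (by push_cast; ring)))
    rintro z ⟨v, h1, h2, -, h4⟩
    refine ⟨(v.1, v.2.1, -round ((v.1 : ℝ) * z.2)), h1, h2, by simpa [xc] using h4, ?_⟩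
    have := abs_sub_round ((v.1 : ℝ) * z.2)
    simp only [yc, Int.cast_neg]
    rwa [neg_add_eq_sub]
  | succ S ih =>
    have h := hFB Q (δ * 2 ^ (S + 1)) (1 / 2 ^ S) hQ (by positivity) (by positivity)
    have hs : {z : ℝ × ℝ | Rare z.1 z.2 Q δ (δ * 2 ^ (S + 1))} ⊆
        {z | Rare z.1 z.2 Q δ (δ * 2 ^ S)} ∪
          {z | ∃ v : V3, 1 ≤ v.1 ∧ (v.1 : ℝ) ≤ Q ∧ |xc z.1 v| ≤ δ * 2 ^ (S + 1) ∧
            |yc z.2 v| ≤ 1 / 2 ^ S} := by
      rintro z ⟨v, h1, h2, h3, h4⟩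
      by_cases hx : |xc z.1 v| ≤ δ * 2 ^ S
      · exact Or.inl ⟨v, h1, h2, h3, hx⟩
      · refine Or.inr ⟨v, h1, h2, h4, ?_⟩
        push Not at hx
        rw [le_div_iff₀ (by positivity)]
        have h5 : δ * 2 ^ S * |yc z.2 v| ≤ |xc z.1 v| * |yc z.2 v| :=
          mul_le_mul_of_nonneg_right hx.le (abs_nonneg _)
        have h6 : δ * (|yc z.2 v| * 2 ^ S) ≤ δ * 1 := by linarith
        exact le_of_mul_le_mul_left h6 hδ
    refine (measureReal_mono hs).trans ((measureReal_union_le _ _).trans ?_)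
    have e : 4 * Q * (δ * 2 ^ (S + 1)) * (1 / 2 ^ S) = 8 * (Q * δ) := by
      rw [pow_succ]; field_simp; ring
    rw [e] at h
    push_cast
    linarith

end Pool.Agent.P.MP_e45b92_nt.UG
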