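import Pool.Agent.P.MP_e45b92_nt.UG.IfaceA

/-! Step FUB. -/

set_option autoImplicit false

namespace Pool.Agent.P.MP_e45b92_nt.UG

open MeasureTheory Set

namespace FUBx

theorem slice {S : Set (ℝ × ℝ)} (hS : MeasurableSet S) :
    Integrable (fun α => μ1.real {β | (α, β) ∈ S}) μ1 ∧
      ∫ α, μ1.real {β | (α, β) ∈ S} ∂μ1 = μ2.real S := by
  have hm : Measurable fun α => μ1 (Prod.mk α ⁻¹' S) := measurable_measure_prodMk_left hS
  have hp : μ2 S = ∫⁻ α, μ1 (Prod.mk α ⁻¹' S) ∂μ1 := Measure.prod_apply hS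
  refine ⟨?_, ?_⟩
  · exact integrable_toReal_of_lintegral_ne_top hm.aemeasurable (hp ▸ measure_ne_top _ _)
  · rw [measureReal_def, hp]
    exact integral_toReal hm.aemeasurable (ae_of_all _ fun _ => measure_lt_top _ _)

end FUBx

theorem p_FUB : S_FUB := by
  intro S B E K c w w' hS hB hE h
  have i1 : Integrable (fun α => ∑ k ∈ Finset.range K, μ1.real {β | (α, β) ∈ E k}) μ1 :=
    integrable_finsetSum _ fun k _ => (FUBx.slice (hE k)).1
  have i2 := (integrable_const c).add (i1.const_mul w)
  have i3 := (FUBx.slice hB).1.const_mul w'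
  have := integral_mono (FUBx.slice hS).1 (i2.add i3) h
  rw [(FUBx.slice hS).2] at this
  refine this.trans (le_of_eq ?_)
  rw [integral_add' i2 i3, integral_add' (integrable_const c) (i1.const_mul w), integral_const_mul,
    integral_const_mul, integral_finsetSum _ fun k _ => (FUBx.slice (hE k)).1,
    (FUBx.slice hB).2, Finset.sum_congr rfl fun k _ => (FUBx.slice (hE k)).2]
  simp

end Pool.Agent.P.MP_e45b92_nt.UG
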