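import Pool.Agent.P.MP_e45b92_nt.UG.IfaceA

/-! Step GB. -/

set_option autoImplicit false

namespace Pool.Agent.P.MP_e45b92_nt.UG

open MeasureTheory Set

theorem p_GB (hGB1 : S_GB1) : S_GB := by
  intro h S t T X ℓ Λ hh hX hl hΛ h1 h2 h3
  have h0 : (20 : ℝ) ≤ h := by exact_mod_cast hh
  refine (measureReal_mono (s₂ := ⋃ i ∈ Finset.range (h * S) ×ˢ Finset.range (h * t) ×ˢ
    (Finset.univ : Finset Bool) ×ˢ Finset.Icc (-(h + 3 : ℤ)) (h + 3), {z : ℝ × ℝ |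
      gmean h T X ℓ i.1 i.2.1 / h < |((gbox z.1 z.2 h T X ℓ i.1 i.2.1 i.2.2.1 i.2.2.2).card : ℝ) -
        gmean h T X ℓ i.1 i.2.1|}) (fun z hz => ?_) (measure_ne_top _ _)).trans
    ((measureReal_biUnion_finset_le _ _).trans ((Finset.sum_le_card_nsmul _ _
      (3456 * (h : ℝ) ^ 6 * 4 ^ t / (X * ℓ * T ^ 2)) fun i hi => ?_).trans ?_))
  · simp only [Good, mem_ofPred_eq, not_forall, not_le] at hz
    obtain ⟨a, ha, b, hb, σ, k, hk, e⟩ := hz
    exact mem_iUnion₂.2 ⟨(a, b, σ, k), by simpa [ha, hb, abs_le] using hk, e⟩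
  · simp only [Finset.mem_product, Finset.mem_range] at hi
    exact hGB1 h S t _ _ _ _ T X ℓ Λ hh hX hl hΛ h1 h2 h3 hi.1 hi.2.1
  · have e : ((h : ℤ) + 3 + 1 - -((h : ℤ) + 3)).toNat = 2 * h + 7 := by omega
    simp only [Finset.card_product, Finset.card_range, Finset.card_univ, Fintype.card_bool,
      Int.card_Icc, e, nsmul_eq_mul, ← mul_div_assoc]
    push_cast
    gcongr ?_ / _
    calc _ = 6912 * (2 * h + 7) * ((h : ℝ) ^ 8 * S * t * 4 ^ t) := by ring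
      _ ≤ 21000 * h * ((h : ℝ) ^ 8 * S * t * 4 ^ t) := by gcongr ?_ * _; linarith
      _ = _ := by ring

end Pool.Agent.P.MP_e45b92_nt.UG
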