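import Pool.Agent.P.MP_e45b92_nt.UG.IfaceA

/-! Step GS. -/

set_option autoImplicit false

namespace Pool.Agent.P.MP_e45b92_nt.UG

open MeasureTheory Set

namespace GSx

theorem conv (N : ℕ) (f : ℤ → ℝ) :
    ∑ m ∈ Finset.Ioc (0 : ℤ) N, f m = ∑ m ∈ Finset.Ioc 0 N, f (m : ℕ) := by
  symm
  refine Finset.sum_nbij' (fun m => (m : ℤ)) (fun m => m.toNat) ?_ ?_ ?_ ?_ ?_
  · intro a ha
    simp only [Finset.mem_Ioc] at ha ⊢
    omega
  · intro a ha
    simp only [Finset.mem_Ioc] at ha ⊢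
    omega
  · intro a _
    simp
  · intro a ha
    simp only [Finset.mem_Ioc] at ha
    omega
  · intro a _
    rfl

theorem cnt_le (N e : ℕ) :
    ∑ m ∈ Finset.Ioc 0 N, (if e ∣ m then (1 : ℝ) else 0) ≤ (N : ℝ) / e := by
  rw [Finset.sum_boole, Nat.Ioc_filter_dvd_card_eq_div]
  exact Nat.cast_div_le

theorem key (N k : ℕ) :
    ∑ m ∈ Finset.Ioc 0 N, ∑ n ∈ Finset.Ioc 0 N, (Nat.gcd m n : ℝ) ^ k ≤
      ∑ e ∈ Finset.Ioc 0 N, (e : ℝ) ^ k * ((N : ℝ) / e) ^ 2 := by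
  calc ∑ m ∈ Finset.Ioc 0 N, ∑ n ∈ Finset.Ioc 0 N, (Nat.gcd m n : ℝ) ^ k
      ≤ ∑ m ∈ Finset.Ioc 0 N, ∑ n ∈ Finset.Ioc 0 N, ∑ e ∈ Finset.Ioc 0 N,
          (e : ℝ) ^ k * ((if e ∣ m then (1 : ℝ) else 0) * (if e ∣ n then (1 : ℝ) else 0)) := by
        refine Finset.sum_le_sum fun m hm => Finset.sum_le_sum fun n _ => ?_
        have hm' := Finset.mem_Ioc.1 hm
        have hg : Nat.gcd m n ∈ Finset.Ioc 0 N := Finset.mem_Ioc.2
          ⟨Nat.gcd_pos_of_pos_left _ hm'.1, (Nat.gcd_le_left _ hm'.1).trans hm'.2⟩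
        refine le_trans ?_ (Finset.single_le_sum (f := fun e : ℕ =>
          (e : ℝ) ^ k * ((if e ∣ m then (1 : ℝ) else 0) * (if e ∣ n then (1 : ℝ) else 0)))
          (fun e _ => by positivity) hg)
        simp [Nat.gcd_dvd_left, Nat.gcd_dvd_right]
    _ = ∑ e ∈ Finset.Ioc 0 N, (e : ℝ) ^ k *
          (∑ m ∈ Finset.Ioc 0 N, (if e ∣ m then (1 : ℝ) else 0)) ^ 2 := by
        simp_rw [sq, Finset.sum_mul_sum, Finset.mul_sum]
        rw [Finset.sum_comm]
        conv_rhs => rw [Finset.sum_comm]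
        refine Finset.sum_congr rfl fun n _ => ?_
        conv_rhs => rw [Finset.sum_comm]
        refine Finset.sum_congr rfl fun m _ => Finset.sum_congr rfl fun e _ => ?_
        ring
    _ ≤ _ := by
        refine Finset.sum_le_sum fun e _ => ?_
        have h0 : 0 ≤ ∑ m ∈ Finset.Ioc 0 N, (if e ∣ m then (1 : ℝ) else 0) :=
          Finset.sum_nonneg fun m _ => by positivity
        have := cnt_le N e
        gcongr

end GSx

theorem p_GS : S_GS := by
  intro Q Λ hQ hΛ hlog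
  obtain ⟨N, hN⟩ : ∃ N : ℕ, ⌊Q⌋ = N := ⟨⌊Q⌋₊, (Int.natCast_floor_eq_floor hQ).symm⟩
  have hNQ : (N : ℝ) ≤ Q := by
    have := Int.floor_le Q
    rw [hN] at this
    exact_mod_cast this
  have hN0 : (0 : ℝ) ≤ N := Nat.cast_nonneg _
  rw [hN]
  simp only [GSx.conv, Int.gcd_natCast_natCast]
  constructor
  · have h := GSx.key N 1
    simp only [pow_one] at h
    refine h.trans ?_
    have h2 : ∑ e ∈ Finset.Ioc 0 N, (e : ℝ) * ((N : ℝ) / e) ^ 2 = N ^ 2 * (harmonic N : ℝ) := by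
      rw [harmonic_eq_sum_Icc, Rat.cast_sum, Finset.mul_sum]
      refine Finset.sum_congr rfl fun e he => ?_
      have : (0 : ℝ) < e := by exact_mod_cast (Finset.mem_Icc.1 he).1
      push_cast
      field_simp
    rw [h2]
    have h3 : (harmonic N : ℝ) ≤ 1 + Λ := by
      refine (harmonic_le_one_add_log N).trans ?_
      rcases Nat.eq_zero_or_pos N with h0 | h0
      · simp [h0, hΛ]
      · have : Real.log N ≤ Real.log Q := Real.log_le_log (by exact_mod_cast h0) hNQ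
        linarith
    have h4 : (0 : ℝ) ≤ (harmonic N : ℝ) := by
      rw [harmonic_eq_sum_Icc, Rat.cast_sum]
      exact Finset.sum_nonneg fun e _ => by positivity
    gcongr
  · refine (GSx.key N 2).trans ?_
    have h2 : ∑ e ∈ Finset.Ioc 0 N, (e : ℝ) ^ 2 * ((N : ℝ) / e) ^ 2 = N ^ 3 := by
      rw [Finset.sum_congr rfl (g := fun _ => (N : ℝ) ^ 2)]
      · simp only [Finset.sum_const, Nat.card_Ioc, Nat.sub_zero, nsmul_eq_mul]
        ring
      · intro e he
        have : (0 : ℝ) < e := by exact_mod_cast (Finset.mem_Ioc.1 he).1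
        field_simp
    rw [h2]
    gcongr

end Pool.Agent.P.MP_e45b92_nt.UG
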