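import Pool.Agent.P.MP_e45b92_nt.UG.IfaceA

/-! Step HER. -/

set_option autoImplicit false

namespace Pool.Agent.P.MP_e45b92_nt.UG

open MeasureTheory Set

theorem p_HER : S_HER := by
  intro b s l θ hb hl
  have hb0 : (0 : ℝ) < b := by exact_mod_cast hb
  have h1 : ∑ j ∈ Finset.range b, cnt s l (θ + j / b) =
      (((Finset.range b).sigma fun j =>
        Finset.Ico ⌈s - (θ + j / b)⌉ ⌈s + l - (θ + j / b)⌉).card : ℝ) := by
    rw [Finset.card_sigma, Nat.cast_sum]
    exact Finset.sum_congr rfl fun j _ => (card_Ico_cnt hl).symm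
  have h2 : ((Finset.range b).sigma fun j =>
        Finset.Ico ⌈s - (θ + j / b)⌉ ⌈s + l - (θ + j / b)⌉).card ≤
      (Finset.Ico ⌈b * s - b * θ⌉ ⌈b * s + b * l - b * θ⌉).card := by
    refine Finset.card_le_card_of_injOn (fun x => (b : ℤ) * x.2 + x.1) ?_ ?_
    · rintro ⟨j, n⟩ hx
      simp only [Finset.coe_sigma, Set.mem_sigma_iff, Finset.mem_coe, Finset.mem_Ico, Int.ceil_le,
        Int.lt_ceil] at hx ⊢
      have e : (b : ℝ) * (j / b) = j := by field_simp
      have a1 := mul_le_mul_of_nonneg_left hx.2.1 hb0.le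
      have a2 := mul_lt_mul_of_pos_left hx.2.2 hb0
      push_cast
      constructor <;> nlinarith
    · rintro ⟨j, n⟩ hx ⟨j', n'⟩ hx' e
      simp only [Finset.coe_sigma, Set.mem_sigma_iff, Finset.mem_coe, Finset.mem_range] at hx hx'
      have e' : (b : ℤ) * n + j = b * n' + j' := e
      have hj : (j : ℤ) < b := by exact_mod_cast hx.1
      have hj' : (j' : ℤ) < b := by exact_mod_cast hx'.1
      have hn : n = n' := by
        have j0 : (0 : ℤ) ≤ j := Int.natCast_nonneg j
        have j0' : (0 : ℤ) ≤ j' := Int.natCast_nonneg j'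
        rcases lt_trichotomy n n' with h | h | h
        · have := mul_le_mul_of_nonneg_left (show n + 1 ≤ n' from h) (Int.natCast_nonneg b)
          linarith
        · exact h
        · have := mul_le_mul_of_nonneg_left (show n' + 1 ≤ n from h) (Int.natCast_nonneg b)
          linarith
      subst hn
      have : j = j' := by exact_mod_cast add_left_cancel e'
      subst this
      rfl
  rw [h1]
  calc _ ≤ ((Finset.Ico ⌈b * s - b * θ⌉ ⌈b * s + b * l - b * θ⌉).card : ℝ) := by exact_mod_cast h2
    _ = cnt (b * s) (b * l) (b * θ) := card_Ico_cnt (by positivity)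
    _ ≤ _ := cnt_le

end Pool.Agent.P.MP_e45b92_nt.UG
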