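import Pool.Agent.P.MP_e45b92_nt.UG.IfaceA

/-! Step IND. -/

set_option autoImplicit false

namespace Pool.Agent.P.MP_e45b92_nt.UG

open MeasureTheory Set

namespace INDx

theorem shift2 {F : ℝ × ℝ → ℝ} (hm : Measurable F) (C : ℝ) (hC : ∀ z, |F z| ≤ C)
    (h1 : ∀ a b, F (a + 1, b) = F (a, b)) (h2 : ∀ a b, F (a, b + 1) = F (a, b)) (u w : ℝ) :
    ∫ z, F (z.1 + u, z.2 + w) ∂μ2 = ∫ z, F z ∂μ2 := by
  have hm' : Measurable fun z : ℝ × ℝ => F (z.1 + u, z.2 + w) := hm.comp (by fun_prop)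
  have i1 : Integrable (fun z : ℝ × ℝ => F (z.1 + u, z.2 + w)) (μ1.prod μ1) :=
    integrable_of_bdd (μ := μ2) hm' C fun z => hC _
  have i2 : Integrable F (μ1.prod μ1) := integrable_of_bdd (μ := μ2) hm C hC
  unfold μ2
  rw [integral_prod _ i1, integral_prod _ i2]
  have e1 : ∀ a : ℝ, ∫ b, F (a + u, b + w) ∂μ1 = ∫ b, F (a + u, b) ∂μ1 := fun a =>
    integral_shift (f := fun b => F (a + u, b)) (fun b => h2 _ _) w
  simp only [e1]
  exact integral_shift (f := fun a => ∫ b, F (a, b) ∂μ1) (fun a => by simp only [h1]) u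

end INDx

theorem p_IND (hM2 : S_M2) (hHER : S_HER) : S_IND := by
  intro A B A' B' s l s' l' hδ hB' hl hl'
  set F : ℝ × ℝ → ℝ := fun z => cnt s l (A * z.1 + B * z.2) * cnt s' l' (A' * z.1 + B' * z.2)
    with hF
  have hm : Measurable F :=
    ((measurable_cnt _ _).comp (by fun_prop)).mul ((measurable_cnt _ _).comp (by fun_prop))
  have hC : ∀ z, |F z| ≤ (l + 1) * (l' + 1) := fun z => by
    rw [hF, abs_mul]
    exact mul_le_mul (abs_cnt_le hl) (abs_cnt_le hl') (abs_nonneg _) (by linarith)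
  have h1 : ∀ a b, F (a + 1, b) = F (a, b) := fun a b => by
    have e1 : (A : ℝ) * (a + 1) + B * b = A * a + B * b + A := by ring
    have e2 : (A' : ℝ) * (a + 1) + B' * b = A' * a + B' * b + A' := by ring
    simp only [hF, e1, e2, cnt_add_int]
  have h2 : ∀ a b, F (a, b + 1) = F (a, b) := fun a b => by
    have e1 : (A : ℝ) * a + B * (b + 1) = A * a + B * b + B := by ring
    have e2 : (A' : ℝ) * a + B' * (b + 1) = A' * a + B' * b + B' := by ring
    simp only [hF, e1, e2, cnt_add_int]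
  have hδ' : (A : ℝ) * B' - A' * B ≠ 0 := by
    have : A * B' - A' * B ≠ 0 := sub_ne_zero.2 hδ
    exact_mod_cast this
  have key : ∀ n : ℕ, 0 < n → (n : ℝ) * ∫ z, F z ∂μ2 ≤ (n * l + 1) * l' := by
    intro n hn
    have hn' : (n : ℝ) ≠ 0 := by exact_mod_cast hn.ne'
    have mj : ∀ j : ℕ, Measurable fun z : ℝ × ℝ =>
        cnt s l (A * z.1 + B * z.2 + j / n) * cnt s' l' (A' * z.1 + B' * z.2) := fun j =>
      ((measurable_cnt _ _).comp (by fun_prop)).mul ((measurable_cnt _ _).comp (by fun_prop))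
    have ij : ∀ j : ℕ, Integrable (fun z : ℝ × ℝ =>
        cnt s l (A * z.1 + B * z.2 + j / n) * cnt s' l' (A' * z.1 + B' * z.2)) μ2 := fun j =>
      integrable_of_bdd (mj j) ((l + 1) * (l' + 1)) fun z => by
        rw [abs_mul]
        exact mul_le_mul (abs_cnt_le hl) (abs_cnt_le hl') (abs_nonneg _) (by linarith)
    have ej : ∀ j : ℕ, ∫ z : ℝ × ℝ,
        cnt s l (A * z.1 + B * z.2 + j / n) * cnt s' l' (A' * z.1 + B' * z.2) ∂μ2 =
          ∫ z, F z ∂μ2 := by
      intro j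
      rw [← INDx.shift2 hm _ hC h1 h2 (j * B' / (n * (A * B' - A' * B)))
        (-(j * A' / (n * (A * B' - A' * B))))]
      refine integral_congr_ae (Filter.Eventually.of_forall fun z => ?_)
      have e1 : (A : ℝ) * (z.1 + j * B' / (n * (A * B' - A' * B))) +
          B * (z.2 + -(j * A' / (n * (A * B' - A' * B)))) = A * z.1 + B * z.2 + j / n := by
        field_simp; ring
      have e2 : (A' : ℝ) * (z.1 + j * B' / (n * (A * B' - A' * B))) +
          B' * (z.2 + -(j * A' / (n * (A * B' - A' * B)))) = A' * z.1 + B' * z.2 := by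
        field_simp; ring
      simp only [hF, e1, e2]
    have m0 : Measurable fun z : ℝ × ℝ => cnt s' l' (A' * z.1 + B' * z.2) :=
      (measurable_cnt _ _).comp (by fun_prop)
    have i0 : Integrable (fun z : ℝ × ℝ => cnt s' l' (A' * z.1 + B' * z.2)) μ2 :=
      integrable_of_bdd m0 (l' + 1) fun z => abs_cnt_le hl'
    calc (n : ℝ) * ∫ z, F z ∂μ2
        = ∑ j ∈ Finset.range n, ∫ z : ℝ × ℝ,
          cnt s l (A * z.1 + B * z.2 + j / n) * cnt s' l' (A' * z.1 + B' * z.2) ∂μ2 := by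
          simp only [ej, Finset.sum_const, Finset.card_range, nsmul_eq_mul]
      _ = ∫ z : ℝ × ℝ, ∑ j ∈ Finset.range n,
          cnt s l (A * z.1 + B * z.2 + j / n) * cnt s' l' (A' * z.1 + B' * z.2) ∂μ2 :=
          (integral_finsetSum _ fun j _ => ij j).symm
      _ ≤ ∫ z : ℝ × ℝ, (n * l + 1) * cnt s' l' (A' * z.1 + B' * z.2) ∂μ2 := by
          refine integral_mono (integrable_finsetSum _ fun j _ => ij j) (i0.const_mul _)
            fun z => ?_
          simp only [← Finset.sum_mul]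
          exact mul_le_mul_of_nonneg_right (hHER n s l _ hn hl) (cnt_nonneg hl')
      _ = (n * l + 1) * l' := by rw [integral_const_mul, hM2 A' B' s' l' hB' hl']
  refine le_of_forall_pos_le_add fun ε hε => ?_
  obtain ⟨n, hn⟩ := exists_nat_gt (l' / ε)
  have hn0 : (0 : ℝ) < n := lt_of_le_of_lt (by positivity) hn
  have k := key n (by exact_mod_cast hn0)
  rw [div_lt_iff₀ hε] at hn
  refine le_of_mul_le_mul_left ?_ hn0
  nlinarith

end Pool.Agent.P.MP_e45b92_nt.UG
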