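import Pool.Agent.P.MP_e45b92_nt.UG.IfaceB

/-! Step ISO. -/

set_option autoImplicit false

namespace Pool.Agent.P.MP_e45b92_nt.UG

open MeasureTheory Set

namespace ISOx

theorem cls {x u : ℝ} (D : ℕ) (h : x ≤ 2 ^ D * u) :
    ∃ j ≤ D, x ≤ 2 ^ j * u ∧ (j = 0 ∨ 2 ^ j * u < 2 * x) := by
  induction D with
  | zero => exact ⟨0, le_rfl, h, Or.inl rfl⟩
  | succ D ih =>
    by_cases c : x ≤ 2 ^ D * u
    · obtain ⟨j, h1, h2⟩ := ih c
      exact ⟨j, by omega, h2⟩
    · refine ⟨D + 1, le_rfl, h, Or.inr ?_⟩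
      rw [pow_succ]
      linarith

theorem fib {ε B s J r c : ℝ} (hε : 0 < ε) (hB : 0 < B) (hs : 1 ≤ s) (hJ : 0 < J) (hr : 0 < r)
    (hc : c ≤ 2 * s * (48 * ε * J * s + 12 * J * B)) :
    c * (2 * s * r / J) ≤ 200 * s ^ 3 * (ε + B) * r := by
  refine (mul_le_mul_of_nonneg_right hc (by positivity)).trans ?_
  have e : 2 * s * (48 * ε * J * s + 12 * J * B) * (2 * s * r / J) =
      (192 * s * ε + 48 * B) * (s ^ 2 * r) := by
    field_simp
    ring
  have e2 : 200 * s ^ 3 * (ε + B) * r = (200 * s * ε + 200 * s * B) * (s ^ 2 * r) := by ring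
  rw [e, e2]
  refine mul_le_mul_of_nonneg_right ?_ (by positivity)
  nlinarith [mul_pos hε (lt_of_lt_of_le one_pos hs), mul_le_mul_of_nonneg_right hs hB.le]

end ISOx

open ISOx in
theorem p_ISO (hISO1 : S_ISO1) : S_ISO := by
  intro α T ε A t D F v hT hε hA hv h1 h2 h3 hI hF
  set G := F.filter fun w => w ≠ v ∧ rad α T ε w ≤ rad α T ε v ∧
    |ctr w - ctr v| < 2 * rad α T ε v with hG
  have hs : (1 : ℝ) ≤ 2 ^ t := one_le_pow₀ (by norm_num)
  have hq : (0 : ℝ) < v.1 := lt_trans (by positivity) h1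
  have hu : 0 < |xc α v| := abs_pos.2 h3
  have hr : 0 < rad α T ε v := by unfold rad; positivity
  have hex : ∀ w : V3, ∃ j : ℕ, w ∈ G → j ∈ Finset.range (D + 1) ∧
      |xc α w| ≤ 2 ^ j * |xc α v| ∧ rad α T ε w ≤ 2 * 2 ^ t * rad α T ε v / 2 ^ j := by
    intro w
    by_cases hw : w ∈ G
    swap
    · exact ⟨0, fun h => absurd h hw⟩
    obtain ⟨w1, -, w2, -⟩ := Finset.mem_filter.1 hw
    obtain ⟨-, a1, -, a3, a4⟩ := hF w w1
    obtain ⟨j, j1, j2, j3⟩ := cls D a4
    refine ⟨j, fun _ => ⟨Finset.mem_range.2 (by omega), j2, ?_⟩⟩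
    rcases j3 with rfl | j3
    · rw [pow_zero, div_one]
      nlinarith
    · have hqw : (0 : ℝ) < w.1 := lt_trans (by positivity) a1
      have hx : 0 < |xc α w| := abs_pos.2 a3
      rw [div_lt_iff₀ (by positivity)] at a1
      have key : 2 ^ j * |xc α v| * v.1 ≤ 2 * |xc α w| * (w.1 * 2 ^ t) :=
        mul_le_mul j3.le (h2.trans a1.le) hq.le (by positivity)
      unfold rad
      rw [← mul_div_assoc, div_div, div_le_div_iff₀ (by positivity) (by positivity)]
      nlinarith [mul_le_mul_of_nonneg_left key (mul_pos hε hT).le]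
  choose c hc using hex
  rw [← Finset.sum_fiberwise_of_maps_to (fun w hw => (hc w hw).1)]
  have hb : ∀ j ∈ Finset.range (D + 1), ∑ w ∈ G with c w = j, rad α T ε w ≤
      200 * 8 ^ t * (ε + 1 / A) * rad α T ε v := by
    intro j _
    have k1 := hISO1 α T ε A t j (G.filter fun w => c w = j) v hT hε hA hv h1 h2 h3 hI (by
      intro w hw'
      obtain ⟨hw, rfl⟩ := Finset.mem_filter.1 hw'
      obtain ⟨w1, w2, -, w3⟩ := Finset.mem_filter.1 hw
      obtain ⟨a0, a1, a2, -, -⟩ := hF w w1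
      have hqw : (0 : ℝ) < w.1 := lt_trans (by positivity) a1
      exact ⟨a0, by exact_mod_cast hqw, a2, w2, (hc w hw).2.1, w3⟩)
    have k2 := Finset.sum_le_card_nsmul (G.filter fun w => c w = j) (fun w => rad α T ε w)
      (2 * 2 ^ t * rad α T ε v / 2 ^ j) (by
        intro w hw'
        obtain ⟨hw, rfl⟩ := Finset.mem_filter.1 hw'
        exact (hc w hw).2.2)
    rw [nsmul_eq_mul] at k2
    have e8 : (8 : ℝ) ^ t = (2 ^ t) ^ 3 := by
      rw [← pow_mul, mul_comm, pow_mul]; norm_num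
    rw [e8]
    exact k2.trans (fib hε (by positivity) hs (by positivity) hr (by
      rw [mul_one_div]; exact k1))
  refine (Finset.sum_le_card_nsmul _ _ _ hb).trans (le_of_eq ?_)
  rw [Finset.card_range, nsmul_eq_mul]
  push_cast
  ring

end Pool.Agent.P.MP_e45b92_nt.UG
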