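import Pool.Agent.P.MP_e45b92_nt.UG.IfaceB

/-! Step ISO1. -/

set_option autoImplicit false

namespace Pool.Agent.P.MP_e45b92_nt.UG

open MeasureTheory Set

namespace ISO1x

theorem fib (hCROSS : S_CROSS) {T : ℝ} {t : ℕ} {F : Finset V3} {v : V3} (hv : Prim v)
    (hq : 0 < v.1) (hT : T < 2 ^ t * (v.1 : ℝ))
    (hF : ∀ w ∈ F, 0 < w.1 ∧ (w.1 : ℝ) ≤ T) (ξ : V3) :
    (F.filter fun w => crs v w = ξ).card ≤ 2 ^ t := by
  have h1 : (Finset.Ico (0 : ℤ) (2 ^ t)).card = 2 ^ t := by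
    rw [Int.card_Ico, sub_zero]
    have : ((2 : ℤ) ^ t) = ((2 ^ t : ℕ) : ℤ) := by push_cast; rfl
    rw [this, Int.toNat_natCast]
  rw [← h1]
  refine Finset.card_le_card_of_injOn (fun w => w.1 / v.1) ?_ ?_
  · intro w hw
    have hw' := hF w (Finset.mem_filter.1 (Finset.mem_coe.1 hw)).1
    rw [Finset.mem_coe, Finset.mem_Ico]
    refine ⟨Int.ediv_nonneg hw'.1.le hq.le, ?_⟩
    have h2 : (w.1 : ℝ) < 2 ^ t * (v.1 : ℝ) := hw'.2.trans_lt hT
    have h3 : w.1 < 2 ^ t * v.1 := by exact_mod_cast h2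
    exact Int.ediv_lt_of_lt_mul hq h3
  · intro w hw w' hw' e
    have e1 := (Finset.mem_filter.1 (Finset.mem_coe.1 hw)).2
    have e2 := (Finset.mem_filter.1 (Finset.mem_coe.1 hw')).2
    obtain ⟨k, hk⟩ := hCROSS.2.2.2 v w w' hv hq.ne' (by rw [e1, e2])
    have e3 : w'.1 = w.1 + k * v.1 := by rw [hk]
    have e4 : w'.1 / v.1 = w.1 / v.1 + k := by
      rw [e3, Int.add_mul_ediv_right _ _ hq.ne']
    have e5 : w.1 / v.1 = w'.1 / v.1 := e
    have hk0 : k = 0 := by omega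
    rw [hk, hk0]; simp

theorem crs21 (v w : V3) (hv : v.1 ≠ 0) (hw : w.1 ≠ 0) :
    (((crs v w).2.1 : ℤ) : ℝ) = v.1 * w.1 * (ctr w - ctr v) := by
  have h1 : (v.1 : ℝ) ≠ 0 := by exact_mod_cast hv
  have h2 : (w.1 : ℝ) ≠ 0 := by exact_mod_cast hw
  simp only [crs, ctr]; push_cast; field_simp; ring

theorem crs22 (α : ℝ) (v w : V3) :
    (((crs v w).2.2 : ℤ) : ℝ) = v.1 * xc α w - xc α v * w.1 := by
  simp only [crs, xc]; push_cast; ring

end ISO1x

theorem p_ISO1 (hCROSS : S_CROSS) (hPL : S_PL) : S_ISO1 := by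
  classical
  intro α T ε A t j F v hT hε hA hv hq0 hq1 hx hI hF
  have h2t : (0 : ℝ) < 2 ^ t := by positivity
  have h2j : (1 : ℝ) ≤ 2 ^ j := one_le_pow₀ (by norm_num)
  have hqR : (0 : ℝ) < v.1 := lt_trans (by positivity) hq0
  have hq : 0 < v.1 := by exact_mod_cast hqR
  have hTq : T < 2 ^ t * (v.1 : ℝ) := by
    rw [div_lt_iff₀ h2t] at hq0; linarith
  have hu : 0 < |xc α v| := abs_pos.2 hx
  set u := |xc α v| with hu_def
  rcases F.eq_empty_or_nonempty with rfl | hne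
  · simp only [Finset.card_empty, Nat.cast_zero]; positivity
  have hS : ((F.image (crs v)).card : ℝ) ≤ 48 * ε * 2 ^ j * 2 ^ t + 12 * 2 ^ j / A := by
    obtain ⟨w, hwΓ, hw0, c1, c2⟩ := hPL (fun ξ => (ξ.2.1 : ℝ)) (fun ξ => (ξ.2.2 : ℝ))
      {ξ | dot ξ v = 0} (v.1 : ℝ) (2 * ε / u) (2 * 2 ^ j * T * u) (F.image (crs v))
      (fun a b => by simp) (fun a b => by simp)
      (fun a ha b hb => by
        simp only [mem_ofPred_eq, dot, Prod.fst_sub, Prod.snd_sub] at ha hb ⊢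
        linear_combination ha - hb)
      (fun a ha h1 h2 => by
        have h1' : a.2.1 = 0 := by exact_mod_cast h1
        have h2' : a.2.2 = 0 := by exact_mod_cast h2
        have ha' : dot a v = 0 := ha
        rw [dot, h1', h2'] at ha'
        have h3 : a.1 * v.1 = 0 := by linarith
        have h4 : a.1 = 0 := (mul_eq_zero.1 h3).resolve_right hq.ne'
        exact Prod.ext h4 (Prod.ext h1' h2'))
      hqR (by positivity) (by positivity)
      (fun a ha b hb => by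
        obtain ⟨k, hk⟩ := hCROSS.1 v a b hv ha hb
        refine ⟨k, ?_⟩
        have e : a.2.1 * b.2.2 - a.2.2 * b.2.1 = k * v.1 := congrArg Prod.fst hk
        exact_mod_cast e)
      (hne.image _)
      (fun ξ hξ => by
        obtain ⟨w, hw, rfl⟩ := Finset.mem_image.1 hξ
        obtain ⟨p1, p2, p3, p4, p5, p6⟩ := hF w hw
        have hwR : (0 : ℝ) < w.1 := by exact_mod_cast p2
        refine ⟨dot_crs v w, fun h0 => p4 (hCROSS.2.1 v w hv p1 hq p2 h0).symm, ?_, ?_⟩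
        · show |(((crs v w).2.1 : ℤ) : ℝ)| ≤ 2 * ε / u
          rw [ISO1x.crs21 v w hq.ne' p2.ne', abs_mul, abs_of_pos (mul_pos hqR hwR)]
          have e : (v.1 : ℝ) * T * (2 * rad α T ε v) = 2 * ε / u := by
            rw [rad, ← hu_def]; field_simp
          rw [← e]
          exact mul_le_mul (mul_le_mul_of_nonneg_left p3 hqR.le) p6.le (abs_nonneg _)
            (by positivity)
        · show |(((crs v w).2.2 : ℤ) : ℝ)| ≤ 2 * 2 ^ j * T * u
          rw [ISO1x.crs22 α v w]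
          refine (abs_sub _ _).trans ?_
          rw [abs_mul, abs_mul, abs_of_pos hqR, abs_of_pos hwR, ← hu_def]
          have a1 : (v.1 : ℝ) * |xc α w| ≤ T * (2 ^ j * u) :=
            mul_le_mul hq1 p5 (abs_nonneg _) hT.le
          have a2 : u * (w.1 : ℝ) ≤ u * T := mul_le_mul_of_nonneg_left p3 hu.le
          have a3 : u * T * 1 ≤ u * T * 2 ^ j := mul_le_mul_of_nonneg_left h2j (by positivity)
          nlinarith)
    have hm : A / (4 * 2 ^ j) ≤
        max (|(w.2.1 : ℝ)| / (2 * ε / u)) (|(w.2.2 : ℝ)| / (2 * 2 ^ j * T * u)) := by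
      by_contra hc
      push Not at hc
      rw [max_lt_iff, div_lt_iff₀ (by positivity), div_lt_iff₀ (by positivity)] at hc
      refine hw0 (hI w hwΓ ?_ ?_)
      · refine hc.1.le.trans ?_
        have e : A / (4 * 2 ^ j) * (2 * ε / u) = A * ε / u / (2 * 2 ^ j) := by
          field_simp; ring
        rw [e]
        exact div_le_self (by positivity) (by linarith)
      · refine hc.2.le.trans (le_of_eq ?_)
        field_simp; ring
    have c3 : 3 / max (|(w.2.1 : ℝ)| / (2 * ε / u)) (|(w.2.2 : ℝ)| / (2 * 2 ^ j * T * u)) ≤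
        12 * 2 ^ j / A := by
      refine (div_le_div_of_nonneg_left (by norm_num) (by positivity) hm).trans (le_of_eq ?_)
      field_simp; ring
    have c4 : 12 * (2 * ε / u) * (2 * 2 ^ j * T * u) / (v.1 : ℝ) ≤ 48 * ε * 2 ^ j * 2 ^ t := by
      rw [div_le_iff₀ hqR]
      have e : 12 * (2 * ε / u) * (2 * 2 ^ j * T * u) = 48 * ε * 2 ^ j * T := by
        field_simp; ring
      rw [e, mul_assoc (48 * ε * 2 ^ j)]
      exact mul_le_mul_of_nonneg_left hTq.le (by positivity)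
    have c5 := Finset.card_filter_add_card_filter_not (s := F.image (crs v))
      (fun a : V3 => (w.2.1 : ℝ) * (a.2.2 : ℝ) - (w.2.2 : ℝ) * (a.2.1 : ℝ) = 0)
    have c6 : ((F.image (crs v)).card : ℝ) =
        ((F.image (crs v)).filter fun a : V3 =>
          (w.2.1 : ℝ) * (a.2.2 : ℝ) - (w.2.2 : ℝ) * (a.2.1 : ℝ) = 0).card +
        ((F.image (crs v)).filter fun a : V3 =>
          ¬ (w.2.1 : ℝ) * (a.2.2 : ℝ) - (w.2.2 : ℝ) * (a.2.1 : ℝ) = 0).card := by
      exact_mod_cast c5.symm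
    rw [c6]
    have c7 := c1.trans c4
    have c8 := c2.trans c3
    exact (add_le_add c8 c7).trans (le_of_eq (add_comm _ _))
  have hc : F.card ≤ 2 ^ t * (F.image (crs v)).card :=
    Finset.card_le_mul_card_image F (2 ^ t) fun ξ _ =>
      ISO1x.fib hCROSS hv hq hTq (fun w hw => ⟨(hF w hw).2.1, (hF w hw).2.2.1⟩) ξ
  have hc' : (F.card : ℝ) ≤ 2 ^ t * ((F.image (crs v)).card : ℝ) := by exact_mod_cast hc
  have h0 : 0 ≤ 2 ^ t * (48 * ε * 2 ^ j * 2 ^ t + 12 * 2 ^ j / A) := by positivity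
  have h1 := mul_le_mul_of_nonneg_left hS h2t.le
  linarith

end Pool.Agent.P.MP_e45b92_nt.UG
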