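import Pool.Agent.P.MP_e45b92_nt.UG.IfaceC

/-! Step LA. -/

set_option autoImplicit false

namespace Pool.Agent.P.MP_e45b92_nt.UG

open MeasureTheory Set

namespace LAx

theorem choose_h {a : ℝ} (h0 : 0 < a) (h1 : a < 1) :
    ∃ h : ℕ, 20 ≤ h ∧ (1 + 12 / (h : ℝ)) * (1 + 1 / h) ^ 2 * a < 1 := by
  obtain ⟨h, hh⟩ := exists_nat_gt (20 / (1 - a))
  have b : 0 < 1 - a := by linarith
  have h20 : (20 : ℝ) < h := by
    refine lt_trans ?_ hh
    rw [lt_div_iff₀ b]; linarith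
  have hp : (0 : ℝ) < h := by linarith
  refine ⟨h, by exact_mod_cast h20.le, ?_⟩
  rw [div_lt_iff₀ b] at hh
  have u0 : 0 < 1 / (h : ℝ) := by positivity
  have u1 : 1 / (h : ℝ) ≤ 1 / 20 := one_div_le_one_div_of_le (by norm_num) h20.le
  have u2 : 20 * (1 / (h : ℝ)) < 1 - a := by
    rw [mul_one_div, div_lt_iff₀ hp]; linarith
  have e : 12 / (h : ℝ) = 12 * (1 / h) := by ring
  rw [e]
  generalize 1 / (h : ℝ) = u at u0 u1 u2
  have v1 : u * u ≤ u / 20 := by nlinarith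
  have v2 : u * u * u ≤ u / 20 := by nlinarith
  have v3 : (1 + 12 * u) * (1 + u) ^ 2 ≤ 1 + 20 * u := by nlinarith
  have v4 := mul_le_mul_of_nonneg_right v3 h0.le
  nlinarith

theorem le_Tk (z J E k : ℕ) (hJ : 1 ≤ J) : (z : ℝ) ≤ Tk (z ^ J) E k := by
  have a : z ≤ z ^ J := Nat.le_self_pow (by omega) z
  have b : z < 2 ^ z := Nat.lt_two_pow_self
  have c : 2 ^ z ≤ 2 ^ (z ^ J + k * E) := Nat.pow_le_pow_right (by norm_num) (by omega)
  rw [Tk]
  exact_mod_cast b.le.trans c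

end LAx

theorem p_LA (hLW2 : S_LW2) (hLA1 : S_LA1) (hLA2 : S_LA2) : S_LA := by
  intro c T₀ hc hc1
  have hZ := Z3_bounds
  have hc0 := c0_bounds
  have a0 : 0 < 4 * c0 * c := by have := hc0.1; positivity
  have a1 : 4 * c0 * c < 1 := by
    have e : 4 * c0 * c = 4 * c / Z3 := by rw [c0]; ring
    rw [e, div_lt_one (by linarith [hZ.1])]; linarith
  obtain ⟨h, h20, hh⟩ := LAx.choose_h a0 a1
  set γ : ℝ := 1 - (1 + 12 / (h : ℝ)) * (1 + 1 / h) ^ 2 * (4 * c0 * c) with hγ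
  have g0 : 0 < γ := by linarith
  have g1 : γ ≤ 1 := by
    have : 0 ≤ (1 + 12 / (h : ℝ)) * (1 + 1 / h) ^ 2 * (4 * c0 * c) := by positivity
    linarith
  obtain ⟨J, hJ⟩ := exists_nat_gt (5 / γ)
  rw [div_lt_iff₀ g0] at hJ
  have J5 : 5 ≤ J := by
    have h1 : (J : ℝ) * γ ≤ J := mul_le_of_le_one_right (by positivity) g1
    have : (5 : ℝ) ≤ J := by linarith
    exact_mod_cast this
  rw [← measureReal_eq_zero_iff]
  refine le_antisymm (le_of_forall_pos_le_add fun δ hδ => ?_) measureReal_nonneg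
  rw [zero_add]
  obtain ⟨z, t, g, y, hz, hP, hpu, hδ'⟩ := hLA2 h J c δ (max 2 ⌈T₀⌉₊) h20 J5 hc
    (by linarith [hZ.2]) hδ
  obtain ⟨b1, b2⟩ := hLA1 h J z g c γ _ h20 J5 ((le_max_left _ _).trans hz) hc (by linarith) g1
    (by rw [hγ]; linarith) rfl hpu
  refine le_trans (measureReal_mono ?_) ((hLW2 h J z t g _ y _ hP b1).trans hδ')
  intro w hw k hk
  have t1 : (z : ℝ) ≤ Tk (z ^ J) (z ^ 3) k := LAx.le_Tk z J _ k (by omega)
  have t2 : T₀ ≤ z := (Nat.le_ceil T₀).trans (by exact_mod_cast (le_max_right _ _).trans hz)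
  have t3 : 0 ≤ Tk (z ^ J) (z ^ 3) k := le_trans (by positivity) t1
  exact (hw _ (t2.trans t1)).mono le_rfl (div_le_div_of_nonneg_right (b2 k hk) t3)

end Pool.Agent.P.MP_e45b92_nt.UG
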