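import Pool.Agent.P.MP_e45b92_nt.UG.IfaceC

/-! Step LA2. -/

set_option autoImplicit false

namespace Pool.Agent.P.MP_e45b92_nt.UG

open MeasureTheory Set Filter

namespace LA2x

theorem clog_bd {x : ℕ} (hx : 1 ≤ x) : x ≤ 2 ^ Nat.clog 2 x ∧ 2 ^ Nat.clog 2 x ≤ 2 * x := by
  refine ⟨Nat.le_pow_clog (by norm_num) x, ?_⟩
  rcases hx.eq_or_lt with rfl | h
  · simp
  · have h1 := Nat.pow_pred_clog_lt_self (by norm_num : 1 < 2) h
    have h2 := Nat.clog_pos (by norm_num : 1 < 2) h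
    obtain ⟨k, hk⟩ : ∃ k, Nat.clog 2 x = k + 1 := ⟨_, (Nat.succ_pred_eq_of_pos h2).symm⟩
    rw [hk] at h1 ⊢
    simp only [Nat.pred_eq_sub_one, Nat.add_sub_cancel] at h1
    rw [pow_succ]; omega

theorem ev_log (C : ℝ) (hC : 0 < C) : ∀ᶠ z : ℕ in atTop, C * Real.log z ^ 2 ≤ z := by
  have h := (Real.isLittleO_pow_log_id_atTop (n := 2)).bound (show 0 < 1 / C by positivity)
  filter_upwards [tendsto_natCast_atTop_atTop.eventually h] with z hz
  simp only [Real.norm_eq_abs, id, abs_pow, sq_abs, Nat.abs_cast] at hz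
  have := mul_le_mul_of_nonneg_left hz hC.le
  have e : C * (1 / C * z) = z := by field_simp
  linarith

theorem ev_pow (C : ℕ) : ∀ᶠ x : ℕ in atTop, C * x ^ 2 ≤ 2 ^ x := by
  have h := (tendsto_pow_const_div_const_pow_of_one_lt 2 (show (1 : ℝ) < 2 by norm_num)).eventually
    (gt_mem_nhds (show (0 : ℝ) < 1 / (C + 1) by positivity))
  filter_upwards [h] with x hx
  rw [div_lt_div_iff₀ (by positivity) (by positivity)] at hx
  have : (C : ℝ) * x ^ 2 ≤ 2 ^ x := by nlinarith [sq_nonneg (x : ℝ)]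
  exact_mod_cast this

end LA2x

theorem p_LA2 : S_LA2 := by
  intro h J c δ z₀ hh hJ c0' c1 hδ
  have J5 : (5 : ℝ) ≤ J := by exact_mod_cast hJ
  have h20 : (20 : ℝ) ≤ h := by exact_mod_cast hh
  obtain ⟨x₀, hx₀⟩ := eventually_atTop.1 (LA2x.ev_pow (48 * h ^ 2))
  have hl : ∀ᶠ z : ℕ in atTop, max 1 (1 / c) ≤ Real.log z :=
    (Real.tendsto_log_atTop.comp tendsto_natCast_atTop_atTop).eventually_ge_atTop _
  obtain ⟨z, z1, z2, z3, z4, z5, z6⟩ := ((eventually_ge_atTop z₀).and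
    ((eventually_ge_atTop (x₀ + h + 1)).and (hl.and
    ((LA2x.ev_log ((60 * (40 * J)) ^ 2) (by positivity)).and
    ((LA2x.ev_log (2 * 10 ^ 10 * h ^ 10 * J * (40 * J) / δ) (by positivity)).and
    (eventually_ge_atTop 1)))))).exists
  obtain ⟨l1, l2⟩ := log_two_bounds
  have w1 : 1 ≤ Real.log z := (le_max_left _ _).trans z3
  have w2 : 1 ≤ c * Real.log z := by
    have := (le_max_right _ _).trans z3
    rwa [div_le_iff₀ c0', mul_comm] at this
  have z0 : (0 : ℝ) < z := by exact_mod_cast z6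
  have zJ : z ≤ z ^ J := Nat.le_self_pow (by omega) z
  have L1 : 1 ≤ z ^ J := Nat.one_le_pow _ _ z6
  have L0 : (0 : ℝ) < (z : ℝ) ^ J := by positivity
  set w := Real.log z with hw
  have hlog : Real.log (2 * (z : ℝ) ^ J) = Real.log 2 + J * w := by
    rw [Real.log_mul (by norm_num) L0.ne', Real.log_pow]
  have eL : c * Real.log (2 * (z : ℝ) ^ J) / (z ^ J * Real.log 2) * z ^ J =
      c * (Real.log 2 + J * w) / Real.log 2 := by
    rw [hlog]; field_simp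
  have Jw : 5 ≤ J * w := by nlinarith
  have e2 : c * (Real.log 2 + J * w) / Real.log 2 ≤ 40 * J * w := by
    rw [div_le_iff₀ (by linarith)]; nlinarith
  have yz : (60 * (40 * J * w)) ^ 2 ≤ z := by
    calc _ = (60 * (40 * J)) ^ 2 * w ^ 2 := by ring
      _ ≤ _ := z4
  obtain ⟨t1, t2⟩ := LA2x.clog_bd (Nat.one_le_pow 2 _ L1)
  obtain ⟨g1, g2⟩ := LA2x.clog_bd (Nat.one_le_pow 20 _ L1)
  refine ⟨z, Nat.clog 2 ((z ^ J) ^ 2), Nat.clog 2 ((z ^ J) ^ 20), 40 * J * w, z1,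
    ⟨hh, hJ, by nlinarith, yz, by omega, t1, t2, g1, ?_, ?_, ?_, by positivity, le_rfl,
      hx₀ _ (by omega)⟩, ?_, ?_⟩
  · have a : (2 : ℝ) ^ Nat.clog 2 ((z ^ J) ^ 20) ≤ 2 * ((z : ℝ) ^ J) ^ 20 := by exact_mod_cast g2
    have b := Real.log_le_log (by positivity) a
    rw [Real.log_pow, Real.log_mul (by norm_num) (by positivity), Real.log_pow, Real.log_pow] at b
    push_cast at b
    have : (0 : ℝ) ≤ Nat.clog 2 ((z ^ J) ^ 20) := by positivity
    nlinarith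
  · rw [eL, le_div_iff₀ (by linarith)]; nlinarith
  · rw [eL]; exact e2
  · set ε := c * Real.log (2 * (z : ℝ) ^ J) / (z ^ J * Real.log 2) with hε
    have e0 : 0 ≤ ε := by rw [hε, hlog]; positivity
    have e3 : ε * z ^ J ≤ 40 * J * w := eL ▸ e2
    have z1' : (1 : ℝ) ≤ z := by exact_mod_cast z6
    have zh : (h : ℝ) + 1 ≤ z := by exact_mod_cast (by omega : h + 1 ≤ z)
    have p5 : (z : ℝ) ^ 5 ≤ z ^ J := pow_le_pow_right₀ z1' hJ
    have a : 1 + 12 / (h : ℝ) ≤ 1.6 := by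
      have : 12 / (h : ℝ) ≤ 0.6 := by rw [div_le_iff₀ (by linarith)]; linarith
      linarith
    have cb := c0_bounds
    have b : pu h ε (z ^ 2) ≤ 1.6 * (4 * 1 * ε * 0.7 * z ^ 2) := by
      unfold pu; push_cast
      have : 0 ≤ c0 := by linarith [cb.1]
      gcongr
      exact cb.2
    have y1 : 5 * (40 * J * w) ≤ z := by nlinarith
    have d : 5 * (ε * z ^ 2) * z ^ 3 ≤ z := by
      calc 5 * (ε * z ^ 2) * z ^ 3 = 5 * (ε * z ^ 5) := by ring
        _ ≤ 5 * (ε * z ^ J) := by gcongr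
        _ ≤ _ := by linarith
    have f : 0 ≤ ε * z ^ 2 := by positivity
    have z3' : (z : ℝ) * z ≤ z ^ 3 := by nlinarith
    have g : 5 * (ε * z ^ 2) * z ≤ 1 := by
      have : 5 * (ε * z ^ 2) * z * z ≤ 1 * z := by nlinarith
      exact le_of_mul_le_mul_right this z0
    rw [le_div_iff₀ (by positivity)]
    have p0 : pu h ε (z ^ 2) ≤ 5 * (ε * z ^ 2) := by linarith
    calc _ ≤ 5 * (ε * z ^ 2) * z := by gcongr
      _ ≤ 1 := g
  · rw [div_le_iff₀ z0]
    rw [div_mul_eq_mul_div, div_le_iff₀ hδ] at z5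
    have : 0 ≤ 2 * 10 ^ 10 * (h : ℝ) ^ 10 * J * (40 * J) := by positivity
    have w3 : w ≤ w ^ 2 := by nlinarith
    nlinarith [mul_le_mul_of_nonneg_left w3 this]

end Pool.Agent.P.MP_e45b92_nt.UG
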