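import Pool.Agent.P.MP_e45b92_nt.UG.IfaceC
import Pool.Agent.P.MP_e45b92_nt.UG.IfaceA

/-! Step LB. -/

set_option autoImplicit false

namespace Pool.Agent.P.MP_e45b92_nt.UG

open MeasureTheory Set

theorem p_LB (hWSU : S_WSU) : S_LB := by
  intro α β T X ε h S t s₀ s₁ n n' hh hT hX hε h1 h2 h3 h4 hG
  have h20 : (20 : ℝ) ≤ h := by exact_mod_cast hh
  have h0 : (0 : ℝ) < h := by linarith
  set l : ℝ := 1 / 2 ^ n with hl
  have l0 : 0 < l := by positivity
  set c : ℝ := (cell n β : ℝ) / 2 ^ n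
  have hc : ∀ b ∈ Cl n β, c ≤ b ∧ b < c + l := fun b hb => by
    rw [Cl_eq, add_div] at hb; exact hb
  have w0 : 0 < l / h := by positivity
  have w1 : h * (l / h) = l := by field_simp
  have j1 := Int.floor_le ((β - c) / (l / h))
  have j2 := Int.lt_floor_add_one ((β - c) / (l / h))
  generalize ⌊(β - c) / (l / h)⌋ = j at j1 j2
  rw [le_div_iff₀ w0] at j1
  rw [div_lt_iff₀ w0] at j2
  obtain ⟨b1, b2⟩ := hc β rfl
  have j3 : (-1 : ℝ) < j := lt_of_mul_lt_mul_right (by linarith) w0.le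
  have j4 : (j : ℝ) < h := lt_of_mul_lt_mul_right (by linarith) w0.le
  have j5 : -1 < j := by exact_mod_cast j3
  have j6 : j < h := by exact_mod_cast j4
  have W := hWSU α β h S t s₀ s₁ (j - h - 1) (j + 2) T X l hh hT hX l0 hG h1 h2 (by omega)
    (by omega) (by omega)
  set F := fam α β h T X l t s₀ s₁ (j - h - 1) (j + 2)
  have x1 : 1 / (h : ℝ) ≤ 1 / 20 := one_div_le_one_div_of_le (by norm_num) h20
  have sub : HitP n' α T ε t X s₀ s₁ ∩ Cl n β ⊆ ⋃ v ∈ F,
      Ioo (ctr v - rad α T ε v * (1 + 1 / h)) (ctr v + rad α T ε v * (1 + 1 / h)) := by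
    rintro b ⟨⟨b', e, v, v1, v2, v3, v4, v5⟩, hb⟩
    have q0 : (0 : ℝ) < v.1 := lt_trans (by positivity) v2
    have q1 : v.1 ≠ 0 := by exact_mod_cast q0.ne'
    have p0 : X ≤ X * 2 ^ s₀ := le_mul_of_one_le_right hX.le (one_le_pow₀ one_le_two)
    have a1 : X ≤ |xc α v| ∧ |xc α v| ≤ X * 2 ^ s₁ := by
      rcases v4 with f | f
      · rw [abs_of_pos (by linarith [f.1])]; constructor <;> linarith [f.1, f.2]
      · rw [abs_of_neg (by linarith [f.2])]; constructor <;> linarith [f.1, f.2]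
    have a2 : 0 < |xc α v| := hX.trans_le a1.1
    have r1 : |b' - ctr v| < rad α T ε v := by
      rw [yc_eq q1, abs_mul, abs_of_pos q0, lt_div_iff₀ hT] at v5
      rw [rad, lt_div_iff₀ (by positivity)]
      linarith
    have r2 : |b' - b| < rad α T ε v * (1 / h) := by
      refine ((abs_sub_lt_of_cell e).trans_le h4).trans_le ?_
      rw [rad, div_mul_div_comm, mul_one]
      refine div_le_div_of_nonneg_left hε.le (by positivity) ?_
      calc _ ≤ T * T * (X * 2 ^ s₁) * h := by gcongr; exact a1.2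
        _ = _ := by ring
    have r3 : rad α T ε v ≤ l / h / 2 := by
      refine le_trans ?_ (h3.trans_eq (by ring))
      calc _ ≤ ε / (T * (T / 2 ^ t) * X) := by unfold rad; gcongr; exact a1.1
        _ = _ := by field_simp
    have r4 := mul_le_mul r3 x1 (by positivity) (by positivity)
    rw [abs_lt] at r1 r2
    obtain ⟨c1, c2⟩ := hc b hb
    refine mem_iUnion₂.2 ⟨v, (mem_fam hX).2 ⟨v1, v2, v3, v4, ?_, ?_⟩, by linarith, by linarith⟩ <;>
      rw [yc_eq q1] <;> gcongr <;> push_cast <;> linarith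
  have fin : volume (⋃ v ∈ F, Ioo (ctr v - rad α T ε v * (1 + 1 / h))
      (ctr v + rad α T ε v * (1 + 1 / h))) ≠ ⊤ :=
    (measure_biUnion_lt_top F.finite_toSet fun _ _ => measure_Ioo_lt_top).ne
  have m1 := (measureReal_mono sub fin).trans (measureReal_biUnion_finset_le _ _)
  rw [Finset.sum_congr rfl (g := fun v => 2 * ε / T * (1 + 1 / h) * (1 / (v.1 * |xc α v|)))
    fun v hv => by
      have q0 : (0 : ℝ) < v.1 := lt_trans (by positivity) ((mem_fam hX).1 hv).2.1
      have : 0 ≤ rad α T ε v * (1 + 1 / h) := by unfold rad; positivity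
      rw [Real.volume_real_Ioo_of_le (by linarith), rad]
      ring, ← Finset.mul_sum] at m1
  have m2 := m1.trans (mul_le_mul_of_nonneg_left W (by positivity))
  refine (mul_le_mul_of_nonneg_left m2 (by positivity)).trans ?_
  have s0 : (0 : ℝ) ≤ 4 * c0 * ε * Real.log 2 * (s₁ - s₀) := by
    have : (s₀ : ℝ) ≤ s₁ := by exact_mod_cast h1
    have := c0_bounds.1
    have := log_two_bounds.1
    have := sub_nonneg.2 ‹(s₀ : ℝ) ≤ s₁›
    positivity
  rw [pu, Nat.cast_sub h1]
  refine le_of_eq_of_le ?_ (mul_le_mul_of_nonneg_right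
    (b := (1 + 1 / h : ℝ) * (1 + 5 * (1 / h)) * (1 + 3 * (1 / h))) ?_ s0)
  · rw [hl]; push_cast; field_simp; ring
  · rw [div_eq_mul_one_div 12]
    have := one_div_pos.2 h0
    generalize 1 / (h : ℝ) = x at *
    nlinarith [mul_pos this this]

end Pool.Agent.P.MP_e45b92_nt.UG
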