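import Pool.Agent.P.MP_e45b92_nt.UG.IfaceC

/-! Step LFIN. -/

set_option autoImplicit false

namespace Pool.Agent.P.MP_e45b92_nt.UG

open MeasureTheory Set

theorem p_LFIN (hLA : S_LA) : S_LFIN := by
  have hZ := Z3_bounds.1
  have key : ∀ᵐ z ∂μ2, ∀ n m : ℕ,
      ¬ ∀ T, (m : ℝ) ≤ T → Solv z.1 z.2 (eps (Z3 / 4 * (1 - 1 / (n + 2))) T) T := by
    refine ae_all_iff.2 fun n => ae_all_iff.2 fun m => ?_
    have h0 : (0 : ℝ) < 1 / (n + 2) := by positivity
    have h1 : (1 : ℝ) / (n + 2) < 1 := by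
      rw [div_lt_one (by positivity)]
      have : (0 : ℝ) ≤ n := by positivity
      linarith
    have := hLA (Z3 / 4 * (1 - 1 / (n + 2))) m (mul_pos (by linarith) (by linarith))
      (by nlinarith)
    rw [ae_iff]
    simpa only [not_not] using this
  filter_upwards [key] with z hz c hc
  rintro ⟨M, hM⟩
  obtain ⟨n, hn⟩ := exists_nat_gt (Z3 / 4 / (Z3 / 4 - c))
  have hcn : c ≤ Z3 / 4 * (1 - 1 / (n + 2)) := by
    rw [div_lt_iff₀ (by linarith)] at hn
    have h2 : Z3 / 4 * (1 / ((n : ℝ) + 2)) ≤ Z3 / 4 - c := by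
      rw [mul_one_div, div_le_iff₀ (by positivity)]
      nlinarith
    linarith
  obtain ⟨m, hm⟩ := exists_nat_gt (max M 16)
  refine hz n m fun T hT => ?_
  have hT1 : M < T := lt_of_le_of_lt (le_max_left _ _) (hm.trans_le hT)
  have hT2 : 16 < T := lt_of_le_of_lt (le_max_right _ _) (hm.trans_le hT)
  have hS : Solv z.1 z.2 (eps c T) T := by
    by_contra hS
    exact absurd (hM ⟨by linarith, hS⟩) (not_le.2 hT1)
  have hl : 1 ≤ Real.log T := by
    rw [Real.le_log_iff_exp_le (by linarith)]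
    linarith [Real.exp_one_lt_d9]
  have hll : 0 ≤ Real.log (Real.log T) := Real.log_nonneg hl
  refine hS.mono le_rfl ?_
  unfold eps
  gcongr

end Pool.Agent.P.MP_e45b92_nt.UG
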