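import Pool.Agent.P.MP_e45b92_nt.UG.IfaceA

/-! Step LM. -/

set_option autoImplicit false

namespace Pool.Agent.P.MP_e45b92_nt.UG

open MeasureTheory Set

namespace LMx

def B (Bad : Set ℝ) (n : ℕ) : Set ℝ := {β | Cl n β ⊆ Bad}

theorem cl {n : ℕ} {β β' : ℝ} (e : cell n β = cell n β') : Cl n β = Cl n β' := by
  simp only [Cl, e]

theorem ls {Bad A : Set ℝ} {n n' : ℕ} (h : n ≤ n') (hA : LS n' A) : LS n' (A \ B Bad n) :=
  fun β β' e hβ => ⟨hA β β' e hβ.1, fun hb => hβ.2 (by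
    have : Cl n β' ⊆ Bad := hb
    rwa [← cl (cell_mono h e)] at this)⟩

theorem pr {Bad A : Set ℝ} {n : ℕ} {p β : ℝ} (hp : 0 ≤ p) (hβ : β ∈ Ico (0 : ℝ) 1)
    (h : ∀ β ∈ Ico (0 : ℝ) 1, β ∉ Bad → Pr n A β ≤ p) : Pr n (A \ B Bad n) β ≤ p := by
  by_cases hb : Cl n β ⊆ Bad
  · have : (A \ B Bad n) ∩ Cl n β = ∅ := by
      refine eq_empty_of_forall_notMem fun x hx => hx.1.2 ?_
      show Cl n x ⊆ Bad
      rwa [cl hx.2]
    simpa [Pr, this] using hp
  · obtain ⟨x, hx, hx'⟩ := not_subset.1 hb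
    refine le_trans ?_ (h x (Cl_subset hβ hx) hx')
    rw [LC_Pr n A x β hx]
    exact mul_le_mul_of_nonneg_left (measureReal_mono (inter_subset_inter_left _ sdiff_subset)
      (ne_top_of_le_ne_top (volume_Cl_ne_top n β) (measure_mono inter_subset_right)))
      (by positivity)

end LMx

theorem p_LM (hLM0 : S_LM0) : S_LM := by
  intro n H Γ act Bad E K m m₀ n₀ p p' Wm F hE h
  have key := hLM0 n (fun k i => H k i \ LMx.B Bad (n i)) (fun k i => Γ k i \ LMx.B Bad (n i))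
    act Bad E K m m₀ n₀ p p' Wm
    { F with
      lsH := fun k i => LMx.ls (F.mono (by omega)) (F.lsH k i)
      lsΓ := fun k i => LMx.ls (F.mono (by omega)) (F.lsΓ k i)
      off := fun k hk i hi => by simp [(F.off k hk i hi).1, (F.off k hk i hi).2]
      few := fun β hβ hb i => le_trans (ncard_le_ncard (t := {k | k < K ∧ β ∈ H k i})
        (fun k hk => ⟨hk.1, hk.2.1⟩) ((finite_lt_nat K).subset fun k hk => hk.1))
        (F.few β hβ hb i) } hE
    fun k hk i β hβ => ⟨LMx.pr F.p0 hβ fun x hx hb => (h k hk i x hx hb).1,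
      LMx.pr F.q0 hβ fun x hx hb => (h k hk i x hx hb).2⟩
  have sub : {β | ∀ k < K, (∃ i, β ∈ H k i ∨ β ∈ Γ k i) ∨ β ∈ E k} ⊆ Bad ∪
      {β | ∀ k < K, (∃ i, β ∈ H k i \ LMx.B Bad (n i) ∨ β ∈ Γ k i \ LMx.B Bad (n i)) ∨
        β ∈ E k} := by
    intro β hβ
    by_cases hb : β ∈ Bad
    · exact Or.inl hb
    · refine Or.inr fun k hk => (hβ k hk).imp_left fun ⟨i, hi⟩ => ⟨i, ?_⟩
      have : β ∉ LMx.B Bad (n i) := fun hc => hb (hc (mem_Cl _ _))
      exact hi.imp (fun a => ⟨a, this⟩) fun a => ⟨a, this⟩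
  have := (measureReal_mono (μ := μ1) sub).trans (measureReal_union_le _ _)
  linarith

end Pool.Agent.P.MP_e45b92_nt.UG
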