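import Pool.Agent.P.MP_e45b92_nt.UG.IfaceA

/-! Step LM0. -/

set_option autoImplicit false

namespace Pool.Agent.P.MP_e45b92_nt.UG

open MeasureTheory Set

namespace LM0x

theorem ae_Ico : ∀ᵐ β ∂μ1, β ∈ Ico (0 : ℝ) 1 := ae_restrict_mem measurableSet_Ico

theorem real_compl : μ1.real (Ico (0 : ℝ) 1)ᶜ = 0 := by
  have h : μ1 (Ico (0 : ℝ) 1)ᶜ = 0 := ae_Ico
  rw [Measure.real, h]; rfl

theorem ind_nonneg (A : Set ℝ) (β : ℝ) : 0 ≤ A.indicator (1 : ℝ → ℝ) β :=
  indicator_nonneg (fun _ _ => zero_le_one) β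

theorem integrable_mul_ind {f : ℝ → ℝ} (hf : Integrable f μ1) {A : Set ℝ}
    (hA : MeasurableSet A) : Integrable (fun β => f β * A.indicator 1 β) μ1 := by
  have e : (fun β => f β * A.indicator 1 β) = A.indicator f := by
    funext β
    by_cases h : β ∈ A
    · simp [indicator_of_mem h]
    · simp [indicator_of_notMem h]
  rw [e]
  exact hf.indicator hA

theorem integral_mul_ind_le {f : ℝ → ℝ} (hf : Integrable f μ1) {A : Set ℝ}
    (hA : MeasurableSet A) {C : ℝ} (hC : ∀ β ∈ Ico (0 : ℝ) 1, f β ≤ C) :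
    ∫ β, f β * A.indicator 1 β ∂μ1 ≤ C * μ1.real A := by
  have h1 : ∫ β, C * A.indicator (1 : ℝ → ℝ) β ∂μ1 = C * μ1.real A := by
    rw [integral_const_mul, integral_indicator_one hA]
  rw [← h1]
  refine integral_mono_ae (integrable_mul_ind hf hA)
    (integrable_mul_ind (integrable_const C) hA) ?_
  filter_upwards [ae_Ico] with β hβ
  exact mul_le_mul_of_nonneg_right (hC β hβ) (ind_nonneg A β)

end LM0x

open LM0x in
theorem p_LM0 (hW3 : S_W3) (hW4 : S_W4) (hLMV : S_LMV) : S_LM0 := by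
  intro n H Γ act Bad E K m m₀ n₀ p p' Wm hF hE hP
  have hK : (0 : ℝ) < K := by exact_mod_cast hF.K0
  have hhalf : ∀ k < K, ∀ i < m, ∀ β ∈ Ico (0 : ℝ) 1, Pr (n i) (H k i) β ≤ 1 / 2 :=
    fun k hk i _ β hβ => (hP k hk i β hβ).1.trans hF.p1
  have hLC : ∀ k, LC (n m) (Wt n (H k) m) := fun k => LC_Wt hF.mono fun i _ => hF.lsH k i
  have h0 : ∀ k < K, ∀ β ∈ Ico (0 : ℝ) 1, 0 ≤ Wt n (H k) m β :=
    fun k hk β hβ => Wt_nonneg fun i hi => hhalf k hk i hi β hβ
  have hW : ∀ k < K, ∀ β ∈ Ico (0 : ℝ) 1, Wt n (H k) m β ≤ Wm :=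
    fun k hk β hβ => hW4 n (H k) (act k) m m₀ p Wm β hF.p0 hF.p1 (hF.card k hk) hF.W
      (fun i hi => (hF.off k hk i hi).1) (fun i _ => (hP k hk i β hβ).1)
  -- the variance part
  have hV := hLMV n H Γ act Bad K m m₀ n₀ p p' Wm hF (fun k hk i β hβ => (hP k hk i β hβ).1)
  have hSq : Integrable (fun β => (∑ k ∈ Finset.range K, Wt n (H k) m β - K) ^ 2) μ1 := by
    refine LC.integrable (n := n m) fun β β' e => ?_
    have : ∑ k ∈ Finset.range K, Wt n (H k) m β = ∑ k ∈ Finset.range K, Wt n (H k) m β' :=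
      Finset.sum_congr rfl fun k _ => hLC k β β' e
    simp only [this]
  have hA := cheb (f := fun β => ∑ k ∈ Finset.range K, Wt n (H k) m β - K) hSq
    (u := (K : ℝ) / 2) (by positivity)
  -- the first moment part
  have hIΓ : ∀ k i, Integrable (fun β => Wt n (H k) m β * (Γ k i).indicator 1 β) μ1 :=
    fun k i => integrable_mul_ind (hLC k).integrable (hF.lsΓ k i).measurableSet
  have hIE : ∀ k, Integrable (fun β => Wt n (H k) m β * (E k).indicator 1 β) μ1 :=
    fun k => integrable_mul_ind (hLC k).integrable (hE k)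
  have hIk : ∀ k, Integrable (fun β => ∑ i ∈ act k, Wt n (H k) m β * (Γ k i).indicator 1 β +
      Wt n (H k) m β * (E k).indicator 1 β) μ1 :=
    fun k => (integrable_finsetSum _ fun i _ => hIΓ k i).add (hIE k)
  have hk1 : ∀ k < K, ∫ β, (∑ i ∈ act k, Wt n (H k) m β * (Γ k i).indicator 1 β +
      Wt n (H k) m β * (E k).indicator 1 β) ∂μ1 ≤ m₀ * (4 * p') + Wm * μ1.real (E k) := by
    intro k hk
    rw [integral_add (integrable_finsetSum _ fun i _ => hIΓ k i) (hIE k),
      integral_finsetSum _ fun i _ => hIΓ k i]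
    have h1 : ∑ i ∈ act k, ∫ β, Wt n (H k) m β * (Γ k i).indicator 1 β ∂μ1 ≤
        ∑ _i ∈ act k, 4 * p' := Finset.sum_le_sum fun i hi =>
      (hW3 n (H k) m hF.mono (fun i _ => hF.lsH k i) (hhalf k hk)).2.2 i (Γ k i) p'
        (hF.top k hk i hi) (hF.lsΓ k i) (fun β hβ => (hP k hk i β hβ).2)
    rw [Finset.sum_const, nsmul_eq_mul] at h1
    have h2 : ((act k).card : ℝ) ≤ m₀ := by exact_mod_cast hF.card k hk
    have h3 := integral_mul_ind_le (hLC k).integrable (hE k) (hW k hk)
    have h4 := mul_le_mul_of_nonneg_right h2 (show 0 ≤ 4 * p' by linarith [hF.q0])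
    linarith
  have hB := markov (μ := μ1) (f := fun β => ∑ k ∈ Finset.range K,
      (∑ i ∈ act k, Wt n (H k) m β * (Γ k i).indicator 1 β +
        Wt n (H k) m β * (E k).indicator 1 β)) (by
      filter_upwards [ae_Ico] with β hβ
      refine Finset.sum_nonneg fun k hk => ?_
      have := h0 k (Finset.mem_range.1 hk) β hβ
      exact add_nonneg (Finset.sum_nonneg fun i _ => mul_nonneg this (ind_nonneg _ _))
        (mul_nonneg this (ind_nonneg _ _)))
    (integrable_finsetSum _ fun k _ => hIk k) (u := (K : ℝ) / 2) (by positivity)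
  rw [integral_finsetSum _ fun k _ => hIk k] at hB
  have hB1 := Finset.sum_le_sum fun k (hk : k ∈ Finset.range K) => hk1 k (Finset.mem_range.1 hk)
  rw [Finset.sum_add_distrib, Finset.sum_const, Finset.card_range, nsmul_eq_mul,
    ← Finset.mul_sum] at hB1
  -- inclusion
  have hsub : {β | ∀ k < K, (∃ i, β ∈ H k i ∨ β ∈ Γ k i) ∨ β ∈ E k} ⊆
      ({β | (K : ℝ) / 2 ≤ |∑ k ∈ Finset.range K, Wt n (H k) m β - K|} ∪
      {β | (K : ℝ) / 2 ≤ ∑ k ∈ Finset.range K,
        (∑ i ∈ act k, Wt n (H k) m β * (Γ k i).indicator 1 β +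
          Wt n (H k) m β * (E k).indicator 1 β)}) ∪ (Ico (0 : ℝ) 1)ᶜ := by
    intro β hβ
    by_cases hI : β ∈ Ico (0 : ℝ) 1
    · left
      have hle : ∑ k ∈ Finset.range K, Wt n (H k) m β ≤ ∑ k ∈ Finset.range K,
          (∑ i ∈ act k, Wt n (H k) m β * (Γ k i).indicator 1 β +
            Wt n (H k) m β * (E k).indicator 1 β) := by
        refine Finset.sum_le_sum fun k hk => ?_
        have hk' := Finset.mem_range.1 hk
        have hn := h0 k hk' β hI
        have hs : 0 ≤ ∑ i ∈ act k, Wt n (H k) m β * (Γ k i).indicator 1 β :=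
          Finset.sum_nonneg fun i _ => mul_nonneg hn (ind_nonneg _ _)
        have he : 0 ≤ Wt n (H k) m β * (E k).indicator 1 β := mul_nonneg hn (ind_nonneg _ _)
        rcases hβ k hk' with ⟨i, hi | hi⟩ | hi
        · have hact : i ∈ act k := by
            by_contra hc
            rw [(hF.off k hk' i hc).1] at hi
            exact hi
          have him : i < m := by have := hF.top k hk' i hact; omega
          have hz : Wt n (H k) m β = 0 :=
            Finset.prod_eq_zero (Finset.mem_range.2 him) (by simp only [Xf, if_pos hi])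
          linarith
        · have hact : i ∈ act k := by
            by_contra hc
            rw [(hF.off k hk' i hc).2] at hi
            exact hi
          have h1 := Finset.single_le_sum
            (f := fun i => Wt n (H k) m β * (Γ k i).indicator 1 β)
            (fun i _ => mul_nonneg hn (ind_nonneg _ _)) hact
          simp only [indicator_of_mem hi, Pi.one_apply, mul_one] at h1
          linarith
        · simp only [indicator_of_mem hi, Pi.one_apply, mul_one]
          linarith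
      by_cases hc : (K : ℝ) / 2 ≤ |∑ k ∈ Finset.range K, Wt n (H k) m β - K|
      · exact Or.inl hc
      · right
        have := (abs_lt.1 (not_le.1 hc)).1
        show (K : ℝ) / 2 ≤ _
        linarith
    · exact Or.inr hI
  have hm := (measureReal_mono hsub (measure_ne_top μ1 _)).trans
    ((measureReal_union_le _ _).trans (add_le_add (measureReal_union_le _ _) le_rfl))
  rw [real_compl, add_zero] at hm
  have hA2 := hA.trans (div_le_div_of_nonneg_right hV (by positivity))
  have hB2 := hB.trans (div_le_div_of_nonneg_right hB1 (by positivity))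
  have e1 : (4 * K * Wm * n₀ * m₀ * p + 4 * m * (K : ℝ) ^ 2 * Wm ^ 2 * μ1.real Bad) /
      ((K : ℝ) / 2) ^ 2 = 16 * Wm * n₀ * m₀ * p / K + 16 * m * Wm ^ 2 * μ1.real Bad := by
    field_simp; ring
  have e2 : (K * (m₀ * (4 * p')) + Wm * ∑ k ∈ Finset.range K, μ1.real (E k)) / ((K : ℝ) / 2) =
      8 * m₀ * p' + 2 * Wm / K * ∑ k ∈ Finset.range K, μ1.real (E k) := by
    field_simp; ring
  rw [e1] at hA2
  rw [e2] at hB2
  linarith

end Pool.Agent.P.MP_e45b92_nt.UG
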