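import Pool.Agent.P.MP_e45b92_nt.UG.IfaceC

/-! Step LP1. -/

set_option autoImplicit false

namespace Pool.Agent.P.MP_e45b92_nt.UG

open MeasureTheory Set

theorem p_LP1 : S_LP1 := by
  intro h J z t g ε y Wm ⟨h20, J5, y1, yz, hz, _, t2, g1, g2, e1, e2, _, _, tT⟩
  have z1 : 3600 * y ≤ z := by nlinarith
  have z2 : 3600 ≤ z := by exact_mod_cast (by linarith : (3600 : ℝ) ≤ z)
  have gz : g ≤ z := by exact_mod_cast (by linarith : (g : ℝ) ≤ z)
  have z0 : 0 < z := by omega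
  have L5 : z ^ 5 ≤ z ^ J := Nat.pow_le_pow_right z0 J5
  have K1 : z ^ (J - 3) / h * z ^ 3 ≤ z ^ J :=
    (Nat.mul_le_mul_right _ (Nat.div_le_self _ _)).trans (by rw [← pow_add, Nat.sub_add_cancel (by omega)])
  have K0 : 0 < z ^ (J - 3) / h :=
    Nat.div_pos (hz.trans (Nat.le_self_pow (by omega) z)) (by omega)
  have zL : z ≤ z ^ J := Nat.le_self_pow (by omega) z
  rw [← Nat.cast_pow] at e1 e2
  generalize z ^ (J - 3) / h = K at *
  generalize z ^ J = L at *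
  have L1 : 1 ≤ L := by omega
  have zR : (z : ℝ) ≤ L := by exact_mod_cast zL
  have zp : (0 : ℝ) < z := by exact_mod_cast z0
  have Lp : (0 : ℝ) < L := zp.trans_le zR
  have e0 : 0 < ε := (mul_pos_iff_of_pos_right Lp).1 (one_pos.trans_le e1)
  have p1 : ∀ n, n ≤ 20 → L ^ n ≤ 2 ^ g := fun n hn => (Nat.pow_le_pow_right L1 hn).trans g1
  refine ⟨⟨h20, e0, le_of_mul_le_mul_right (by linarith) Lp, K0, by positivity, ?_, ?_,
    by nlinarith, ?_, ?_⟩, ?_⟩
  · have a : (L : ℝ) ^ 2 ≤ 2 ^ g := by exact_mod_cast p1 2 (by norm_num)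
    have b : (h : ℝ) ≤ L := by exact_mod_cast hz.trans zL
    nlinarith [mul_le_mul_of_nonneg_left a e0.le]
  · have : 2 * h ^ 2 * 2 ^ t ≤ 2 ^ g :=
      calc 2 * h ^ 2 * 2 ^ t ≤ 2 * L ^ 2 * (2 * L ^ 2) := by gcongr; omega
        _ = 4 * L ^ 4 := by ring
        _ ≤ L * L ^ 4 := by gcongr; omega
        _ ≤ 2 ^ g := pow_succ' L 4 ▸ p1 5 (by norm_num)
    exact_mod_cast this
  · have : 24 * h ^ 2 * 2 ^ t ≤ 2 ^ L := le_trans (by nlinarith [sq_nonneg h]) tT
    exact_mod_cast this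
  · have : 3 * (1 + L + K * z ^ 3) ≤ 2 ^ g := le_trans (by nlinarith) (p1 2 (by norm_num))
    exact_mod_cast this
  · have a1 : (12 : ℝ) / h ≤ 12 / 20 := by gcongr; exact_mod_cast h20
    have a2 : (z : ℝ) ^ 5 ≤ L := by exact_mod_cast L5
    have a3 : ε * (z : ℝ) ^ 2 ≤ 1 / 3600 := by
      have b1 : (z : ℝ) ^ 3 ≤ z ^ 5 := pow_le_pow_right₀ (by linarith) (by norm_num)
      have b2 := mul_le_mul_of_nonneg_left (b1.trans a2) e0.le
      exact le_of_mul_le_mul_right (by nlinarith) zp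
    have a4 : c0 * Real.log 2 ≤ 1 * 1 :=
      mul_le_mul c0_bounds.2 (by linarith [log_two_bounds.2]) (by positivity) zero_le_one
    have a5 := mul_le_mul a4 a3 (by positivity) (by norm_num)
    have a6 : 0 ≤ c0 * Real.log 2 * (ε * (z : ℝ) ^ 2) := by
      have := c0_bounds.1
      positivity
    rw [pu]
    push_cast
    nlinarith

end Pool.Agent.P.MP_e45b92_nt.UG
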