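import Pool.Agent.P.MP_e45b92_nt.UG.IfaceC

/-! Step LP2. -/

set_option autoImplicit false

namespace Pool.Agent.P.MP_e45b92_nt.UG

open MeasureTheory Set

namespace LP2x

theorem pu_b (h s : ℕ) (ε : ℝ) (hh : 20 ≤ h) (he : 0 ≤ ε) :
    0 ≤ pu h ε s ∧ pu h ε s ≤ 5 * ε * s := by
  have h1 : (20 : ℝ) ≤ h := by exact_mod_cast hh
  have h2 : (12 : ℝ) / h ≤ 3 / 5 := by rw [div_le_div_iff₀ (by linarith) (by norm_num)]; linarith
  have h3 : (0 : ℝ) ≤ 12 / h := by positivity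
  have l1 := Real.log_two_lt_d9
  have l0 := Real.log_two_gt_d9
  obtain ⟨c1, c2⟩ := c0_bounds
  have hs : (0 : ℝ) ≤ ε * s := by positivity
  have e : pu h ε s = ((1 + 12 / h) * (4 * (c0 * Real.log 2))) * (ε * s) := by
    rw [pu]; ring
  have a0 : 0 ≤ c0 * Real.log 2 := mul_nonneg (by linarith) (by linarith)
  have a1 : c0 * Real.log 2 ≤ 7 / 10 := by nlinarith
  rw [e]
  refine ⟨by positivity, ?_⟩
  have : (1 + 12 / (h : ℝ)) * (4 * (c0 * Real.log 2)) ≤ 5 := by nlinarith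
  calc _ ≤ 5 * (ε * s) := mul_le_mul_of_nonneg_right this hs
    _ = _ := by ring

theorem core (h J Z P g K m ε y Wm p1 p2 T : ℝ) (hh : 20 ≤ h) (hJ : 5 ≤ J) (hy : 1 ≤ y)
    (hyz : y ≤ Z) (hP : 1 ≤ P) (hg0 : 0 ≤ g) (hg : g ≤ y) (he0 : 0 ≤ ε)
    (he : ε * (P * Z ^ 4) ≤ y) (hW : Wm ≤ 2 * P) (hK1 : P * Z ≤ 2 * h * K)
    (hK2 : K * Z ^ 3 ≤ P * Z ^ 4) (hm0 : 0 ≤ m) (hm : m ≤ 2 * P * Z ^ 2) (hp10 : 0 ≤ p1)
    (hp1 : p1 ≤ 5 * ε * Z ^ 2) (hp20 : 0 ≤ p2) (hp2 : p2 ≤ 5 * ε * g)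
    (hT : (P * Z ^ 4) ^ 2 ≤ T) :
    (16 * Wm * (10 * J) * m * p1 / K + 8 * m * p2) +
      2 * Wm * (ε * ((2 + 8 * (P * Z ^ 4 + K * Z ^ 3 + g)) / T +
        2 * (2 + 8 * (Z ^ 2 + 5 * g)))) ≤ 8000 * h * J * y / Z := by
  have hZ : 1 ≤ Z := hy.trans hyz
  have hZ0 : 0 < Z := by linarith
  have hPZ : 0 < P * Z := by positivity
  have hK0 : 0 < K := by
    by_contra hc
    push Not at hc
    nlinarith
  have hZ2 : Z ≤ Z ^ 2 := by nlinarith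
  have hZ4 : Z ≤ Z ^ 4 := by nlinarith
  have hL : Z ≤ P * Z ^ 4 := by nlinarith
  have t1 : 16 * Wm * (10 * J) * m * p1 / K ≤ 6400 * h * J * y / Z := by
    rw [div_le_div_iff₀ hK0 hZ0]
    calc 16 * Wm * (10 * J) * m * p1 * Z
        ≤ 16 * (2 * P) * (10 * J) * (2 * P * Z ^ 2) * (5 * ε * Z ^ 2) * Z := by gcongr
      _ = 3200 * J * (ε * (P * Z ^ 4)) * (P * Z) := by ring
      _ ≤ 3200 * J * y * (2 * h * K) := by gcongr
      _ = 6400 * h * J * y * K := by ring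
  have t2 : 8 * m * p2 ≤ 80 * y / Z := by
    rw [le_div_iff₀ hZ0]
    calc 8 * m * p2 * Z ≤ 8 * (2 * P * Z ^ 2) * (5 * ε * g) * Z := by gcongr
      _ ≤ 8 * (2 * P * Z ^ 2) * (5 * ε * Z) * Z := by gcongr; exact hg.trans hyz
      _ = 80 * (ε * (P * Z ^ 4)) := by ring
      _ ≤ 80 * y := by gcongr
  have hT0 : 0 < T := lt_of_lt_of_le (by positivity) hT
  have u1 : (2 + 8 * (P * Z ^ 4 + K * Z ^ 3 + g)) / T ≤ 26 := by
    rw [div_le_iff₀ hT0]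
    obtain ⟨L, hLe⟩ : ∃ L, L = P * Z ^ 4 := ⟨_, rfl⟩
    rw [← hLe] at hT hK2 hL ⊢
    nlinarith
  have u2 : (2 + 8 * (P * Z ^ 4 + K * Z ^ 3 + g)) / T + 2 * (2 + 8 * (Z ^ 2 + 5 * g)) ≤
      126 * Z ^ 2 := by nlinarith
  have u0 : 0 ≤ (2 + 8 * (P * Z ^ 4 + K * Z ^ 3 + g)) / T + 2 * (2 + 8 * (Z ^ 2 + 5 * g)) := by
    positivity
  have t3 : 2 * Wm * (ε * ((2 + 8 * (P * Z ^ 4 + K * Z ^ 3 + g)) / T +
      2 * (2 + 8 * (Z ^ 2 + 5 * g)))) ≤ 504 * y / Z := by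
    rw [le_div_iff₀ hZ0]
    calc _ ≤ 2 * (2 * P) * (ε * (126 * Z ^ 2)) * Z ^ 2 := by gcongr
      _ = 504 * (ε * (P * Z ^ 4)) := by ring
      _ ≤ 504 * y := by gcongr
  have hj : 100 ≤ h * J := by nlinarith
  have : 6400 * h * J * y / Z + 80 * y / Z + 504 * y / Z ≤ 8000 * h * J * y / Z := by
    rw [← add_div, ← add_div]
    refine div_le_div_of_nonneg_right ?_ hZ0.le
    nlinarith
  linarith

end LP2x

theorem p_LP2 : S_LP2 := by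
  intro h J z t g K m₀ ε y Wm hp hK hm
  obtain ⟨j, rfl⟩ : ∃ j, J = j + 4 := ⟨J - 4, by have := hp.J5; omega⟩
  have e3 : j + 4 - 3 = j + 1 := by omega
  have e4 : j + 4 - 4 = j := by omega
  have hy := hp.y1
  have hyz : y ≤ z := by nlinarith [hp.yz]
  have hz1 : 1 ≤ z := by
    have : (1 : ℝ) ≤ z := hy.trans hyz
    exact_mod_cast this
  have hh := hp.h20
  have hP : 1 ≤ z ^ j := Nat.one_le_pow _ _ hz1
  rw [e3, pow_succ] at hK
  have k1 : z ^ j * z ≤ 2 * h * K := by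
    have a := Nat.lt_mul_div_succ (z ^ j * z) (show 0 < h by omega)
    rw [← hK] at a
    have b : h ≤ z ^ j * z := hp.hz.trans (Nat.le_mul_of_pos_left _ hP)
    have c : 1 ≤ K := by rw [hK]; exact (Nat.le_div_iff_mul_le (by omega)).2 (by omega)
    nlinarith
  have k2 : K * z ^ 3 ≤ z ^ j * z ^ 4 := by
    have : K ≤ z ^ j * z := by rw [hK]; exact Nat.div_le_self _ _
    calc K * z ^ 3 ≤ z ^ j * z * z ^ 3 := Nat.mul_le_mul_right _ this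
      _ = _ := by ring
  have k3 : m₀ ≤ 2 * z ^ j * z ^ 2 := by
    rw [hm]
    refine Nat.div_le_of_le_mul ?_
    rw [pow_add]
    calc z ^ j * z ^ 4 + K * z ^ 3 ≤ z ^ 2 * (2 * z ^ j * z ^ 2) := by nlinarith
      _ ≤ _ := Nat.mul_le_mul_right _ (Nat.le_add_right _ _)
  have he0 : 0 ≤ ε := by
    by_contra hc
    push Not at hc
    have := hp.e1
    have h2 : (0 : ℝ) ≤ (z : ℝ) ^ (j + 4) := by positivity
    nlinarith
  have q1 := LP2x.pu_b h (z ^ 2) ε hh he0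
  have q2 := LP2x.pu_b h g ε hh he0
  have hW := hp.W1
  have he := hp.e2
  have hT := hp.t1
  rw [e4] at hW
  rw [pow_add] at he hT
  have := LP2x.core h ((j + 4 : ℕ) : ℝ) z (z ^ j) g K m₀ ε y Wm (pu h ε (z ^ 2)) (pu h ε g) (2 ^ t)
    (by exact_mod_cast hh) (by exact_mod_cast hp.J5) hy hyz (by exact_mod_cast hP)
    (by positivity) hp.g2 he0 he hW (by exact_mod_cast k1) (by exact_mod_cast k2)
    (by positivity) (by exact_mod_cast k3) q1.1 (by simpa using q1.2) q2.1 q2.2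
    (by exact_mod_cast hT)
  rw [pow_add (z : ℝ) j 4, Nat.cast_mul]
  exact this

end Pool.Agent.P.MP_e45b92_nt.UG
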