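import Pool.Agent.P.MP_e45b92_nt.UG.IfaceC

/-! Step LP3. -/

set_option autoImplicit false

namespace Pool.Agent.P.MP_e45b92_nt.UG

open MeasureTheory Set

theorem p_LP3 : S_LP3 := by
  intro h J z t g K ε y Wm P hK
  obtain ⟨h20, J5, y1, yz, -, -, t2, g1, g2, e1, e2, W0, W1, tT⟩ := P
  have tL : t + 1 ≤ z ^ J := by
    refine (Nat.pow_le_pow_iff_right (by norm_num : 1 < 2)).1 (le_trans ?_ tT)
    have : 4 ≤ 48 * h ^ 2 := by nlinarith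
    calc 2 ^ (t + 1) = 2 * 2 ^ t := pow_succ' _ _
      _ ≤ 4 * (z ^ J) ^ 2 := by omega
      _ ≤ _ := Nat.mul_le_mul_right _ this
  have KL : K * z ^ 3 ≤ z ^ J := by
    calc K * z ^ 3 ≤ z ^ (J - 3) * z ^ 3 := Nat.mul_le_mul_right _ (hK ▸ Nat.div_le_self _ _)
      _ = _ := by rw [← pow_add, Nat.sub_add_cancel (by omega)]
  have tL' : (t : ℝ) + 1 ≤ (z : ℝ) ^ J := by exact_mod_cast tL
  have KL' : (K : ℝ) * z ^ 3 ≤ (z : ℝ) ^ J := by exact_mod_cast KL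
  have t2' : (2 : ℝ) ^ t ≤ 2 * ((z : ℝ) ^ J) ^ 2 := by exact_mod_cast t2
  have g1' : ((z : ℝ) ^ J) ^ 20 ≤ 2 ^ g := by exact_mod_cast g1
  have H1 : (1 : ℝ) ≤ (h : ℝ) ^ 10 := one_le_pow₀ (by exact_mod_cast (by omega : 1 ≤ h))
  have K0 : (0 : ℝ) ≤ K := Nat.cast_nonneg _
  have g0 : (0 : ℝ) ≤ g := Nat.cast_nonneg _
  have T0 : (0 : ℝ) ≤ t := Nat.cast_nonneg _
  generalize (z : ℝ) = Z at *
  generalize (h : ℝ) ^ 10 = H at *
  generalize (K : ℝ) = k at *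
  generalize (g : ℝ) = G at *
  generalize (t : ℝ) = T at *
  have yZ : 60 * y ≤ Z := by nlinarith
  have Z1 : 1 ≤ Z := by linarith
  have Z0 : 0 < Z := by linarith
  have Z2 : Z ≤ Z ^ 2 := by nlinarith
  have L2 : Z ^ 2 ≤ Z ^ J := pow_le_pow_right₀ Z1 (by omega)
  have W2 : Wm ≤ 2 * Z ^ J := W1.trans (by gcongr; exact Nat.sub_le _ _)
  have G3 : Z ^ 2 + G + 1 ≤ 3 * Z ^ 2 := by linarith
  have L0 : 0 < Z ^ J := by positivity
  have ε0 : 0 < ε := (mul_pos_iff_of_pos_right L0).1 (by linarith)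
  obtain ⟨r, hr⟩ : ∃ r, r = k * (20 * ε * (Z ^ 2 + G + 1)) := ⟨_, rfl⟩
  have r0 : 0 ≤ r := hr ▸ by positivity
  have r1 : r * Z ≤ 60 * y := by
    calc r * Z ≤ k * (20 * ε * (3 * Z ^ 2)) * Z := by rw [hr]; gcongr
      _ = 60 * (ε * (k * Z ^ 3)) := by ring
      _ ≤ 60 * (ε * Z ^ J) := by gcongr
      _ ≤ _ := by linarith
  have r2 : r ^ 2 ≤ 1 / Z := by
    rw [le_div_iff₀ Z0]
    refine le_of_mul_le_mul_right ?_ Z0
    calc r ^ 2 * Z * Z = (r * Z) ^ 2 := by ring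
      _ ≤ (60 * y) ^ 2 := by gcongr
      _ ≤ _ := by linarith
  have r3 : r ≤ 1 := le_of_mul_le_mul_right (by linarith) Z0
  have r4 : r ^ (10 * J + 1) ≤ 1 / (Z ^ J) ^ 5 := by
    calc r ^ (10 * J + 1) ≤ r ^ (2 * (J * 5)) := pow_le_pow_of_le_one r0 r3 (by omega)
      _ = (r ^ 2) ^ (J * 5) := pow_mul _ _ _
      _ ≤ (1 / Z) ^ (J * 5) := by gcongr
      _ = _ := by rw [one_div_pow, pow_mul]
  rw [← hr]
  have kL : k ≤ Z ^ J := le_trans (le_mul_of_one_le_right K0 (one_le_pow₀ Z1)) KL'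
  have ZL : Z ≤ Z ^ J := Z2.trans L2
  have G4 : Z ^ 2 + G + 1 ≤ 3 * Z ^ J := by linarith
  have t4 : (4 : ℝ) ^ t ≤ 4 * (Z ^ J) ^ 4 := by
    calc (4 : ℝ) ^ t = (2 ^ t) ^ 2 := by rw [← pow_mul, mul_comm, pow_mul]; norm_num
      _ ≤ (2 * (Z ^ J) ^ 2) ^ 2 := by gcongr
      _ = _ := by ring
  have kz : 0 ≤ k * Z ^ 3 := by positivity
  generalize k * Z ^ 3 = u at *
  generalize Z ^ J = L at *
  have L1 : 1 ≤ L := Z1.trans ZL
  have eg : L ^ 19 ≤ ε * 2 ^ g := by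
    calc L ^ 19 = 1 * L ^ 19 := (one_mul _).symm
      _ ≤ ε * L * L ^ 19 := by gcongr
      _ = ε * L ^ 20 := by ring
      _ ≤ _ := by gcongr
  have m1 : 2 * (L + u) + 2 ≤ 6 * L := by linarith
  have A1 : 1 + 16 * (2 * (L + u) + 2) * Wm ^ 2 ≤ 400 * L ^ 3 := by
    have : 1 ≤ L ^ 3 := one_le_pow₀ L1
    calc _ ≤ 1 + 16 * (6 * L) * (2 * L) ^ 2 := by gcongr
      _ = 1 + 384 * L ^ 3 := by ring
      _ ≤ _ := by linarith
  have L8 : Z ≤ L ^ 8 := ZL.trans (le_self_pow₀ L1 (by norm_num))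
  calc _ ≤ 400 * L ^ 3 * (6 * L * (3 * (1 / L ^ 5) +
        L * (50000 * H * (3 * L) * L * (4 * L ^ 4) / L ^ 19))) := by gcongr
    _ = 7200 / L + 1440000000 * H / L ^ 8 := by field_simp; ring
    _ ≤ 7200 * H / Z + 1440000000 * H / Z := by gcongr; linarith
    _ = 1440007200 * H / Z := by ring
    _ ≤ _ := by gcongr; norm_num

end Pool.Agent.P.MP_e45b92_nt.UG
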