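import Pool.Agent.P.MP_e45b92_nt.UG.IfaceC
import Pool.Agent.P.MP_e45b92_nt.UG.IfaceA

/-! Step LW. -/

set_option autoImplicit false

namespace Pool.Agent.P.MP_e45b92_nt.UG

open MeasureTheory Set

theorem p_LW (hLWD : S_LWD) (hEXC : S_EXC) (hBAD : S_BAD) (hFUB : S_FUB) (hMEAS : S_MEAS) : S_LW := by
  intro h g D t Λ E K n₀ ε Wm hW hp h1
  have hB := hBAD h g D t Λ E K n₀ ε hW
  generalize hN : {z : ℝ × ℝ | ¬ ∀ i, _ ∧ _} = N at hB
  have hE : ∀ k, MeasurableSet {z : ℝ × ℝ | Exc z.1 z.2 (Tk Λ E k) ε t D g} := fun k =>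
    (hMEAS.2.2 _ _ _).union ((hMEAS.2.2 _ _ _).union (measurable_swap (hMEAS.2.2 _ _ _)))
  have hS : MeasurableSet {z : ℝ × ℝ | ∀ k < K, Solv z.1 z.2 ε (Tk Λ E k)} := by
    have : {z : ℝ × ℝ | ∀ k < K, Solv z.1 z.2 ε (Tk Λ E k)} =
        ⋂ k, ⋂ _ : k < K, {z : ℝ × ℝ | Solv z.1 z.2 ε (Tk Λ E k)} := by
      ext z; simp
    rw [this]
    exact MeasurableSet.iInter fun k => MeasurableSet.iInter fun _ => hMEAS.1 _ _
  have hWm : 0 < Wm := lt_of_not_ge fun c => by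
    have := mul_nonpos_of_nonpos_of_nonneg c
      (pow_nonneg (show 0 ≤ 1 - pu h ε D by linarith) ((Λ + K * E) / (D + g)))
    linarith
  refine (hFUB _ (toMeasurable μ2 N) _ K _ (2 * Wm / K) _ hS (measurableSet_toMeasurable _ _) hE
    fun α => hLWD h g D t Λ E K n₀ ε Wm α _ hW hp h1
      (measurable_prodMk_left (measurableSet_toMeasurable μ2 N))
      (fun k => measurable_prodMk_left (hE k)) fun β _ hβ => ?_).trans ?_
  · by_contra c
    exact hβ (subset_toMeasurable μ2 N (hN ▸ c))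
  · refine add_le_add (add_le_add le_rfl ?_) (mul_le_mul_of_nonneg_left ?_ (by positivity))
    · refine (mul_le_mul_of_nonneg_left (Finset.sum_le_card_nsmul _ _ _ fun k hk =>
        hEXC h g D t Λ E K k ε hW (Finset.mem_range.1 hk)) (by positivity)).trans ?_
      rw [Finset.card_range, nsmul_eq_mul, ← mul_assoc]
      have hK : (K : ℝ) ≠ 0 := by exact_mod_cast hW.K0.ne'
      rw [div_mul_cancel₀ _ hK]
    · rwa [Measure.real, measure_toMeasurable]

end Pool.Agent.P.MP_e45b92_nt.UG
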