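import Pool.Agent.P.MP_e45b92_nt.UG.IfaceC

/-! Step LW2. -/

set_option autoImplicit false

namespace Pool.Agent.P.MP_e45b92_nt.UG

open MeasureTheory Set

namespace LW2x

theorem fin_bound (h J y z : ℝ) (hh : 20 ≤ h) (hJ : 5 ≤ J) (hy : 1 ≤ y) (hz : 0 ≤ z) :
    8000 * h * J * y / z + 10 ^ 10 * h ^ 10 / z ≤ 2 * 10 ^ 10 * h ^ 10 * J * y / z := by
  rw [← add_div]
  apply div_le_div_of_nonneg_right _ hz
  have h1 : (1 : ℝ) ≤ h := by linarith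
  have h2 : h ≤ h ^ 10 := le_self_pow₀ h1 (by norm_num)
  have hJy : 1 ≤ J * y := by nlinarith
  have h3 : 0 ≤ h ^ 10 := by positivity
  have h4 : h * (J * y) ≤ h ^ 10 * (J * y) := mul_le_mul_of_nonneg_right h2 (by linarith)
  have h5 : h ^ 10 * 1 ≤ h ^ 10 * (J * y) := mul_le_mul_of_nonneg_left hJy h3
  have h6 : 0 ≤ h ^ 10 * (J * y) := by positivity
  have e1 : 8000 * h * J * y = 8000 * (h * (J * y)) := by ring
  have e2 : 2 * 10 ^ 10 * h ^ 10 * J * y = 2 * 10 ^ 10 * (h ^ 10 * (J * y)) := by ring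
  rw [e1, e2]
  linarith

end LW2x

theorem p_LW2 (hLW : S_LW) (hLP1 : S_LP1) (hLP2 : S_LP2) (hLP3 : S_LP3) : S_LW2 := by
  intro h J z t g ε y Wm hP hW
  obtain ⟨hwin, hpu⟩ := hLP1 h J z t g ε y Wm hP
  have a := hLW h g (z ^ 2) t (z ^ J) (z ^ 3) (z ^ (J - 3) / h) (10 * J) ε Wm hwin hpu hW
  have b := hLP2 h J z t g (z ^ (J - 3) / h) _ ε y Wm hP rfl rfl
  have c := hLP3 h J z t g (z ^ (J - 3) / h) ε y Wm hP rfl
  have d := LW2x.fin_bound (h : ℝ) (J : ℝ) y (z : ℝ) (by exact_mod_cast hP.h20)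
    (by exact_mod_cast hP.J5) hP.y1 (Nat.cast_nonneg z)
  generalize z ^ (J - 3) / h = K at a b c ⊢
  generalize (z ^ J + K * z ^ 3) / (z ^ 2 + g) = m at a b
  simp only [Nat.cast_pow] at a
  linarith

end Pool.Agent.P.MP_e45b92_nt.UG
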