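import Pool.Agent.P.MP_e45b92_nt.UG.IfaceC
import Pool.Agent.P.MP_e45b92_nt.UG.IfaceA

/-! Step LWD. -/

set_option autoImplicit false

namespace Pool.Agent.P.MP_e45b92_nt.UG

open MeasureTheory Set

namespace LWDx

theorem pu_nonneg (h : ℕ) {ε : ℝ} (he : 0 < ε) (s : ℕ) : 0 ≤ pu h ε s := by
  have h1 := c0_bounds.1
  have h2 := log_two_bounds.1
  have h3 : 0 ≤ c0 := by linarith
  have h4 : 0 ≤ Real.log 2 := by linarith
  unfold pu
  positivity

theorem Pr_empty (n : ℕ) (β : ℝ) : Pr n ∅ β = 0 := by simp [Pr]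

theorem Xs_eq (ε : ℝ) (g n h : ℕ) (T : ℝ) : Xs ε g 0 h T * 2 ^ n = Xs ε g n h T := by
  unfold Xs
  rw [add_zero, pow_add]; ring

theorem Xs_pos {ε : ℝ} (he : 0 < ε) (g n : ℕ) {h : ℕ} (hh : 20 ≤ h) {T : ℝ} (hT : 0 < T) :
    0 < Xs ε g n h T := by
  have : (0 : ℝ) < h := by exact_mod_cast (by omega : 0 < h)
  unfold Xs; positivity

theorem Tk_ge (Λ E k : ℕ) : 1 ≤ Tk Λ E k := one_le_pow₀ (by norm_num)

theorem cond1 {ε T : ℝ} {h g t : ℕ} (n : ℕ) (he : 0 < ε) (hh : 20 ≤ h) (hT : 0 < T)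
    (tg : 2 * (h : ℝ) ^ 2 * 2 ^ t ≤ 2 ^ g) :
    ε * 2 ^ t / (T ^ 2 * Xs ε g n h T) ≤ 1 / 2 ^ n / (2 * h) := by
  have h0 : (0 : ℝ) < h := by exact_mod_cast (by omega : 0 < h)
  have e : ε * 2 ^ t / (T ^ 2 * Xs ε g n h T) = (2 * (h : ℝ) ^ 2 * 2 ^ t / 2 ^ g) *
      (1 / 2 ^ n / (2 * h)) := by
    unfold Xs
    rw [pow_add]; field_simp
  rw [e]
  refine mul_le_of_le_one_left (by positivity) ?_
  rw [div_le_one (by positivity)]; exact tg

theorem cond2 {ε T : ℝ} {h : ℕ} (g n s n' : ℕ) (he : 0 < ε) (hh : 20 ≤ h) (hT : 0 < T)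
    (hn : g + n + s ≤ n') :
    1 / 2 ^ n' ≤ ε / (h * T ^ 2 * Xs ε g n h T * 2 ^ s) := by
  have h0 : (0 : ℝ) < h := by exact_mod_cast (by omega : 0 < h)
  have e : ε / (h * T ^ 2 * Xs ε g n h T * 2 ^ s) = 1 / 2 ^ (g + n + s) := by
    unfold Xs
    rw [pow_add _ (g + n) s]; field_simp
  rw [e]
  exact one_div_le_one_div_of_le (by positivity) (pow_le_pow_right₀ (by norm_num) hn)

theorem cond3 {ε T : ℝ} {h : ℕ} (g D : ℕ) (_he : 0 < ε) (he1 : ε ≤ 1) (hh : 20 ≤ h) (hT : 1 ≤ T) :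
    Xs ε g 0 h T ≤ 2 ^ (3 * g) * 2 ^ (D + g) / T := by
  have h0 : (1 : ℝ) ≤ h := by exact_mod_cast (by omega : 1 ≤ h)
  have hT0 : 0 < T := by linarith
  unfold Xs
  rw [div_le_div_iff₀ (by positivity) hT0, add_zero]
  have a1 : (2 : ℝ) ^ g ≤ 2 ^ (3 * g) * 2 ^ (D + g) := by
    rw [← pow_add]; exact pow_le_pow_right₀ (by norm_num) (by omega)
  have a2 : T ≤ h * T ^ 2 := by nlinarith
  have a3 : ε * 2 ^ g ≤ 2 ^ (3 * g) * 2 ^ (D + g) :=
    (mul_le_of_le_one_left (by positivity) he1).trans a1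
  exact mul_le_mul a3 a2 hT0.le (by positivity)

theorem Pr_guard {n : ℕ} {P : Prop} {A : Set ℝ} {β p : ℝ} (hp : 0 ≤ p) (h : P → Pr n A β ≤ p) :
    Pr n {b | P ∧ b ∈ A} β ≤ p := by
  by_cases hP : P
  · have e : {b | P ∧ b ∈ A} = A := by ext b; simp [hP]
    rw [e]; exact h hP
  · have e : {b | P ∧ b ∈ A} = ∅ := by ext b; simp [hP]
    rw [e, Pr_empty]; exact hp

theorem LS_guard {n : ℕ} {P : Prop} {A : Set ℝ} (h : LS n A) : LS n {b | P ∧ b ∈ A} :=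
  fun β β' e hb => ⟨hb.1, h β β' e hb.2⟩

end LWDx

open LWDx in
theorem p_LWD (hLM : S_LM) (hLB : S_LB) (hCOV : S_COV) (hACT : S_ACT) : S_LWD := by
  intro h g D t Λ E K n₀ ε Wm α Bad hW hp hWm hBad hE hgood
  have hact : ∀ k, ∃ act : Finset ℕ, k < K →
      (∀ i, i ∈ act ↔ Act ε g D (i * (D + g)) h (Tk Λ E k)) ∧
      act.card ≤ (Λ + K * E) / (D + g) ∧ ∀ i ∈ act, i + 2 ≤ 2 * (Λ + K * E) + 2 := by
    intro k
    by_cases hk : k < K
    · obtain ⟨a, ha⟩ := hACT h g D t Λ E K k ε hW hk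
      exact ⟨a, fun _ => ha⟩
    · exact ⟨∅, fun h' => absurd h' hk⟩
  choose act hact using hact
  have hT : ∀ k, 0 < Tk Λ E k := fun k => by linarith [Tk_ge Λ E k]
  have hF : Fams (fun i => i * (D + g))
      (fun k i => {b | (k < K ∧ Act ε g D (i * (D + g)) h (Tk Λ E k)) ∧
        b ∈ HitP (i * (D + g) + (D + g)) α (Tk Λ E k) ε t
          (Xs ε g (i * (D + g)) h (Tk Λ E k)) 0 D})
      (fun k i => {b | (k < K ∧ Act ε g D (i * (D + g)) h (Tk Λ E k)) ∧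
        b ∈ HitP ((i + 2) * (D + g)) α (Tk Λ E k) ε t
          (Xs ε g (i * (D + g)) h (Tk Λ E k)) D (D + g)})
      act Bad K (2 * (Λ + K * E) + 2) ((Λ + K * E) / (D + g)) n₀ (pu h ε D) (pu h ε g) Wm := by
    refine ⟨fun a b hab => Nat.mul_le_mul_right _ hab, hW.K0, pu_nonneg h hW.e0 D, hp,
      pu_nonneg h hW.e0 g, hWm, ?_, ?_, ?_, fun k hk => (hact k hk).2.1,
      fun k hk => (hact k hk).2.2, hBad, ?_⟩
    · intro k i
      have e : (i + 1) * (D + g) = i * (D + g) + (D + g) := by ring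
      simp only [e]
      exact LS_guard (LS_HitP _ _ _ _ _ _ _ _)
    · intro k i
      exact LS_guard (LS_HitP _ _ _ _ _ _ _ _)
    · intro k hk i hi
      have hn : ¬ Act ε g D (i * (D + g)) h (Tk Λ E k) := fun h' => hi (((hact k hk).1 i).2 h')
      constructor <;> (ext b; simp [hn])
    · intro β hβ hb i
      refine le_trans (le_of_eq ?_) (hgood β hβ hb i).2
      congr 1
      ext k
      simp only [mem_ofPred_eq]
      tauto
  have key := hLM _ _ _ act Bad (fun k => {β | Exc α β (Tk Λ E k) ε t D g}) K _ _ n₀ _ _ Wm hF hE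
    (by
      intro k hk i β hβ hb
      have hX := Xs_pos hW.e0 g (i * (D + g)) hW.h20 (hT k)
      constructor
      · refine Pr_guard (pu_nonneg h hW.e0 D) fun hP => ?_
        have := hLB α β (Tk Λ E k) _ ε h (D + g) t 0 D (i * (D + g)) (i * (D + g) + (D + g))
          hW.h20 (hT k) hX hW.e0 (Nat.zero_le _) (Nat.le_add_right _ _)
          (cond1 _ hW.e0 hW.h20 (hT k) hW.tg)
          (cond2 g _ D _ hW.e0 hW.h20 (hT k) (by omega)) ((hgood β hβ hb i).1 k hk hP.2)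
        simpa using this
      · refine Pr_guard (pu_nonneg h hW.e0 g) fun hP => ?_
        have e : (i + 2) * (D + g) = i * (D + g) + 2 * (D + g) := by ring
        have := hLB α β (Tk Λ E k) _ ε h (D + g) t D (D + g) (i * (D + g)) ((i + 2) * (D + g))
          hW.h20 (hT k) hX hW.e0 (Nat.le_add_right _ _) le_rfl
          (cond1 _ hW.e0 hW.h20 (hT k) hW.tg)
          (cond2 g _ (D + g) _ hW.e0 hW.h20 (hT k) (by omega)) ((hgood β hβ hb i).1 k hk hP.2)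
        simpa using this)
  refine le_trans (measureReal_mono ?_) (key.trans (le_of_eq ?_))
  · intro β hβ k hk
    have hD := hW.D0
    rcases hCOV α β (Tk Λ E k) ε (Xs ε g 0 h (Tk Λ E k)) (2 ^ (3 * g)) t D g (hT k) hW.e0 hW.e1
      (by positivity) (Xs_pos hW.e0 g 0 hW.h20 (hT k)) (by omega)
      (cond3 g D hW.e0 hW.e1 hW.h20 (Tk_ge Λ E k)) (hβ k hk) with h1 | h1 | h1 | ⟨i, h1, h2, h3⟩
    · exact Or.inr (Or.inl h1)
    · exact Or.inr (Or.inr (Or.inl h1))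
    · exact Or.inr (Or.inr (Or.inr h1))
    · have e : (i + 1) * (D + g) = i * (D + g) + (D + g) := by ring
      rw [Xs_eq] at h1 h2 h3
      rw [e] at h2
      refine Or.inl ⟨i, ?_⟩
      rcases h3 with h3 | h3
      · exact Or.inl ⟨⟨hk, h1, h2⟩, β, rfl, h3⟩
      · exact Or.inr ⟨⟨hk, h1, h2⟩, β, rfl, h3⟩
  · push_cast; ring

end Pool.Agent.P.MP_e45b92_nt.UG
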