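import Pool.Agent.P.MP_e45b92_nt.UG.IfaceA

/-! Step M2. -/

set_option autoImplicit false

namespace Pool.Agent.P.MP_e45b92_nt.UG

open MeasureTheory Set

theorem p_M2 (hOV0 : S_OV0) : S_M2 := by
  intro A B s l hB hl
  have hm : Measurable fun z : ℝ × ℝ => cnt s l (A * z.1 + B * z.2) :=
    (measurable_cnt s l).comp (by fun_prop)
  have hi : Integrable (fun z : ℝ × ℝ => cnt s l (A * z.1 + B * z.2)) (μ1.prod μ1) :=
    integrable_of_bdd hm (l + 1) fun z => abs_cnt_le hl
  have hin : ∀ x : ℝ, ∫ y, cnt s l (A * x + B * y) ∂μ1 = l := by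
    intro x
    have e : ∀ y : ℝ, cnt s l (A * x + B * y) = cnt (s - A * x) l (B * y) := by
      intro y
      rw [add_comm, cnt_add]
    simp only [e]
    exact hOV0 B _ l hB
  rw [μ2, integral_prod _ hi]
  simp [hin]

end Pool.Agent.P.MP_e45b92_nt.UG
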