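import Pool.Agent.P.MP_e45b92_nt.UG.IfaceA

/-! Step MEAS. -/

set_option autoImplicit false

namespace Pool.Agent.P.MP_e45b92_nt.UG

open MeasureTheory Set

namespace MEASx

theorem mx (v : V3) : Measurable fun z : ℝ × ℝ => xc z.1 v := by unfold xc; fun_prop

theorem my (v : V3) : Measurable fun z : ℝ × ℝ => yc z.2 v := by unfold yc; fun_prop

theorem mp (v : V3) : Measurable fun z : ℝ × ℝ => |xc z.1 v| * |yc z.2 v| :=
  (mx v).abs.mul (my v).abs

end MEASx

open MEASx in
theorem p_MEAS : S_MEAS := by
  refine ⟨fun ε T => ?_, fun T ε X t s₀ s₁ => ?_, fun Q δ u => ?_⟩
  · refine measurableSet_setOfPred.2 (Measurable.exists fun p => Measurable.exists fun r =>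
      Measurable.exists fun q => measurable_const.and (measurable_const.and ?_))
    exact measurableSet_setOfPred.1 (measurableSet_lt (mp (q, p, r)) measurable_const)
  · refine measurableSet_setOfPred.2 (Measurable.exists fun v => measurable_const.and
      (measurable_const.and (measurable_const.and (Measurable.and ?_ ?_))))
    · exact ((measurableSet_setOfPred.1 (measurableSet_le measurable_const (mx v))).and
        (measurableSet_setOfPred.1 (measurableSet_lt (mx v) measurable_const))).or
        ((measurableSet_setOfPred.1 (measurableSet_le measurable_const (mx v))).and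
        (measurableSet_setOfPred.1 (measurableSet_lt (mx v) measurable_const)))
    · exact measurableSet_setOfPred.1 (measurableSet_lt (mp v) measurable_const)
  · refine measurableSet_setOfPred.2 (Measurable.exists fun v => measurable_const.and
      (measurable_const.and (Measurable.and ?_ ?_)))
    · exact measurableSet_setOfPred.1 (measurableSet_lt (mp v) measurable_const)
    · exact measurableSet_setOfPred.1 (measurableSet_le (mx v).abs measurable_const)

end Pool.Agent.P.MP_e45b92_nt.UG
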