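import Pool.Agent.P.MP_e45b92_nt.UG.IfaceA

/-! Step MOB. -/

set_option autoImplicit false

namespace Pool.Agent.P.MP_e45b92_nt.UG

open MeasureTheory Set

namespace MOBx

def G (v : V3) : ℕ := Int.gcd v.1 (Int.gcd v.2.1 v.2.2)

theorem dvd_G {d : ℕ} {v : V3} :
    d ∣ G v ↔ (d : ℤ) ∣ v.1 ∧ (d : ℤ) ∣ v.2.1 ∧ (d : ℤ) ∣ v.2.2 := by
  unfold G
  rw [← Int.natCast_dvd_natCast]
  constructor
  · intro h
    have h2 := h.trans (Int.gcd_dvd_right _ _)
    exact ⟨h.trans (Int.gcd_dvd_left _ _), h2.trans (Int.gcd_dvd_left _ _),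
      h2.trans (Int.gcd_dvd_right _ _)⟩
  · rintro ⟨h1, h2, h3⟩
    exact Int.dvd_coe_gcd h1 (Int.dvd_coe_gcd h2 h3)

theorem sum_mu (n : ℕ) :
    ∑ d ∈ n.divisors, (ArithmeticFunction.moebius d : ℝ) = if n = 1 then 1 else 0 := by
  have h := congrArg (fun f : ArithmeticFunction ℤ => f n)
    ArithmeticFunction.moebius_mul_coe_zeta
  simp only [ArithmeticFunction.coe_mul_zeta_apply, ArithmeticFunction.one_apply] at h
  exact_mod_cast h

def sc (d : ℕ) (v : V3) : V3 := (d * v.1, d * v.2.1, d * v.2.2)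

theorem mem_sc {α β Q₀ Q₁ s X τ ω : ℝ} {d : ℕ} (hd : 0 < d) {v : V3} :
    sc d v ∈ box α β Q₀ Q₁ s X τ ω ↔ v ∈ box α β (Q₀ / d) (Q₁ / d) (s / d) (X / d) τ ω := by
  have h0 : (0 : ℝ) < d := by exact_mod_cast hd
  have e1 : xc α (sc d v) = xc α v * d := by simp only [xc, sc]; push_cast; ring
  have e2 : yc β (sc d v) = yc β v * d := by simp only [yc, sc]; push_cast; ring
  have e3 : (((sc d v).1 : ℤ) : ℝ) = v.1 * d := by simp only [sc]; push_cast; ring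
  rw [mem_box, mem_box, e1, e2, e3, ← add_div, div_lt_iff₀ h0, le_div_iff₀ h0, div_le_iff₀ h0,
    lt_div_iff₀ h0]
  have e4 : (v.1 : ℝ) * d * τ ≤ yc β v * d ↔ v.1 * τ ≤ yc β v := by
    rw [mul_right_comm]; exact mul_le_mul_iff_left₀ h0
  have e5 : yc β v * d < (v.1 : ℝ) * d * τ + v.1 * d * ω ↔ yc β v < v.1 * τ + v.1 * ω := by
    rw [show (v.1 : ℝ) * d * τ + v.1 * d * ω = (v.1 * τ + v.1 * ω) * d by ring]
    exact mul_lt_mul_iff_left₀ h0
  rw [e4, e5]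

theorem card_sc {α β Q₀ Q₁ s X τ ω : ℝ} {d : ℕ} (hd : 0 < d) :
    ((box α β Q₀ Q₁ s X τ ω).filter fun v => d ∣ G v).card =
      (box α β (Q₀ / d) (Q₁ / d) (s / d) (X / d) τ ω).card := by
  symm
  have hd' : (d : ℤ) ≠ 0 := by exact_mod_cast hd.ne'
  refine Finset.card_bij (fun v _ => sc d v) ?_ ?_ ?_
  · intro v hv
    rw [Finset.mem_filter, mem_sc hd, dvd_G]
    exact ⟨hv, Dvd.intro _ rfl, Dvd.intro _ rfl, Dvd.intro _ rfl⟩
  · intro v _ w _ h
    simp only [sc, Prod.mk.injEq] at h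
    obtain ⟨h1, h2, h3⟩ := h
    exact Prod.ext (mul_left_cancel₀ hd' h1)
      (Prod.ext (mul_left_cancel₀ hd' h2) (mul_left_cancel₀ hd' h3))
  · rintro ⟨q, p, r⟩ hv
    rw [Finset.mem_filter, dvd_G] at hv
    obtain ⟨hv, ⟨q', h1⟩, ⟨p', h2⟩, ⟨r', h3⟩⟩ := hv
    simp only at h1 h2 h3
    subst h1 h2 h3
    exact ⟨(q', p', r'), (mem_sc hd).1 hv, rfl⟩

end MOBx

open MOBx in
theorem p_MOB : S_MOB := by
  intro α β Q₀ Q₁ s X τ ω h0
  have key : ∀ v ∈ box α β Q₀ Q₁ s X τ ω, (if Prim v then (1 : ℝ) else 0) =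
      ∑ d ∈ Finset.Icc 1 ⌊Q₁⌋₊, if d ∣ G v then (ArithmeticFunction.moebius d : ℝ) else 0 := by
    intro v hv
    rw [mem_box] at hv
    have hq : 0 < v.1 := by exact_mod_cast h0.trans_lt hv.1
    have hG : (G v : ℤ) ∣ v.1 := (dvd_G.1 dvd_rfl).1
    have hle : (G v : ℤ) ≤ v.1 := Int.le_of_dvd hq hG
    have hne : G v ≠ 0 := by
      intro h
      rw [h] at hG
      simp only [Nat.cast_zero, zero_dvd_iff] at hG
      omega
    have hle2 : G v ≤ ⌊Q₁⌋₊ := by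
      apply Nat.le_floor
      have : ((G v : ℤ) : ℝ) ≤ (v.1 : ℝ) := by exact_mod_cast hle
      exact le_trans (by exact_mod_cast this) hv.2.1
    rw [← Finset.sum_filter]
    have e : (Finset.Icc 1 ⌊Q₁⌋₊).filter (fun d => d ∣ G v) = (G v).divisors := by
      ext d
      simp only [Finset.mem_filter, Finset.mem_Icc, Nat.mem_divisors]
      constructor
      · rintro ⟨-, h⟩
        exact ⟨h, hne⟩
      · rintro ⟨h, -⟩
        exact ⟨⟨Nat.pos_of_dvd_of_pos h (Nat.pos_of_ne_zero hne),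
          (Nat.le_of_dvd (Nat.pos_of_ne_zero hne) h).trans hle2⟩, h⟩
    rw [e, sum_mu]
    rfl
  rw [pbox, Finset.card_filter, Nat.cast_sum]
  simp only [Nat.cast_ite, Nat.cast_one, Nat.cast_zero]
  rw [Finset.sum_congr rfl key, Finset.sum_comm]
  refine Finset.sum_congr rfl fun d hd => ?_
  rw [← card_sc (Finset.mem_Icc.1 hd).1, ← Finset.sum_filter, Finset.sum_const, nsmul_eq_mul,
    mul_comm]

end Pool.Agent.P.MP_e45b92_nt.UG
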