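import Pool.Agent.P.MP_e45b92_nt.UG.IfaceC

/-! Step N0. -/

set_option autoImplicit false

namespace Pool.Agent.P.MP_e45b92_nt.UG

open MeasureTheory Set

theorem p_N0 (hN0A : S_N0A) (hN0B : S_N0B) (hFB : S_FB) : S_N0 := by
  intro h g D t Λ E K n n₀ ε hW
  have hε := hW.e0
  have hh : (0 : ℝ) < h := by
    have := hW.h20
    exact_mod_cast (by omega : 0 < h)
  have hT : ∀ k, 0 < Tk Λ E k := fun k => by unfold Tk; positivity
  have hX : ∀ k, 0 < Xs ε g n h (Tk Λ E k) := fun k => by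
    have := hT k
    unfold Xs; positivity
  set R : ℕ → Set (ℝ × ℝ) := fun k => {z | ∃ v : V3, 1 ≤ v.1 ∧ (v.1 : ℝ) ≤ Tk Λ E k ∧
    |xc z.1 v| ≤ Xs ε g n h (Tk Λ E k) * 2 ^ D ∧ |yc z.2 v| ≤ Ys ε g D n h (Tk Λ E k)} with hR
  set S : Set (ℝ × ℝ) := {z | n₀ ≤ {k | k < K ∧ Act ε g D n h (Tk Λ E k) ∧
      Hit z.1 z.2 (Tk Λ E k) (3 * ε) t (Ys ε g D n h (Tk Λ E k)) 0 (D + g + 1)}.ncard} with hS
  have hRk : ∀ k, μ2.real (R k) ≤ 4 / 2 ^ g := by
    intro k
    have h1 := hT k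
    have h2 := hX k
    have hY : 0 ≤ Ys ε g D n h (Tk Λ E k) := by unfold Ys; positivity
    refine (hFB _ _ _ h1.le (by positivity) hY).trans ?_
    have e : 4 * Tk Λ E k * (Xs ε g n h (Tk Λ E k) * 2 ^ D) * Ys ε g D n h (Tk Λ E k) =
        4 * ε / 2 ^ g := by
      unfold Ys; field_simp
    rw [e]
    have := hW.e1
    gcongr
    linarith
  have hsub : {z : ℝ × ℝ | n₀ ≤ {k | k < K ∧ Act ε g D n h (Tk Λ E k) ∧
      z.2 ∈ HitP (n + (D + g)) z.1 (Tk Λ E k) ε t (Xs ε g n h (Tk Λ E k)) 0 D}.ncard} ⊆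
      Prod.swap ⁻¹' S ∪ ⋃ k ∈ Finset.range K, R k := by
    intro z hz
    by_cases hc : z ∈ ⋃ k ∈ Finset.range K, R k
    · exact Or.inr hc
    · left
      simp only [mem_iUnion, Finset.mem_range, not_exists] at hc
      refine le_trans (show n₀ ≤ _ from hz) (ncard_le_ncard ?_ ?_)
      · rintro k ⟨k1, k2, k3⟩
        refine ⟨k1, k2, ?_⟩
        have h1 := hT k
        have e : (1 : ℝ) / 2 ^ (n + (D + g)) ≤
            ε / (h * Tk Λ E k ^ 2 * Xs ε g n h (Tk Λ E k) * 2 ^ D) := by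
          refine le_of_eq ?_
          unfold Xs
          simp only [pow_add]
          field_simp
        rcases hN0A z.1 z.2 _ ε _ h t D g _ (by have := hW.h20; omega) h1 hε (hX k) e k3 with
          h3 | h3
        · exact absurd h3 (hc k k1)
        · exact h3
      · exact (finite_lt_nat K).subset fun k hk => hk.1
  have hU : μ2.real (⋃ k ∈ Finset.range K, R k) ≤ K * (4 / 2 ^ g) := by
    refine (measureReal_biUnion_finset_le _ _).trans ?_
    have := Finset.sum_le_card_nsmul (Finset.range K) (fun k => μ2.real (R k)) _ fun k _ => hRk k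
    simpa using this
  have hS' : μ2.real S ≤ _ := hN0B h g D t Λ E K n n₀ ε hW
  refine (measureReal_mono hsub).trans ((measureReal_union_le _ _).trans ?_)
  rw [μ2_swap]
  linarith

end Pool.Agent.P.MP_e45b92_nt.UG
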