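import Pool.Agent.P.MP_e45b92_nt.UG.IfaceC
import Pool.Agent.P.MP_e45b92_nt.UG.IfaceA

/-! Step N0B. -/

set_option autoImplicit false

namespace Pool.Agent.P.MP_e45b92_nt.UG

open MeasureTheory Set

namespace N0Bx

theorem ncard_eq {Ω : Type} (K : ℕ) (P : ℕ → Set Ω) (z : Ω) :
    ({k | k < K ∧ z ∈ P k}.ncard : ℝ) = ∑ k ∈ Finset.range K, (P k).indicator (1 : Ω → ℝ) z := by
  classical
  have e : {k | k < K ∧ z ∈ P k} = ((Finset.range K).filter fun k => z ∈ P k : Finset ℕ) := by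
    ext k; simp
  rw [e, Set.ncard_coe_finset, Finset.card_filter]
  push_cast
  refine Finset.sum_congr rfl fun k _ => ?_
  by_cases h : z ∈ P k <;> simp [h]

theorem meas_ncard {Ω : Type} [MeasurableSpace Ω] (K n₀ : ℕ) (P : ℕ → Set Ω)
    (hP : ∀ k, MeasurableSet (P k)) : MeasurableSet {z | n₀ ≤ {k | k < K ∧ z ∈ P k}.ncard} := by
  have e : {z | n₀ ≤ {k | k < K ∧ z ∈ P k}.ncard} =
      {z | (n₀ : ℝ) ≤ ∑ k ∈ Finset.range K, (P k).indicator (1 : Ω → ℝ) z} := by
    ext z
    simp only [mem_ofPred_eq]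
    rw [← ncard_eq, Nat.cast_le]
  rw [e]
  exact measurableSet_le measurable_const
    (Finset.measurable_sum _ fun k _ => measurable_one.indicator (hP k))

theorem pu_le {h S : ℕ} {ε : ℝ} (hh : 20 ≤ h) (hε : 0 < ε) : pu h (3 * ε) S ≤ 20 * ε * S := by
  have h0 : (20 : ℝ) ≤ h := by exact_mod_cast hh
  have h1 : (1 + 12 / (h : ℝ)) ≤ 1.6 := by
    have : 12 / (h : ℝ) ≤ 0.6 := by rw [div_le_iff₀ (by linarith)]; linarith
    linarith
  have h2 : c0 * Real.log 2 ≤ 1 * 0.7 :=
    mul_le_mul c0_bounds.2 log_two_bounds.2.le (by linarith [log_two_bounds.1]) (by norm_num)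
  have h3 : 0 ≤ c0 * Real.log 2 :=
    mul_nonneg (by linarith [c0_bounds.1]) (by linarith [log_two_bounds.1])
  have h4 : (1 + 12 / (h : ℝ)) * (c0 * Real.log 2) ≤ 1.6 * (1 * 0.7) :=
    mul_le_mul h1 h2 h3 (by norm_num)
  have h5 : 0 ≤ ε * S := by positivity
  have e : pu h (3 * ε) S = 12 * ((1 + 12 / (h : ℝ)) * (c0 * Real.log 2)) * (ε * S) := by
    unfold pu; ring
  rw [e]
  nlinarith

theorem Tk_pos (Λ E k : ℕ) : 0 < Tk Λ E k := by unfold Tk; positivity

theorem Ys_pos {ε T : ℝ} {g D n h : ℕ} (hε : 0 < ε) (hh : 20 ≤ h) (hT : 0 < T) :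
    0 < Ys ε g D n h T := by
  have h0 : (0 : ℝ) < h := by exact_mod_cast (by omega : 0 < h)
  unfold Ys Xs; positivity

end N0Bx

open N0Bx in
theorem p_N0B (hN0P : S_N0P) (hLB : S_LB) (hGB : S_GB) (hBIN : S_BIN) (hFUB : S_FUB) (hMEAS : S_MEAS) : S_N0B := by
  classical
  intro h g D t Λ E K n n₀ ε W
  have hh : (20 : ℝ) ≤ h := by exact_mod_cast W.h20
  set S : ℕ := D + g + 1 with hS
  have hSr : (S : ℝ) = D + g + 1 := by rw [hS]; push_cast; ring
  let ac : ℕ → Prop := fun k => Act ε g D n h (Tk Λ E k)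
  let Y : ℕ → ℝ := fun k => Ys ε g D n h (Tk Λ E k)
  let M : ℕ → ℕ := fun k => Ms g D n Λ E k
  have hY : ∀ k, 0 < Y k := fun k => Ys_pos W.e0 W.h20 (Tk_pos _ _ _)
  have hM : Monotone M := by
    intro a b hab
    have : a * E ≤ b * E := Nat.mul_le_mul_right _ hab
    simp only [M, Ms]
    omega
  let P : ℕ → Set (ℝ × ℝ) := fun k =>
    {z | ac k ∧ Hit z.1 z.2 (Tk Λ E k) (3 * ε) t (Y k) 0 S}
  have hP : ∀ k, MeasurableSet (P k) := fun k =>
    (MeasurableSet.const (ac k)).inter (hMEAS.2.1 _ _ _ _ _ _)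
  let N : ℕ → Set (ℝ × ℝ) := fun k =>
    {z | ac k ∧ ¬ Good z.1 z.2 h (Tk Λ E k) (Y k) (1 / 2 ^ M k) S t}
  let b : ℝ := 21000 * (h : ℝ) ^ 9 * (D + g + 1) * t * 4 ^ t / 2 ^ g
  have hb : 0 ≤ b := by positivity
  have hN : ∀ k < K, μ2.real (N k) ≤ b := by
    intro k hk
    by_cases ha : ac k
    · obtain ⟨q1, -, -, q4, -, q6, q7⟩ := hN0P h g D t Λ E K n k ε W hk ha
      have := hGB h S t (Tk Λ E k) (Y k) (1 / 2 ^ M k) (Λ + K * E) W.h20 (hY k) (by positivity)
        (by positivity) q6 q7 q4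
      have e : N k = {z | ¬ Good z.1 z.2 h (Tk Λ E k) (Y k) (1 / 2 ^ M k) S t} := by
        ext z; simp only [N, mem_ofPred_eq, ha, true_and]
      rw [e]
      refine this.trans ?_
      have q1' : Y k * (1 / 2 ^ M k) * Tk Λ E k ^ 2 = h * 2 ^ g := q1
      rw [q1', hSr]
      refine div_le_div_of_nonneg_left (by positivity) (by positivity) ?_
      have : (0 : ℝ) < 2 ^ g := by positivity
      nlinarith
    · have e : N k = ∅ := by
        ext z; simp only [N, mem_ofPred_eq, ha, false_and, mem_empty_iff_false]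
      rw [e]; simpa using hb
  let U : Set (ℝ × ℝ) := ⋃ k ∈ Finset.range K, N k
  have hU : μ2.real (toMeasurable μ2 U) ≤ K * b := by
    rw [Measure.real, measure_toMeasurable, ← Measure.real]
    refine (measureReal_biUnion_finset_le _ _).trans ?_
    refine (Finset.sum_le_sum fun k hk => hN k (Finset.mem_range.1 hk)).trans ?_
    simp
  have hp : 0 < 20 * ε * ((D : ℝ) + g + 1) := by have := W.e0; positivity
  have key := hFUB {z | n₀ ≤ {k | k < K ∧ z ∈ P k}.ncard} (toMeasurable μ2 U) (fun _ => ∅) 0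
    (3 * (K * (20 * ε * ((D : ℝ) + g + 1))) ^ n₀) 0 1 (meas_ncard K n₀ P hP)
    (measurableSet_toMeasurable _ _) (fun _ => MeasurableSet.empty) (by
      intro α
      let A : ℕ → Set ℝ := fun k =>
        {β | ac k ∧ β ∈ HitP (M (k + 1)) α (Tk Λ E k) (3 * ε) t (Y k) 0 S}
      have h1 := hBIN M A {β | (α, β) ∈ toMeasurable μ2 U} _ K n₀ hM hp W.K0
        (fun k _ β β' e hβ => ⟨hβ.1, LS_HitP _ _ _ _ _ _ _ _ β β' e hβ.2⟩) (by
          intro k hk β _ hβ
          by_cases ha : ac k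
          · obtain ⟨-, q2, q3, -⟩ := hN0P h g D t Λ E K n k ε W hk ha
            have hG : Good α β h (Tk Λ E k) (Y k) (1 / 2 ^ M k) S t := by
              by_contra hc
              exact hβ (subset_toMeasurable μ2 U
                (mem_biUnion (Finset.mem_coe.2 (Finset.mem_range.2 hk)) ⟨ha, hc⟩))
            have := hLB α β (Tk Λ E k) (Y k) (3 * ε) h S t 0 S (M k) (M (k + 1)) W.h20
              (Tk_pos _ _ _) (hY k) (by linarith [W.e0]) (Nat.zero_le _) le_rfl q2 q3 hG
            have e : A k = HitP (M (k + 1)) α (Tk Λ E k) (3 * ε) t (Y k) 0 S := by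
              ext x; simp only [A, mem_ofPred_eq, ha, true_and]
            rw [e, ← hSr]
            exact this.trans (pu_le W.h20 W.e0)
          · have e : A k = ∅ := by
              ext x; simp only [A, mem_ofPred_eq, ha, false_and, mem_empty_iff_false]
            rw [e]
            simp only [Pr, empty_inter, measureReal_empty, mul_zero]
            exact hp.le)
      simp only [zero_mul, add_zero, one_mul]
      refine le_trans (measureReal_mono ?_) h1
      intro β hβ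
      refine le_trans hβ (Set.ncard_le_ncard ?_ ((Set.finite_lt_nat K).subset fun k hk => hk.1))
      intro k hk
      exact ⟨hk.1, hk.2.1, β, rfl, hk.2.2⟩)
  simp only [zero_mul, add_zero, one_mul] at key
  exact key.trans (by linarith)

end Pool.Agent.P.MP_e45b92_nt.UG
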