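import Pool.Agent.P.MP_e45b92_nt.UG.IfaceC

/-! Step N0P. -/

set_option autoImplicit false

namespace Pool.Agent.P.MP_e45b92_nt.UG

open MeasureTheory Set

namespace N0Px

theorem four {G Dd N T H ε : ℝ} (hG : 0 < G) (hT : 0 < T) (hε : 0 < ε) (hg : H ≤ ε * G)
    (a2 : ε * G ^ 5 * N * Dd ≤ H * T ^ 2) : G ^ 4 * N * Dd ≤ T ^ 2 := by
  have h1 : H * T ^ 2 ≤ ε * G * T ^ 2 := by gcongr
  have h2 : ε * G * (G ^ 4 * N * Dd) ≤ ε * G * T ^ 2 := by linarith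
  exact le_of_mul_le_mul_left h2 (by positivity)

theorem core {G Dd N T H ε τ F L : ℝ} (hG : 1 ≤ G) (hD : 0 < Dd) (hN : 0 < N) (hT : 0 < T)
    (hH : 20 ≤ H) (hε : 0 < ε) (hε1 : ε ≤ 1) (hτ : 0 < τ) (hL : 0 ≤ L) (hg : H ≤ ε * G)
    (tg : 2 * H ^ 2 * τ ≤ G) (sep : Dd * G ^ 4 * 2 ≤ F) (lg : 3 * L ≤ G)
    (a1 : G ^ 2 * H * T ≤ ε * N) (a2 : ε * G ^ 5 * N * Dd ≤ H * T ^ 2) :
    3 * ε * τ / (T ^ 2 * (H * T / (G ^ 2 * N * Dd))) ≤ G ^ 3 * Dd * N / T ^ 3 / (2 * H) ∧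
    G ^ 3 * Dd * N / T ^ 3 / F ≤
      3 * ε / (H * T ^ 2 * (H * T / (G ^ 2 * N * Dd)) * (Dd * G * 2)) ∧
    (H * T / (G ^ 2 * N * Dd) * (Dd * G * 2) + T * (G ^ 3 * Dd * N / T ^ 3)) * L ≤ 1 ∧
    (ε * (G * N) / (H * T ^ 2) * (Dd * G) + T * (1 / N)) * L ≤ 1 := by
  have G0 : 0 < G := by linarith
  have H0 : 0 < H := by linarith
  have F0 : 0 < F := lt_of_lt_of_le (by positivity) sep
  have a3 := four G0 hT hε hg a2
  have fin : ∀ x : ℝ, x ≤ 3 / G → x * L ≤ 1 := fun x hx => by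
    calc x * L ≤ 3 / G * L := by gcongr
      _ = 3 * L / G := by ring
      _ ≤ 1 := (div_le_one G0).2 lg
  have g2 : 1 / G ^ 2 ≤ 1 / G := by
    apply one_div_le_one_div_of_le G0; nlinarith
  have g3 : 1 / G ^ 3 ≤ 1 / G := by
    apply one_div_le_one_div_of_le G0; nlinarith [mul_self_nonneg G]
  have b1 : H * T / N ≤ 1 / G ^ 2 := by
    rw [div_le_div_iff₀ hN (by positivity)]
    nlinarith [mul_le_mul_of_nonneg_right hε1 hN.le]
  refine ⟨?_, ?_, fin _ ?_, fin _ ?_⟩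
  · have e1 : 3 * ε * τ / (T ^ 2 * (H * T / (G ^ 2 * N * Dd))) =
        (6 * ε * τ) * (G ^ 2 * Dd * N / T ^ 3 / (2 * H)) := by field_simp; ring
    have e2 : G ^ 3 * Dd * N / T ^ 3 / (2 * H) = G * (G ^ 2 * Dd * N / T ^ 3 / (2 * H)) := by
      ring
    have h1 : 6 * ε * τ ≤ G := by
      have : 400 ≤ H ^ 2 := by nlinarith
      nlinarith [mul_le_mul_of_nonneg_right hε1 hτ.le, mul_le_mul_of_nonneg_right this hτ.le]
    rw [e1, e2]; gcongr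
  · have e1 : G ^ 3 * Dd * N / T ^ 3 / F = (G ^ 2 * Dd / F) * (G * N / T ^ 3) := by ring
    have e2 : 3 * ε / (H * T ^ 2 * (H * T / (G ^ 2 * N * Dd)) * (Dd * G * 2)) =
        (3 * ε / (2 * H ^ 2)) * (G * N / T ^ 3) := by field_simp
    have h1 : H ^ 2 ≤ ε * G ^ 2 := by
      have : H ≤ G := hg.trans (by nlinarith)
      calc H ^ 2 = H * H := sq H
        _ ≤ ε * G * G := by gcongr
        _ = ε * G ^ 2 := by ring
    have h2 : G ^ 2 * Dd / F ≤ 3 * ε / (2 * H ^ 2) := by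
      rw [div_le_div_iff₀ F0 (by positivity)]
      calc G ^ 2 * Dd * (2 * H ^ 2) ≤ G ^ 2 * Dd * (2 * (ε * G ^ 2)) := by gcongr
        _ = ε * (Dd * G ^ 4 * 2) := by ring
        _ ≤ ε * F := by gcongr
        _ ≤ 3 * ε * F := by nlinarith [mul_pos hε F0]
    rw [e1, e2]; gcongr
  · have e1 : H * T / (G ^ 2 * N * Dd) * (Dd * G * 2) = 2 * (H * T / N) * (1 / G) := by
      field_simp
    have e2 : T * (G ^ 3 * Dd * N / T ^ 3) = (G ^ 4 * N * Dd / T ^ 2) * (1 / G) := by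
      field_simp
    have h1 : H * T / N ≤ 1 := b1.trans (g2.trans ((div_le_one G0).2 hG))
    have h2 : G ^ 4 * N * Dd / T ^ 2 ≤ 1 := (div_le_one (by positivity)).2 a3
    rw [e1, e2, ← add_mul, show 3 / G = 3 * (1 / G) by ring]
    gcongr; linarith
  · have h1 : ε * (G * N) / (H * T ^ 2) * (Dd * G) ≤ 1 / G ^ 3 := by
      rw [div_mul_eq_mul_div, div_le_div_iff₀ (by positivity) (by positivity)]
      nlinarith
    have h2 : T * (1 / N) ≤ H * T / N := by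
      rw [mul_one_div]; gcongr; nlinarith
    have : 0 < 1 / G := by positivity
    rw [show 3 / G = 3 * (1 / G) by ring]
    linarith

end N0Px

theorem p_N0P : S_N0P := by
  intro h g D t Λ E K n k ε w hk ⟨a1, a2⟩
  have hH : (20 : ℝ) ≤ h := by exact_mod_cast w.h20
  have H0 : (0 : ℝ) < h := by linarith
  have hε := w.e0
  have hT : 0 < Tk Λ E k := by unfold Tk; positivity
  have hG : (1 : ℝ) ≤ 2 ^ g := one_le_pow₀ one_le_two
  have p3 : (2 : ℝ) ^ (3 * g) = (2 ^ g) ^ 3 := by rw [← pow_mul, mul_comm]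
  have eX : Xs ε g n h (Tk Λ E k) = ε * (2 ^ g * 2 ^ n) / (h * Tk Λ E k ^ 2) := by
    rw [Xs, pow_add]
  have b1 : ((2 : ℝ) ^ g) ^ 2 * h * Tk Λ E k ≤ ε * 2 ^ n := by
    rw [p3, eX, show Tk Λ E k * (ε * (2 ^ g * 2 ^ n) / (h * Tk Λ E k ^ 2)) =
      2 ^ g * (ε * 2 ^ n) / (h * Tk Λ E k) by field_simp, le_div_iff₀ (by positivity)] at a1
    refine le_of_mul_le_mul_left ?_ (show (0 : ℝ) < 2 ^ g by positivity)
    linarith
  have b2 : ε * ((2 : ℝ) ^ g) ^ 5 * 2 ^ n * 2 ^ D ≤ h * Tk Λ E k ^ 2 := by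
    rw [p3, Xs, pow_add, pow_add, pow_add, div_mul_eq_mul_div, div_le_one (by positivity)] at a2
    linarith
  have b3 := N0Px.four (by positivity) hT hε w.hg b2
  have b4 : g * 4 + n + D ≤ (Λ + k * E) * 2 := by
    rw [Tk, ← pow_mul, ← pow_mul, ← pow_add, ← pow_add] at b3
    exact (pow_le_pow_iff_right₀ one_lt_two).1 b3
  have m1 : Ms g D n Λ E k + (g * 3 + D + n) = (Λ + k * E) * 3 := by unfold Ms; omega
  have m2 : Ms g D n Λ E (k + 1) = Ms g D n Λ E k + 3 * E := by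
    unfold Ms; rw [add_mul, one_mul]; omega
  have el : (1 : ℝ) / 2 ^ Ms g D n Λ E k = (2 ^ g) ^ 3 * 2 ^ D * 2 ^ n / Tk Λ E k ^ 3 := by
    rw [Tk, ← pow_mul, ← pow_mul, ← pow_add, ← pow_add, ← m1,
      pow_add (2 : ℝ) (Ms g D n Λ E k)]
    field_simp
  have el' : (1 : ℝ) / 2 ^ Ms g D n Λ E (k + 1) =
      (2 ^ g) ^ 3 * 2 ^ D * 2 ^ n / Tk Λ E k ^ 3 / 2 ^ (3 * E) := by
    rw [m2, pow_add, ← el, div_div]
  have eY : Ys ε g D n h (Tk Λ E k) = h * Tk Λ E k / ((2 ^ g) ^ 2 * 2 ^ n * 2 ^ D) := by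
    rw [Ys, eX]; field_simp
  have sep : (2 : ℝ) ^ D * (2 ^ g) ^ 4 * 2 ≤ 2 ^ (3 * E) := by
    rw [← pow_mul, ← pow_add, ← pow_succ]
    exact pow_le_pow_right₀ one_le_two (by have := w.sep; omega)
  obtain ⟨c2, c3, c4, c5⟩ := N0Px.core (L := 1 + (Λ + K * E)) hG (by positivity) (by positivity)
    hT hH hε w.e1 (show (0 : ℝ) < 2 ^ t by positivity) (by positivity) w.hg w.tg sep
    (by linarith [w.lg]) b1 b2
  rw [el, el', eY, eX, pow_succ (2 : ℝ) (D + g), pow_add (2 : ℝ) D g]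
  refine ⟨by field_simp, c2, c3, c4, c5, ?_, ?_⟩
  · rw [Tk, Real.log_pow]
    have l2 : Real.log 2 ≤ 1 := by linarith [Real.log_two_lt_d9]
    have k1 : (k : ℝ) ≤ K := by exact_mod_cast hk.le
    push_cast
    calc ((Λ : ℝ) + k * E) * Real.log 2 ≤ (Λ + K * E) * 1 := by gcongr
      _ = Λ + K * E := mul_one _
  · exact w.tT.trans (pow_le_pow_right₀ one_le_two (Nat.le_add_right _ _))

end Pool.Agent.P.MP_e45b92_nt.UG
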