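import Pool.Agent.P.MP_e45b92_nt.UG.IfaceB

/-! Step NI. -/

set_option autoImplicit false

namespace Pool.Agent.P.MP_e45b92_nt.UG

open MeasureTheory Set

namespace NIx

theorem prim_neg {u : V3} (h : Prim u) : Prim (-u) := by
  unfold Prim at *
  simpa [Int.neg_gcd, Int.gcd_neg] using h

theorem short (hCROSS : S_CROSS) {v : V3} {a b : ℝ} (hq : v.1 ≠ 0) (h : ¬ Iso v a b) :
    ∃ u : V3, Prim u ∧ dot u v = 0 ∧ |(u.2.1 : ℝ)| ≤ a ∧ |(u.2.2 : ℝ)| ≤ b ∧
      (1 ≤ u.2.2 ∨ u.2.2 = 0 ∧ 1 ≤ u.2.1) := by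
  unfold Iso at h
  push Not at h
  obtain ⟨ξ, h1, h2, h3, h4⟩ := h
  obtain ⟨k, u, hk, hu, rfl⟩ := hCROSS.2.2.1 ξ h4
  have hk' : (1 : ℝ) ≤ k := by exact_mod_cast hk
  have key : ∀ (z : ℤ) (c : ℝ), |((k * z : ℤ) : ℝ)| ≤ c → |(z : ℝ)| ≤ c := fun z c hz => by
    rw [Int.cast_mul, abs_mul, abs_of_pos (by linarith : (0 : ℝ) < k)] at hz
    nlinarith [abs_nonneg (z : ℝ)]
  have hd : dot u v = 0 := by
    have : k * dot u v = 0 := by rw [← h1]; simp only [dot]; ring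
    exact (mul_eq_zero.1 this).resolve_left (by omega)
  have a1 := key _ _ h2
  have a2 := key _ _ h3
  by_cases c : 1 ≤ u.2.2 ∨ u.2.2 = 0 ∧ 1 ≤ u.2.1
  · exact ⟨u, hu, hd, a1, a2, c⟩
  refine ⟨-u, prim_neg hu, ?_, by simpa using a1, by simpa using a2, ?_⟩
  · rw [← neg_eq_zero, ← hd]; simp only [dot, Prod.fst_neg, Prod.snd_neg]; ring
  · simp only [Prod.fst_neg, Prod.snd_neg]
    by_contra c'
    have e1 : u.2.2 = 0 := by omega
    have e2 : u.2.1 = 0 := by omega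
    have e3 : u.1 = 0 := by
      simp only [dot, e1, e2, zero_mul, add_zero] at hd
      exact (mul_eq_zero.1 hd).resolve_right hq
    simp [Prim, e1, e2, e3] at hu

end NIx

theorem p_NI (hCROSS : S_CROSS) (hNI1 : S_NI1) : S_NI := by
  intro α β T U ℓ a₀ b₀ w₀ t F hT hU hl ha hw hK hF
  have hw0 : 0 ≤ w₀ := le_trans (by positivity) hw.le
  let G : ℤ → ℤ → ℤ → Finset V3 := fun A B n =>
    F.filter fun v => Prim (-n, A, B) ∧ dot (-n, A, B) v = 0
  have hsub : F ⊆ (Finset.Icc (-⌊a₀⌋) ⌊a₀⌋).biUnion fun A => (Finset.Ioc ⌊(0 : ℝ)⌋ ⌊b₀⌋).biUnion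
      fun B => (Finset.Ico ⌈-(w₀ + B * ℓ) - (A * α + B * β)⌉
        ⌈-(w₀ + B * ℓ) + 2 * (w₀ + B * ℓ) - (A * α + B * β)⌉).biUnion (G A B) := by
    intro v hv
    obtain ⟨-, h2, -, h4, h5, h6⟩ := hF v hv
    have hq : (0 : ℝ) < v.1 := lt_trans (by positivity) h2
    obtain ⟨⟨C, A, B⟩, u1, u2, u3, u4, u5⟩ :=
      NIx.short hCROSS (by rintro e; simp [e] at hq) h6
    simp only at u3 u4 u5
    have id : A * xc α v + B * yc β v = v.1 * (A * α + B * β - C) := by
      have : ((dot (C, A, B) v : ℤ) : ℝ) = 0 := by exact_mod_cast u2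
      simp only [dot] at this
      push_cast at this
      simp only [xc, yc]
      linear_combination this
    have b1 : |A * xc α v| < v.1 * w₀ := by
      rw [abs_mul]
      have k1 : |(A : ℝ)| * |xc α v| ≤ a₀ * (2 * U) := mul_le_mul u3 h4 (abs_nonneg _) ha
      rw [div_lt_iff₀ hT] at hw
      rw [div_lt_iff₀ (by positivity)] at h2
      have k2 : w₀ * T ≤ w₀ * (v.1 * 2 ^ t) := mul_le_mul_of_nonneg_left h2.le hw0
      have k3 : a₀ * (2 * U) * 2 ^ t < v.1 * w₀ * 2 ^ t := by linarith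
      exact k1.trans_lt (lt_of_mul_lt_mul_right k3 (by positivity))
    rcases u5 with u5 | ⟨rfl, u5⟩
    swap
    · have := hK A C u5 ((le_abs_self _).trans u3)
      simp only [Int.cast_zero, zero_mul, add_zero] at id
      rw [id, abs_mul, abs_of_pos hq] at b1
      exact absurd (lt_of_mul_lt_mul_left b1 hq.le) (not_lt.2 this)
    have hB : (1 : ℝ) ≤ B := by exact_mod_cast u5
    have b2 : |A * α + B * β - C| < w₀ + B * ℓ := by
      have k1 : |B * yc β v| ≤ B * (v.1 * ℓ) := by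
        rw [abs_mul, abs_of_pos (by linarith : (0 : ℝ) < B)]
        exact mul_le_mul_of_nonneg_left h5 (by linarith)
      have k2 := abs_add_le (A * xc α v) (B * yc β v)
      rw [id, abs_mul, abs_of_pos hq] at k2
      exact lt_of_mul_lt_mul_left (a := (v.1 : ℝ)) (by linarith) hq.le
    rw [abs_lt] at b2
    rw [abs_le] at u3 u4
    simp only [Finset.mem_biUnion, Finset.mem_Icc, Finset.mem_Ioc, Finset.mem_Ico]
    refine ⟨A, ⟨neg_le.1 (Int.le_floor.2 (by push_cast; linarith)), Int.le_floor.2 u3.2⟩, B,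
      ⟨by rw [Int.floor_zero]; omega, Int.le_floor.2 u4.2⟩, -C,
      ⟨Int.ceil_le.2 (by push_cast; linarith), Int.lt_ceil.2 (by push_cast; linarith)⟩, ?_⟩
    exact Finset.mem_filter.2 ⟨hv, by rwa [neg_neg], by rwa [neg_neg]⟩
  have hG : ∀ A B n : ℤ, 1 ≤ B → ((G A B n).card : ℝ) ≤ 1 + 24 * U * T / B := by
    intro A B n hB
    by_cases hp : Prim (-n, A, B)
    · refine hNI1 α T U (-n, A, B) _ hT hU hp hB fun v hv => ?_
      obtain ⟨h0, -, h7⟩ := Finset.mem_filter.1 hv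
      obtain ⟨h1, h2, h3, h4, -⟩ := hF v h0
      have hq : (0 : ℝ) < v.1 := lt_trans (by positivity) h2
      exact ⟨h1, by exact_mod_cast hq, h3, h4, h7⟩
    · have : G A B n = ∅ := Finset.filter_eq_empty_iff.2 fun v _ h => hp h.1
      have hB' : (0 : ℝ) < B := by exact_mod_cast hB
      rw [this, Finset.card_empty, Nat.cast_zero]
      positivity
  refine (Nat.cast_le.2 ((Finset.card_le_card hsub).trans Finset.card_biUnion_le)).trans ?_
  rw [Nat.cast_sum]
  refine Finset.sum_le_sum fun A _ => (Nat.cast_le.2 Finset.card_biUnion_le).trans ?_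
  rw [Nat.cast_sum]
  refine Finset.sum_le_sum fun B hB => (Nat.cast_le.2 Finset.card_biUnion_le).trans ?_
  have hB1 : 1 ≤ B := by
    have := (Finset.mem_Ioc.1 hB).1
    rw [Int.floor_zero] at this
    omega
  have hB' : (0 : ℝ) < B := by exact_mod_cast hB1
  rw [Nat.cast_sum, ← card_Ico_cnt (by positivity), mul_comm (1 + _), ← nsmul_eq_mul]
  exact Finset.sum_le_card_nsmul _ _ _ fun n _ => hG A B n hB1

end Pool.Agent.P.MP_e45b92_nt.UG
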