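import Pool.Agent.P.MP_e45b92_nt.UG.IfaceB

/-! Step NI1. -/

set_option autoImplicit false

namespace Pool.Agent.P.MP_e45b92_nt.UG

open MeasureTheory Set

theorem p_NI1 (hCROSS : S_CROSS) (hPL : S_PL) : S_NI1 := by
  intro α T U ξ F hT hU hξ hB hF
  have hB0 : (0 : ℝ) < ξ.2.2 := by exact_mod_cast hB
  rcases F.eq_empty_or_nonempty with rfl | hne
  · simp only [Finset.card_empty, Nat.cast_zero]
    positivity
  have h1 : ∀ u w : V3, dot ξ u = 0 → dot ξ w = 0 → ∃ k : ℤ,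
      crs u w = (k * ξ.1, k * ξ.2.1, k * ξ.2.2) ∧
        xc α u * w.1 - u.1 * xc α w = ((-k : ℤ) : ℝ) * ξ.2.2 := fun u w hu hw => by
    obtain ⟨k, hk⟩ := hCROSS.1 ξ u w hξ (dot_comm _ _ ▸ hu) (dot_comm _ _ ▸ hw)
    have e : ((u.1 * w.2.1 - u.2.1 * w.1 : ℤ) : ℝ) = (k * ξ.2.2 : ℤ) :=
      congrArg (fun z : V3 => (z.2.2 : ℝ)) hk
    refine ⟨k, hk, ?_⟩
    push_cast at e ⊢
    simp only [xc]
    linear_combination -e
  have h2 : ∀ u : V3, dot ξ u = 0 → xc α u = 0 → (u.1 : ℝ) = 0 → u = 0 := fun u a b c => by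
    have c1 : u.1 = 0 := by exact_mod_cast c
    have c2 : u.2.1 = 0 := by simpa [xc, c1] using b
    have c3 : u.2.2 = 0 := by simpa [dot, c1, c2, show ξ.2.2 ≠ 0 by omega] using a
    exact Prod.ext c1 (Prod.ext c2 c3)
  obtain ⟨w, w1, w2, w3, -⟩ := hPL (xc α) (fun u => u.1) {u | dot ξ u = 0} ξ.2.2 (2 * U) T F
    (xc_sub α) (fun u w => by simp) (fun u (a : dot ξ u = 0) w (b : dot ξ w = 0) => by
      change dot ξ (u - w) = 0
      simp only [dot, Prod.fst_sub, Prod.snd_sub] at a b ⊢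
      linear_combination a - b) h2 hB0 (by positivity) hT
    (fun u a w b => (h1 u w a b).elim fun k hk => ⟨-k, hk.2⟩) hne fun u hu => by
      obtain ⟨-, a, b, c, d⟩ := hF u hu
      exact ⟨d, fun e => by simp [e] at a, c, by rwa [abs_of_pos (by exact_mod_cast a)]⟩
  have h3 : (F.filter fun u => xc α w * u.1 - w.1 * xc α u = 0).card ≤ 1 :=
    Finset.card_le_one.2 fun u hu u' hu' => by
      obtain ⟨a, a'⟩ := Finset.mem_filter.1 hu
      obtain ⟨b, b'⟩ := Finset.mem_filter.1 hu'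
      obtain ⟨k, k1, k2⟩ := h1 u u' (hF u a).2.2.2.2 (hF u' b).2.2.2.2
      have k3 : k = 0 := by
        by_contra e
        have e' : ((-k : ℤ) : ℝ) * ξ.2.2 ≠ 0 :=
          mul_ne_zero (by exact_mod_cast neg_ne_zero.2 e) hB0.ne'
        rw [← k2] at e'
        exact w2 (h2 w w1 (mul_right_cancel₀ e' (by linear_combination xc α u * b' - xc α u' * a'))
          (mul_right_cancel₀ e' (by linear_combination u.1 * b' - u'.1 * a')))
      exact hCROSS.2.1 u u' (hF u a).1 (hF u' b).1 (hF u a).2.1 (hF u' b).2.1 (by simp [k1, k3])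
  rw [← Finset.card_filter_add_card_filter_not (s := F)
    fun u => xc α w * u.1 - w.1 * xc α u = 0, Nat.cast_add]
  exact add_le_add (by exact_mod_cast h3) (w3.trans_eq (by ring))

end Pool.Agent.P.MP_e45b92_nt.UG
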