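import Pool.Agent.P.MP_e45b92_nt.UG.IfaceB
import Pool.Agent.P.MP_e45b92_nt.UG.IfaceA

/-! Step NOK. -/

set_option autoImplicit false

namespace Pool.Agent.P.MP_e45b92_nt.UG

open MeasureTheory Set

theorem p_NOK (hOV0 : S_OV0) : S_NOK := by
  intro a₀ w₀ ha hw
  have hw2 : 0 ≤ 2 * w₀ := by linarith
  set f : ℝ × ℝ → ℝ := fun z => ∑ A ∈ Finset.Icc (1 : ℤ) ⌊a₀⌋, cnt (-w₀) (2 * w₀) (A * z.1)
    with hf
  have hint : ∀ A : ℤ, Integrable (fun z : ℝ × ℝ => cnt (-w₀) (2 * w₀) (A * z.1)) μ2 := fun A =>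
    integrable_of_bdd ((measurable_cnt _ _).comp (by fun_prop)) (2 * w₀ + 1)
      fun z => abs_cnt_le hw2
  have hfi : Integrable f μ2 := integrable_finsetSum _ fun A _ => hint A
  have hsub : {z : ℝ × ℝ | ¬ NoK z.1 a₀ w₀} ⊆ {z | 1 ≤ f z} := by
    intro z hz
    simp only [mem_ofPred_eq, NoK] at hz ⊢
    push Not at hz
    obtain ⟨A, C, h1, h2, h3⟩ := hz
    rw [abs_lt] at h3
    have h4 : 1 ≤ cnt (-w₀) (2 * w₀) (A * z.1) :=
      one_le_cnt (n := -C) (by push_cast; linarith [h3.1]) (by push_cast; linarith [h3.2])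
    exact h4.trans (Finset.single_le_sum (f := fun A : ℤ => cnt (-w₀) (2 * w₀) (A * z.1))
      (fun _ _ => cnt_nonneg hw2) (Finset.mem_Icc.2 ⟨h1, Int.le_floor.2 h2⟩))
  refine (measureReal_mono hsub).trans ((markov (Filter.Eventually.of_forall fun z =>
    Finset.sum_nonneg fun _ _ => cnt_nonneg hw2) hfi one_pos).trans ?_)
  rw [div_one, integral_finsetSum _ fun A _ => hint A]
  have h1 : ∀ A ∈ Finset.Icc (1 : ℤ) ⌊a₀⌋,
      ∫ z : ℝ × ℝ, cnt (-w₀) (2 * w₀) (A * z.1) ∂μ2 = 2 * w₀ := by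
    intro A hA
    have hA0 : A ≠ 0 := by have := (Finset.mem_Icc.1 hA).1; omega
    have := integral_fun_fst (μ := μ1) (ν := μ1) (fun θ : ℝ => cnt (-w₀) (2 * w₀) (A * θ))
    rw [μ2, this, hOV0 A _ _ hA0]; simp
  rw [Finset.sum_congr rfl h1, Finset.sum_const, nsmul_eq_mul, Int.card_Icc]
  have h2 : (((⌊a₀⌋ + 1 - 1).toNat : ℕ) : ℝ) ≤ a₀ := by
    have h3 : (((⌊a₀⌋ + 1 - 1).toNat : ℕ) : ℤ) = ⌊a₀⌋ := by
      have := Int.floor_nonneg.2 ha; omega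
    have h4 : (((⌊a₀⌋ + 1 - 1).toNat : ℕ) : ℝ) = (⌊a₀⌋ : ℝ) := by exact_mod_cast h3
    rw [h4]; exact Int.floor_le _
  nlinarith

end Pool.Agent.P.MP_e45b92_nt.UG
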