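import Pool.Agent.P.MP_e45b92_nt.UG.IfaceA

/-! Step NV. -/

set_option autoImplicit false

namespace Pool.Agent.P.MP_e45b92_nt.UG

open MeasureTheory Set

namespace NVx

/-- the summand of the box count -/
noncomputable def F (s X τ ω : ℝ) (q : ℤ) (z : ℝ × ℝ) : ℝ :=
  cnt s X (q * z.1) * cnt (q * τ) (q * ω) (q * z.2)

theorem meas (s X τ ω : ℝ) (q : ℤ) : Measurable (F s X τ ω q) :=
  ((measurable_cnt _ _).comp (by fun_prop)).mul ((measurable_cnt _ _).comp (by fun_prop))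

theorem bdd {s X τ ω : ℝ} {q : ℤ} (hX : 0 ≤ X) (hω : 0 ≤ ω) (hq : 1 ≤ q) (z : ℝ × ℝ) :
    |F s X τ ω q z| ≤ (X + 1) * (q * ω + 1) := by
  have h : (0 : ℝ) ≤ q := by exact_mod_cast (by omega : 0 ≤ q)
  rw [F, abs_mul]
  exact mul_le_mul (abs_cnt_le hX) (abs_cnt_le (by positivity)) (abs_nonneg _) (by linarith)

theorem int1 {s X τ ω : ℝ} {q : ℤ} (hX : 0 ≤ X) (hω : 0 ≤ ω) (hq : 1 ≤ q) :
    Integrable (F s X τ ω q) μ2 :=
  integrable_of_bdd (meas s X τ ω q) _ (bdd hX hω hq)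

theorem int2 {s X τ ω : ℝ} {q q' : ℤ} (hX : 0 ≤ X) (hω : 0 ≤ ω) (hq : 1 ≤ q) (hq' : 1 ≤ q') :
    Integrable (fun z => F s X τ ω q z * F s X τ ω q' z) μ2 :=
  integrable_of_bdd ((meas s X τ ω q).mul (meas s X τ ω q'))
    ((X + 1) * (q * ω + 1) * ((X + 1) * (q' * ω + 1))) fun z => by
      rw [abs_mul]
      exact mul_le_mul (bdd hX hω hq z) (bdd hX hω hq' z) (abs_nonneg _)
        ((abs_nonneg _).trans (bdd (s := s) (τ := τ) hX hω hq z))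

theorem mean (hOV0 : S_OV0) (s X τ ω : ℝ) {q : ℤ} (hq : 1 ≤ q) :
    ∫ z, F s X τ ω q z ∂μ2 = X * (q * ω) := by
  have := integral_prod_mul (μ := μ1) (ν := μ1) (fun a : ℝ => cnt s X (q * a))
    (fun b : ℝ => cnt (q * τ) (q * ω) (q * b))
  rw [hOV0 q s X (by omega), hOV0 q _ _ (by omega)] at this
  exact this

theorem cov {f g : ℝ × ℝ → ℝ} {a b : ℝ} (hf : Integrable f μ2) (hg : Integrable g μ2)
    (hfg : Integrable (fun z => f z * g z) μ2) (ha : ∫ z, f z ∂μ2 = a) (hb : ∫ z, g z ∂μ2 = b) :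
    Integrable (fun z => (f z - a) * (g z - b)) μ2 ∧
      ∫ z, (f z - a) * (g z - b) ∂μ2 = ∫ z, f z * g z ∂μ2 - a * b := by
  have e : (fun z => (f z - a) * (g z - b)) =
      fun z => f z * g z - (b * f z + (a * g z - a * b)) := by funext z; ring
  have i1 : Integrable (fun z => a * g z - a * b) μ2 := (hg.const_mul a).sub (integrable_const _)
  have i2 : Integrable (fun z => b * f z + (a * g z - a * b)) μ2 := (hf.const_mul b).add i1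
  rw [e]
  refine ⟨hfg.sub i2, ?_⟩
  rw [integral_sub hfg i2, integral_add (hf.const_mul b) i1,
    integral_sub (hg.const_mul a) (integrable_const _), integral_const_mul, integral_const_mul,
    ha, hb]
  simp only [integral_const, probReal_univ, smul_eq_mul, one_mul]
  ring

theorem second (hOV : S_OV) {s X τ ω Q₀ Q₁ : ℝ} {q q' : ℤ} (hX : 0 ≤ X) (hω : 0 ≤ ω)
    (hq : 1 ≤ q) (hq' : 1 ≤ q') (h0 : 0 < Q₀) (h1 : (q : ℝ) ≤ Q₁) (h2 : Q₀ ≤ q') :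
    ∫ z, F s X τ ω q z * F s X τ ω q' z ∂μ2 - X * (q * ω) * (X * (q' * ω)) ≤
      X * ω * (X + Q₁ * ω) * (Int.gcd q q' : ℝ) + X * ω / Q₀ * (Int.gcd q q' : ℝ) ^ 2 := by
  have hp : (0 : ℝ) < q := by exact_mod_cast (by omega : 0 < q)
  have hp' : (0 : ℝ) < q' := by exact_mod_cast (by omega : 0 < q')
  have e := integral_prod_mul (μ := μ1) (ν := μ1)
    (fun a : ℝ => cnt s X (q * a) * cnt s X (q' * a))
    (fun b : ℝ => cnt (q * τ) (q * ω) (q * b) * cnt (q' * τ) (q' * ω) (q' * b))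
  have e2 : (fun z => F s X τ ω q z * F s X τ ω q' z) = fun z : ℝ × ℝ =>
      cnt s X (q * z.1) * cnt s X (q' * z.1) *
        (cnt (q * τ) (q * ω) (q * z.2) * cnt (q' * τ) (q' * ω) (q' * z.2)) := by
    funext z; simp only [F]; ring
  rw [e2, μ2, e]
  have a1 := hOV q q' s X s X hq hq' hX hX
  have a2 := hOV q q' (q * τ) (q * ω) (q' * τ) (q' * ω) hq hq' (by positivity) (by positivity)
  set G : ℝ := (Int.gcd q q' : ℝ)
  have hG : 0 ≤ G := Nat.cast_nonneg _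
  have n2 : 0 ≤ ∫ θ, cnt (q * τ) (q * ω) (q * θ) * cnt (q' * τ) (q' * ω) (q' * θ) ∂μ1 :=
    integral_nonneg fun θ => mul_nonneg (cnt_nonneg (by positivity)) (cnt_nonneg (by positivity))
  have a3 := mul_le_mul a1 a2 n2 (by positivity)
  have e3 : (X * X + X * G / q') * (q * ω * (q' * ω) + q' * ω * G / q') =
      X * (q * ω) * (X * (q' * ω)) + X * ω * (X + q * ω) * G + X * ω / q' * G ^ 2 := by
    field_simp; ring
  have b1 : X * ω * (X + q * ω) * G ≤ X * ω * (X + Q₁ * ω) * G := by gcongr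
  have b2 : X * ω / q' * G ^ 2 ≤ X * ω / Q₀ * G ^ 2 := by gcongr
  linarith

end NVx

open NVx in
theorem p_NV (hOV0 : S_OV0) (hOV : S_OV) (hGS : S_GS) : S_NV := by
  intro Q₀ Q₁ s X τ ω Λ h0 h01 hX hω hΛ hl
  set I := Finset.Ioc ⌊Q₀⌋ ⌊Q₁⌋ with hI
  have hf : 0 ≤ ⌊Q₀⌋ := Int.floor_nonneg.2 h0.le
  have hq : ∀ q ∈ I, 1 ≤ q ∧ (q : ℝ) ≤ Q₁ ∧ Q₀ ≤ q := fun q h => by
    obtain ⟨a, b⟩ := Finset.mem_Ioc.1 h
    exact ⟨by omega, Int.le_floor.1 b, (Int.floor_lt.1 a).le⟩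
  have hc : ∀ q ∈ I, ∀ q' ∈ I, _ := fun q h q' h' =>
    cov (int1 (s := s) (τ := τ) hX hω (hq q h).1) (int1 (s := s) (τ := τ) hX hω (hq q' h').1)
      (int2 hX hω (hq q h).1 (hq q' h').1) (mean hOV0 s X τ ω (hq q h).1)
      (mean hOV0 s X τ ω (hq q' h').1)
  have e : (fun z : ℝ × ℝ => (((box z.1 z.2 Q₀ Q₁ s X τ ω).card : ℝ) - nmean Q₀ Q₁ X ω) ^ 2) =
      fun z => ∑ q ∈ I, ∑ q' ∈ I,
        (F s X τ ω q z - X * (q * ω)) * (F s X τ ω q' z - X * (q' * ω)) := by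
    funext z
    rw [card_box h0.le hX hω, nmean, ← Finset.sum_sub_distrib, sq, Finset.sum_mul_sum]
    rfl
  rw [e, integral_finsetSum _ fun q h => integrable_finsetSum _ fun q' h' => (hc q h q' h').1]
  have hs : I ⊆ Finset.Ioc 0 ⌊Q₁⌋ := Finset.Ioc_subset_Ioc_left hf
  have h1 : 0 < Q₁ := by linarith
  obtain ⟨g1, g2⟩ := hGS Q₁ Λ h1.le hΛ hl
  calc _ ≤ ∑ q ∈ I, ∑ q' ∈ I, (X * ω * (X + Q₁ * ω) * (Int.gcd q q' : ℝ) +
          X * ω / Q₀ * (Int.gcd q q' : ℝ) ^ 2) := by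
        refine Finset.sum_le_sum fun q h => ?_
        rw [integral_finsetSum _ fun q' h' => (hc q h q' h').1]
        refine Finset.sum_le_sum fun q' h' => ?_
        rw [(hc q h q' h').2]
        exact second hOV hX hω (hq q h).1 (hq q' h').1 h0 (hq q h).2.1 (hq q' h').2.2
    _ ≤ ∑ q ∈ Finset.Ioc 0 ⌊Q₁⌋, ∑ q' ∈ Finset.Ioc 0 ⌊Q₁⌋,
          (X * ω * (X + Q₁ * ω) * (Int.gcd q q' : ℝ) +
          X * ω / Q₀ * (Int.gcd q q' : ℝ) ^ 2) :=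
        (Finset.sum_le_sum fun q _ => Finset.sum_le_sum_of_subset_of_nonneg hs
          fun _ _ _ => by positivity).trans
          (Finset.sum_le_sum_of_subset_of_nonneg hs fun _ _ _ => by positivity)
    _ = X * ω * (X + Q₁ * ω) *
            ∑ q ∈ Finset.Ioc 0 ⌊Q₁⌋, ∑ q' ∈ Finset.Ioc 0 ⌊Q₁⌋, (Int.gcd q q' : ℝ) +
          X * ω / Q₀ *
            ∑ q ∈ Finset.Ioc 0 ⌊Q₁⌋, ∑ q' ∈ Finset.Ioc 0 ⌊Q₁⌋, (Int.gcd q q' : ℝ) ^ 2 := by
        simp only [Finset.sum_add_distrib, Finset.mul_sum]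
    _ ≤ X * ω * (X + Q₁ * ω) * (Q₁ ^ 2 * (1 + Λ)) + X * ω / Q₀ * Q₁ ^ 3 := by gcongr
    _ = _ := by field_simp

end Pool.Agent.P.MP_e45b92_nt.UG
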