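import Pool.Agent.P.MP_e45b92_nt.UG.IfaceA

/-! Step OV. -/

set_option autoImplicit false

namespace Pool.Agent.P.MP_e45b92_nt.UG

open MeasureTheory Set

theorem p_OV (hOV0 : S_OV0) (hHER : S_HER) : S_OV := by
  intro q q' s l s' l' hq hq' hl hl'
  obtain ⟨m, hm⟩ := Int.gcd_dvd_right q q'
  have hG : 0 < Int.gcd q q' := Int.gcd_pos_of_ne_zero_right q (by omega)
  have hm0 : 0 < m := by
    have h1 : (0 : ℤ) < Int.gcd q q' := by exact_mod_cast hG
    by_contra h2
    nlinarith
  lift m to ℕ using hm0.le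
  have hm1 : 0 < m := by exact_mod_cast hm0
  have hab := Int.gcd_eq_gcd_ab q q'
  set a := Int.gcdA q q'
  set b := Int.gcdB q q'
  have hG' : (0 : ℝ) < Int.gcd q q' := by exact_mod_cast hG
  have hm' : (0 : ℝ) < m := by exact_mod_cast hm1
  have e1 : (q' : ℝ) = (Int.gcd q q' : ℝ) * m := by exact_mod_cast hm
  have e2 : (Int.gcd q q' : ℝ) = q * a + q' * b := by exact_mod_cast hab
  have hq0 : (q' : ℝ) ≠ 0 := by rw [e1]; positivity
  have hint : ∀ u : ℝ, Integrable (fun θ => cnt s l (q * θ + u) * cnt s' l' (q' * θ)) μ1 := by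
    intro u
    refine integrable_of_bdd (((measurable_cnt _ _).comp (by fun_prop)).mul
      ((measurable_cnt _ _).comp (by fun_prop))) ((l + 1) * (l' + 1)) fun θ => ?_
    rw [abs_mul]
    exact mul_le_mul (abs_cnt_le hl) (abs_cnt_le hl') (abs_nonneg _) (by linarith)
  have hper : Function.Periodic (fun θ => cnt s l (q * θ) * cnt s' l' (q' * θ)) 1 := by
    intro θ
    simp only [mul_add, mul_one, cnt_add_int]
  have hsh : ∀ j : ℕ, ∫ θ, cnt s l (q * θ) * cnt s' l' (q' * θ) ∂μ1 =
      ∫ θ, cnt s l (q * θ + j / m) * cnt s' l' (q' * θ) ∂μ1 := by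
    intro j
    rw [← integral_shift hper (j * a / q')]
    refine integral_congr_ae (Filter.Eventually.of_forall fun θ => ?_)
    have e3 : (q : ℝ) * (θ + j * a / q') = q * θ + j / m + ((-(j * b) : ℤ) : ℝ) := by
      have e4 : (j : ℝ) / m = j * (q * a + q' * b) / q' := by
        rw [← e2, e1]
        field_simp
      rw [e4]
      push_cast
      field_simp
      ring
    have e4 : (q' : ℝ) * (θ + j * a / q') = q' * θ + ((j * a : ℤ) : ℝ) := by
      push_cast
      field_simp
    simp only [e3, e4, cnt_add_int]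
  have hsum : (m : ℝ) * ∫ θ, cnt s l (q * θ) * cnt s' l' (q' * θ) ∂μ1 ≤ (m * l + 1) * l' := by
    have h1 : (m : ℝ) * ∫ θ, cnt s l (q * θ) * cnt s' l' (q' * θ) ∂μ1 =
        ∫ θ, ∑ j ∈ Finset.range m, cnt s l (q * θ + j / m) * cnt s' l' (q' * θ) ∂μ1 := by
      rw [integral_finsetSum _ fun j _ => hint _, ← Finset.sum_congr rfl fun j _ => hsh j]
      simp
    have h2 : ∫ θ, (m * l + 1) * cnt s' l' (q' * θ) ∂μ1 = (m * l + 1) * l' := by
      rw [integral_const_mul, hOV0 q' s' l' (by omega)]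
    have h3 : Integrable (fun θ : ℝ => cnt s' l' (q' * θ)) μ1 :=
      integrable_of_bdd ((measurable_cnt s' l').comp (measurable_const_mul _)) (l' + 1)
        fun θ => abs_cnt_le hl'
    rw [h1, ← h2]
    refine integral_mono (integrable_finsetSum _ fun j _ => hint _) (h3.const_mul _) fun θ => ?_
    simp only [← Finset.sum_mul]
    exact mul_le_mul_of_nonneg_right (hHER m s l _ hm1 hl) (cnt_nonneg hl')
  have e5 : l * l' + l' * (Int.gcd q q' : ℝ) / q' = (m * l + 1) * l' / m := by
    rw [e1]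
    field_simp
  rw [e5, le_div_iff₀ hm', mul_comm]
  exact hsum

end Pool.Agent.P.MP_e45b92_nt.UG
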