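import Pool.Agent.P.MP_e45b92_nt.UG.IfaceA

/-! Step OV0. -/

set_option autoImplicit false

namespace Pool.Agent.P.MP_e45b92_nt.UG

open MeasureTheory Set

theorem p_OV0 : S_OV0 := by
  intro q s l hq
  have hq' : (q : ℝ) ≠ 0 := by exact_mod_cast hq
  have c : ∀ u : ℝ, (⌈u⌉ : ℝ) = u + Int.fract (-u) := fun u => by
    rw [Int.fract, Int.floor_neg]; push_cast; ring
  set f : ℝ → ℝ := fun θ => Int.fract (q * θ - s) with hf
  have per : Function.Periodic f 1 := fun θ => by
    simp only [hf]
    rw [show (q : ℝ) * (θ + 1) - s = q * θ - s + q by ring, Int.fract_add_intCast]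
  have hm : Measurable f := measurable_fract.comp (by fun_prop)
  have hb : ∀ θ, |f θ| ≤ 1 := fun θ => by
    rw [abs_of_nonneg (Int.fract_nonneg _)]; exact (Int.fract_lt_one _).le
  have i1 : Integrable f μ1 := integrable_of_bdd hm 1 hb
  have i2 : Integrable (fun θ => f (θ + -l / q)) μ1 :=
    integrable_of_bdd (hm.comp (by fun_prop)) 1 fun θ => hb _
  have e : ∀ θ : ℝ, cnt s l (q * θ) = l + (f (θ + -l / q) - f θ) := fun θ => by
    simp only [cnt, Int.cast_sub, c, hf]
    rw [show (q : ℝ) * (θ + -l / q) - s = -(s + l - q * θ) by field_simp; ring, neg_sub s]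
    ring
  simp only [e]
  have i3 : Integrable (fun θ => f (θ + -l / q) - f θ) μ1 := i2.sub i1
  rw [integral_add (integrable_const l) i3, integral_sub i2 i1, integral_shift per]
  simp

end Pool.Agent.P.MP_e45b92_nt.UG
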