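import Pool.Agent.P.MP_e45b92_nt.UG.IfaceA

/-! Step PC. -/

set_option autoImplicit false

namespace Pool.Agent.P.MP_e45b92_nt.UG

open MeasureTheory Set

theorem p_PC (hMOB : S_MOB) (hPCM : S_PCM) (hPCV : S_PCV) : S_PC := by
  intro Q₀ Q₁ s X τ ω Λ u h0 h01 hX hω hΛ hlog hsm hu
  have hM := hPCM Q₀ Q₁ X ω h0 h01 hX hω
  have hV := hPCV Q₀ Q₁ s X τ ω Λ h0 h01 hX hω hΛ hlog hsm
  generalize (∑ d ∈ Finset.Icc 1 ⌊Q₁⌋₊,
    (ArithmeticFunction.moebius d : ℝ) * nmean (Q₀ / d) (Q₁ / d) (X / d) ω) = m at hM hV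
  have hQ : 0 ≤ Q₀ := by linarith
  have hmeas : Measurable fun z : ℝ × ℝ => ((pbox z.1 z.2 Q₀ Q₁ s X τ ω).card : ℝ) := by
    simp only [hMOB _ _ Q₀ Q₁ s X τ ω hQ]
    exact Finset.measurable_sum _ fun d _ => measurable_const.mul
      (measurable_card_box (by positivity) (by positivity) hω)
  obtain ⟨C, hC⟩ := card_box_bdd (Q₁ := Q₁) (s := s) (τ := τ) hQ hX hω
  have hb : ∀ z : ℝ × ℝ, |((pbox z.1 z.2 Q₀ Q₁ s X τ ω).card : ℝ) - m| ≤ C + |m| := by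
    intro z
    have h1 : ((pbox z.1 z.2 Q₀ Q₁ s X τ ω).card : ℝ) ≤ C :=
      le_trans (by exact_mod_cast Finset.card_filter_le _ _) (hC z.1 z.2)
    have h2 : (0 : ℝ) ≤ (pbox z.1 z.2 Q₀ Q₁ s X τ ω).card := by positivity
    have h3 := le_abs_self m
    have h4 := neg_abs_le m
    rw [abs_le]; constructor <;> linarith
  have hi : Integrable
      (fun z : ℝ × ℝ => (((pbox z.1 z.2 Q₀ Q₁ s X τ ω).card : ℝ) - m) ^ 2) μ2 := by
    refine integrable_of_bdd ((hmeas.sub_const m).pow_const 2) ((C + |m|) ^ 2) fun z => ?_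
    rw [abs_pow]
    exact pow_le_pow_left₀ (abs_nonneg _) (hb z) 2
  refine le_trans (measureReal_mono ?_ (measure_ne_top _ _)) ((cheb hi hu).trans ?_)
  · intro z hz
    simp only [mem_ofPred_eq] at hz ⊢
    have := abs_sub_le ((pbox z.1 z.2 Q₀ Q₁ s X τ ω).card : ℝ) m
      (c0 * X * ω * ((Q₁ ^ 2 - Q₀ ^ 2) / 2))
    linarith
  · exact div_le_div_of_nonneg_right hV (by positivity)

end Pool.Agent.P.MP_e45b92_nt.UG
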