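import Pool.Agent.P.MP_e45b92_nt.UG.IfaceA

/-! Step PCM. -/

set_option autoImplicit false

namespace Pool.Agent.P.MP_e45b92_nt.UG

open MeasureTheory Set

namespace PCMx

theorem gauss (a b : ℤ) (h : a ≤ b) :
    ∑ q ∈ Finset.Ioc a b, (q : ℝ) = ((b : ℝ) * (b + 1) - a * (a + 1)) / 2 := by
  induction b, h using Int.leInduction with
  | base => simp
  | succ b h ih =>
    have e : Finset.Ioc a (b + 1) = insert (b + 1) (Finset.Ioc a b) := by
      ext q; simp only [Finset.mem_Ioc, Finset.mem_insert]; omega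
    rw [e, Finset.sum_insert (by simp), ih]; push_cast; ring

theorem near {u : ℝ} (hu : 0 ≤ u) : |(⌊u⌋ : ℝ) * (⌊u⌋ + 1) - u ^ 2| ≤ u := by
  have h1 := Int.floor_le u
  have h2 := Int.lt_floor_add_one u
  have h3 : (0 : ℝ) ≤ ⌊u⌋ := by exact_mod_cast Int.floor_nonneg.2 hu
  rw [abs_le]; constructor <;> nlinarith

theorem one {a b X ω : ℝ} (ha : 0 ≤ a) (hab : a ≤ b) (hX : 0 ≤ X) (hω : 0 ≤ ω) :
    |nmean a b X ω - X * ω * ((b ^ 2 - a ^ 2) / 2)| ≤ X * ω * b := by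
  have e : nmean a b X ω = X * ω * ∑ q ∈ Finset.Ioc ⌊a⌋ ⌊b⌋, (q : ℝ) := by
    rw [nmean, Finset.mul_sum]; exact Finset.sum_congr rfl fun q _ => by ring
  rw [e, gauss _ _ (Int.floor_mono hab), ← mul_sub, abs_mul, abs_of_nonneg (mul_nonneg hX hω)]
  refine mul_le_mul_of_nonneg_left ?_ (mul_nonneg hX hω)
  have h1 := abs_le.1 (near ha)
  have h2 := abs_le.1 (near (ha.trans hab))
  rw [abs_le]; constructor <;> linarith [h1.1, h1.2, h2.1, h2.2]

theorem sq (n : ℕ) : ∑ d ∈ Finset.Icc 1 (n + 1), 1 / (d : ℝ) ^ 2 ≤ 2 - 1 / ((n : ℝ) + 1) := by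
  induction n with
  | zero => norm_num
  | succ n ih =>
    rw [Finset.sum_Icc_succ_top (by omega)]
    have : 1 / ((n : ℝ) + 1 + 1) ^ 2 ≤ 1 / ((n : ℝ) + 1) - 1 / ((n : ℝ) + 1 + 1) := by
      rw [div_sub_div _ _ (by positivity) (by positivity), div_le_div_iff₀ (by positivity)
        (by positivity)]
      nlinarith [(Nat.cast_nonneg n : (0 : ℝ) ≤ n), sq_nonneg (n : ℝ)]
    push_cast; linarith

theorem tail {f : ℕ → ℝ} {c : ℝ} (hf : HasSum f c) (h0 : f 0 = 0)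
    (hb : ∀ d, |f d| ≤ 1 / (d : ℝ) ^ 3) {n : ℕ} (hn : 1 ≤ n) :
    |∑ d ∈ Finset.Icc 1 n, f d - c| ≤ 1 / (2 * (n : ℝ) ^ 2) := by
  have key : ∀ m, n ≤ m → |∑ d ∈ Finset.Icc 1 n, f d - ∑ d ∈ Finset.range (m + 1), f d| ≤
      1 / (2 * (n : ℝ) ^ 2) - 1 / (2 * (m : ℝ) ^ 2) := by
    intro m hm
    induction m, hm using Nat.le_induction with
    | base =>
      rw [Finset.range_eq_Ico, Finset.sum_eq_sum_Ico_succ_bot (by omega), h0]
      simp [Finset.Ico_add_one_right_eq_Icc]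
    | succ m hm ih =>
      have hm' : (1 : ℝ) ≤ m := by exact_mod_cast hn.trans hm
      have h1 : 1 / ((m : ℝ) + 1) ^ 3 ≤ 1 / (2 * (m : ℝ) ^ 2) - 1 / (2 * ((m : ℝ) + 1) ^ 2) := by
        rw [div_sub_div _ _ (by positivity) (by positivity), div_le_div_iff₀ (by positivity)
          (by positivity)]
        have : 0 ≤ ((m : ℝ) + 1) ^ 2 * (6 * m + 2) := by positivity
        nlinarith
      have h2 := hb (m + 1)
      rw [Finset.sum_range_succ, ← sub_sub]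
      refine (abs_sub _ _).trans ?_
      push_cast at h2 ⊢
      linarith
  have ht := ((hf.tendsto_sum_nat.comp (Filter.tendsto_add_atTop_nat 1)).const_sub
    (∑ d ∈ Finset.Icc 1 n, f d)).abs
  refine le_of_tendsto ht ((Filter.eventually_ge_atTop n).mono fun m hm => (key m hm).trans ?_)
  have : 0 ≤ 1 / (2 * (m : ℝ) ^ 2) := by positivity
  linarith

end PCMx

theorem p_PCM (hZT : S_ZT) : S_PCM := by
  intro Q₀ Q₁ X ω h0 h1 hX hω
  have hmu : ∀ d : ℕ, |(ArithmeticFunction.moebius d : ℝ)| ≤ 1 := fun d => by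
    exact_mod_cast ArithmeticFunction.abs_moebius_le_one
  have hn : 1 ≤ ⌊Q₁⌋₊ := Nat.le_floor (by simpa using h0.trans h1)
  have hlt := Nat.lt_floor_add_one Q₁
  set n := ⌊Q₁⌋₊
  have hn' : (1 : ℝ) ≤ n := by exact_mod_cast hn
  have hP := mul_nonneg hX hω
  have t1 := PCMx.tail hZT.1 (by simp) (fun d => by
    rw [abs_div, abs_of_nonneg (a := (d : ℝ) ^ 3) (by positivity)]
    exact div_le_div_of_nonneg_right (hmu d) (by positivity)) hn
  set D := (Q₁ ^ 2 - Q₀ ^ 2) / 2 with hD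
  have hD0 : 0 ≤ D := by rw [hD]; nlinarith
  have hD1 : D ≤ 2 * (n : ℝ) ^ 2 := by rw [hD]; nlinarith
  have e : ∑ d ∈ Finset.Icc 1 n, (ArithmeticFunction.moebius d : ℝ) *
      nmean (Q₀ / d) (Q₁ / d) (X / d) ω - c0 * X * ω * D =
      ∑ d ∈ Finset.Icc 1 n, (ArithmeticFunction.moebius d : ℝ) * (nmean (Q₀ / d) (Q₁ / d) (X / d) ω
        - X / d * ω * (((Q₁ / d) ^ 2 - (Q₀ / d) ^ 2) / 2)) + X * ω * (D *
        (∑ d ∈ Finset.Icc 1 n, (ArithmeticFunction.moebius d : ℝ) / (d : ℝ) ^ 3 - c0)) := by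
    rw [mul_sub D, mul_sub (X * ω), Finset.mul_sum, Finset.mul_sum, add_sub, ← Finset.sum_add_distrib]
    congr 1
    · exact Finset.sum_congr rfl fun d _ => by rw [hD]; ring
    · ring
  have t2 : |∑ d ∈ Finset.Icc 1 n, (ArithmeticFunction.moebius d : ℝ) *
      (nmean (Q₀ / d) (Q₁ / d) (X / d) ω - X / d * ω * (((Q₁ / d) ^ 2 - (Q₀ / d) ^ 2) / 2))| ≤
      X * ω * Q₁ * 2 := by
    refine (Finset.abs_sum_le_sum_abs _ _).trans
      ((Finset.sum_le_sum (g := fun d : ℕ => X * ω * Q₁ * (1 / (d : ℝ) ^ 2)) fun d _ => ?_).trans ?_)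
    · rw [abs_mul]
      refine (mul_le_of_le_one_left (abs_nonneg _) (hmu d)).trans
        ((PCMx.one (by positivity) (by gcongr) (by positivity) hω).trans (le_of_eq (by ring)))
    · rw [← Finset.mul_sum]
      refine mul_le_mul_of_nonneg_left ?_ (mul_nonneg hP (by linarith))
      obtain ⟨m, hm⟩ : ∃ m, n = m + 1 := ⟨n - 1, by omega⟩
      have : 0 ≤ 1 / ((m : ℝ) + 1) := by positivity
      rw [hm]; linarith [PCMx.sq m]
  have t3 : |X * ω * (D * (∑ d ∈ Finset.Icc 1 n,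
      (ArithmeticFunction.moebius d : ℝ) / (d : ℝ) ^ 3 - c0))| ≤ X * ω * Q₁ := by
    rw [abs_mul, abs_of_nonneg hP, abs_mul, abs_of_nonneg hD0]
    refine mul_le_mul_of_nonneg_left (((mul_le_mul hD1 t1 (abs_nonneg _) (by positivity)).trans
      (le_of_eq (by field_simp))).trans (h0.trans h1)) hP
  rw [e]
  refine (abs_add_le _ _).trans ?_
  linarith

end Pool.Agent.P.MP_e45b92_nt.UG
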