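import Pool.Agent.P.MP_e45b92_nt.UG.IfaceA

/-! Step PCV. -/

set_option autoImplicit false

namespace Pool.Agent.P.MP_e45b92_nt.UG

open MeasureTheory Set

namespace PCVx

theorem sum_le (n : ℕ) : ∑ d ∈ Finset.Icc 1 n, 1 / ((d : ℝ) * √d) ≤ 3 := by
  have key : ∀ n : ℕ, 1 ≤ n → ∑ d ∈ Finset.Icc 1 n, 1 / ((d : ℝ) * √d) ≤ 3 - 2 / √n := by
    intro n hn
    induction n, hn using Nat.le_induction with
    | base => norm_num
    | succ n hn ih =>
      rw [Finset.sum_Icc_succ_top (by omega)]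
      have h0 : (0 : ℝ) < n := by exact_mod_cast hn
      have ha : 0 < √(n : ℝ) := Real.sqrt_pos.2 h0
      have hb : 0 < √((n + 1 : ℕ) : ℝ) := Real.sqrt_pos.2 (by positivity)
      have e1 : √(n : ℝ) * √n = n := Real.mul_self_sqrt h0.le
      have e2 : √((n + 1 : ℕ) : ℝ) * √((n + 1 : ℕ) : ℝ) = (n + 1 : ℕ) :=
        Real.mul_self_sqrt (by positivity)
      have hab : √(n : ℝ) ≤ √((n + 1 : ℕ) : ℝ) := Real.sqrt_le_sqrt (by push_cast; linarith)
      have e3 : ((n + 1 : ℕ) : ℝ) = n + 1 := by push_cast; ring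
      generalize √((n + 1 : ℕ) : ℝ) = b at *
      generalize √(n : ℝ) = a at *
      have : 1 / (((n + 1 : ℕ) : ℝ) * b) ≤ 2 / a - 2 / b := by
        have h1 : (b - a) * (b + a) = 1 := by linarith
        rw [← e2, div_sub_div _ _ ha.ne' hb.ne', div_le_div_iff₀ (by positivity) (by positivity)]
        have h2 : a * (b + a) ≤ 2 * (b * b) := by nlinarith
        have h3 : (2 * b - a * 2) * (b * b * b) - 1 * (a * b) =
            b * (b - a) * (2 * (b * b) - a * (b + a)) := by linear_combination (a * b) * h1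
        have h4 : 0 ≤ b * (b - a) * (2 * (b * b) - a * (b + a)) :=
          mul_nonneg (mul_nonneg hb.le (by linarith)) (by linarith)
        linarith
      linarith
  rcases Nat.eq_zero_or_pos n with rfl | h
  · simp
  · exact (key n h).trans (sub_le_self _ (by positivity))

end PCVx

theorem p_PCV (hMOB : S_MOB) (hNV : S_NV) : S_PCV := by
  intro Q₀ Q₁ s X τ ω Λ h1 h2 hX hω hΛ hl hs
  set f : ℕ → ℝ × ℝ → ℝ := fun d z =>
    ((box z.1 z.2 (Q₀ / d) (Q₁ / d) (s / d) (X / d) τ ω).card : ℝ) -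
      nmean (Q₀ / d) (Q₁ / d) (X / d) ω with hf
  have hint : ∀ d : ℕ, Integrable (fun z => f d z ^ 2) μ2 := fun d => by
    have a0 : 0 ≤ Q₀ / d := by positivity
    have a1 : 0 ≤ X / d := by positivity
    obtain ⟨C, hC⟩ := card_box_bdd (Q₁ := Q₁ / d) (s := s / d) (τ := τ) a0 a1 hω
    refine integrable_of_bdd (((measurable_card_box a0 a1 hω).sub_const _).pow_const 2)
      ((C + |nmean (Q₀ / d) (Q₁ / d) (X / d) ω|) ^ 2) fun z => ?_
    rw [abs_pow]
    refine pow_le_pow_left₀ (abs_nonneg _) ((abs_sub _ _).trans ?_) 2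
    rw [Nat.abs_cast]
    exact add_le_add_left (hC z.1 z.2) _
  have hw : ∀ d ∈ Finset.Icc 1 ⌊Q₁⌋₊, (1 : ℝ) ≤ d := fun d hd => by
    exact_mod_cast (Finset.mem_Icc.1 hd).1
  have hK : 0 ≤ X * ω * Q₁ ^ 2 * (1 + Q₁ / Q₀) := by
    have : 0 ≤ Q₁ / Q₀ := div_nonneg (by linarith) (by linarith)
    positivity
  calc _ ≤ ∫ z, 3 * ∑ d ∈ Finset.Icc 1 ⌊Q₁⌋₊, (d * √d) * f d z ^ 2 ∂μ2 := by
        refine integral_mono_of_nonneg (Filter.Eventually.of_forall fun z => sq_nonneg _)
          ((integrable_finsetSum _ fun d _ => (hint d).const_mul _).const_mul _)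
          (Filter.Eventually.of_forall fun z => ?_)
        simp only
        rw [hMOB _ _ _ _ _ _ _ _ (by linarith), ← Finset.sum_sub_distrib]
        refine (Finset.sum_sq_le_sum_mul_sum_of_sq_le_mul _ (f := fun d : ℕ => 1 / ((d : ℝ) * √d))
          (g := fun d : ℕ => (d * √d) * f d z ^ 2) (fun d _ => by positivity)
          (fun d _ => by positivity) fun d hd => ?_).trans
          (mul_le_mul_of_nonneg_right (PCVx.sum_le _) (Finset.sum_nonneg fun d _ => by positivity))
        have h0 : (0 : ℝ) < d := by linarith [hw d hd]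
        have hm : (ArithmeticFunction.moebius d : ℝ) ^ 2 ≤ 1 := by
          rw [← sq_abs]
          refine pow_le_one₀ (abs_nonneg _) ?_
          exact_mod_cast ArithmeticFunction.abs_moebius_le_one
        rw [← mul_sub, mul_pow, ← mul_assoc, one_div_mul_cancel (by positivity)]
        exact mul_le_mul_of_nonneg_right hm (sq_nonneg _)
    _ = 3 * ∑ d ∈ Finset.Icc 1 ⌊Q₁⌋₊, (d * √d) * ∫ z, f d z ^ 2 ∂μ2 := by
        rw [integral_const_mul, integral_finsetSum _ fun d _ => (hint d).const_mul _]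
        simp only [integral_const_mul]
    _ ≤ 3 * ∑ d ∈ Finset.Icc 1 ⌊Q₁⌋₊, X * ω * Q₁ ^ 2 * (1 + Q₁ / Q₀) * (1 / ((d : ℝ) * √d)) := by
        refine mul_le_mul_of_nonneg_left (Finset.sum_le_sum fun d hd => ?_) (by norm_num)
        have hd1 := hw d hd
        have h0 : (0 : ℝ) < d := by linarith
        have hq : 0 < Q₁ := by linarith
        have b1 : Q₁ / d ≤ Q₁ := div_le_self hq.le hd1
        have b2 : X / d ≤ X := div_le_self hX hd1
        have := hNV (Q₀ / d) (Q₁ / d) (s / d) (X / d) τ ω Λ (by positivity) (by gcongr)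
          (by positivity) hω hΛ ((Real.log_le_log (by positivity) b1).trans hl)
        have b3 : (X / d + Q₁ / d * ω) * (1 + Λ) ≤ 1 := le_trans (by gcongr) hs
        rw [div_div_div_cancel_right₀ h0.ne'] at this
        refine (mul_le_mul_of_nonneg_left (this.trans (mul_le_mul_of_nonneg_left
          (add_le_add_left b3 _) (by positivity))) (by positivity)).trans (le_of_eq ?_)
        have e : √(d : ℝ) * √d = d := Real.mul_self_sqrt h0.le
        have hr : 0 < √(d : ℝ) := Real.sqrt_pos.2 h0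
        generalize √(d : ℝ) = r at *
        rw [← e]
        field_simp
    _ ≤ _ := by
        rw [← Finset.mul_sum]
        have := mul_le_mul_of_nonneg_left (PCVx.sum_le ⌊Q₁⌋₊) hK
        linarith

end Pool.Agent.P.MP_e45b92_nt.UG
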