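import Pool.Agent.P.MP_e45b92_nt.UG.IfaceB

/-! Step PL. -/

set_option autoImplicit false

namespace Pool.Agent.P.MP_e45b92_nt.UG

open MeasureTheory Set

namespace PLx

theorem gap (T : Finset V3) (f : V3 → ℝ) {a m : ℝ} (ha : 0 < a) (m0 : 0 < m) (m1 : m ≤ 1)
    (h1 : ∀ u ∈ T, |f u| ≤ a) (h2 : ∀ u ∈ T, ∀ v ∈ T, u ≠ v → m ≤ |f u - f v| / a) :
    (T.card : ℝ) ≤ 3 / m := by
  have hma : 0 < m * a := by positivity
  have h3 : T.card ≤ (Finset.Icc 0 ⌊2 / m⌋).card := by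
    refine Finset.card_le_card_of_injOn (fun u => ⌊(f u + a) / (m * a)⌋) (fun u hu => ?_)
      fun u hu v hv e => ?_
    · have := abs_le.1 (h1 u hu)
      refine Finset.mem_coe.2 (Finset.mem_Icc.2 ⟨Int.floor_nonneg.2 (div_nonneg (by linarith)
        hma.le), Int.floor_le_floor ?_⟩)
      rw [div_le_div_iff₀ hma m0]
      nlinarith
    · by_contra hne
      have h4 := h2 u hu v hv hne
      have h5 := Int.abs_sub_lt_one_of_floor_eq_floor e
      rw [← sub_div, abs_div, abs_of_pos hma, div_lt_one hma, add_sub_add_right_eq_sub] at h5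
      rw [le_div_iff₀ ha] at h4
      linarith
  have h4 : (0 : ℤ) ≤ ⌊2 / m⌋ := Int.floor_nonneg.2 (by positivity)
  have h5 : ((Finset.Icc 0 ⌊2 / m⌋).card : ℤ) = ⌊2 / m⌋ + 1 := by
    rw [Int.card_Icc_of_le _ _ (by omega)]; ring
  have h6 : (T.card : ℝ) ≤ (⌊2 / m⌋ : ℤ) + 1 := by exact_mod_cast h5 ▸ Int.ofNat_le.2 h3
  have h7 := Int.floor_le (2 / m)
  have h8 : 1 ≤ 1 / m := by rw [le_div_iff₀ m0]; linarith
  have h9 : 3 / m = 2 / m + 1 / m := by ring
  linarith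

theorem side {a b m p q r s : ℝ} (ha : 0 < a) (hb : 0 < b) (m0 : 0 < m) (h1 : |p| / a = m)
    (h2 : |q| / b ≤ m) (h3 : p * s = q * r) : |s| / b ≤ |r| / a := by
  rw [div_eq_iff ha.ne'] at h1
  rw [div_le_iff₀ hb] at h2
  rw [div_le_div_iff₀ hb ha]
  have h4 : |p| * |s| = |q| * |r| := by rw [← abs_mul, h3, abs_mul]
  have h5 := mul_le_mul_of_nonneg_right h2 (abs_nonneg r)
  refine le_of_mul_le_mul_left (a := m) ?_ m0
  rw [h1] at h4
  linarith

end PLx

theorem p_PL :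
    S_PL := by
  classical
  intro φ ψ Γ c a b S hφ hψ hΓ h0 hc ha hb hk hne hS
  obtain ⟨w, hw, hmin⟩ := Finset.exists_min_image
    ((S ∪ Finset.image₂ (· - ·) S S).filter (· ≠ 0)) (fun u => max (|φ u| / a) (|ψ u| / b))
    (hne.imp fun u hu => Finset.mem_filter.2 ⟨Finset.mem_union_left _ hu, (hS u hu).2.1⟩)
  obtain ⟨w1, w0⟩ := Finset.mem_filter.1 hw
  have wΓ : w ∈ Γ := by
    rcases Finset.mem_union.1 w1 with h | h
    · exact (hS w h).1
    · obtain ⟨u, hu, v, hv, rfl⟩ := Finset.mem_image₂.1 h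
      exact hΓ u (hS u hu).1 v (hS v hv).1
  set m := max (|φ w| / a) (|ψ w| / b) with hm
  have w2 : |φ w| / a ≤ m := le_max_left _ _
  have w3 : |ψ w| / b ≤ m := le_max_right _ _
  have m0 : 0 < m := by
    by_contra h
    refine w0 (h0 w wΓ ?_ ?_)
    · have := (div_le_iff₀ ha).1 (w2.trans (not_lt.1 h))
      exact abs_nonpos_iff.1 (by linarith)
    · have := (div_le_iff₀ hb).1 (w3.trans (not_lt.1 h))
      exact abs_nonpos_iff.1 (by linarith)
  have m1 : m ≤ 1 := by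
    obtain ⟨u, hu⟩ := hne
    obtain ⟨-, u1, u2, u3⟩ := hS u hu
    exact (hmin u (Finset.mem_filter.2 ⟨Finset.mem_union_left _ hu, u1⟩)).trans
      (max_le ((div_le_one ha).2 u2) ((div_le_one hb).2 u3))
  have line : ∀ T ⊆ S, (∀ u ∈ T, ∀ v ∈ T, φ w * ψ u - ψ w * φ u = φ w * ψ v - ψ w * φ v) →
      (T.card : ℝ) ≤ 3 / m := by
    intro T hT h
    have h1 : ∀ u ∈ T, ∀ v ∈ T, u ≠ v → m ≤ max (|φ u - φ v| / a) (|ψ u - ψ v| / b) :=
      fun u hu v hv e => by
        rw [← hφ, ← hψ]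
        exact hmin (u - v) (Finset.mem_filter.2 ⟨Finset.mem_union_right _
          (Finset.mem_image₂_of_mem (hT hu) (hT hv)), sub_ne_zero.2 e⟩)
    rcases max_choice (|φ w| / a) (|ψ w| / b) with e | e
    · refine PLx.gap T φ ha m0 m1 (fun u hu => (hS u (hT hu)).2.2.1) fun u hu v hv e' =>
        (h1 u hu v hv e').trans (max_le le_rfl (PLx.side ha hb m0 e.symm w3 ?_))
      linear_combination h u hu v hv
    · refine PLx.gap T ψ hb m0 m1 (fun u hu => (hS u (hT hu)).2.2.2) fun u hu v hv e' =>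
        (h1 u hu v hv e').trans (max_le (PLx.side hb ha m0 e.symm w2 ?_) le_rfl)
      linear_combination -h u hu v hv
  refine ⟨w, wΓ, w0, ?_, line _ (Finset.filter_subset _ _) fun u hu v hv =>
    (Finset.mem_filter.1 hu).2.trans (Finset.mem_filter.1 hv).2.symm⟩
  set K := ⌊2 * m * a * b / c⌋ with hK
  have K0 : 0 ≤ K := Int.floor_nonneg.2 (by positivity)
  have hfl : ∀ u ∈ S, φ w * ψ u - ψ w * φ u = (⌊(φ w * ψ u - ψ w * φ u) / c⌋ : ℤ) * c :=
    fun u hu => by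
      obtain ⟨k, e⟩ := hk w wΓ u (hS u hu).1
      rw [e, mul_div_cancel_right₀ _ hc.ne', Int.floor_intCast]
  rw [Finset.card_eq_sum_card_fiberwise (f := fun u => ⌊(φ w * ψ u - ψ w * φ u) / c⌋)
    (t := (Finset.Icc (-K) K).erase 0) fun u hu => ?_]
  · push_cast
    refine (Finset.sum_le_card_nsmul _ _ (3 / m) fun k _ => line _
      ((Finset.filter_subset _ _).trans (Finset.filter_subset _ _)) fun u hu v hv => ?_).trans ?_
    · obtain ⟨u1, u2⟩ := Finset.mem_filter.1 hu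
      obtain ⟨v1, v2⟩ := Finset.mem_filter.1 hv
      rw [hfl u (Finset.mem_filter.1 u1).1, hfl v (Finset.mem_filter.1 v1).1, u2, v2]
    · have h1 := Finset.card_erase_add_one (Finset.mem_Icc.2 ⟨neg_nonpos.2 K0, K0⟩)
      have h2 := Int.card_Icc_of_le (-K) K (by omega)
      have h3 : (((Finset.Icc (-K) K).erase 0).card : ℤ) = 2 * K := by omega
      have h4 : (((Finset.Icc (-K) K).erase 0).card : ℝ) = 2 * K := by exact_mod_cast h3
      rw [nsmul_eq_mul, h4]
      calc 2 * (K : ℝ) * (3 / m) ≤ 2 * (2 * m * a * b / c) * (3 / m) := by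
            gcongr; exact Int.floor_le _
        _ = _ := by field_simp; norm_num
  · obtain ⟨u1, u2⟩ := Finset.mem_filter.1 (Finset.mem_coe.1 hu)
    obtain ⟨-, -, u3, u4⟩ := hS u u1
    have h1 := hfl u u1
    beta_reduce
    generalize ⌊(φ w * ψ u - ψ w * φ u) / c⌋ = k at *
    refine Finset.mem_coe.2 (Finset.mem_erase.2 ⟨?_, Finset.mem_Icc.2 (abs_le.1 ?_)⟩)
    · rintro rfl
      exact u2 (by simpa using h1)
    · refine Int.le_floor.2 ?_
      rw [le_div_iff₀ hc, Int.cast_abs, ← abs_of_pos hc, ← abs_mul, ← h1]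
      refine (abs_sub _ _).trans ?_
      rw [abs_mul, abs_mul]
      have e1 := mul_le_mul ((div_le_iff₀ ha).1 w2) u4 (abs_nonneg _) (by positivity)
      have e2 := mul_le_mul ((div_le_iff₀ hb).1 w3) u3 (abs_nonneg _) (by positivity)
      linarith

end Pool.Agent.P.MP_e45b92_nt.UG
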