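import Pool.Agent.P.MP_e45b92_nt.UG.IfaceA

/-! Step TR. -/

set_option autoImplicit false

namespace Pool.Agent.P.MP_e45b92_nt.UG

open MeasureTheory Set

theorem p_TR : S_TR := by
  intro P hP h
  rw [μ2, μ1, Measure.prod_restrict, ← Measure.volume_eq_prod,
    ae_restrict_iff' (measurableSet_Ico.prod measurableSet_Ico)] at h
  have h1 := ae_all_iff.2 fun m : ℤ × ℤ =>
    (measurePreserving_add_right volume (-((m.1, m.2) : ℝ × ℝ))).quasiMeasurePreserving.ae h
  filter_upwards [h1] with z hz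
  simpa using hP _ ⌊z.1⌋ ⌊z.2⌋ (hz (⌊z.1⌋, ⌊z.2⌋) ⟨by
    simpa [← sub_eq_add_neg] using Int.fract_lt_one z.1, by
    simpa [← sub_eq_add_neg] using Int.fract_lt_one z.2⟩)

end Pool.Agent.P.MP_e45b92_nt.UG
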