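import Pool.Agent.P.MP_e45b92_nt.UG.IfaceB

/-! Step UB1. -/

set_option autoImplicit false

namespace Pool.Agent.P.MP_e45b92_nt.UG

open MeasureTheory Set

namespace UB1x

theorem scale {X y : ℝ} {D : ℕ} (h0 : X * 2 ^ 0 ≤ y) (h1 : y ≤ X * 2 ^ D) (hD : D ≠ 0) :
    ∃ s < D, X * 2 ^ s ≤ y ∧ y ≤ X * 2 ^ (s + 1) := by
  induction D with
  | zero => exact absurd rfl hD
  | succ D ih =>
    by_cases c : X * 2 ^ D ≤ y
    · exact ⟨D, Nat.lt_succ_self D, c, h1⟩
    · obtain ⟨s, a, b⟩ := ih (not_le.1 c).le (by rintro rfl; exact c h0)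
      exact ⟨s, by omega, b⟩

end UB1x

theorem p_UB1 (hNI : S_NI) : S_UB1 := by
  classical
  intro α β T X ℓ ε A h D F hh hT hX hℓ hε hA hF hv
  have h0 : (0 : ℝ) < h := by exact_mod_cast hh
  let G : ℕ → Finset V3 := fun s =>
    F.filter fun v => X * 2 ^ s ≤ |xc α v| ∧ |xc α v| ≤ X * 2 ^ (s + 1)
  have hr : ∀ v ∈ F, 0 ≤ rad α T ε v := fun v m => by
    have : (0 : ℝ) < v.1 := lt_trans (by positivity) (hv v m).2.1
    unfold rad; positivity
  have cov : ∀ v ∈ F, ∃ s ∈ Finset.range D, v ∈ G s := fun v m => by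
    have a := (hv v m).2.2.2.1
    have p0 : 0 < X * 2 ^ 0 := by positivity
    have hD : D ≠ 0 := by
      rintro rfl
      rcases a with a | a <;> linarith [a.1, a.2]
    have b : X * 2 ^ 0 ≤ |xc α v| ∧ |xc α v| ≤ X * 2 ^ D := by
      rcases a with a | a
      · rw [abs_of_pos (by linarith [a.1])]; exact ⟨a.1, a.2.le⟩
      · rw [abs_of_neg (by linarith [a.2])]; constructor <;> linarith [a.1, a.2]
    obtain ⟨s, s1, s2⟩ := UB1x.scale b.1 b.2 hD
    exact ⟨s, Finset.mem_range.2 s1, Finset.mem_filter.2 ⟨m, s2⟩⟩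
  have one : ∀ s ∈ Finset.range D, ∑ v ∈ G s, rad α T ε v ≤ ε * ℓ / h := fun s hs => by
    obtain ⟨f1, f2⟩ := hF s (Finset.mem_range.1 hs)
    obtain ⟨U, hU⟩ : ∃ U, U = X * 2 ^ s := ⟨_, rfl⟩
    have U0 : 0 < U := by rw [hU]; positivity
    have mG : ∀ v ∈ G s, v ∈ F ∧ U ≤ |xc α v| ∧ |xc α v| ≤ 2 * U := fun v m => by
      obtain ⟨a, b, c⟩ := Finset.mem_filter.1 m
      refine ⟨a, hU ▸ b, c.trans_eq ?_⟩
      rw [hU]; ring
    rw [← hU] at f1 f2
    have c1 := hNI α β T U ℓ (A * ε / U) (A * T * U) (3 * A * ε * 2 ^ h / T) h (G s) hT U0 hℓ.le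
      (by positivity) (by
        rw [show A * ε / U * (2 * U) * 2 ^ h / T = 2 * (A * ε * 2 ^ h / T) by field_simp,
          show 3 * A * ε * 2 ^ h / T = 3 * (A * ε * 2 ^ h / T) by ring]
        have : 0 < A * ε * 2 ^ h / T := by positivity
        linarith) f2 fun v m => by
      obtain ⟨a, b, c⟩ := mG v m
      obtain ⟨v1, v2, v3, -, v5, v6⟩ := hv v a
      refine ⟨v1, v2, v3, c, v5, fun i => v6 fun ξ e1 e2 e3 => i ξ e1 (e2.trans ?_) (e3.trans ?_)⟩
      · exact div_le_div_of_nonneg_left (by positivity) U0 b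
      · have := mul_le_mul_of_nonneg_left c (show 0 ≤ A * T by positivity)
        linarith
    have c2 : ∀ v ∈ G s, rad α T ε v ≤ ε / (T * (T / 2 ^ h) * U) := fun v m => by
      obtain ⟨a, b, -⟩ := mG v m
      have v2 := (hv v a).2.1
      have : (0 : ℝ) < v.1 := lt_trans (by positivity) v2
      unfold rad
      refine div_le_div_of_nonneg_left hε.le (by positivity) ?_
      exact mul_le_mul (mul_le_mul_of_nonneg_left v2.le hT.le) b U0.le (by positivity)
    refine (Finset.sum_le_card_nsmul _ _ _ c2).trans ?_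
    rw [nsmul_eq_mul]
    refine (mul_le_mul_of_nonneg_right (c1.trans f1.le) (by positivity)).trans_eq ?_
    field_simp
  calc ∑ v ∈ F, rad α T ε v
      ≤ ∑ v ∈ F, ∑ s ∈ Finset.range D, if v ∈ G s then rad α T ε v else 0 :=
        Finset.sum_le_sum fun v m => by
          obtain ⟨s, a, b⟩ := cov v m
          have := Finset.single_le_sum (f := fun s => if v ∈ G s then rad α T ε v else 0)
            (fun i _ => by split_ifs; exacts [hr v m, le_rfl]) a
          rwa [if_pos b] at this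
    _ = ∑ s ∈ Finset.range D, ∑ v ∈ G s, rad α T ε v := by
        rw [Finset.sum_comm]
        refine Finset.sum_congr rfl fun s _ => ?_
        rw [← Finset.sum_filter, Finset.filter_mem_eq_inter,
          Finset.inter_eq_right.2 (Finset.filter_subset _ _)]
    _ ≤ _ := by
        refine (Finset.sum_le_card_nsmul _ _ _ one).trans_eq ?_
        rw [nsmul_eq_mul, Finset.card_range]; ring

end Pool.Agent.P.MP_e45b92_nt.UG
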