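import Pool.Agent.P.MP_e45b92_nt.UG.IfaceB
import Pool.Agent.P.MP_e45b92_nt.UG.IfaceA

/-! Step UB2. -/

set_option autoImplicit false

namespace Pool.Agent.P.MP_e45b92_nt.UG

open MeasureTheory Set

theorem p_UB2 (hBON : S_BON) (hISO : S_ISO) : S_UB2 := by
  intro α β T X ε A h D n n' F hh hT hX hε hA h1 h2 hF
  have hh0 : (0 : ℝ) < h := by exact_mod_cast (by omega : 0 < h)
  have hx : ∀ v ∈ F, X ≤ |xc α v| ∧ |xc α v| ≤ X * 2 ^ D := fun v hv => by
    rcases (hF v hv).2.2.2.1 with ⟨a, b⟩ | ⟨a, b⟩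
    · rw [pow_zero, mul_one] at a
      rw [abs_of_pos (hX.trans_le a)]
      exact ⟨a, b.le⟩
    · rw [pow_zero, mul_one] at b
      rw [abs_of_neg (by linarith)]
      exact ⟨by linarith, by linarith⟩
  have hx0 : ∀ v ∈ F, 0 < |xc α v| := fun v hv => hX.trans_le (hx v hv).1
  have hq : ∀ v ∈ F, (0 : ℝ) < v.1 := fun v hv => lt_trans (by positivity) (hF v hv).2.1
  have hρ : ∀ v ∈ F, 0 < rad α T ε v := fun v hv =>
    div_pos hε (mul_pos (mul_pos hT (hq v hv)) (hx0 v hv))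
  have hδ : ∀ v ∈ F, 1 / 2 ^ n' ≤ rad α T ε v / h := fun v hv => by
    refine h2.trans ?_
    rw [rad, div_div]
    refine div_le_div_of_nonneg_left hε.le
      (mul_pos (mul_pos (mul_pos hT (hq v hv)) (hx0 v hv)) hh0) ?_
    calc T * v.1 * |xc α v| * h ≤ T * T * (X * 2 ^ D) * h := by
          have := (hF v hv).2.2.1
          have := (hx v hv).2
          gcongr
      _ = _ := by ring
  have := hBON F ctr (rad α T ε) (1 / 2 ^ n') (1 / h) (by positivity) hρ fun v hv =>
    (hISO α T ε A h D F v hT hε hA (hF v hv).1 (hF v hv).2.1 (hF v hv).2.2.1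
      (abs_pos.1 (hx0 v hv)) (hF v hv).2.2.2.2.1 fun w hw =>
        ⟨(hF w hw).1, (hF w hw).2.1, (hF w hw).2.2.1, abs_pos.1 (hx0 w hw), (hx w hw).2.trans (by
          rw [mul_comm]
          exact mul_le_mul_of_nonneg_left (hx v hv).1 (by positivity))⟩).trans
      (mul_le_mul_of_nonneg_right h1 (hρ v hv).le)
  refine le_trans ?_ (this.trans (measureReal_mono ?_
    (ne_top_of_le_ne_top (volume_Cl_ne_top n β) (measure_mono inter_subset_right))))
  · rw [Finset.mul_sum]
    refine Finset.sum_le_sum fun v hv => ?_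
    have := hδ v hv
    have e : (1 - 2 / (h : ℝ)) * (2 * rad α T ε v) =
        2 * rad α T ε v * (1 - 1 / h) - 2 * (rad α T ε v / h) := by ring
    linarith
  · intro b hb
    obtain ⟨v, hv, b1, b2⟩ := mem_iUnion₂.1 hb
    have hv' : v ∈ F := hv
    have d0 : (0 : ℝ) < 1 / 2 ^ n' := by positivity
    refine ⟨fun b' hb' => ⟨v.2.1, v.2.2, v.1, ?_, (hF v hv').2.2.1, ?_⟩,
      (hF v hv').2.2.2.2.2 ⟨by linarith, by linarith⟩⟩
    · have : (0 : ℤ) < v.1 := by exact_mod_cast hq v hv'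
      omega
    · have c := abs_lt.1 (abs_sub_lt_of_cell hb')
      have c2 : |b' - ctr v| < rad α T ε v := abs_lt.2 ⟨by linarith [c.1], by linarith [c.2]⟩
      have q0 : v.1 ≠ 0 := by exact_mod_cast (hq v hv').ne'
      change |xc α v| * |yc b' v| < ε / T
      rw [yc_eq q0, abs_mul, abs_of_pos (hq v hv'), ← mul_assoc]
      refine (mul_lt_mul_of_pos_left c2 (mul_pos (hx0 v hv') (hq v hv'))).trans_le (le_of_eq ?_)
      have := hx0 v hv'
      have := hq v hv'
      rw [rad]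
      field_simp

end Pool.Agent.P.MP_e45b92_nt.UG
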