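import Pool.Agent.P.MP_e45b92_nt.UG.IfaceB

/-! Step UBC. -/

set_option autoImplicit false

namespace Pool.Agent.P.MP_e45b92_nt.UG

open MeasureTheory Set

namespace UBCx

theorem step {c c' δ a T : ℝ} (hc' : 0 < c') (hδ : 0 < δ) (hc : c' * Real.exp (2 * δ) = c)
    (ha : 1 ≤ a) (hT : 0 < T) (h1 : a ≤ Real.log T) (h2 : Real.log T ≤ a + δ) :
    eps c' (Real.exp a) / Real.exp a ≤ eps c T / T := by
  unfold eps
  rw [Real.log_exp, div_div, div_div]
  have l0 : 0 ≤ Real.log a := Real.log_nonneg ha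
  have l1 : Real.log a ≤ Real.log (Real.log T) := Real.log_le_log (by linarith) h1
  have e1 : T ≤ Real.exp a * Real.exp δ := by
    rw [← Real.exp_add, ← Real.exp_log hT]
    exact Real.exp_le_exp.2 h2
  have e2 : Real.log T ≤ a * Real.exp δ := by
    have := Real.add_one_le_exp δ
    nlinarith
  have e3 : Real.log T * T ≤ a * Real.exp a * Real.exp (2 * δ) := by
    rw [two_mul, Real.exp_add]
    calc Real.log T * T ≤ (a * Real.exp δ) * (Real.exp a * Real.exp δ) :=
          mul_le_mul e2 e1 hT.le (by positivity)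
      _ = _ := by ring
  have hc0 : 0 < c := hc ▸ by positivity
  calc c' * Real.log a / (a * Real.exp a)
      = c * Real.log a / (a * Real.exp a * Real.exp (2 * δ)) := by
        rw [← hc]
        field_simp
    _ ≤ c * Real.log (Real.log T) / (Real.log T * T) :=
        div_le_div₀ (mul_nonneg hc0.le (l0.trans l1)) (mul_le_mul_of_nonneg_left l1 hc0.le)
          (mul_pos (by linarith) hT) e3

theorem one (hUF : S_UF) {c : ℝ} (hc : Z3 / 4 < c) :
    ∀ᵐ z ∂μ2, ∃ T₀ : ℝ, ∀ T, T₀ ≤ T → Solv z.1 z.2 (eps c T) T := by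
  have hZ := Z3_bounds.1
  obtain ⟨c', h1, h2⟩ := exists_between hc
  have hc' : 0 < c' := by linarith
  obtain ⟨η, T₀, hη, hT₀⟩ := hUF c' h1
  set δ := Real.log (c / c') / 2 with hδdef
  have hδ : 0 < δ := half_pos (Real.log_pos ((one_lt_div hc').2 h2))
  have hcc : c' * Real.exp (2 * δ) = c := by
    rw [hδdef, mul_div_cancel₀ _ two_ne_zero, Real.exp_log (div_pos (hc'.trans h2) hc')]
    field_simp
  have htend : Filter.Tendsto (fun k : ℕ => δ * k) Filter.atTop Filter.atTop :=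
    tendsto_natCast_atTop_atTop.const_mul_atTop hδ
  have hsum : Summable fun k : ℕ =>
      μ2.real {z | ¬ Solv z.1 z.2 (eps c' (Real.exp (δ * k))) (Real.exp (δ * k))} := by
    have hs : Summable fun k : ℕ => 2 / δ ^ (1 + η) * ((k : ℝ) ^ (1 + η))⁻¹ :=
      (Real.summable_nat_rpow_inv.2 (by linarith)).mul_left _
    refine hs.of_norm_bounded_eventually_nat ?_
    filter_upwards [(Real.tendsto_exp_atTop.comp htend).eventually_ge_atTop T₀] with k hk
    rw [Real.norm_of_nonneg measureReal_nonneg]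
    refine (hT₀ (Real.exp (δ * k)) hk).trans (le_of_eq ?_)
    rw [Real.log_exp, Real.mul_rpow hδ.le (Nat.cast_nonneg k), ← div_div,
      div_eq_mul_inv _ ((k : ℝ) ^ (1 + η))]
  have hne := hsum.tsum_ofReal_ne_top
  simp only [ofReal_measureReal (measure_ne_top μ2 _)] at hne
  filter_upwards [ae_eventually_notMem hne] with z hz
  obtain ⟨K, hK⟩ := Filter.eventually_atTop.1 (hz.and (htend.eventually_ge_atTop 1))
  refine ⟨Real.exp (δ * K), fun T hT => ?_⟩
  have hT0 : 0 < T := (Real.exp_pos _).trans_le hT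
  have hl : δ * K ≤ Real.log T := (Real.le_log_iff_exp_le hT0).2 hT
  have hq : (K : ℝ) ≤ Real.log T / δ := by rwa [le_div_iff₀' hδ]
  obtain ⟨a1, a2⟩ := hK ⌊Real.log T / δ⌋₊ (Nat.le_floor hq)
  have b1 : δ * ⌊Real.log T / δ⌋₊ ≤ Real.log T := by
    rw [← le_div_iff₀' hδ]
    exact Nat.floor_le ((Nat.cast_nonneg K).trans hq)
  have b2 : Real.log T ≤ δ * ⌊Real.log T / δ⌋₊ + δ := by
    have := (Nat.lt_floor_add_one (Real.log T / δ)).le
    rw [div_le_iff₀' hδ] at this
    linarith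
  simp only [Set.mem_ofPred_eq, not_not] at a1
  exact a1.mono ((Real.le_log_iff_exp_le hT0).1 b1) (step hc' hδ hcc a2 hT0 b1 b2)

end UBCx

theorem p_UBC (hUF : S_UF) : S_UBC := by
  have h : ∀ᵐ z ∂μ2, ∀ n : ℕ, ∃ T₀ : ℝ, ∀ T, T₀ ≤ T →
      Solv z.1 z.2 (eps (Z3 / 4 + 1 / ((n : ℝ) + 1)) T) T :=
    ae_all_iff.2 fun n => UBCx.one hUF (lt_add_of_pos_right _ (by positivity))
  filter_upwards [h] with z hz c hc
  obtain ⟨n, hn⟩ := exists_nat_one_div_lt (sub_pos.2 hc)
  obtain ⟨T₀, hT₀⟩ := hz n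
  refine ⟨max T₀ (Real.exp 1), fun T hT => (hT₀ T ((le_max_left _ _).trans hT)).mono le_rfl ?_⟩
  have h1 : Real.exp 1 ≤ T := (le_max_right _ _).trans hT
  have hT0 : 0 < T := (Real.exp_pos _).trans_le h1
  have h2 : 1 ≤ Real.log T := (Real.le_log_iff_exp_le hT0).2 h1
  have h3 := Real.log_nonneg h2
  unfold eps
  gcongr
  linarith

end Pool.Agent.P.MP_e45b92_nt.UG
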