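import Pool.Agent.P.MP_e45b92_nt.UG.IfaceB

/-! Step UF. -/

set_option autoImplicit false

namespace Pool.Agent.P.MP_e45b92_nt.UG

open MeasureTheory Set Filter

namespace UFx

theorem small {δ : ℝ} (hδ : 0 < δ) : ∀ᶠ L : ℝ in atTop, Real.log L ^ 4 ≤ δ * L := by
  filter_upwards [(Real.isLittleO_pow_log_id_atTop (n := 4)).bound hδ, eventually_ge_atTop 0]
    with L h1 h2
  rw [Real.norm_eq_abs, Real.norm_eq_abs, id, abs_of_nonneg h2] at h1
  exact (le_abs_self _).trans h1

theorem gle {l : ℝ} (hl : 1 ≤ l) : ((⌈30 * l / Real.log 2⌉₊ : ℕ) : ℝ) ≤ 45 * l := by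
  have h2 := Real.log_two_gt_d9
  have h3 : 30 * l / Real.log 2 ≤ 44 * l := by
    rw [div_le_iff₀ (by linarith)]; nlinarith
  have h4 := Nat.ceil_lt_add_one (a := 30 * l / Real.log 2) (by positivity)
  linarith

theorem gge {L : ℝ} (hL : 0 < L) : L ^ 30 ≤ 2 ^ ⌈30 * Real.log L / Real.log 2⌉₊ := by
  have h2 : 0 < Real.log 2 := Real.log_pos (by norm_num)
  have h3 := Nat.le_ceil (30 * Real.log L / Real.log 2)
  rw [div_le_iff₀ h2] at h3
  rw [← Real.log_le_log_iff (by positivity) (by positivity), Real.log_pow, Real.log_pow]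
  exact_mod_cast h3

theorem z3 : 0 < Z3 := by
  have hs : Summable fun n : ℕ => 1 / ((n : ℝ) + 1) ^ 3 := by
    have := (summable_nat_add_iff 1).2 (Real.summable_one_div_nat_pow.2 (by norm_num : 1 < 3))
    simpa using this
  exact hs.tsum_pos (fun n => by positivity) 0 (by positivity)

end UFx

theorem p_UF (hUT : S_UT) : S_UF := by
  intro c hc
  have hZ := UFx.z3
  have hc0 : 0 < c := lt_trans (by positivity) hc
  have ha : 1 < 4 * c0 * c := by
    rw [div_lt_iff₀ (by norm_num)] at hc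
    rw [c0, show 4 * (1 / Z3) * c = c * 4 / Z3 by ring, lt_div_iff₀ hZ]
    linarith
  obtain ⟨h, hh⟩ := exists_nat_gt (max 20 (14 * (4 * c0 * c) / (4 * c0 * c - 1)))
  have h20 : (20 : ℝ) < h := (le_max_left _ _).trans_lt hh
  have hpos : (0 : ℝ) < h := by linarith
  obtain ⟨κ, hκd⟩ : ∃ κ : ℝ, κ = (1 - 14 / h) * (4 * c0 * c) := ⟨_, rfl⟩
  have hκ : 1 < κ := by
    have h1 := (le_max_right _ _).trans_lt hh
    rw [div_lt_iff₀ (by linarith)] at h1
    have h2 : 14 / (h : ℝ) * (4 * c0 * c) < 4 * c0 * c - 1 := by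
      rw [div_mul_eq_mul_div, div_lt_iff₀ hpos]; linarith
    rw [hκd]; linarith
  obtain ⟨θ, hθd⟩ : ∃ θ : ℝ, θ = (κ - 1) / (2 * κ) := ⟨_, rfl⟩
  have hθ : 0 < θ := by rw [hθd]; exact div_pos (by linarith) (by linarith)
  have hθκ : κ * θ = (κ - 1) / 2 := by rw [hθd]; field_simp
  have hθ1 : θ ≤ 1 := by rw [hθd, div_le_one (by linarith)]; linarith
  obtain ⟨C, hCd⟩ : ∃ C : ℝ, C = 400 * h * 8 ^ h * (45 * h + 1) := ⟨_, rfl⟩
  have hC : 0 < C := by rw [hCd]; positivity
  have key : ∀ᶠ T : ℝ in atTop, μ2.real {z | ¬ Solv z.1 z.2 (eps c T) T} ≤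
      2 / Real.log T ^ (1 + min 1 ((κ - 1) / 2)) := by
    have t := Real.tendsto_log_atTop
    filter_upwards [eventually_ge_atTop 1,
      t.eventually_ge_atTop (21000 * (h : ℝ) ^ 10 * 4 ^ h), t.eventually_ge_atTop 1,
      t.eventually_ge_atTop (1 / c), (t.comp t).eventually_ge_atTop 1,
      t.eventually (UFx.small (δ := θ / (45 * (h + 6))) (by positivity)),
      t.eventually (UFx.small (δ := 1 / C) (by positivity)),
      t.eventually (UFx.small (δ := 1 / (2400 * C ^ 3 * c * (h * 2 ^ h))) (by positivity))]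
      with T hT e1 hL1 e2 hl e3 e4 e5
    rw [Function.comp_apply] at hl
    obtain ⟨L, hLd⟩ : ∃ L, L = Real.log T := ⟨_, rfl⟩
    unfold eps
    rw [← hLd] at e1 hL1 e2 hl e3 e4 e5 ⊢
    have hL : 0 < L := by linarith
    have hgg := UFx.gge hL
    have hgl := UFx.gle hl
    generalize ⌈30 * Real.log L / Real.log 2⌉₊ = g at hgg hgl
    obtain ⟨l, hld⟩ : ∃ l, l = Real.log L := ⟨_, rfl⟩
    rw [← hld] at hl e3 e4 e5 hgl ⊢
    have hl4 : l ≤ l ^ 4 := le_self_pow₀ hl (by norm_num)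
    have b1 : ((h : ℝ) + 6) * g ≤ θ * L := by
      have h1 : l ≤ θ / (45 * (h + 6)) * L := hl4.trans e3
      rw [div_mul_eq_mul_div, le_div_iff₀ (by positivity)] at h1
      have h2 : ((h : ℝ) + 6) * g ≤ (h + 6) * (45 * l) :=
        mul_le_mul_of_nonneg_left hgl (by positivity)
      linarith
    have b2 : A0 h (h * g) ≤ C * l := by
      unfold A0
      rw [hCd, mul_assoc (400 * (h : ℝ) * 8 ^ h)]
      refine mul_le_mul_of_nonneg_left ?_ (by positivity)
      push_cast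
      have : (h : ℝ) * g ≤ h * (45 * l) := mul_le_mul_of_nonneg_left hgl hpos.le
      linarith
    have b0 : 0 ≤ A0 h (h * g) := by unfold A0; positivity
    have b3 : A0 h (h * g) ≤ L := by
      have h1 : l ≤ 1 / C * L := hl4.trans e4
      rw [div_mul_eq_mul_div, le_div_iff₀ hC] at h1
      linarith
    have b4 : 1 / L ^ 2 ≤ c * l / L := by
      rw [div_le_iff₀ hc0] at e2
      rw [div_le_div_iff₀ (by positivity) hL]
      have : 1 ≤ L * c * l := one_le_mul_of_one_le_of_one_le e2 hl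
      nlinarith
    have b5 : 2400 * A0 h (h * g) ^ 3 * (c * l / L) ≤ 1 / (h * 2 ^ h) := by
      rw [div_mul_eq_mul_div, le_div_iff₀ (by positivity)] at e5
      calc 2400 * A0 h (h * g) ^ 3 * (c * l / L) ≤ 2400 * (C * l) ^ 3 * (c * l / L) := by
            gcongr
        _ = l ^ 4 * (2400 * C ^ 3 * c) / L := by ring
        _ ≤ 1 / (h * 2 ^ h) := by
            rw [div_le_div_iff₀ hL (by positivity)]; linarith
    refine (hUT h g T (c * l / L) L (by exact_mod_cast h20.le) hT hLd e1 hgg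
      (b1.trans (mul_le_of_le_one_left hL.le hθ1)) b4 b3 b5).trans ?_
    have hη1 : min 1 ((κ - 1) / 2) ≤ 1 := min_le_left _ _
    have hη2 : min 1 ((κ - 1) / 2) ≤ (κ - 1) / 2 := min_le_right _ _
    generalize min 1 ((κ - 1) / 2) = η at hη1 hη2
    have c1 : 1 / L ^ 2 ≤ 1 / L ^ (1 + η) := by
      refine one_div_le_one_div_of_le (by positivity) ?_
      rw [← Real.rpow_natCast]
      exact Real.rpow_le_rpow_of_exponent_le hL1 (by push_cast; linarith)
    have c2 : Real.exp (-((1 - 14 / h) * (4 * c0 * (c * l / L)) * (L - (h + 6) * g))) ≤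
        1 / L ^ (1 + η) := by
      rw [Real.rpow_def_of_pos hL, ← hld, one_div, ← Real.exp_neg, Real.exp_le_exp, neg_le_neg_iff]
      have d1 : (1 - 14 / (h : ℝ)) * (4 * c0 * (c * l / L)) = κ * l / L := by rw [hκd]; ring
      have d2 : κ * l / L * (L - θ * L) = l * (κ - κ * θ) := by field_simp
      rw [d1]
      calc l * (1 + η) ≤ l * (κ - κ * θ) :=
            mul_le_mul_of_nonneg_left (by linarith) (by linarith)
        _ = κ * l / L * (L - θ * L) := d2.symm
        _ ≤ κ * l / L * (L - (h + 6) * g) :=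
            mul_le_mul_of_nonneg_left (by linarith) (by positivity)
    have c3 : 2 / L ^ (1 + η) = 1 / L ^ (1 + η) + 1 / L ^ (1 + η) := by ring
    linarith
  obtain ⟨T₀, hT₀⟩ := eventually_atTop.1 key
  exact ⟨min 1 ((κ - 1) / 2), T₀, lt_min one_pos (by linarith), hT₀⟩

end Pool.Agent.P.MP_e45b92_nt.UG
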