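import Pool.Agent.P.MP_e45b92_nt.UG.IfaceB

/-! Step UT. -/

set_option autoImplicit false

namespace Pool.Agent.P.MP_e45b92_nt.UG

open MeasureTheory Set

namespace UTx

theorem ex_n {x : ℝ} (hx : 1 ≤ x) : ∃ n : ℕ, x ≤ 2 ^ n ∧ 2 ^ n ≤ 2 * x := by
  obtain ⟨n, h1, h2⟩ := exists_nat_pow_near hx (by norm_num : (1 : ℝ) < 2)
  exact ⟨n + 1, h2.le, by rw [pow_succ]; linarith⟩

theorem ex_m {L : ℝ} {h g : ℕ} (hg : 1 ≤ g) (hL : (h + 6) * g ≤ L) :
    ∃ m : ℕ, (2 : ℝ) ^ (m * (h * g + g)) * 2 ^ (4 * g + 1) ≤ Real.exp L ∧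
      L - (h + 6) * g ≤ Real.log 2 * (m * (h * g + g)) ∧ (m : ℝ) * (h * g) ≤ 2 * L := by
  obtain ⟨l1, l2⟩ := log_two_bounds
  have g1 : (1 : ℝ) ≤ g := by exact_mod_cast hg
  have h0 : (0 : ℝ) ≤ h := by positivity
  have hN : (0 : ℝ) < h * g + g := by positivity
  have hp : (0 : ℝ) < Real.log 2 := by linarith
  have hL0 : 0 ≤ L := le_trans (by positivity) hL
  have hLL : L ≤ L / Real.log 2 := by rw [le_div_iff₀ hp]; nlinarith
  have hL2 : L / Real.log 2 ≤ 2 * L := by rw [div_le_iff₀ hp]; nlinarith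
  have hy : 0 ≤ (L / Real.log 2 - 4 * g - 1) / (h * g + g) :=
    div_nonneg (by nlinarith) hN.le
  have a1 := Nat.floor_le hy
  have a2 := Nat.lt_floor_add_one ((L / Real.log 2 - 4 * g - 1) / (h * g + g))
  set m := ⌊(L / Real.log 2 - 4 * g - 1) / (h * g + g)⌋₊
  rw [le_div_iff₀ hN] at a1
  rw [div_lt_iff₀ hN] at a2
  have e : Real.log 2 * (L / Real.log 2) = L := by field_simp
  have m0 : (0 : ℝ) ≤ m := by positivity
  refine ⟨m, ?_, ?_, ?_⟩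
  · rw [← pow_add, ← Real.exp_log (show (0 : ℝ) < 2 ^ (m * (h * g + g) + (4 * g + 1)) by
      positivity), Real.exp_le_exp, Real.log_pow]
    push_cast
    nlinarith
  · have : L / Real.log 2 - (h + 6) * g ≤ m * (h * g + g) := by nlinarith
    have h2 := mul_le_mul_of_nonneg_left this hp.le
    have h3 : 0 ≤ ((h : ℝ) + 6) * g := by positivity
    nlinarith
  · nlinarith [mul_nonneg m0 (by positivity : (0 : ℝ) ≤ g)]

theorem err {L C₁ C₂ C₃ A ε N R M : ℝ} (hL : 8 ≤ L) (h1 : C₁ ≤ L) (h2 : 200 * C₂ ≤ L)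
    (h3 : 6 * C₃ ≤ L) (p1 : 0 ≤ C₁) (p2 : 0 ≤ C₂) (p3 : 0 ≤ C₃) (hA : A ≤ L) (A0 : 0 ≤ A)
    (e0 : 0 ≤ ε) (e1 : ε ≤ 1) (hN : L ^ 27 ≤ N) (hR : L ^ 27 ≤ R) (hM : M ≤ 2 * L) :
    M * (C₁ / N + 1 / L ^ 4 + 100 * (L ^ 4) ^ 3 * A * (1 + L) * C₂ / N +
      6 * A ^ 2 * ε ^ 2 * C₃ / R) ≤ 1 / L ^ 2 := by
  have L0 : 0 < L := by linarith
  have L1 : 1 ≤ L := by linarith
  have N0 : 0 < N := lt_of_lt_of_le (by positivity) hN
  have R0 : 0 < R := lt_of_lt_of_le (by positivity) hR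
  have key : ∀ x y : ℝ, 0 < y → L ^ 27 ≤ y → x ≤ L ^ 15 → x / y ≤ 1 / L ^ 4 := by
    intro x y hy h27 hx
    rw [div_le_div_iff₀ hy (by positivity)]
    calc x * L ^ 4 ≤ L ^ 15 * L ^ 4 := by gcongr
      _ = L ^ 19 := by ring
      _ ≤ L ^ 27 := pow_le_pow_right₀ L1 (by norm_num)
      _ ≤ 1 * y := by linarith
  have b1 := key C₁ N N0 hN (h1.trans (le_self_pow₀ L1 (by norm_num)))
  have b2 := key (100 * (L ^ 4) ^ 3 * A * (1 + L) * C₂) N N0 hN (by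
    calc 100 * (L ^ 4) ^ 3 * A * (1 + L) * C₂ ≤ 100 * (L ^ 4) ^ 3 * L * (2 * L) * C₂ := by
          gcongr; linarith
      _ = L ^ 14 * (200 * C₂) := by ring
      _ ≤ L ^ 14 * L := by gcongr
      _ = L ^ 15 := by ring)
  have b3 := key (6 * A ^ 2 * ε ^ 2 * C₃) R R0 hR (by
    calc 6 * A ^ 2 * ε ^ 2 * C₃ ≤ 6 * L ^ 2 * 1 ^ 2 * C₃ := by gcongr
      _ = L ^ 2 * (6 * C₃) := by ring
      _ ≤ L ^ 2 * L := by gcongr
      _ = L ^ 3 := by ring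
      _ ≤ L ^ 15 := pow_le_pow_right₀ L1 (by norm_num))
  calc _ ≤ 2 * L * (4 * (1 / L ^ 4)) := by
        refine mul_le_mul hM (by linarith) (by positivity) (by positivity)
    _ = 8 / L * (1 / L ^ 2) := by field_simp; ring
    _ ≤ 1 * (1 / L ^ 2) := by
        gcongr; rw [div_le_one L0]; exact hL
    _ = _ := one_mul _

theorem consts {h : ℕ} {L : ℝ} (hh : 20 ≤ h) (hC : 21000 * (h : ℝ) ^ 10 * 4 ^ h ≤ L) :
    200 * ((h : ℝ) * 2 ^ h) ≤ L ∧ 6 * (2 : ℝ) ^ h ≤ L ∧ 24 * (h : ℝ) ^ 2 * 2 ^ h ≤ L ∧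
      (h : ℝ) ≤ L ∧ 8 ≤ L := by
  have h1 : (1 : ℝ) ≤ h := by exact_mod_cast (by omega : 1 ≤ h)
  have a : (2 : ℝ) ^ h ≤ 4 ^ h := by gcongr; norm_num
  have b : (1 : ℝ) ≤ 2 ^ h := one_le_pow₀ (by norm_num)
  have c : (h : ℝ) ^ 2 ≤ h ^ 10 := pow_le_pow_right₀ h1 (by norm_num)
  have d : (h : ℝ) ≤ h ^ 2 := by nlinarith
  have e : (h : ℝ) ^ 2 * 2 ^ h ≤ h ^ 10 * 4 ^ h := by gcongr
  have f : (h : ℝ) * 2 ^ h ≤ h ^ 2 * 2 ^ h := by gcongr
  have i : (2 : ℝ) ^ h ≤ h * 2 ^ h := by nlinarith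
  have j : (h : ℝ) ≤ h * 2 ^ h := by nlinarith
  refine ⟨?_, ?_, ?_, ?_, ?_⟩ <;> nlinarith

end UTx

theorem p_UT (hUT0 : S_UT0) : S_UT := by
  intro h g T ε L hh hT hL hC hg hgL he hA hAe
  obtain ⟨c1, c2, c3, c4, c5⟩ := UTx.consts hh hC
  have h20 : (20 : ℝ) ≤ h := by exact_mod_cast hh
  have L0 : 0 < L := by linarith
  have L1 : 1 ≤ L := by linarith
  have hTe : T = Real.exp L := by rw [hL, Real.exp_log (by linarith)]
  have hLT : L ≤ T := by rw [hTe]; linarith [Real.add_one_le_exp L]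
  have e0 : 0 < ε := lt_of_lt_of_le (by positivity) he
  have P1 : (1 : ℝ) ≤ 2 ^ h := one_le_pow₀ (by norm_num)
  have A1 : 1 ≤ A0 h (h * g) := by
    have : (1 : ℝ) ≤ 8 ^ h := one_le_pow₀ (by norm_num)
    have h2 : (1 : ℝ) ≤ ((h * g : ℕ) : ℝ) + 1 := by linarith [Nat.cast_nonneg (α := ℝ) (h * g)]
    unfold A0
    exact one_le_mul_of_one_le_of_one_le (one_le_mul_of_one_le_of_one_le (by linarith) this) h2
  have e1 : ε ≤ 1 := by
    have a : 1 / ((h : ℝ) * 2 ^ h) ≤ 1 := by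
      rw [div_le_one (by positivity)]; nlinarith
    have b : 1 ≤ A0 h (h * g) ^ 3 := one_le_pow₀ A1
    nlinarith
  have pw : ∀ a b : ℕ, a ≤ b → L ^ a ≤ L ^ b := fun a b hab => pow_le_pow_right₀ L1 hab
  have G1 : L ≤ 2 ^ g := (le_self_pow₀ L1 (by norm_num)).trans hg
  have g1 : 1 ≤ g := by
    rcases Nat.eq_zero_or_pos g with rfl | h0
    · norm_num at G1; linarith
    · exact h0
  have G0 : (0 : ℝ) < 2 ^ g := by positivity
  have hR : (2 : ℝ) ^ (2 * g) = 2 ^ g * 2 ^ g := by rw [two_mul, pow_add]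
  have he2 : 1 ≤ ε * L ^ 2 := by rwa [div_le_iff₀ (by positivity)] at he
  have hN : L ^ 27 ≤ ε * 2 ^ g / h := by
    rw [le_div_iff₀ (by linarith)]
    calc L ^ 27 * h ≤ L ^ 27 * L := by gcongr
      _ = 1 * L ^ 28 := by ring
      _ ≤ ε * L ^ 2 * L ^ 28 := by gcongr
      _ = ε * L ^ 30 := by ring
      _ ≤ ε * 2 ^ g := by gcongr
  have hR27 : L ^ 27 ≤ 2 ^ (2 * g) := by
    rw [hR]; nlinarith [pw 27 30 (by norm_num)]
  have hx : 1 ≤ h * T * 2 ^ g / ε := by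
    rw [le_div_iff₀ e0]
    have : (1 : ℝ) ≤ h * T * 2 ^ g :=
      one_le_mul_of_one_le_of_one_le (one_le_mul_of_one_le_of_one_le (by linarith) hT)
        (by linarith)
    linarith
  obtain ⟨n, n1, n2⟩ := UTx.ex_n hx
  obtain ⟨m, m1, m2, m3⟩ := UTx.ex_m g1 hgL
  rw [← hTe] at m1
  have T0 : 0 < T := by linarith
  have h0 : (0 : ℝ) < h := by linarith
  have main := hUT0 h g (h * g) n m T ε L (L ^ 4) (2 ^ (2 * g)) hh e0 hT L0.le hL.ge
    (one_le_pow₀ L1) (by positivity) hAe (c3.trans hLT) ?_ ?_ ?_ ?_ ?_ ?_ ?_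
  · refine main.trans (add_le_add ?_ ?_)
    · rw [Real.exp_le_exp, neg_le_neg_iff]
      have c00 : 0 ≤ 4 * c0 * ε := by have := c0_bounds.1; positivity
      have lp : 0 ≤ Real.log 2 * (m * g) := by have := log_two_bounds.1; positivity
      have k1 : (1 - 14 / (h : ℝ)) * (h + 1) ≤ (1 - 13 / h) * h := by
        have : (1 - 13 / (h : ℝ)) * h - (1 - 14 / (h : ℝ)) * (h + 1) = 14 / h := by
          field_simp; ring
        have h2 : 0 ≤ 14 / (h : ℝ) := by positivity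
        linarith
      have k0 : 0 ≤ 1 - 14 / (h : ℝ) := by
        rw [sub_nonneg, div_le_one h0]; linarith
      calc (1 - 14 / (h : ℝ)) * (4 * c0 * ε) * (L - (h + 6) * g)
          ≤ (1 - 14 / (h : ℝ)) * (4 * c0 * ε) * (Real.log 2 * (m * (h * g + g))) := by gcongr
        _ = (1 - 14 / (h : ℝ)) * (h + 1) * ((4 * c0 * ε) * (Real.log 2 * (m * g))) := by ring
        _ ≤ (1 - 13 / (h : ℝ)) * h * ((4 * c0 * ε) * (Real.log 2 * (m * g))) := by gcongr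
        _ = _ := by push_cast; ring
    · rw [← mul_assoc]
      exact UTx.err c5 hC c1 c2 (by positivity) (by positivity) (by positivity) hA (by linarith)
        e0.le e1 hN hR27 (by push_cast; exact m3)
  · rw [div_le_iff₀ e0] at n1
    have : T * Xs ε g n h T = ε * 2 ^ n * 2 ^ g / (h * T) := by
      unfold Xs; rw [pow_add]; field_simp
    rw [this, le_div_iff₀ (by positivity), hR]
    nlinarith
  · have e : Xs ε g (n + m * (h * g + g)) h T * 2 ^ (2 * g) =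
        ε * 2 ^ n * (2 ^ (m * (h * g + g)) * (2 ^ g * 2 ^ (2 * g))) / (h * T ^ 2) := by
      unfold Xs; rw [pow_add, pow_add]; field_simp
    have n3 : ε * 2 ^ n ≤ 2 * (h * T * 2 ^ g) := by
      have := mul_le_mul_of_nonneg_left n2 e0.le
      have e2 : ε * (2 * (h * T * 2 ^ g / ε)) = 2 * (h * T * 2 ^ g) := by field_simp
      linarith
    have e4 : (2 : ℝ) ^ (4 * g + 1) = 2 * 2 ^ g * (2 ^ g * 2 ^ (2 * g)) := by ring
    rw [e, div_le_one (by positivity)]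
    calc _ ≤ 2 * (h * T * 2 ^ g) * (2 ^ (m * (h * g + g)) * (2 ^ g * 2 ^ (2 * g))) := by gcongr
      _ = h * T * (2 ^ (m * (h * g + g)) * 2 ^ (4 * g + 1)) := by rw [e4]; ring
      _ ≤ h * T * T := by gcongr
      _ = h * T ^ 2 := by ring
  · have a : ε * 2 ^ g / h ≤ 2 ^ g := by
      rw [div_le_iff₀ h0]; nlinarith
    have b : (1 / 2 ^ (2 * g) + ε * 2 ^ g / h / 2 ^ (2 * g) : ℝ) ≤ 2 / 2 ^ g := by
      rw [← add_div, hR, div_le_div_iff₀ (by positivity) G0]; nlinarith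
    have c : 4 * L ≤ 2 ^ g := by nlinarith [pw 2 30 (by norm_num)]
    calc _ ≤ 2 / 2 ^ g * (2 * L) := by gcongr; linarith
      _ = 4 * L / 2 ^ g := by ring
      _ ≤ 1 := by rwa [div_le_one G0]
  · have : L ^ 2 ≤ 2 ^ (2 * g) := (pw 2 27 (by norm_num)).trans hR27
    nlinarith
  · exact hA.trans ((le_self_pow₀ L1 (by norm_num)).trans hR27)
  · refine le_trans ?_ hN
    calc (2 : ℝ) ^ h * (1 + L) * L ^ 4 ≤ L * (L * L) * L ^ 4 := by
          gcongr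
          · linarith
          · nlinarith
      _ = L ^ 7 := by ring
      _ ≤ L ^ 27 := pw _ _ (by norm_num)
  · have : 0 ≤ (h : ℝ) ^ 2 * 2 ^ h := by positivity
    linarith

end Pool.Agent.P.MP_e45b92_nt.UG
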