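import Pool.Agent.P.MP_e45b92_nt.UG.IfaceB
import Pool.Agent.P.MP_e45b92_nt.UG.IfaceA

/-! Step UT0. -/

set_option autoImplicit false

namespace Pool.Agent.P.MP_e45b92_nt.UG

open MeasureTheory Set

namespace UT0x

theorem Xs_pos {ε T : ℝ} {g n h : ℕ} (hε : 0 < ε) (hT : 0 < T) (hh : 0 < h) :
    0 < Xs ε g n h T := by
  unfold Xs; positivity

theorem Xs_add (ε T : ℝ) (g n h d : ℕ) : Xs ε g (n + d) h T = Xs ε g n h T * 2 ^ d := by
  unfold Xs; rw [← add_assoc, pow_add]; ring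

theorem Xs_mono {ε T : ℝ} {g n n' h : ℕ} (hε : 0 < ε) (hT : 0 < T) (hh : 0 < h) (hn : n ≤ n') :
    Xs ε g n h T ≤ Xs ε g n' h T := by
  obtain ⟨d, rfl⟩ := Nat.exists_eq_add_of_le hn
  rw [Xs_add]
  exact le_mul_of_one_le_right (Xs_pos hε hT hh).le (one_le_pow₀ (by norm_num))

theorem A0_ge {h D : ℕ} (hh : 0 < h) : 400 * ((D : ℝ) + 1) ≤ A0 h D := by
  have h1 : (1 : ℝ) ≤ h := by exact_mod_cast hh
  have h2 : (1 : ℝ) ≤ 8 ^ h := one_le_pow₀ (by norm_num)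
  have h3 : (1 : ℝ) ≤ h * 8 ^ h := one_le_mul_of_one_le_of_one_le h1 h2
  have h4 : (0 : ℝ) ≤ 400 * ((D : ℝ) + 1) := by positivity
  calc 400 * ((D : ℝ) + 1) ≤ 400 * ((D : ℝ) + 1) * (h * 8 ^ h) := le_mul_of_one_le_right h4 h3
    _ = A0 h D := by unfold A0; ring

theorem A0_eps {h D : ℕ} {ε : ℝ} (hh : 0 < h) (hε : 0 < ε)
    (H : 2400 * A0 h D ^ 3 * ε ≤ 1 / (h * 2 ^ h)) : A0 h D * ε ≤ 1 := by
  have h1 : (1 : ℝ) ≤ h := by exact_mod_cast hh
  have h2 : (1 : ℝ) ≤ 2 ^ h := one_le_pow₀ (by norm_num)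
  have h3 : (1 : ℝ) ≤ h * 2 ^ h := one_le_mul_of_one_le_of_one_le h1 h2
  have h4 : 1 / ((h : ℝ) * 2 ^ h) ≤ 1 := by rw [div_le_one (by linarith)]; exact h3
  have hD : (0 : ℝ) ≤ D := by positivity
  have h5 : 1 ≤ A0 h D := by linarith [A0_ge (D := D) hh]
  have h6 : A0 h D ≤ A0 h D ^ 3 := le_self_pow₀ h5 (by norm_num)
  have h7 : A0 h D * ε ≤ A0 h D ^ 3 * ε := mul_le_mul_of_nonneg_right h6 hε.le
  have h8 : 0 ≤ A0 h D ^ 3 * ε := by positivity
  linarith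

end UT0x

open UT0x in
theorem p_UT0 (hUB : S_UB) (hUT1 : S_UT1) (hPROD : S_PROD) (hFUB : S_FUB) (hMEAS : S_MEAS) : S_UT0 := by
  intro h g D n m T ε Λ B R hh hε hT hΛ hlog hB hR hA hT2 hRX hXR h1 h2 h3 h4 h5
  have hh0 : 0 < h := by omega
  have hhR : (20 : ℝ) ≤ h := by exact_mod_cast hh
  have hT0 : 0 < T := by linarith
  have hD : (0 : ℝ) ≤ D := by positivity
  have hA1 := A0_ge (D := D) hh0
  have hA2 := A0_eps hh0 hε hA
  have hA0 : 0 < A0 h D := by linarith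
  set err : ℝ := D * (21000 * (h : ℝ) ^ 10 * 4 ^ h / (ε * 2 ^ g / h) + 1 / B +
      100 * B ^ 3 * A0 h D * (1 + Λ) * (h * 2 ^ h) / (ε * 2 ^ g / h) +
      6 * A0 h D ^ 2 * ε ^ 2 * 2 ^ h / R) with herr
  set p : ℝ := (1 - 13 / h) * (4 * c0 * ε * Real.log 2 * D) with hp
  let nn : ℕ → ℕ := fun i => n + i * (D + g)
  have hnn : Monotone nn := fun i j hij => Nat.add_le_add_left (Nat.mul_le_mul_right _ hij) _
  have hsucc : ∀ i, nn (i + 1) = nn i + (D + g) := fun i => by simp only [nn]; ring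
  let Bi : ℕ → Set (ℝ × ℝ) := fun i =>
    {z | ¬ (Good z.1 z.2 h T (Xs ε g (nn i) h T) (1 / 2 ^ nn i) D h ∧
      ∀ s < D, Few z.1 z.2 T (Xs ε g (nn i) h T * 2 ^ s) (1 / 2 ^ nn i) ε (A0 h D) h)}
  have hBi : ∀ i ∈ Finset.range m, μ2.real (Bi i) ≤ err := by
    intro i hi
    have hi' := Finset.mem_range.1 hi
    refine hUT1 h g D (nn i) T ε Λ B R hh hε hT hΛ hlog hB hR hA hT2 ?_ ?_ h1 h2 h3 h4
    · exact hRX.trans (mul_le_mul_of_nonneg_left
        (Xs_mono hε hT0 hh0 (Nat.le_add_right _ _)) hT0.le)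
    · rw [← Xs_add]
      refine le_trans (mul_le_mul_of_nonneg_right (Xs_mono hε hT0 hh0 ?_) hR.le) hXR
      have := hnn (show i + 1 ≤ m from hi')
      rw [hsucc] at this
      have e : nn m = n + m * (D + g) := rfl
      omega
  let Bad : Set (ℝ × ℝ) := toMeasurable μ2 (⋃ i ∈ Finset.range m, Bi i)
  have hBad : μ2.real Bad ≤ m * err := by
    have e : μ2.real Bad = μ2.real (⋃ i ∈ Finset.range m, Bi i) := by
      simp only [Bad, Measure.real, measure_toMeasurable]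
    rw [e]
    refine (measureReal_biUnion_finset_le _ _).trans ?_
    refine (Finset.sum_le_card_nsmul _ _ _ hBi).trans ?_
    simp
  have hc := c0_bounds
  have hl := log_two_bounds
  have h13 : (0 : ℝ) ≤ 13 / h := by positivity
  have h13' : (13 : ℝ) / h ≤ 1 := by rw [div_le_one (by linarith)]; linarith
  have hq0 : 0 ≤ 4 * c0 * ε * Real.log 2 * D := by
    have := hc.1
    have := hl.1
    positivity
  have hq1 : 4 * c0 * ε * Real.log 2 * D ≤ 1 := by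
    have a1 : c0 * Real.log 2 ≤ 1 := by nlinarith [hc.1, hc.2, hl.1, hl.2]
    have a2 : 0 ≤ 4 * D * ε := by positivity
    have a3 : 4 * D * ε ≤ A0 h D * ε := mul_le_mul_of_nonneg_right (by linarith) hε.le
    calc 4 * c0 * ε * Real.log 2 * D = 4 * D * ε * (c0 * Real.log 2) := by ring
      _ ≤ 4 * D * ε := mul_le_of_le_one_right a2 a1
      _ ≤ 1 := by linarith
  have hp0 : 0 ≤ p := mul_nonneg (by linarith) hq0
  have hp1 : p ≤ 1 := mul_le_one₀ (by linarith) hq0 hq1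
  have hexp : (1 - p) ^ m ≤ Real.exp (-(p * m)) := by
    have a1 : 1 - p ≤ Real.exp (-p) := by linarith [Real.add_one_le_exp (-p)]
    calc (1 - p) ^ m ≤ Real.exp (-p) ^ m := pow_le_pow_left₀ (by linarith) a1 m
      _ = Real.exp (-(p * m)) := by rw [← Real.exp_nat_mul]; congr 1; ring
  have hh1 : (h : ℝ) ≠ 0 := by linarith
  have key := hFUB {z | ¬ Solv z.1 z.2 ε T} Bad (fun _ => ∅) 0 (Real.exp (-(p * m))) 0 1
    (hMEAS.1 ε T).compl (measurableSet_toMeasurable _ _) (fun _ => MeasurableSet.empty) ?_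
  · simp only [zero_mul, add_zero, one_mul] at key
    linarith
  intro α
  have hP := hPROD nn (fun i => Full (nn (i + 1)) α T ε) {β | (α, β) ∈ Bad} p m hnn hp0 hp1
    (fun i _ => LS_Full _ _ _ _) ?_
  · have hs : μ1.real {β | (α, β) ∈ {z : ℝ × ℝ | ¬ Solv z.1 z.2 ε T}} ≤
        μ1.real {β | ∀ i < m, β ∉ Full (nn (i + 1)) α T ε} :=
      measureReal_mono fun β hβ i _ hF => hβ (hF β rfl)
    simp only [zero_mul, add_zero, one_mul]
    linarith
  intro i hi β _ hβ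
  have hG : (α, β) ∉ Bi i := fun hb => hβ (subset_toMeasurable _ _
    (mem_biUnion (Finset.mem_coe.2 (Finset.mem_range.2 hi)) hb))
  have hG' := not_not.1 hG
  have hX := Xs_pos (g := g) (n := nn i) hε hT0 hh0
  refine hUB α β T (Xs ε g (nn i) h T) ε (A0 h D) h D (nn i) (nn (i + 1)) hh hT0 hX hε hA0
    ?_ ?_ ?_ hG'.1 hG'.2
  · have e : ((D : ℝ) + 1) * 200 * 8 ^ h * (ε + 1 / A0 h D) = (A0 h D * ε + 1) / 2 / h := by
      have e1 : ((D : ℝ) + 1) * 200 * 8 ^ h = A0 h D / 2 / h := by unfold A0; field_simp; ring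
      rw [e1]; field_simp
    rw [e]
    exact div_le_div_of_nonneg_right (by linarith) (by linarith)
  · have e : ε * 2 ^ h / (T ^ 2 * Xs ε g (nn i) h T) =
        ((h : ℝ) ^ 2 * 2 ^ h / 2 ^ g) * (1 / 2 ^ nn i / h) := by
      unfold Xs; rw [pow_add]; field_simp
    rw [e]
    refine mul_le_of_le_one_left (by positivity) ?_
    rw [div_le_one (by positivity)]; exact h5
  · refine le_of_eq ?_
    rw [hsucc]; unfold Xs
    generalize nn i = k
    rw [pow_add, pow_add, pow_add]; field_simp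

end Pool.Agent.P.MP_e45b92_nt.UG
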