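import Pool.Agent.P.MP_e45b92_nt.UG.IfaceB
import Pool.Agent.P.MP_e45b92_nt.UG.IfaceA

/-! Step UT1. -/

set_option autoImplicit false

namespace Pool.Agent.P.MP_e45b92_nt.UG

open MeasureTheory Set

theorem p_UT1 (hGB : S_GB) (hDV : S_DV) (hNOK : S_NOK) : S_UT1 := by
  intro h g D n T ε Λ B R hh hε hT hΛ hl hB hR h1 h2 h3 h4 h5 h6 h7 h8
  have hh' : (20 : ℝ) ≤ h := by exact_mod_cast hh
  have hT0 : 0 < T := by linarith
  have hN : Xs ε g n h T * (1 / 2 ^ n) * T ^ 2 = ε * 2 ^ g / h := by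
    rw [Xs, pow_add]
    field_simp
  have hX : 0 < Xs ε g n h T := by unfold Xs; positivity
  have hA : 1 ≤ A0 h D := by
    have e1 : (1 : ℝ) ≤ 8 ^ h := one_le_pow₀ (by norm_num)
    have e2 : (1 : ℝ) ≤ D + 1 := by linarith [Nat.cast_nonneg (α := ℝ) D]
    exact one_le_mul_of_one_le_of_one_le (one_le_mul_of_one_le_of_one_le (by linarith) e1) e2
  have hN0 : 0 < ε * 2 ^ g / h := by positivity
  generalize Xs ε g n h T = X at *
  generalize A0 h D = A at *
  generalize ε * 2 ^ g / h = N at *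
  have hℓ : (0 : ℝ) < 1 / 2 ^ n := by positivity
  generalize (1 : ℝ) / 2 ^ n = ℓ at *
  have a1 : X * 2 ^ D ≤ 1 / R := (le_div_iff₀ hR).2 h4
  have a2 : T * ℓ ≤ N / R := by
    rw [le_div_iff₀ hR, ← hN]
    have := mul_le_mul_of_nonneg_left h3 (mul_pos hT0 hℓ).le
    linarith
  have b1 := hGB h D h T X ℓ Λ hh hX hℓ hΛ hl h2
    ((mul_le_mul_of_nonneg_right (add_le_add a1 a2) (by linarith)).trans h5)
  rw [hN] at b1
  have hθ : (1 : ℝ) ≤ h * 2 ^ h :=
    one_le_mul_of_one_le_of_one_le (by linarith) (one_le_pow₀ (by norm_num))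
  have b2 : ∀ s ∈ Finset.range D, μ2.real {z : ℝ × ℝ | ¬ Few z.1 z.2 T (X * 2 ^ s) ℓ ε A h} ≤
      1 / B + 100 * B ^ 3 * A * (1 + Λ) * (h * 2 ^ h) / N + 6 * A ^ 2 * ε ^ 2 * 2 ^ h / R := by
    intro s hs
    have e1 : (1 : ℝ) ≤ 2 ^ s := one_le_pow₀ (by norm_num)
    have e2 : X * 2 ^ s ≤ 1 / R := (mul_le_mul_of_nonneg_left
      (pow_le_pow_right₀ (by norm_num) (Finset.mem_range.1 hs).le) hX.le).trans a1
    have e3 : X ≤ X * 2 ^ s := le_mul_of_one_le_right hX.le e1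
    have e4 : N ≤ X * 2 ^ s * T ^ 2 * ℓ := by
      rw [← hN, mul_right_comm X]
      gcongr
    have hU : 0 < X * 2 ^ s := by positivity
    have e5 : R ≤ X * 2 ^ s * T := h3.trans (by rw [mul_comm]; gcongr)
    generalize X * 2 ^ s = U at *
    have e6 : U * R ≤ 1 := (le_div_iff₀ hR).1 e2
    have c1 := hDV T U ℓ ε A B (1 / (h * 2 ^ h)) Λ h hT hU hℓ hε hA hB (by positivity)
      ((div_le_one (by linarith)).2 hθ) hΛ hl
      ((e2.trans ((div_le_iff₀ hR).2 (by linarith))).trans (le_mul_of_one_le_left hε.le hA))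
      (by nlinarith [mul_le_mul_of_nonneg_left h7 hU.le]) h1 (h8.trans e4)
    have c2 := hNOK (A * ε / U) (3 * A * ε * 2 ^ h / T) (by positivity) (by positivity)
    refine (measureReal_mono ?_ (measure_ne_top _ _)).trans
      ((measureReal_union_le _ _).trans (add_le_add (c1.trans ?_) (c2.trans ?_)))
    · intro z hz
      simp only [Few, mem_ofPred_eq, not_and_or, not_lt, mem_union] at hz ⊢
      exact hz
    · rw [one_div_mul_eq_div, div_div_eq_mul_div]
      gcongr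
    · have e7 : 2 * (A * ε / U) * (3 * A * ε * 2 ^ h / T) = 6 * A ^ 2 * ε ^ 2 * 2 ^ h / (U * T) := by
        field_simp
        ring
      rw [e7]
      gcongr
  refine (measureReal_mono (s₂ := {z : ℝ × ℝ | ¬ Good z.1 z.2 h T X ℓ D h} ∪
    ⋃ s ∈ Finset.range D, {z : ℝ × ℝ | ¬ Few z.1 z.2 T (X * 2 ^ s) ℓ ε A h}) ?_
    (measure_ne_top _ _)).trans
    ((measureReal_union_le _ _).trans ((add_le_add b1 ((measureReal_biUnion_finset_le _ _).trans
      (Finset.sum_le_card_nsmul _ _ _ b2))).trans_eq ?_))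
  · intro z hz
    simp only [mem_ofPred_eq, not_and_or, not_forall, mem_union, mem_iUnion,
      Finset.mem_range] at hz ⊢
    exact hz
  · rw [Finset.card_range, nsmul_eq_mul]
    ring

end Pool.Agent.P.MP_e45b92_nt.UG
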