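import Pool.Agent.P.MP_e45b92_nt.UG.IfaceA

/-! Step W1. -/

set_option autoImplicit false

namespace Pool.Agent.P.MP_e45b92_nt.UG

open MeasureTheory Set

namespace W1x

theorem int_Xf {n : ℕ} {A : Set ℝ} (hA : MeasurableSet A) {β : ℝ} (hP : Pr n A β ≤ 1 / 2) :
    ∫ x in Cl n β, Xf n A x = ∫ _x in Cl n β, (1 : ℝ) := by
  haveI : IsFiniteMeasure (volume.restrict (Cl n β)) :=
    isFiniteMeasure_restrict.2 (volume_Cl_ne_top n β)
  have e : ∀ x ∈ Cl n β,
      Xf n A x = (1 / (1 - Pr n A β)) * (1 - A.indicator (1 : ℝ → ℝ) x) := by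
    intro x hx
    have hx' : Pr n A x = Pr n A β := LC_Pr n A x β hx
    by_cases h : x ∈ A
    · simp [Xf, h]
    · simp [Xf, h, hx']
  have hi : Integrable (A.indicator (1 : ℝ → ℝ)) (volume.restrict (Cl n β)) :=
    (integrable_const (1 : ℝ)).indicator hA
  rw [setIntegral_congr_fun (measurableSet_Cl n β) e, integral_const_mul,
    integral_sub (integrable_const _) hi, integral_indicator_Cl hA]
  simp only [integral_const, smul_eq_mul, mul_one, measureReal_restrict_apply_univ, volume_Cl]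
  have h1 : 1 - Pr n A β ≠ 0 := by linarith
  field_simp

end W1x

open W1x in
theorem p_W1 (hCELL : S_CELL) : S_W1 := by
  intro n H m j g hn hH hP hjm hg hg0
  induction m, hjm using Nat.le_induction with
  | base => rfl
  | succ m hjm ih =>
    rw [← ih (fun i hi => hH i (by omega)) fun i hi => hP i (by omega)]
    have hW : LC (n m) fun β => Wt n H m β * g β :=
      (LC_Wt hn fun i hi => hH i (by omega)).mul (hg.mono (hn hjm))
    have hW0 : ∀ β ∈ Ico (0 : ℝ) 1, 0 ≤ Wt n H m β * g β := fun β hβ =>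
      mul_nonneg (Wt_nonneg fun i hi => hP i (by omega) β hβ) (hg0 β hβ)
    have hL : LS (n (m + 1)) (H m) := hH m (Nat.lt_succ_self m)
    have hX : Integrable (Xf (n m) (H m)) μ1 := (LC_Xf (hn (Nat.le_succ m)) hL).integrable
    have h1 : Integrable (fun _ : ℝ => (1 : ℝ)) μ1 := integrable_const _
    have hc : ∀ β ∈ Ico (0 : ℝ) 1,
        ∫ x in Cl (n m) β, Xf (n m) (H m) x = ∫ _x in Cl (n m) β, (1 : ℝ) := fun β hβ =>
      int_Xf hL.measurableSet (hP m (Nat.lt_succ_self m) β hβ)
    have a := hCELL (n m) _ _ _ hW hW0 hX h1 fun β hβ => (hc β hβ).le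
    have b := hCELL (n m) _ _ _ hW hW0 h1 hX fun β hβ => (hc β hβ).ge
    have e : ∀ β, Wt n H (m + 1) β * g β = Wt n H m β * g β * Xf (n m) (H m) β := by
      intro β
      rw [Wt_succ]; ring
    simp only [e]
    simp only [mul_one] at a b
    exact le_antisymm a b

end Pool.Agent.P.MP_e45b92_nt.UG
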