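import Pool.Agent.P.MP_e45b92_nt.UG.IfaceA

/-! Step W2. -/

set_option autoImplicit false

namespace Pool.Agent.P.MP_e45b92_nt.UG

open MeasureTheory Set

namespace W2x

theorem LS_inter {n : ℕ} {A B : Set ℝ} (hA : LS n A) (hB : LS n B) : LS n (A ∩ B) :=
  fun β β' e h => ⟨hA β β' e h.1, hB β β' e h.2⟩

theorem arith {P P' Q : ℝ} (h0 : 0 ≤ P) (h0' : 0 ≤ P') (hQ : 0 ≤ Q) (h : P ≤ 1 / 2)
    (h' : P' ≤ 1 / 2) : 1 / ((1 - P) * (1 - P')) * (1 - P - P' + Q) ≤ 1 + 4 * Q := by
  have h1 : 1 / 4 ≤ (1 - P) * (1 - P') := by nlinarith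
  rw [one_div, inv_mul_le_iff₀ (by linarith)]
  nlinarith [mul_nonneg h0 h0', mul_nonneg hQ (sub_nonneg.2 h1)]

theorem cellb {n n' : ℕ} {A B : Set ℝ} (hA : LS n' A) (hB : LS n' B) {β : ℝ}
    (hβ : β ∈ Ico (0 : ℝ) 1) (h : Pr n A β ≤ 1 / 2) (h' : Pr n B β ≤ 1 / 2) :
    ∫ x in Cl n β, Xf n A x * Xf n B x ≤ ∫ x in Cl n β, (1 + 4 * (A ∩ B).indicator 1 x) := by
  have iA := integrableOn_Cl (n := n) hβ hA.indicator.integrable
  have iB := integrableOn_Cl (n := n) hβ hB.indicator.integrable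
  have iC := integrableOn_Cl (n := n) hβ (LS_inter hA hB).indicator.integrable
  have i1 : IntegrableOn (fun _ : ℝ => (1 : ℝ)) (Cl n β) :=
    integrableOn_Cl hβ (integrable_const _)
  have e1 : ∫ x in Cl n β, Xf n A x * Xf n B x = ∫ x in Cl n β,
      1 / ((1 - Pr n A β) * (1 - Pr n B β)) *
        (1 - A.indicator 1 x - B.indicator 1 x + (A ∩ B).indicator 1 x) := by
    refine setIntegral_congr_fun (measurableSet_Cl n β) fun x hx => ?_
    have a1 := LC_Pr n A x β hx
    have a2 := LC_Pr n B x β hx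
    by_cases c1 : x ∈ A <;> by_cases c2 : x ∈ B <;> simp [Xf, c1, c2, a1, a2, mul_comm]
  have e0 : ∫ _x in Cl n β, (1 : ℝ) = 1 / 2 ^ n := by
    rw [setIntegral_const, volume_Cl, smul_eq_mul, mul_one]
  rw [e1, integral_const_mul, integral_add (by exact (i1.sub iA).sub iB) iC,
    integral_sub (by exact i1.sub iA) iB, integral_sub i1 iA,
    integral_add i1 (iC.const_mul 4), integral_const_mul, e0,
    integral_indicator_Cl hA.measurableSet, integral_indicator_Cl hB.measurableSet,
    integral_indicator_Cl (LS_inter hA hB).measurableSet]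
  have k := arith (Pr_nonneg n A β) (Pr_nonneg n B β) (Pr_nonneg n (A ∩ B) β) h h'
  have k2 := div_le_div_of_nonneg_right k (by positivity : (0 : ℝ) ≤ 2 ^ n)
  refine le_trans (le_of_eq ?_) (k2.trans (le_of_eq ?_)) <;> ring

end W2x

open W2x in
theorem p_W2 (hCELL : S_CELL) : S_W2 := by
  intro n H H' m hn
  induction m with
  | zero => intro _ _ _ _; simp [Wt]
  | succ m ih =>
    intro h1 h2 h3 h4
    have lt : ∀ i < m, i < m + 1 := fun i hi => by omega
    have ih' := ih (fun i hi => h1 i (lt i hi)) (fun i hi => h2 i (lt i hi))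
      (fun i hi => h3 i (lt i hi)) (fun i hi => h4 i (lt i hi))
    have g1 : LC (n m) fun β => Wt n H m β * Wt n H' m β :=
      (LC_Wt hn fun i hi => h1 i (lt i hi)).mul (LC_Wt hn fun i hi => h2 i (lt i hi))
    have a := h1 m (by omega)
    have b := h2 m (by omega)
    have c := (LS_inter a b).indicator
    have hle := hn (Nat.le_succ m)
    have key := hCELL (n m) _ (fun x => Xf (n m) (H m) x * Xf (n m) (H' m) x)
      (fun x => 1 + 4 * (H m ∩ H' m).indicator 1 x) g1
      (fun β hβ => mul_nonneg (Wt_nonneg fun i hi => h3 i (lt i hi) β hβ)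
        (Wt_nonneg fun i hi => h4 i (lt i hi) β hβ))
      ((LC_Xf hle a).mul (LC_Xf hle b)).integrable
      ((integrable_const _).add (c.integrable.const_mul 4))
      (fun β hβ => cellb a b hβ (h3 m (by omega) β hβ) (h4 m (by omega) β hβ))
    have e1 : ∀ β, Wt n H (m + 1) β * Wt n H' (m + 1) β =
        Wt n H m β * Wt n H' m β * (Xf (n m) (H m) β * Xf (n m) (H' m) β) := fun β => by
      rw [Wt_succ, Wt_succ]; ring
    have e2 : ∀ β, Wt n H m β * Wt n H' m β * (1 + 4 * (H m ∩ H' m).indicator 1 β) =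
        Wt n H m β * Wt n H' m β +
          4 * (Wt n H m β * Wt n H' m β * (H m ∩ H' m).indicator 1 β) := fun β => by ring
    simp only [e2] at key
    rw [integral_add g1.integrable (((g1.mono hle).mul c).integrable.const_mul 4),
      integral_const_mul] at key
    simp only [e1]
    rw [Finset.sum_range_succ]
    linarith

end Pool.Agent.P.MP_e45b92_nt.UG
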