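import Pool.Agent.P.MP_e45b92_nt.UG.IfaceA

/-! Step W3. -/

set_option autoImplicit false

namespace Pool.Agent.P.MP_e45b92_nt.UG

open MeasureTheory Set

theorem p_W3 (hCELL : S_CELL) (hW1 : S_W1) : S_W3 := by
  intro n H m hn hH hP
  have hL : ∀ j ≤ m, LC (n j) (Wt n H j) := fun j hj => LC_Wt hn fun i hi => hH i (by omega)
  have h0 : ∀ j ≤ m, ∀ β ∈ Ico (0 : ℝ) 1, 0 ≤ Wt n H j β := fun j hj β hβ =>
    Wt_nonneg fun i hi => hP i (by omega) β hβ
  have h1 : ∀ j ≤ m, ∫ β, Wt n H j β ∂μ1 = 1 := fun j hj => by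
    have := hW1 n H j 0 (fun _ => 1) hn (fun i hi => hH i (by omega))
      (fun i hi => hP i (by omega)) (Nat.zero_le _) (fun _ _ _ => rfl) fun _ _ => zero_le_one
    simpa [Wt] using this
  have h2 : ∀ j ≤ m, ∀ (n' : ℕ) (A : Set ℝ) (p : ℝ), LS n' A →
      (∀ β ∈ Ico (0 : ℝ) 1, Pr (n j) A β ≤ p) →
      ∫ β, Wt n H j β * A.indicator 1 β ∂μ1 ≤ p := fun j hj n' A p hA hp => by
    refine (hCELL (n j) _ _ (fun _ => p) (hL j hj) (h0 j hj) hA.indicator.integrable
      (integrable_const _) fun β hβ => ?_).trans_eq ?_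
    · rw [integral_indicator_Cl hA.measurableSet, setIntegral_const, volume_Cl, smul_eq_mul,
        one_div, ← div_eq_inv_mul]
      exact div_le_div_of_nonneg_right (hp β hβ) (by positivity)
    · rw [integral_mul_const, h1 j hj, one_mul]
  refine ⟨h1, h2, fun j A p hj hA hp => ?_⟩
  have hi : ∀ β, (0 : ℝ) ≤ A.indicator 1 β := indicator_nonneg fun _ _ => zero_le_one
  rw [hW1 n H m (j + 2) _ hn hH hP hj hA.indicator fun β _ => hi β]
  refine le_trans ?_ (mul_le_mul_of_nonneg_left (h2 j (by omega) _ A p hA hp) (by norm_num))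
  rw [← integral_const_mul]
  refine integral_mono_ae ((hL _ hj).mul hA.indicator).integrable
    ((((hL j (by omega)).mono (hn (by omega))).mul hA.indicator).integrable.const_mul _)
    ((ae_restrict_iff' measurableSet_Ico).2 (.of_forall fun β hβ => ?_))
  have a := Xf_bounds (hP j (by omega) β hβ)
  have b := Xf_bounds (hP (j + 1) (by omega) β hβ)
  have c := mul_nonneg (h0 j (by omega) β hβ) (hi β)
  have d := mul_le_mul a.2 b.2 b.1 zero_le_two
  simp only [Wt_succ]
  nlinarith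

end Pool.Agent.P.MP_e45b92_nt.UG
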