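import Pool.Agent.P.MP_e45b92_nt.UG.IfaceA

/-! Step W4. -/

set_option autoImplicit false

namespace Pool.Agent.P.MP_e45b92_nt.UG

open MeasureTheory Set

theorem p_W4 : S_W4 := by
  intro n H act j m₀ p Wm β p0 p1 hc hW hH hP
  have q0 : 0 < 1 - p := by linarith
  have q1 : 1 ≤ 1 / (1 - p) := by rw [le_div_iff₀ q0]; linarith
  have h1 : Wt n H j β ≤ ∏ i ∈ Finset.range j, if i ∈ act then 1 / (1 - p) else 1 := by
    refine Finset.prod_le_prod (fun i hi => (Xf_bounds ((hP i (Finset.mem_range.1 hi)).trans p1)).1)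
      fun i hi => ?_
    have := hP i (Finset.mem_range.1 hi)
    split_ifs with c
    · unfold Xf
      split_ifs
      · linarith
      · exact one_div_le_one_div_of_le q0 (by linarith)
    · simp [Xf, Pr, hH i c]
  rw [Finset.prod_ite, Finset.prod_const, Finset.prod_const_one, mul_one] at h1
  refine h1.trans ((pow_le_pow_right₀ q1 (le_trans (Finset.card_le_card fun i hi =>
    (Finset.mem_filter.1 hi).2) hc)).trans ?_)
  rw [one_div_pow, div_le_iff₀ (pow_pos q0 _)]
  exact hW

end Pool.Agent.P.MP_e45b92_nt.UG
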