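import Pool.Agent.P.MP_e45b92_nt.UG.IfaceA

/-! Step WSU. -/

set_option autoImplicit false

namespace Pool.Agent.P.MP_e45b92_nt.UG

open MeasureTheory Set

namespace WSUx

theorem step {P : ℕ → Prop} {m n : ℕ} (hmn : m ≤ n) (h1 : P m) (h2 : ¬ P n) :
    ∃ a ∈ Finset.Ico m n, P a ∧ ¬ P (a + 1) := by
  induction n, hmn using Nat.le_induction with
  | base => exact absurd h1 h2
  | succ n hn ih =>
    by_cases e : P n
    · exact ⟨n, Finset.mem_Ico.2 ⟨hn, n.lt_succ_self⟩, e, h2⟩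
    · obtain ⟨a, ha, h⟩ := ih e
      exact ⟨a, Finset.Ico_subset_Ico_right n.le_succ ha, h⟩

theorem sum_cover {V I : Type} [DecidableEq I] [Inhabited I] (s : Finset V) (J : Finset I)
    (B : I → Finset V) (f : V → ℝ) (h : ∀ v ∈ s, ∃ i ∈ J, v ∈ B i)
    (h0 : ∀ i ∈ J, ∀ v ∈ B i, 0 ≤ f v) : ∑ v ∈ s, f v ≤ ∑ i ∈ J, ∑ v ∈ B i, f v := by
  choose! g g1 g2 using h
  rw [← Finset.sum_fiberwise_of_maps_to g1]
  exact Finset.sum_le_sum fun i hi => Finset.sum_le_sum_of_subset_of_nonneg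
    (fun v hv => (Finset.mem_filter.1 hv).2 ▸ g2 v (Finset.mem_filter.1 hv).1)
    fun v hv _ => h0 i hi v hv

variable {α β T X ℓ : ℝ} {h a b : ℕ} {σ : Bool} {k : ℤ}

theorem low (hh : 0 < h) (hT : 0 < T) (hX : 0 < X) {v : V3} (hv : v ∈ gbox α β h T X ℓ a b σ k) :
    T / kap h ^ (b + 1) * (X * kap h ^ a) ≤ v.1 * |xc α v| := by
  have h1 := one_lt_kap hh
  obtain ⟨-, h2, -, h3, h4, -⟩ := mem_pbox.1 hv
  have h5 : 0 < T / kap h ^ (b + 1) := by positivity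
  refine mul_le_mul h2.le ?_ (by positivity) (by linarith)
  cases σ
  · refine le_trans ?_ (neg_le_abs _)
    simp only [Bool.false_eq_true, if_false, pow_succ] at h4
    linarith
  · exact le_trans (by simpa using h3) (le_abs_self _)

theorem one_box (hh : 0 < h) (hT : 0 < T) (hX : 0 < X) (hl : 0 < ℓ)
    (hG : |((gbox α β h T X ℓ a b σ k).card : ℝ) - gmean h T X ℓ a b| ≤ gmean h T X ℓ a b / h) :
    ∑ v ∈ gbox α β h T X ℓ a b σ k, 1 / (v.1 * |xc α v|) ≤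
      (1 + 1 / h) * (c0 * (kap h - 1) * (ℓ / h) * kap h) *
        (T / kap h ^ b - T / kap h ^ (b + 1)) := by
  have h1 := one_lt_kap hh
  have h0 : (0 : ℝ) < h := by exact_mod_cast hh
  have hc := c0_bounds.1
  refine (Finset.sum_le_card_nsmul _ _ _ fun v hv =>
    one_div_le_one_div_of_le (by positivity) (low hh hT hX hv)).trans ?_
  rw [nsmul_eq_mul, mul_one_div, div_le_iff₀ (by positivity)]
  refine le_trans (b := (1 + 1 / h) * gmean h T X ℓ a b)
    (by linarith [(abs_le.1 hG).2, mul_one_div (gmean h T X ℓ a b) h]) ?_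
  obtain ⟨Q, hQ, hQ0⟩ : ∃ Q, T / kap h ^ (b + 1) = Q ∧ 0 < Q := ⟨_, rfl, by positivity⟩
  have e : T / kap h ^ b = kap h * Q := by rw [← hQ, pow_succ]; field_simp
  rw [gmean, e, hQ, mul_assoc (1 + 1 / (h : ℝ)), mul_assoc (1 + 1 / (h : ℝ))]
  refine mul_le_mul_of_nonneg_left ?_ (by positivity)
  have h2 : 0 < kap h - 1 := by linarith
  calc _ = c0 * (kap h - 1) * (ℓ / h) * (X * kap h ^ a) * ((kap h - 1) * Q ^ 2) *
        ((kap h + 1) / 2) := by ring
    _ ≤ c0 * (kap h - 1) * (ℓ / h) * (X * kap h ^ a) * ((kap h - 1) * Q ^ 2) * kap h := by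
        gcongr; linarith
    _ = _ := by ring

end WSUx

open WSUx in
theorem p_WSU : S_WSU := by
  intro α β h S t s₀ s₁ k₀ k₁ T X ℓ hh hT hX hl hG h01 h1S hk0 hk hk1
  have hh0 : 0 < h := by omega
  have h0 : (20 : ℝ) ≤ h := by exact_mod_cast hh
  have h1 := one_lt_kap hh0
  have hc := c0_bounds.1
  have hs : h * s₀ ≤ h * s₁ := Nat.mul_le_mul_left h h01
  refine (sum_cover _ (Finset.Ico (h * s₀) (h * s₁) ×ˢ Finset.univ ×ˢ Finset.Ico k₀ k₁ ×ˢ
    Finset.range (h * t)) (fun i => gbox α β h T X ℓ i.1 i.2.2.2 i.2.1 i.2.2.1) _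
    (fun v hv => ?_) fun i _ v hv => one_div_nonneg.2
      (le_trans (by positivity) (low hh0 hT hX hv))).trans ?_
  · obtain ⟨a1, a2, a3, a4, a5, a6⟩ := (mem_fam hX).1 hv
    have hq : (0 : ℝ) < v.1 := lt_trans (by positivity) a2
    have hw : (0 : ℝ) < v.1 * (ℓ / h) := by positivity
    obtain ⟨b, b1, b2, b3⟩ := step (P := fun b => (v.1 : ℝ) ≤ T / kap h ^ b) (h * t).zero_le
      (by simpa using a3) (by rwa [kap_pow_mul hh0, not_le])
    obtain ⟨k, k1, k2⟩ : ∃ k : ℤ, k * (v.1 * (ℓ / h)) ≤ yc β v ∧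
        yc β v < (k + 1) * (v.1 * (ℓ / h)) := ⟨⌊yc β v / (v.1 * (ℓ / h))⌋,
      (le_div_iff₀ hw).1 (Int.floor_le _), (div_lt_iff₀ hw).1 (Int.lt_floor_add_one _)⟩
    have k3 : k ∈ Finset.Ico k₀ k₁ := Finset.mem_Ico.2 ⟨Int.lt_add_one_iff.1 (by
      exact_mod_cast lt_of_mul_lt_mul_right (show (k₀ : ℝ) * (v.1 * (ℓ / h)) <
        (k + 1) * (v.1 * (ℓ / h)) by linarith) hw.le), by
      exact_mod_cast lt_of_mul_lt_mul_right (show (k : ℝ) * (v.1 * (ℓ / h)) <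
        k₁ * (v.1 * (ℓ / h)) by linarith) hw.le⟩
    rw [← Finset.range_eq_Ico] at b1
    rcases a4 with a4 | a4
    · obtain ⟨a, c1, c2, c3⟩ := step (P := fun a => X * kap h ^ a ≤ xc α v) hs
        (by simpa only [kap_pow_mul hh0] using a4.1)
        (by simpa only [kap_pow_mul hh0, not_le] using a4.2)
      rw [not_le, pow_succ] at c3
      exact ⟨(a, true, k, b), by simp only [Finset.mem_product, c1, k3, b1, Finset.mem_univ,
        and_self], mem_pbox.2 ⟨a1, not_le.1 b3, b2, c2, by simp only [if_true]; linarith,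
          by linarith, by linarith⟩⟩
    · obtain ⟨a, c1, c2, c3⟩ := step (P := fun a => xc α v < -(X * kap h ^ a)) hs
        (by simpa only [kap_pow_mul hh0] using a4.2)
        (by simpa only [kap_pow_mul hh0, not_lt] using a4.1)
      exact ⟨(a, false, k, b), by simp only [Finset.mem_product, c1, k3, b1, Finset.mem_univ,
        and_self], mem_pbox.2 ⟨a1, not_le.1 b3, b2, not_lt.1 c3, by
          simp only [Bool.false_eq_true, if_false, pow_succ]; linarith,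
          by linarith, by linarith⟩⟩
  obtain ⟨K, hK, hK0⟩ : ∃ K, (1 + 1 / h) * (c0 * (kap h - 1) * (ℓ / h) * kap h) = K ∧ 0 ≤ K :=
    ⟨_, rfl, by have := sub_pos.2 h1; positivity⟩
  refine (Finset.sum_le_sum (g := fun i => K * (T / kap h ^ i.2.2.2 - T / kap h ^ (i.2.2.2 + 1)))
    fun i hi => ?_).trans ?_
  · simp only [Finset.mem_product, Finset.mem_Ico, Finset.mem_range] at hi
    exact hK ▸ one_box hh0 hT hX hl (hG _ (hi.1.2.trans_le (Nat.mul_le_mul_left h h1S)) _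
      hi.2.2.2 _ _ (abs_le.2 ⟨by omega, by omega⟩))
  have e1 : ((k₁ - k₀).toNat : ℝ) = k₁ - k₀ := by
    exact_mod_cast congrArg (Int.cast : ℤ → ℝ) (Int.toNat_of_nonneg (sub_nonneg.2 hk))
  simp only [Finset.sum_product, ← Finset.mul_sum, Finset.sum_range_sub', Finset.sum_const,
    nsmul_eq_mul, Nat.card_Ico, Int.card_Ico, Finset.card_univ, Fintype.card_bool, e1,
    Nat.cast_sub hs, Nat.cast_mul, pow_zero, div_one, Nat.cast_ofNat]
  have e2 : (0 : ℝ) ≤ s₁ - s₀ := sub_nonneg.2 (by exact_mod_cast h01)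
  have e3 : (0 : ℝ) ≤ k₁ - k₀ := sub_nonneg.2 (by exact_mod_cast hk)
  have e4 := log_two_bounds.1
  have e5 : (1 + 1 / (h : ℝ)) ^ 3 ≤ 1 + 5 / h := by
    obtain ⟨u, hu, u0, u1⟩ : ∃ u, 1 / (h : ℝ) = u ∧ 0 ≤ u ∧ u ≤ 1 / 20 :=
      ⟨_, rfl, by positivity, by gcongr⟩
    rw [show 5 / (h : ℝ) = 5 * u by rw [← hu]; ring, hu]
    nlinarith [mul_nonneg u0 u0]
  have e6 := kap_le hh0
  calc _ = K * (h * (s₁ - s₀) * 2 * (k₁ - k₀)) * (T - T / kap h ^ (h * t)) := by ring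
    _ ≤ K * (h * (s₁ - s₀) * 2 * (k₁ - k₀)) * T := by
        gcongr
        exact sub_le_self _ (by positivity)
    _ = (1 + 1 / h) * kap h * (h * (kap h - 1)) *
        (2 * c0 * (s₁ - s₀) * (k₁ - k₀) * (ℓ / h) * T) := by rw [← hK]; ring
    _ ≤ (1 + 1 / h) * (1 + 1 / h) * ((1 + 1 / h) * Real.log 2) *
        (2 * c0 * (s₁ - s₀) * (k₁ - k₀) * (ℓ / h) * T) := by
        have := sub_pos.2 h1
        gcongr _ * ?_ * ?_ * _
        exact (kap_upper hh0).trans (by gcongr)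
    _ = (1 + 1 / h) ^ 3 * (2 * c0 * Real.log 2 * (s₁ - s₀) * (k₁ - k₀) * (ℓ / h) * T) := by ring
    _ ≤ _ := by gcongr

end Pool.Agent.P.MP_e45b92_nt.UG
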