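import Pool.Agent.P.MP_e45b92_nt.UG.IfaceA

/-! Step ZT. -/

set_option autoImplicit false

namespace Pool.Agent.P.MP_e45b92_nt.UG

open MeasureTheory Set

theorem p_ZT : S_ZT := by
  have h3 : 1 < (3 : ℂ).re := by norm_num
  have hz : riemannZeta 3 = (Z3 : ℂ) := by
    rw [zeta_eq_tsum_one_div_nat_add_one_cpow h3, Z3, Complex.ofReal_tsum]
    refine tsum_congr fun n => ?_
    rw [show (3 : ℂ) = (3 : ℕ) by norm_num, Complex.cpow_natCast]
    push_cast
    rfl
  refine ⟨?_, by rw [hz, Complex.ofReal_re]⟩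
  have h1 := ArithmeticFunction.LSeries_zeta_mul_Lseries_moebius h3
  rw [ArithmeticFunction.LSeries_zeta_eq_riemannZeta h3, hz] at h1
  have h2 := (ArithmeticFunction.LSeriesSummable_moebius_iff.2 h3).hasSum
  rw [show ∑' n, LSeries.term _ 3 n = LSeries _ 3 from rfl, eq_one_div_of_mul_eq_one_right h1] at h2
  rw [← Complex.hasSum_ofReal, c0]
  push_cast
  refine (congrArg (HasSum · _) (funext fun n => ?_)).mp h2
  rw [LSeries.term_of_ne_zero' (by norm_num), show (3 : ℂ) = (3 : ℕ) by norm_num,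
    Complex.cpow_natCast]

end Pool.Agent.P.MP_e45b92_nt.UG
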