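import Pool.Agent.P.MP_e45b92_nt.UG.TWSL
import Pool.Agent.P.MP_e45b92_nt.UG.TCROSS
import Pool.Agent.P.MP_e45b92_nt.UG.TPL
import Pool.Agent.P.MP_e45b92_nt.UG.TNI1
import Pool.Agent.P.MP_e45b92_nt.UG.TNI
import Pool.Agent.P.MP_e45b92_nt.UG.TUB1
import Pool.Agent.P.MP_e45b92_nt.UG.TBON
import Pool.Agent.P.MP_e45b92_nt.UG.TISO1
import Pool.Agent.P.MP_e45b92_nt.UG.TISO
import Pool.Agent.P.MP_e45b92_nt.UG.TUB2
import Pool.Agent.P.MP_e45b92_nt.UG.TUB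
import Pool.Agent.P.MP_e45b92_nt.UG.TMOB
import Pool.Agent.P.MP_e45b92_nt.UG.TZT
import Pool.Agent.P.MP_e45b92_nt.UG.TPCM
import Pool.Agent.P.MP_e45b92_nt.UG.TOV0
import Pool.Agent.P.MP_e45b92_nt.UG.THER
import Pool.Agent.P.MP_e45b92_nt.UG.TOV
import Pool.Agent.P.MP_e45b92_nt.UG.TGS
import Pool.Agent.P.MP_e45b92_nt.UG.TNV
import Pool.Agent.P.MP_e45b92_nt.UG.TPCV
import Pool.Agent.P.MP_e45b92_nt.UG.TPC
import Pool.Agent.P.MP_e45b92_nt.UG.TGB1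
import Pool.Agent.P.MP_e45b92_nt.UG.TGB
import Pool.Agent.P.MP_e45b92_nt.UG.TM2
import Pool.Agent.P.MP_e45b92_nt.UG.TDVS
import Pool.Agent.P.MP_e45b92_nt.UG.TIND
import Pool.Agent.P.MP_e45b92_nt.UG.TDVB
import Pool.Agent.P.MP_e45b92_nt.UG.TDV
import Pool.Agent.P.MP_e45b92_nt.UG.TNOK
import Pool.Agent.P.MP_e45b92_nt.UG.TUT1
import Pool.Agent.P.MP_e45b92_nt.UG.TCELL
import Pool.Agent.P.MP_e45b92_nt.UG.TCORE
import Pool.Agent.P.MP_e45b92_nt.UG.TPROD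
import Pool.Agent.P.MP_e45b92_nt.UG.TFUB
import Pool.Agent.P.MP_e45b92_nt.UG.TMEAS
import Pool.Agent.P.MP_e45b92_nt.UG.TUT0
import Pool.Agent.P.MP_e45b92_nt.UG.TUT
import Pool.Agent.P.MP_e45b92_nt.UG.TUF
import Pool.Agent.P.MP_e45b92_nt.UG.TUBC
import Pool.Agent.P.MP_e45b92_nt.UG.TW1
import Pool.Agent.P.MP_e45b92_nt.UG.TW3
import Pool.Agent.P.MP_e45b92_nt.UG.TW4
import Pool.Agent.P.MP_e45b92_nt.UG.TW2
import Pool.Agent.P.MP_e45b92_nt.UG.TLMV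
import Pool.Agent.P.MP_e45b92_nt.UG.TLM0
import Pool.Agent.P.MP_e45b92_nt.UG.TLM
import Pool.Agent.P.MP_e45b92_nt.UG.TWSU
import Pool.Agent.P.MP_e45b92_nt.UG.TLB
import Pool.Agent.P.MP_e45b92_nt.UG.TCOV
import Pool.Agent.P.MP_e45b92_nt.UG.TACT
import Pool.Agent.P.MP_e45b92_nt.UG.TLWD
import Pool.Agent.P.MP_e45b92_nt.UG.TFB
import Pool.Agent.P.MP_e45b92_nt.UG.TFM
import Pool.Agent.P.MP_e45b92_nt.UG.TEXC
import Pool.Agent.P.MP_e45b92_nt.UG.TN0A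
import Pool.Agent.P.MP_e45b92_nt.UG.TN0P
import Pool.Agent.P.MP_e45b92_nt.UG.TBIN
import Pool.Agent.P.MP_e45b92_nt.UG.TN0B
import Pool.Agent.P.MP_e45b92_nt.UG.TN0
import Pool.Agent.P.MP_e45b92_nt.UG.TBAD
import Pool.Agent.P.MP_e45b92_nt.UG.TLW
import Pool.Agent.P.MP_e45b92_nt.UG.TLP1
import Pool.Agent.P.MP_e45b92_nt.UG.TLP2
import Pool.Agent.P.MP_e45b92_nt.UG.TLP3
import Pool.Agent.P.MP_e45b92_nt.UG.TLW2
import Pool.Agent.P.MP_e45b92_nt.UG.TLA1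
import Pool.Agent.P.MP_e45b92_nt.UG.TLA2
import Pool.Agent.P.MP_e45b92_nt.UG.TLA
import Pool.Agent.P.MP_e45b92_nt.UG.TLFIN
import Pool.Agent.P.MP_e45b92_nt.UG.TTR
import Pool.Agent.P.MP_e45b92_nt.UG.TFINAL

/-! Assembly. -/

set_option autoImplicit false

namespace Pool.Agent.P.MP_e45b92_nt.UG

theorem a_WSL : S_WSL := p_WSL

theorem a_CROSS : S_CROSS := p_CROSS

theorem a_PL : S_PL := p_PL

theorem a_NI1 : S_NI1 := p_NI1 a_CROSS a_PL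

theorem a_NI : S_NI := p_NI a_CROSS a_NI1

theorem a_UB1 : S_UB1 := p_UB1 a_NI

theorem a_BON : S_BON := p_BON

theorem a_ISO1 : S_ISO1 := p_ISO1 a_CROSS a_PL

theorem a_ISO : S_ISO := p_ISO a_ISO1

theorem a_UB2 : S_UB2 := p_UB2 a_BON a_ISO

theorem a_UB : S_UB := p_UB a_WSL a_UB1 a_UB2

theorem a_MOB : S_MOB := p_MOB

theorem a_ZT : S_ZT := p_ZT

theorem a_PCM : S_PCM := p_PCM a_ZT

theorem a_OV0 : S_OV0 := p_OV0

theorem a_HER : S_HER := p_HER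

theorem a_OV : S_OV := p_OV a_OV0 a_HER

theorem a_GS : S_GS := p_GS

theorem a_NV : S_NV := p_NV a_OV0 a_OV a_GS

theorem a_PCV : S_PCV := p_PCV a_MOB a_NV

theorem a_PC : S_PC := p_PC a_MOB a_PCM a_PCV

theorem a_GB1 : S_GB1 := p_GB1 a_PC

theorem a_GB : S_GB := p_GB a_GB1

theorem a_M2 : S_M2 := p_M2 a_OV0

theorem a_DVS : S_DVS := p_DVS a_M2

theorem a_IND : S_IND := p_IND a_M2 a_HER

theorem a_DVB : S_DVB := p_DVB a_OV a_M2 a_IND a_GS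

theorem a_DV : S_DV := p_DV a_DVS a_DVB

theorem a_NOK : S_NOK := p_NOK a_OV0

theorem a_UT1 : S_UT1 := p_UT1 a_GB a_DV a_NOK

theorem a_CELL : S_CELL := p_CELL

theorem a_CORE : S_CORE := p_CORE a_CELL

theorem a_PROD : S_PROD := p_PROD a_CORE

theorem a_FUB : S_FUB := p_FUB

theorem a_MEAS : S_MEAS := p_MEAS

theorem a_UT0 : S_UT0 := p_UT0 a_UB a_UT1 a_PROD a_FUB a_MEAS

theorem a_UT : S_UT := p_UT a_UT0

theorem a_UF : S_UF := p_UF a_UT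

theorem a_UBC : S_UBC := p_UBC a_UF

theorem a_W1 : S_W1 := p_W1 a_CELL

theorem a_W3 : S_W3 := p_W3 a_CELL a_W1

theorem a_W4 : S_W4 := p_W4

theorem a_W2 : S_W2 := p_W2 a_CELL

theorem a_LMV : S_LMV := p_LMV a_W2 a_W3 a_W4

theorem a_LM0 : S_LM0 := p_LM0 a_W3 a_W4 a_LMV

theorem a_LM : S_LM := p_LM a_LM0

theorem a_WSU : S_WSU := p_WSU

theorem a_LB : S_LB := p_LB a_WSU

theorem a_COV : S_COV := p_COV a_CROSS

theorem a_ACT : S_ACT := p_ACT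

theorem a_LWD : S_LWD := p_LWD a_LM a_LB a_COV a_ACT

theorem a_FB : S_FB := p_FB a_OV0

theorem a_FM : S_FM := p_FM a_FB

theorem a_EXC : S_EXC := p_EXC a_FM

theorem a_N0A : S_N0A := p_N0A

theorem a_N0P : S_N0P := p_N0P

theorem a_BIN : S_BIN := p_BIN a_CORE

theorem a_N0B : S_N0B := p_N0B a_N0P a_LB a_GB a_BIN a_FUB a_MEAS

theorem a_N0 : S_N0 := p_N0 a_N0A a_N0B a_FB

theorem a_BAD : S_BAD := p_BAD a_N0 a_N0P a_GB a_ACT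

theorem a_LW : S_LW := p_LW a_LWD a_EXC a_BAD a_FUB a_MEAS

theorem a_LP1 : S_LP1 := p_LP1

theorem a_LP2 : S_LP2 := p_LP2

theorem a_LP3 : S_LP3 := p_LP3

theorem a_LW2 : S_LW2 := p_LW2 a_LW a_LP1 a_LP2 a_LP3

theorem a_LA1 : S_LA1 := p_LA1

theorem a_LA2 : S_LA2 := p_LA2

theorem a_LA : S_LA := p_LA a_LW2 a_LA1 a_LA2

theorem a_LFIN : S_LFIN := p_LFIN a_LA

theorem a_TR : S_TR := p_TR

theorem a_FINAL : S_FINAL := p_FINAL a_UBC a_LFIN a_TR a_ZT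

end Pool.Agent.P.MP_e45b92_nt.UG
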