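import Mathlib

/-! Definitions and small lemmas for the uniform Gallagher law. -/

set_option autoImplicit false

namespace Pool.Agent.P.MP_e45b92_nt.UG

open MeasureTheory Set

noncomputable section

/-- Integer vectors `(q, p, r)`, and covectors `(C, A, B)`. -/
abbrev V3 := ℤ × ℤ × ℤ

/-- `x = p + q α`. -/
def xc (α : ℝ) (v : V3) : ℝ := v.2.1 + v.1 * α

/-- `y = r + q β`. -/
def yc (β : ℝ) (v : V3) : ℝ := v.2.2 + v.1 * β

/-- The centre `-r / q`. -/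
def ctr (v : V3) : ℝ := -(v.2.2 : ℝ) / v.1

/-- The radius `ε / (T q |x|)`. -/
def rad (α T ε : ℝ) (v : V3) : ℝ := ε / (T * v.1 * |xc α v|)

def Prim (v : V3) : Prop := Int.gcd v.1 (Int.gcd v.2.1 v.2.2) = 1

instance : DecidablePred Prim := fun v => by unfold Prim; infer_instance

def dot (ξ v : V3) : ℤ := ξ.1 * v.1 + ξ.2.1 * v.2.1 + ξ.2.2 * v.2.2

def crs (v w : V3) : V3 :=
  (v.2.1 * w.2.2 - v.2.2 * w.2.1, v.2.2 * w.1 - v.1 * w.2.2, v.1 * w.2.1 - v.2.1 * w.1)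

def Solv (α β ε T : ℝ) : Prop :=
  ∃ p r q : ℤ, 1 ≤ q ∧ (q : ℝ) ≤ T ∧ |p + q * α| * |r + q * β| < ε / T

def Z3 : ℝ := ∑' n : ℕ, 1 / ((n : ℝ) + 1) ^ 3

def c0 : ℝ := 1 / Z3

def μ1 : Measure ℝ := volume.restrict (Ico (0 : ℝ) 1)

instance : IsProbabilityMeasure μ1 := ⟨by simp [μ1]⟩

def μ2 : Measure (ℝ × ℝ) := μ1.prod μ1

instance : IsProbabilityMeasure μ2 := by unfold μ2; infer_instance

/-- The number of integers `n` with `s ≤ n + θ < s + l` (for `0 ≤ l`). -/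
def cnt (s l θ : ℝ) : ℝ := ((⌈s + l - θ⌉ - ⌈s - θ⌉ : ℤ) : ℝ)

def box (α β Q₀ Q₁ s X τ ω : ℝ) : Finset V3 :=
  (Finset.Ioc ⌊Q₀⌋ ⌊Q₁⌋).biUnion fun q =>
    {q} ×ˢ (Finset.Ico ⌈s - q * α⌉ ⌈s + X - q * α⌉ ×ˢ
      Finset.Ico ⌈q * τ - q * β⌉ ⌈q * τ + q * ω - q * β⌉)

def pbox (α β Q₀ Q₁ s X τ ω : ℝ) : Finset V3 := (box α β Q₀ Q₁ s X τ ω).filter Prim

def kap (h : ℕ) : ℝ := (2 : ℝ) ^ ((1 : ℝ) / h)

/-- The primitive vectors in the grid box with indices `a, b, σ, k`. -/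
def gbox (α β : ℝ) (h : ℕ) (T X ℓ : ℝ) (a b : ℕ) (σ : Bool) (k : ℤ) : Finset V3 :=
  pbox α β (T / kap h ^ (b + 1)) (T / kap h ^ b)
    (if σ then X * kap h ^ a else -(X * kap h ^ (a + 1))) (X * kap h ^ a * (kap h - 1))
    (k * (ℓ / h)) (ℓ / h)

def gmean (h : ℕ) (T X ℓ : ℝ) (a b : ℕ) : ℝ :=
  c0 * (X * kap h ^ a * (kap h - 1)) * (ℓ / h) *
    (((T / kap h ^ b) ^ 2 - (T / kap h ^ (b + 1)) ^ 2) / 2)

def Good (α β : ℝ) (h : ℕ) (T X ℓ : ℝ) (S t : ℕ) : Prop :=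
  ∀ a < h * S, ∀ b < h * t, ∀ (σ : Bool) (k : ℤ), |k| ≤ h + 3 →
    |((gbox α β h T X ℓ a b σ k).card : ℝ) - gmean h T X ℓ a b| ≤ gmean h T X ℓ a b / h

/-- `x` lies in the dyadic scales `s₀, …, s₁ - 1` above `X`. -/
def InR (X : ℝ) (s₀ s₁ : ℕ) (x : ℝ) : Prop :=
  (X * 2 ^ s₀ ≤ x ∧ x < X * 2 ^ s₁) ∨ (-(X * 2 ^ s₁) ≤ x ∧ x < -(X * 2 ^ s₀))

open Classical in
def fam (α β : ℝ) (h : ℕ) (T X ℓ : ℝ) (t s₀ s₁ : ℕ) (k₀ k₁ : ℤ) : Finset V3 :=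
  (pbox α β (T / 2 ^ t) T (-(X * 2 ^ s₁)) (2 * (X * 2 ^ s₁)) (k₀ * (ℓ / h))
    ((k₁ - k₀) * (ℓ / h))).filter fun v => InR X s₀ s₁ (xc α v)

def Hit (α β T ε : ℝ) (t : ℕ) (X : ℝ) (s₀ s₁ : ℕ) : Prop :=
  ∃ v : V3, Prim v ∧ T / 2 ^ t < v.1 ∧ (v.1 : ℝ) ≤ T ∧ InR X s₀ s₁ (xc α v) ∧
    |xc α v| * |yc β v| < ε / T

/-- Index of the dyadic cell of level `n`. -/
def cell (n : ℕ) (β : ℝ) : ℤ := ⌊2 ^ n * β⌋

/-- The dyadic cell of level `n` that contains `β`. -/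
def Cl (n : ℕ) (β : ℝ) : Set ℝ := {β' | cell n β' = cell n β}

/-- Functions that are constant on the cells of level `n`. -/
def LC (n : ℕ) (g : ℝ → ℝ) : Prop := ∀ β β', cell n β = cell n β' → g β = g β'

/-- Unions of cells of level `n`. -/
def LS (n : ℕ) (A : Set ℝ) : Prop := ∀ β β', cell n β = cell n β' → β ∈ A → β' ∈ A

/-- The cells of level `n` that contain a hit. -/
def HitP (n : ℕ) (α T ε : ℝ) (t : ℕ) (X : ℝ) (s₀ s₁ : ℕ) : Set ℝ :=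
  {β | ∃ β', cell n β' = cell n β ∧ Hit α β' T ε t X s₀ s₁}

/-- The cells of level `n` that consist of solutions. -/
def Full (n : ℕ) (α T ε : ℝ) : Set ℝ := {β | ∀ β', cell n β' = cell n β → Solv α β' ε T}

/-- The proportion of the cell of `β` that lies in `A`. -/
def Pr (n : ℕ) (A : Set ℝ) (β : ℝ) : ℝ := 2 ^ n * volume.real (A ∩ Cl n β)

open Classical in
def Xf (n : ℕ) (A : Set ℝ) (β : ℝ) : ℝ := if β ∈ A then 0 else 1 / (1 - Pr n A β)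

def Wt (n : ℕ → ℕ) (H : ℕ → Set ℝ) (j : ℕ) (β : ℝ) : ℝ :=
  ∏ i ∈ Finset.range j, Xf (n i) (H i) β

/-- No short covector kills `v`. -/
def Iso (v : V3) (a b : ℝ) : Prop :=
  ∀ ξ : V3, dot ξ v = 0 → |(ξ.2.1 : ℝ)| ≤ a → |(ξ.2.2 : ℝ)| ≤ b → ξ = 0

/-- Weighted number of short covectors with `b₁ < B ≤ b₀`. -/
def Psi (α β W ℓ a₀ b₁ b₀ w₀ : ℝ) : ℝ :=
  ∑ A ∈ Finset.Icc (-⌊a₀⌋) ⌊a₀⌋, ∑ B ∈ Finset.Ioc ⌊b₁⌋ ⌊b₀⌋,
    (1 + W / B) * cnt (-(w₀ + B * ℓ)) (2 * (w₀ + B * ℓ)) (A * α + B * β)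

def NoK (α a₀ w₀ : ℝ) : Prop := ∀ A C : ℤ, 1 ≤ A → (A : ℝ) ≤ a₀ → w₀ ≤ |A * α - C|

/-- A solution with `q ≤ Q`, product below `δ` and `|x| ≤ u`. -/
def Rare (α β Q δ u : ℝ) : Prop :=
  ∃ v : V3, 1 ≤ v.1 ∧ (v.1 : ℝ) ≤ Q ∧ |xc α v| * |yc β v| < δ ∧ |xc α v| ≤ u

/-- The critical shape `c log log T / log T`. -/
def eps (c T : ℝ) : ℝ := c * Real.log (Real.log T) / Real.log T

/-- Mean of the number of points in a box. -/
def nmean (Q₀ Q₁ X ω : ℝ) : ℝ := ∑ q ∈ Finset.Ioc ⌊Q₀⌋ ⌊Q₁⌋, X * (q * ω)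

/-- Mean of `Psi`. -/
def pmean (W ℓ a₀ b₁ b₀ w₀ : ℝ) : ℝ :=
  ∑ _A ∈ Finset.Icc (-⌊a₀⌋) ⌊a₀⌋, ∑ B ∈ Finset.Ioc ⌊b₁⌋ ⌊b₀⌋, (1 + W / B) * (2 * (w₀ + B * ℓ))

/-- The scale of `x` that belongs to the cells of level `n`. -/
def Xs (ε : ℝ) (g n h : ℕ) (T : ℝ) : ℝ := ε * 2 ^ (g + n) / (h * T ^ 2)

def Tk (Λ E k : ℕ) : ℝ := 2 ^ (Λ + k * E)

/-- The cells of level `n` are active for `T`. -/
def Act (ε : ℝ) (g D n h : ℕ) (T : ℝ) : Prop :=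
  2 ^ (3 * g) ≤ T * Xs ε g n h T ∧ Xs ε g (n + (D + g)) h T * 2 ^ (3 * g) ≤ 1

/-- Upper bound for the hit probability of `s` dyadic scales. -/
def pu (h : ℕ) (ε : ℝ) (s : ℕ) : ℝ := (1 + 12 / h) * (4 * c0 * ε * Real.log 2 * s)

def A0 (h D : ℕ) : ℝ := 400 * h * 8 ^ h * (D + 1)

theorem mem_box {α β Q₀ Q₁ s X τ ω : ℝ} {v : V3} : v ∈ box α β Q₀ Q₁ s X τ ω ↔
    Q₀ < v.1 ∧ (v.1 : ℝ) ≤ Q₁ ∧ s ≤ xc α v ∧ xc α v < s + X ∧ v.1 * τ ≤ yc β v ∧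
      yc β v < v.1 * τ + v.1 * ω := by
  obtain ⟨q, p, r⟩ := v
  simp only [box, Finset.mem_biUnion, Finset.mem_product, Finset.mem_singleton, Finset.mem_Ioc,
    Finset.mem_Ico, xc, yc, Int.floor_lt, Int.le_floor, Int.ceil_le, Int.lt_ceil]
  constructor
  · rintro ⟨q', ⟨h1, h2⟩, rfl, ⟨h3, h4⟩, h5, h6⟩
    exact ⟨h1, h2, by linarith, by linarith, by linarith, by linarith⟩
  · rintro ⟨h1, h2, h3, h4, h5, h6⟩
    exact ⟨q, ⟨h1, h2⟩, rfl, ⟨by linarith, by linarith⟩, by linarith, by linarith⟩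

theorem mem_pbox {α β Q₀ Q₁ s X τ ω : ℝ} {v : V3} : v ∈ pbox α β Q₀ Q₁ s X τ ω ↔
    Prim v ∧ Q₀ < v.1 ∧ (v.1 : ℝ) ≤ Q₁ ∧ s ≤ xc α v ∧ xc α v < s + X ∧ v.1 * τ ≤ yc β v ∧
      yc β v < v.1 * τ + v.1 * ω := by
  rw [pbox, Finset.mem_filter, mem_box]; tauto

theorem mem_fam {α β : ℝ} {h : ℕ} {T X ℓ : ℝ} {t s₀ s₁ : ℕ} {k₀ k₁ : ℤ} {v : V3} (hX : 0 < X) :
    v ∈ fam α β h T X ℓ t s₀ s₁ k₀ k₁ ↔
    Prim v ∧ T / 2 ^ t < v.1 ∧ (v.1 : ℝ) ≤ T ∧ InR X s₀ s₁ (xc α v) ∧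
      v.1 * (k₀ * (ℓ / h)) ≤ yc β v ∧ yc β v < v.1 * (k₁ * (ℓ / h)) := by
  classical
  rw [fam, Finset.mem_filter, mem_pbox]
  have e : (v.1 : ℝ) * (k₀ * (ℓ / h)) + v.1 * ((k₁ - k₀) * (ℓ / h)) = v.1 * (k₁ * (ℓ / h)) := by
    ring
  rw [e]
  have h0 : 0 < X * 2 ^ s₀ := by positivity
  have h1 : 0 < X * 2 ^ s₁ := by positivity
  constructor
  · rintro ⟨⟨a, b, c, -, -, d, e⟩, f⟩
    exact ⟨a, b, c, f, d, e⟩
  · rintro ⟨a, b, c, f, d, e⟩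
    refine ⟨⟨a, b, c, ?_, ?_, d, e⟩, f⟩ <;> rcases f with f | f <;> linarith [f.1, f.2]

theorem card_Ico_cnt {s l θ : ℝ} (hl : 0 ≤ l) :
    ((Finset.Ico ⌈s - θ⌉ ⌈s + l - θ⌉).card : ℝ) = cnt s l θ := by
  have : ⌈s - θ⌉ ≤ ⌈s + l - θ⌉ := Int.ceil_mono (by linarith)
  rw [Int.card_Ico, cnt]
  have h2 : ((⌈s + l - θ⌉ - ⌈s - θ⌉).toNat : ℤ) = ⌈s + l - θ⌉ - ⌈s - θ⌉ :=
    Int.toNat_of_nonneg (by omega)
  exact_mod_cast congrArg (fun z : ℤ => (z : ℝ)) h2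

theorem cnt_nonneg {s l θ : ℝ} (hl : 0 ≤ l) : 0 ≤ cnt s l θ := by
  rw [← card_Ico_cnt hl]; positivity

theorem cnt_le {s l θ : ℝ} : cnt s l θ ≤ l + 1 := by
  have h1 := Int.ceil_lt_add_one (s + l - θ)
  have h2 := Int.le_ceil (s - θ)
  simp only [cnt, Int.cast_sub]; linarith

theorem cnt_add_int (s l θ : ℝ) (n : ℤ) : cnt s l (θ + n) = cnt s l θ := by
  have e1 : s + l - (θ + n) = s + l - θ - n := by ring
  have e2 : s - (θ + n) = s - θ - n := by ring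
  simp only [cnt, e1, e2, Int.ceil_sub_intCast]; push_cast; ring

theorem cnt_add (s l θ u : ℝ) : cnt s l (θ + u) = cnt (s - u) l θ := by
  have e1 : s + l - (θ + u) = s - u + l - θ := by ring
  have e2 : s - (θ + u) = s - u - θ := by ring
  simp only [cnt, e1, e2]

theorem one_le_cnt {s l θ : ℝ} {n : ℤ} (h1 : s ≤ n + θ) (h2 : n + θ < s + l) :
    1 ≤ cnt s l θ := by
  rw [← card_Ico_cnt (by linarith)]
  have : n ∈ Finset.Ico ⌈s - θ⌉ ⌈s + l - θ⌉ := by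
    rw [Finset.mem_Ico, Int.ceil_le, Int.lt_ceil]; constructor <;> linarith
  exact_mod_cast Finset.card_pos.2 ⟨n, this⟩

theorem measurable_cnt (s l : ℝ) : Measurable (cnt s l) := by
  unfold cnt
  have h : Measurable fun z : ℤ => (z : ℝ) := measurable_from_top
  exact h.comp ((Int.measurable_ceil.comp (by fun_prop)).sub
    (Int.measurable_ceil.comp (by fun_prop)))

theorem card_box {α β Q₀ Q₁ s X τ ω : ℝ} (h0 : 0 ≤ Q₀) (hX : 0 ≤ X) (hω : 0 ≤ ω) :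
    ((box α β Q₀ Q₁ s X τ ω).card : ℝ) =
      ∑ q ∈ Finset.Ioc ⌊Q₀⌋ ⌊Q₁⌋, cnt s X (q * α) * cnt (q * τ) (q * ω) (q * β) := by
  rw [box, Finset.card_biUnion, Nat.cast_sum]
  · refine Finset.sum_congr rfl fun q hq => ?_
    have hq0 : (0 : ℝ) ≤ q := by
      have := (Finset.mem_Ioc.1 hq).1
      have h2 : 0 ≤ ⌊Q₀⌋ := Int.floor_nonneg.2 h0
      exact_mod_cast (by omega : 0 ≤ q)
    rw [Finset.card_product, Finset.card_product, Finset.card_singleton, one_mul, Nat.cast_mul,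
      card_Ico_cnt hX, card_Ico_cnt (by positivity)]
  · intro q _ q' _ hne
    rw [Function.onFun, Finset.disjoint_left]
    intro v h1 h2
    rw [Finset.mem_product, Finset.mem_singleton] at h1 h2
    exact hne (h1.1.symm.trans h2.1)

theorem kap_pow {h : ℕ} (hh : 0 < h) : kap h ^ h = 2 := by
  rw [kap, one_div, Real.rpow_inv_natCast_pow (by norm_num) hh.ne']

theorem kap_pow_mul {h : ℕ} (hh : 0 < h) (s : ℕ) : kap h ^ (h * s) = 2 ^ s := by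
  rw [pow_mul, kap_pow hh]

theorem kap_eq (h : ℕ) : kap h = Real.exp (Real.log 2 / h) := by
  rw [kap, Real.rpow_def_of_pos (by norm_num)]; congr 1; ring

theorem one_lt_kap {h : ℕ} (hh : 0 < h) : 1 < kap h := by
  rw [kap]; exact Real.one_lt_rpow (by norm_num) (by positivity)

theorem kap_lower {h : ℕ} (hh : 0 < h) : Real.log 2 ≤ h * (kap h - 1) := by
  have h0 : (0 : ℝ) < h := by exact_mod_cast hh
  have := Real.add_one_le_exp (Real.log 2 / h)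
  rw [← kap_eq] at this
  have e : Real.log 2 = h * (Real.log 2 / h) := by field_simp
  nlinarith

theorem kap_upper {h : ℕ} (hh : 0 < h) : h * (kap h - 1) ≤ kap h * Real.log 2 := by
  have h0 : (0 : ℝ) < h := by exact_mod_cast hh
  have h1 := Real.add_one_le_exp (-(Real.log 2 / h))
  have h2 : Real.exp (-(Real.log 2 / h)) * kap h = 1 := by
    rw [kap_eq, ← Real.exp_add]; simp
  have h3 : 0 < kap h := by linarith [one_lt_kap hh]
  have e : Real.log 2 = h * (Real.log 2 / h) := by field_simp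
  have h4 : (-(Real.log 2 / h) + 1) * kap h ≤ 1 := by
    exact (mul_le_mul_of_nonneg_right h1 h3.le).trans h2.le
  nlinarith

theorem kap_le {h : ℕ} (hh : 0 < h) : kap h ≤ 1 + 1 / h := by
  have h0 : (0 : ℝ) < h := by exact_mod_cast hh
  by_contra hc
  push Not at hc
  have h1 : (1 + 1 / (h : ℝ)) ^ h < kap h ^ h := pow_lt_pow_left₀ hc (by positivity) hh.ne'
  have h2 := one_add_mul_le_pow (a := 1 / (h : ℝ)) (by linarith [one_div_pos.2 h0]) h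
  rw [kap_pow hh] at h1
  have e : (h : ℝ) * (1 / h) = 1 := by field_simp
  linarith

theorem log_two_bounds : 0.69 < Real.log 2 ∧ Real.log 2 < 0.7 :=
  ⟨by linarith [Real.log_two_gt_d9], by linarith [Real.log_two_lt_d9]⟩

theorem Cl_eq (n : ℕ) (β : ℝ) :
    Cl n β = Ico ((cell n β : ℝ) / 2 ^ n) (((cell n β : ℝ) + 1) / 2 ^ n) := by
  ext x
  have h : (0 : ℝ) < 2 ^ n := by positivity
  simp only [Cl, mem_ofPred_eq, mem_Ico, div_le_iff₀ h, lt_div_iff₀ h]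
  rw [show cell n x = ⌊2 ^ n * x⌋ from rfl, Int.floor_eq_iff, mul_comm]

theorem mem_Cl (n : ℕ) (β : ℝ) : β ∈ Cl n β := rfl

theorem volume_Cl (n : ℕ) (β : ℝ) : volume.real (Cl n β) = 1 / 2 ^ n := by
  have h : (0 : ℝ) < 2 ^ n := by positivity
  rw [Cl_eq, Real.volume_real_Ico_of_le (by gcongr; linarith)]; ring

theorem volume_Cl_ne_top (n : ℕ) (β : ℝ) : volume (Cl n β) ≠ ⊤ := by
  rw [Cl_eq]; exact measure_Ico_lt_top.ne

theorem measurable_cell (n : ℕ) : Measurable (cell n) :=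
  Int.measurable_floor.comp (by fun_prop)

theorem measurableSet_Cl (n : ℕ) (β : ℝ) : MeasurableSet (Cl n β) := by
  rw [Cl_eq]; exact measurableSet_Ico

theorem abs_sub_lt_of_cell {n : ℕ} {β β' : ℝ} (h : cell n β = cell n β') :
    |β - β'| < 1 / 2 ^ n := by
  have h1 : β ∈ Cl n β' := h
  have h2 := mem_Cl n β'
  rw [Cl_eq] at h1 h2
  have e : ((cell n β' : ℝ) + 1) / 2 ^ n = cell n β' / 2 ^ n + 1 / 2 ^ n := by ring
  rw [abs_lt]; constructor <;> linarith [h1.1, h1.2, h2.1, h2.2]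

theorem cell_mono {n n' : ℕ} (hn : n ≤ n') {β β' : ℝ} (h : cell n' β = cell n' β') :
    cell n β = cell n β' := by
  obtain ⟨d, rfl⟩ := Nat.exists_eq_add_of_le hn
  have key : ∀ x : ℝ, cell n x = cell (n + d) x / ((2 ^ d : ℕ) : ℤ) := by
    intro x
    rw [cell, cell, ← Int.floor_div_natCast]
    congr 1; push_cast; rw [pow_add]; field_simp
  rw [key, key, h]

theorem Cl_subset {n : ℕ} {β : ℝ} (hβ : β ∈ Ico (0 : ℝ) 1) : Cl n β ⊆ Ico (0 : ℝ) 1 := by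
  intro x hx
  have h := cell_mono (Nat.zero_le n) (show cell n x = cell n β from hx)
  simp only [cell, pow_zero, one_mul] at h
  have h0 : ⌊β⌋ = 0 := Int.floor_eq_zero_iff.2 hβ
  exact Int.floor_eq_zero_iff.1 (h.trans h0)

theorem LC.mono {n n' : ℕ} (hn : n ≤ n') {g : ℝ → ℝ} (h : LC n g) : LC n' g :=
  fun β β' e => h β β' (cell_mono hn e)

theorem LS.mono {n n' : ℕ} (hn : n ≤ n') {A : Set ℝ} (h : LS n A) : LS n' A :=
  fun β β' e => h β β' (cell_mono hn e)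

theorem LC.mul {n : ℕ} {f g : ℝ → ℝ} (hf : LC n f) (hg : LC n g) : LC n fun β => f β * g β :=
  fun β β' e => by simp only [hf β β' e, hg β β' e]

theorem LC.eq_comp {n : ℕ} {g : ℝ → ℝ} (h : LC n g) :
    g = (fun j : ℤ => g (j / 2 ^ n)) ∘ cell n := by
  funext β
  refine h _ _ ?_
  have h2 : (2 : ℝ) ^ n * ((cell n β : ℝ) / 2 ^ n) = cell n β := by field_simp
  rw [show cell n ((cell n β : ℝ) / 2 ^ n) = ⌊(2 : ℝ) ^ n * ((cell n β : ℝ) / 2 ^ n)⌋ from rfl,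
    h2, Int.floor_intCast]

theorem LC.measurable {n : ℕ} {g : ℝ → ℝ} (h : LC n g) : Measurable g := by
  rw [h.eq_comp]; exact measurable_from_top.comp (measurable_cell n)

theorem cell_mem {n : ℕ} {β : ℝ} (hβ : β ∈ Ico (0 : ℝ) 1) :
    cell n β ∈ Finset.Ico (0 : ℤ) (2 ^ n) := by
  have h : (0 : ℝ) < 2 ^ n := by positivity
  rw [Finset.mem_Ico, cell, Int.floor_nonneg, Int.floor_lt]
  push_cast
  constructor <;> nlinarith [hβ.1, hβ.2]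

theorem LC.integrable {n : ℕ} {g : ℝ → ℝ} (h : LC n g) : Integrable g μ1 := by
  refine Integrable.of_bound h.measurable.aestronglyMeasurable
    (∑ j ∈ Finset.Ico (0 : ℤ) (2 ^ n), ‖g (j / 2 ^ n)‖) ?_
  refine (ae_restrict_iff' measurableSet_Ico).2 (Filter.Eventually.of_forall fun β hβ => ?_)
  have e : g β = g ((cell n β : ℝ) / 2 ^ n) := congrFun h.eq_comp β
  rw [e]
  exact Finset.single_le_sum (f := fun j : ℤ => ‖g (j / 2 ^ n)‖) (fun _ _ => norm_nonneg _)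
    (cell_mem hβ)

theorem LS.indicator {n : ℕ} {A : Set ℝ} (h : LS n A) : LC n (A.indicator 1) := by
  intro β β' e
  by_cases hβ : β ∈ A
  · rw [indicator_of_mem hβ, indicator_of_mem (h β β' e hβ)]; rfl
  · rw [indicator_of_notMem hβ, indicator_of_notMem fun h' => hβ (h β' β e.symm h')]

theorem LS.measurableSet {n : ℕ} {A : Set ℝ} (h : LS n A) : MeasurableSet A := by
  have e : A = cell n ⁻¹' (cell n '' A) := by
    ext β
    exact ⟨fun hβ => ⟨β, hβ, rfl⟩, fun ⟨β', h1, h2⟩ => h β' β h2 h1⟩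
  rw [e]; exact measurable_cell n MeasurableSet.of_discrete

theorem LS_HitP (n : ℕ) (α T ε : ℝ) (t : ℕ) (X : ℝ) (s₀ s₁ : ℕ) :
    LS n (HitP n α T ε t X s₀ s₁) := fun _ _ e ⟨b, h1, h2⟩ => ⟨b, h1.trans e, h2⟩

theorem LS_Full (n : ℕ) (α T ε : ℝ) : LS n (Full n α T ε) :=
  fun _ _ e h b hb => h b (hb.trans e.symm)

theorem LC_Pr (n : ℕ) (A : Set ℝ) : LC n (Pr n A) := fun β β' e => by
  simp only [Pr, Cl, e]

theorem Pr_nonneg (n : ℕ) (A : Set ℝ) (β : ℝ) : 0 ≤ Pr n A β := by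
  unfold Pr; positivity

theorem yc_eq {β : ℝ} {v : V3} (hq : v.1 ≠ 0) : yc β v = v.1 * (β - ctr v) := by
  have : (v.1 : ℝ) ≠ 0 := by exact_mod_cast hq
  rw [yc, ctr]; field_simp; ring

theorem dot_crs (v w : V3) : dot (crs v w) v = 0 := by simp only [dot, crs]; ring

theorem dot_comm (v w : V3) : dot v w = dot w v := by simp only [dot]; ring

theorem xc_sub (α : ℝ) (u w : V3) : xc α (u - w) = xc α u - xc α w := by
  simp only [xc, Prod.fst_sub, Prod.snd_sub]; push_cast; ring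

theorem summable_Z3 : Summable fun n : ℕ => 1 / ((n : ℝ) + 1) ^ 3 := by
  have h := (summable_nat_add_iff 1).2 (Real.summable_one_div_nat_pow.2 (by norm_num : 1 < 3))
  simpa using h

theorem Z3_bounds : 1 ≤ Z3 ∧ Z3 ≤ 2 := by
  constructor
  · have := summable_Z3.le_tsum 0 (fun _ _ => by positivity)
    simpa [Z3] using this
  · refine Real.tsum_le_of_sum_range_le (fun n => by positivity) fun n => ?_
    have : ∀ n : ℕ, ∑ i ∈ Finset.range n, 1 / ((i : ℝ) + 1) ^ 3 ≤ 2 - 2 / ((n : ℝ) + 1) := by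
      intro n
      induction n with
      | zero => simp
      | succ n ih =>
        rw [Finset.sum_range_succ]
        have h0 : (0 : ℝ) ≤ n := by positivity
        have : 1 / ((n : ℝ) + 1) ^ 3 ≤ 2 / ((n : ℝ) + 1) - 2 / ((n : ℝ) + 1 + 1) := by
          rw [div_sub_div _ _ (by positivity) (by positivity), div_le_div_iff₀ (by positivity)
            (by positivity)]
          nlinarith [mul_nonneg h0 h0, mul_nonneg h0 (mul_nonneg h0 h0)]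
        push_cast; linarith
    have h2 : 0 ≤ 2 / ((n : ℝ) + 1) := by positivity
    linarith [this n]

theorem c0_bounds : 1 / 2 ≤ c0 ∧ c0 ≤ 1 := by
  have h := Z3_bounds
  rw [c0]
  exact ⟨one_div_le_one_div_of_le (by linarith [h.1]) h.2, by
    rw [div_le_one (by linarith [h.1])]; exact h.1⟩

theorem integral_shift {f : ℝ → ℝ} (hf : Function.Periodic f 1) (u : ℝ) :
    ∫ θ, f (θ + u) ∂μ1 = ∫ θ, f θ ∂μ1 := by
  simp only [μ1, integral_Ico_eq_integral_Ioc, ← intervalIntegral.integral_of_le zero_le_one]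
  rw [intervalIntegral.integral_comp_add_right]
  have := hf.intervalIntegral_add_eq u 0
  simpa [add_comm] using this

theorem integrable_of_bdd {Ω : Type} [MeasurableSpace Ω] {μ : Measure Ω} [IsFiniteMeasure μ]
    {f : Ω → ℝ} (hf : Measurable f) (C : ℝ) (h : ∀ z, |f z| ≤ C) : Integrable f μ :=
  Integrable.of_bound hf.aestronglyMeasurable C (Filter.Eventually.of_forall h)

theorem markov {Ω : Type} [MeasurableSpace Ω] {μ : Measure Ω} {f : Ω → ℝ}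
    (h0 : ∀ᵐ z ∂μ, 0 ≤ f z) (hf : Integrable f μ) {u : ℝ} (hu : 0 < u) :
    μ.real {z | u ≤ f z} ≤ (∫ z, f z ∂μ) / u := by
  rw [le_div_iff₀ hu, mul_comm]
  exact mul_meas_ge_le_integral_of_nonneg h0 hf u

theorem cheb {Ω : Type} [MeasurableSpace Ω] {μ : Measure Ω} {f : Ω → ℝ}
    (hf : Integrable (fun z => f z ^ 2) μ) {u : ℝ} (hu : 0 < u) :
    μ.real {z | u ≤ |f z|} ≤ (∫ z, f z ^ 2 ∂μ) / u ^ 2 := by
  have e : {z | u ≤ |f z|} = {z | u ^ 2 ≤ f z ^ 2} := by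
    ext z
    simp only [mem_ofPred_eq]
    rw [← sq_abs (f z), sq_le_sq₀ hu.le (abs_nonneg _)]
  rw [e]
  exact markov (Filter.Eventually.of_forall fun z => sq_nonneg _) hf (by positivity)

theorem μ2_swap (S : Set (ℝ × ℝ)) : μ2.real (Prod.swap ⁻¹' S) = μ2.real S := by
  have h : μ2.map (MeasurableEquiv.prodComm : ℝ × ℝ ≃ᵐ ℝ × ℝ) = μ2 := Measure.prod_swap
  have h2 := MeasurableEquiv.map_apply (μ := μ2) (MeasurableEquiv.prodComm : ℝ × ℝ ≃ᵐ ℝ × ℝ) S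
  rw [h] at h2
  rw [Measure.real, Measure.real, h2]; rfl

theorem abs_cnt_le {s l θ : ℝ} (hl : 0 ≤ l) : |cnt s l θ| ≤ l + 1 := by
  rw [abs_of_nonneg (cnt_nonneg hl)]; exact cnt_le

theorem measurable_card_box {Q₀ Q₁ s X τ ω : ℝ} (h0 : 0 ≤ Q₀) (hX : 0 ≤ X) (hω : 0 ≤ ω) :
    Measurable fun z : ℝ × ℝ => ((box z.1 z.2 Q₀ Q₁ s X τ ω).card : ℝ) := by
  simp only [card_box h0 hX hω]
  exact Finset.measurable_sum _ fun q _ =>
    ((measurable_cnt _ _).comp (by fun_prop)).mul ((measurable_cnt _ _).comp (by fun_prop))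

theorem card_box_bdd {Q₀ Q₁ s X τ ω : ℝ} (h0 : 0 ≤ Q₀) (hX : 0 ≤ X) (hω : 0 ≤ ω) :
    ∃ C : ℝ, ∀ α β : ℝ, ((box α β Q₀ Q₁ s X τ ω).card : ℝ) ≤ C := by
  refine ⟨∑ q ∈ Finset.Ioc ⌊Q₀⌋ ⌊Q₁⌋, (X + 1) * (q * ω + 1), fun α β => ?_⟩
  rw [card_box h0 hX hω]
  refine Finset.sum_le_sum fun q hq => ?_
  have hq0 : (0 : ℝ) ≤ q := by
    have := (Finset.mem_Ioc.1 hq).1
    have h2 : 0 ≤ ⌊Q₀⌋ := Int.floor_nonneg.2 h0
    exact_mod_cast (by omega : 0 ≤ q)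
  exact mul_le_mul cnt_le cnt_le (cnt_nonneg (by positivity)) (by linarith)

theorem measurable_Psi (W ℓ a₀ b₁ b₀ w₀ : ℝ) :
    Measurable fun z : ℝ × ℝ => Psi z.1 z.2 W ℓ a₀ b₁ b₀ w₀ :=
  Finset.measurable_sum _ fun _ _ => Finset.measurable_sum _ fun _ _ =>
    measurable_const.mul ((measurable_cnt _ _).comp (by fun_prop))

theorem LC_Xf {n n' : ℕ} (hn : n ≤ n') {A : Set ℝ} (hA : LS n' A) : LC n' (Xf n A) := by
  intro β β' e
  have h1 : β ∈ A ↔ β' ∈ A := ⟨hA β β' e, hA β' β e.symm⟩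
  by_cases h : β ∈ A
  · simp only [Xf, if_pos h, if_pos (h1.1 h)]
  · simp only [Xf, if_neg h, if_neg fun h' => h (h1.2 h'), (LC_Pr n A).mono hn β β' e]

theorem LC_Wt {n : ℕ → ℕ} (hn : Monotone n) {H : ℕ → Set ℝ} {j : ℕ}
    (hH : ∀ i < j, LS (n (i + 1)) (H i)) : LC (n j) (Wt n H j) := by
  intro β β' e
  refine Finset.prod_congr rfl fun i hi => ?_
  have hi' := Finset.mem_range.1 hi
  exact (LC_Xf (hn (Nat.le_succ i)) (hH i hi')).mono (hn hi') β β' e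

theorem Xf_bounds {n : ℕ} {A : Set ℝ} {β : ℝ} (h : Pr n A β ≤ 1 / 2) :
    0 ≤ Xf n A β ∧ Xf n A β ≤ 2 := by
  unfold Xf
  split_ifs
  · norm_num
  · refine ⟨one_div_nonneg.2 (by linarith), ?_⟩
    rw [div_le_iff₀ (by linarith)]; linarith

theorem Wt_nonneg {n : ℕ → ℕ} {H : ℕ → Set ℝ} {j : ℕ} {β : ℝ}
    (h : ∀ i < j, Pr (n i) (H i) β ≤ 1 / 2) : 0 ≤ Wt n H j β :=
  Finset.prod_nonneg fun i hi => (Xf_bounds (h i (Finset.mem_range.1 hi))).1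

theorem Wt_succ (n : ℕ → ℕ) (H : ℕ → Set ℝ) (j : ℕ) (β : ℝ) :
    Wt n H (j + 1) β = Wt n H j β * Xf (n j) (H j) β := Finset.prod_range_succ _ _

theorem integral_indicator_Cl {n : ℕ} {A : Set ℝ} (hA : MeasurableSet A) (β : ℝ) :
    ∫ x in Cl n β, A.indicator (1 : ℝ → ℝ) x = Pr n A β / 2 ^ n := by
  rw [integral_indicator hA, Measure.restrict_restrict hA, Pr]
  simp only [Pi.one_apply, integral_const, smul_eq_mul, mul_one, measureReal_restrict_apply_univ]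
  field_simp

theorem integrableOn_Cl {n : ℕ} {β : ℝ} (hβ : β ∈ Ico (0 : ℝ) 1) {f : ℝ → ℝ}
    (hf : Integrable f μ1) : IntegrableOn f (Cl n β) :=
  IntegrableOn.mono_set (show IntegrableOn f (Ico (0 : ℝ) 1) volume from hf) (Cl_subset hβ)

theorem Solv.mono {α β ε ε' T T' : ℝ} (h : Solv α β ε T) (h1 : T ≤ T') (h2 : ε / T ≤ ε' / T') :
    Solv α β ε' T' := by
  obtain ⟨p, r, q, a, b, c⟩ := h
  exact ⟨p, r, q, a, b.trans h1, c.trans_le h2⟩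

end

end Pool.Agent.P.MP_e45b92_nt.UG
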