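import Pool.Agent.P.MP_e45b92_nt.UG.IfaceB

/-! The lower half and the final statement. -/

set_option autoImplicit false

namespace Pool.Agent.P.MP_e45b92_nt.UG

open MeasureTheory Set

-- deps: OV0
def S_FB : Prop := ∀ Q u w : ℝ, 0 ≤ Q → 0 ≤ u → 0 ≤ w →
  μ2.real {z | ∃ v : V3, 1 ≤ v.1 ∧ (v.1 : ℝ) ≤ Q ∧ |xc z.1 v| ≤ u ∧ |yc z.2 v| ≤ w} ≤
    4 * Q * u * w

-- deps: FB
def S_FM : Prop := ∀ (Q δ : ℝ) (S : ℕ), 0 ≤ Q → 0 < δ →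
  μ2.real {z | Rare z.1 z.2 Q δ (δ * 2 ^ S)} ≤ Q * δ * (2 + 8 * S)

-- deps: WSU
def S_LB : Prop := ∀ (α β T X ε : ℝ) (h S t s₀ s₁ n n' : ℕ), 20 ≤ h → 0 < T → 0 < X → 0 < ε →
  s₀ ≤ s₁ → s₁ ≤ S → ε * 2 ^ t / (T ^ 2 * X) ≤ 1 / 2 ^ n / (2 * h) →
  1 / 2 ^ n' ≤ ε / (h * T ^ 2 * X * 2 ^ s₁) → Good α β h T X (1 / 2 ^ n) S t →
  Pr n (HitP n' α T ε t X s₀ s₁) β ≤ pu h ε (s₁ - s₀)

-- deps: CROSS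
def S_COV : Prop := ∀ (α β T ε X R : ℝ) (t D g : ℕ), 0 < T → 0 < ε → ε ≤ 1 → 0 < R → 0 < X →
  0 < D + g → X ≤ R * 2 ^ (D + g) / T → Solv α β ε T →
  Rare α β (T / 2 ^ t) (ε / T) (1 / 2) ∨ Rare α β T (ε / T) (R * 2 ^ (D + g) / T) ∨
    Rare β α T (ε / T) (R * 2 ^ (D + g) / T) ∨
    ∃ i : ℕ, R ≤ T * (X * 2 ^ (i * (D + g))) ∧ X * 2 ^ ((i + 1) * (D + g)) * R ≤ 1 ∧
      (Hit α β T ε t (X * 2 ^ (i * (D + g))) 0 D ∨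
        Hit α β T ε t (X * 2 ^ (i * (D + g))) D (D + g))

-- deps:
def S_N0A : Prop := ∀ (α β T ε X : ℝ) (h t D g n' : ℕ), 1 ≤ h → 0 < T → 0 < ε → 0 < X →
  1 / 2 ^ n' ≤ ε / (h * T ^ 2 * X * 2 ^ D) → β ∈ HitP n' α T ε t X 0 D →
  (∃ v : V3, 1 ≤ v.1 ∧ (v.1 : ℝ) ≤ T ∧ |xc α v| ≤ X * 2 ^ D ∧
    |yc β v| ≤ ε / (2 ^ g * T * X * 2 ^ D)) ∨
  Hit β α T (3 * ε) t (ε / (2 ^ g * T * X * 2 ^ D)) 0 (D + g + 1)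

/-- The hypotheses on the parameters of a window. -/
structure Win (h g D t Λ E K : ℕ) (ε : ℝ) : Prop where
  h20 : 20 ≤ h
  e0 : 0 < ε
  e1 : ε ≤ 1
  K0 : 0 < K
  D0 : 0 < D
  hg : (h : ℝ) ≤ ε * 2 ^ g
  tg : 2 * (h : ℝ) ^ 2 * 2 ^ t ≤ 2 ^ g
  sep : D + 4 * g + 1 ≤ 3 * E
  tT : 24 * (h : ℝ) ^ 2 * 2 ^ t ≤ 2 ^ Λ
  lg : 3 * (1 + (Λ : ℝ) + K * E) ≤ 2 ^ g

/-- The scale of `y` in the swapped block. -/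
noncomputable def Ys (ε : ℝ) (g D n h : ℕ) (T : ℝ) : ℝ := ε / (2 ^ g * T * Xs ε g n h T * 2 ^ D)

/-- The level of the cells in `α` for the swapped block. -/
def Ms (g D n Λ E k : ℕ) : ℕ := 3 * (Λ + k * E) - (3 * g + D + n)

-- deps:
def S_N0P : Prop := ∀ (h g D t Λ E K n k : ℕ) (ε : ℝ), Win h g D t Λ E K ε → k < K →
  Act ε g D n h (Tk Λ E k) →
  Ys ε g D n h (Tk Λ E k) * (1 / 2 ^ Ms g D n Λ E k) * Tk Λ E k ^ 2 = h * 2 ^ g ∧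
  3 * ε * 2 ^ t / (Tk Λ E k ^ 2 * Ys ε g D n h (Tk Λ E k)) ≤ 1 / 2 ^ Ms g D n Λ E k / (2 * h) ∧
  1 / 2 ^ Ms g D n Λ E (k + 1) ≤
    3 * ε / (h * Tk Λ E k ^ 2 * Ys ε g D n h (Tk Λ E k) * 2 ^ (D + g + 1)) ∧
  (Ys ε g D n h (Tk Λ E k) * 2 ^ (D + g + 1) + Tk Λ E k * (1 / 2 ^ Ms g D n Λ E k)) *
    (1 + (Λ + K * E)) ≤ 1 ∧
  (Xs ε g n h (Tk Λ E k) * 2 ^ (D + g) + Tk Λ E k * (1 / 2 ^ n)) * (1 + (Λ + K * E)) ≤ 1 ∧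
  Real.log (Tk Λ E k) ≤ Λ + K * E ∧ 24 * (h : ℝ) ^ 2 * 2 ^ t ≤ Tk Λ E k

-- deps: N0P LB GB BIN FUB MEAS
def S_N0B : Prop := ∀ (h g D t Λ E K n n₀ : ℕ) (ε : ℝ), Win h g D t Λ E K ε →
  μ2.real {z | n₀ ≤ {k | k < K ∧ Act ε g D n h (Tk Λ E k) ∧
      Hit z.1 z.2 (Tk Λ E k) (3 * ε) t (Ys ε g D n h (Tk Λ E k)) 0 (D + g + 1)}.ncard} ≤
    3 * (K * (20 * ε * (D + g + 1))) ^ n₀ +
      K * (21000 * (h : ℝ) ^ 9 * (D + g + 1) * t * 4 ^ t / 2 ^ g)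

-- deps: N0A N0B FB
def S_N0 : Prop := ∀ (h g D t Λ E K n n₀ : ℕ) (ε : ℝ), Win h g D t Λ E K ε →
  μ2.real {z | n₀ ≤ {k | k < K ∧ Act ε g D n h (Tk Λ E k) ∧
      z.2 ∈ HitP (n + (D + g)) z.1 (Tk Λ E k) ε t (Xs ε g n h (Tk Λ E k)) 0 D}.ncard} ≤
    3 * (K * (20 * ε * (D + g + 1))) ^ n₀ +
      K * (21000 * (h : ℝ) ^ 9 * (D + g + 1) * t * 4 ^ t / 2 ^ g + 4 / 2 ^ g)

-- deps:
def S_ACT : Prop := ∀ (h g D t Λ E K k : ℕ) (ε : ℝ), Win h g D t Λ E K ε → k < K →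
  ∃ act : Finset ℕ, (∀ i, i ∈ act ↔ Act ε g D (i * (D + g)) h (Tk Λ E k)) ∧
    act.card ≤ (Λ + K * E) / (D + g) ∧ ∀ i ∈ act, i + 2 ≤ 2 * (Λ + K * E) + 2

/-- The exceptional solutions. -/
def Exc (α β T ε : ℝ) (t D g : ℕ) : Prop :=
  Rare α β (T / 2 ^ t) (ε / T) (1 / 2) ∨ Rare α β T (ε / T) (2 ^ (3 * g) * 2 ^ (D + g) / T) ∨
    Rare β α T (ε / T) (2 ^ (3 * g) * 2 ^ (D + g) / T)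

-- deps: LM LB COV ACT
def S_LWD : Prop := ∀ (h g D t Λ E K n₀ : ℕ) (ε Wm α : ℝ) (Bad : Set ℝ),
  Win h g D t Λ E K ε → pu h ε D ≤ 1 / 2 → 1 ≤ Wm * (1 - pu h ε D) ^ ((Λ + K * E) / (D + g)) →
  MeasurableSet Bad → (∀ k, MeasurableSet {β | Exc α β (Tk Λ E k) ε t D g}) →
  (∀ β ∈ Ico (0 : ℝ) 1, β ∉ Bad → ∀ i, (∀ k < K, Act ε g D (i * (D + g)) h (Tk Λ E k) →
      Good α β h (Tk Λ E k) (Xs ε g (i * (D + g)) h (Tk Λ E k)) (1 / 2 ^ (i * (D + g)))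
        (D + g) t) ∧
    {k | k < K ∧ Act ε g D (i * (D + g)) h (Tk Λ E k) ∧
      β ∈ HitP (i * (D + g) + (D + g)) α (Tk Λ E k) ε t
        (Xs ε g (i * (D + g)) h (Tk Λ E k)) 0 D}.ncard ≤ n₀) →
  μ1.real {β | ∀ k < K, Solv α β ε (Tk Λ E k)} ≤
    (16 * Wm * n₀ * ((Λ + K * E) / (D + g) : ℕ) * pu h ε D / K +
      8 * ((Λ + K * E) / (D + g) : ℕ) * pu h ε g) +
    2 * Wm / K * ∑ k ∈ Finset.range K, μ1.real {β | Exc α β (Tk Λ E k) ε t D g} +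
    (1 + 16 * (2 * (Λ + K * E) + 2) * Wm ^ 2) * μ1.real Bad

-- deps: FM
def S_EXC : Prop := ∀ (h g D t Λ E K k : ℕ) (ε : ℝ), Win h g D t Λ E K ε → k < K →
  μ2.real {z | Exc z.1 z.2 (Tk Λ E k) ε t D g} ≤
    ε * ((2 + 8 * (Λ + K * E + g)) / 2 ^ t + 2 * (2 + 8 * (D + 5 * g)))

-- deps: N0 N0P GB ACT
def S_BAD : Prop := ∀ (h g D t Λ E K n₀ : ℕ) (ε : ℝ), Win h g D t Λ E K ε →
  μ2.real {z | ¬ ∀ i, (∀ k < K, Act ε g D (i * (D + g)) h (Tk Λ E k) →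
      Good z.1 z.2 h (Tk Λ E k) (Xs ε g (i * (D + g)) h (Tk Λ E k)) (1 / 2 ^ (i * (D + g)))
        (D + g) t) ∧
    {k | k < K ∧ Act ε g D (i * (D + g)) h (Tk Λ E k) ∧
      z.2 ∈ HitP (i * (D + g) + (D + g)) z.1 (Tk Λ E k) ε t
        (Xs ε g (i * (D + g)) h (Tk Λ E k)) 0 D}.ncard ≤ n₀} ≤
    (2 * (Λ + K * E) + 2) * (3 * (K * (20 * ε * (D + g + 1))) ^ (n₀ + 1) +
      K * (50000 * (h : ℝ) ^ 10 * (D + g + 1) * (t + 1) * 4 ^ t / (ε * 2 ^ g)))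

-- deps: LWD EXC BAD FUB MEAS
def S_LW : Prop := ∀ (h g D t Λ E K n₀ : ℕ) (ε Wm : ℝ), Win h g D t Λ E K ε →
  pu h ε D ≤ 1 / 2 → 1 ≤ Wm * (1 - pu h ε D) ^ ((Λ + K * E) / (D + g)) →
  μ2.real {z | ∀ k < K, Solv z.1 z.2 ε (Tk Λ E k)} ≤
    (16 * Wm * n₀ * ((Λ + K * E) / (D + g) : ℕ) * pu h ε D / K +
      8 * ((Λ + K * E) / (D + g) : ℕ) * pu h ε g) +
    2 * Wm * (ε * ((2 + 8 * (Λ + K * E + g)) / 2 ^ t + 2 * (2 + 8 * (D + 5 * g)))) +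
    (1 + 16 * (2 * (Λ + K * E) + 2) * Wm ^ 2) *
      ((2 * (Λ + K * E) + 2) * (3 * (K * (20 * ε * (D + g + 1))) ^ (n₀ + 1) +
        K * (50000 * (h : ℝ) ^ 10 * (D + g + 1) * (t + 1) * 4 ^ t / (ε * 2 ^ g))))

/-- The hypotheses on the polynomial parameters. -/
structure Pol (h J z t g : ℕ) (ε y Wm : ℝ) : Prop where
  h20 : 20 ≤ h
  J5 : 5 ≤ J
  y1 : 1 ≤ y
  yz : (60 * y) ^ 2 ≤ z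
  hz : h ≤ z
  t1 : (z ^ J) ^ 2 ≤ 2 ^ t
  t2 : 2 ^ t ≤ 2 * (z ^ J) ^ 2
  g1 : (z ^ J) ^ 20 ≤ 2 ^ g
  g2 : (g : ℝ) ≤ y
  e1 : 1 ≤ ε * z ^ J
  e2 : ε * z ^ J ≤ y
  W0 : 0 ≤ Wm
  W1 : Wm ≤ 2 * z ^ (J - 4)
  tT : 48 * h ^ 2 * (z ^ J) ^ 2 ≤ 2 ^ z ^ J

-- deps:
def S_LP1 : Prop := ∀ (h J z t g : ℕ) (ε y Wm : ℝ), Pol h J z t g ε y Wm →
  Win h g (z ^ 2) t (z ^ J) (z ^ 3) (z ^ (J - 3) / h) ε ∧ pu h ε (z ^ 2) ≤ 1 / 2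

-- deps:
def S_LP2 : Prop := ∀ (h J z t g K m₀ : ℕ) (ε y Wm : ℝ), Pol h J z t g ε y Wm →
  K = z ^ (J - 3) / h → m₀ = (z ^ J + K * z ^ 3) / (z ^ 2 + g) →
  (16 * Wm * (10 * J : ℕ) * m₀ * pu h ε (z ^ 2) / K + 8 * m₀ * pu h ε g) +
    2 * Wm * (ε * ((2 + 8 * ((z : ℝ) ^ J + K * z ^ 3 + g)) / 2 ^ t +
      2 * (2 + 8 * ((z : ℝ) ^ 2 + 5 * g)))) ≤ 8000 * h * J * y / z

-- deps:
def S_LP3 : Prop := ∀ (h J z t g K : ℕ) (ε y Wm : ℝ), Pol h J z t g ε y Wm →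
  K = z ^ (J - 3) / h →
  (1 + 16 * (2 * ((z : ℝ) ^ J + K * z ^ 3) + 2) * Wm ^ 2) *
      ((2 * ((z : ℝ) ^ J + K * z ^ 3) + 2) *
        (3 * (K * (20 * ε * ((z : ℝ) ^ 2 + g + 1))) ^ (10 * J + 1) +
        K * (50000 * (h : ℝ) ^ 10 * ((z : ℝ) ^ 2 + g + 1) * (t + 1) * 4 ^ t / (ε * 2 ^ g)))) ≤
    10 ^ 10 * h ^ 10 / z

-- deps: LW LP1 LP2 LP3
def S_LW2 : Prop := ∀ (h J z t g : ℕ) (ε y Wm : ℝ), Pol h J z t g ε y Wm →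
  1 ≤ Wm * (1 - pu h ε (z ^ 2)) ^ ((z ^ J + z ^ (J - 3) / h * z ^ 3) / (z ^ 2 + g)) →
  μ2.real {w | ∀ k < z ^ (J - 3) / h, Solv w.1 w.2 ε (Tk (z ^ J) (z ^ 3) k)} ≤
    2 * 10 ^ 10 * h ^ 10 * J * y / z

-- deps:
def S_LA1 : Prop := ∀ (h J z g : ℕ) (c γ ε : ℝ), 20 ≤ h → 5 ≤ J → 2 ≤ z → 0 < c → 4 ≤ γ * J →
  γ ≤ 1 → (1 + 12 / h) * (1 + 1 / h) ^ 2 * (4 * c0 * c) ≤ 1 - γ →
  ε = c * Real.log (2 * z ^ J) / (z ^ J * Real.log 2) → pu h ε (z ^ 2) ≤ 1 / (h + 1) →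
  1 ≤ 2 * (z : ℝ) ^ (J - 4) *
    (1 - pu h ε (z ^ 2)) ^ ((z ^ J + z ^ (J - 3) / h * z ^ 3) / (z ^ 2 + g)) ∧
  ∀ k < z ^ (J - 3) / h, eps c (Tk (z ^ J) (z ^ 3) k) ≤ ε

-- deps:
def S_LA2 : Prop := ∀ (h J : ℕ) (c δ : ℝ) (z₀ : ℕ), 20 ≤ h → 5 ≤ J → 0 < c → c ≤ 1 → 0 < δ →
  ∃ (z t g : ℕ) (y : ℝ), z₀ ≤ z ∧
    Pol h J z t g (c * Real.log (2 * z ^ J) / (z ^ J * Real.log 2)) y (2 * z ^ (J - 4)) ∧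
    pu h (c * Real.log (2 * z ^ J) / (z ^ J * Real.log 2)) (z ^ 2) ≤ 1 / (h + 1) ∧
    2 * 10 ^ 10 * h ^ 10 * J * y / z ≤ δ

-- deps: LW2 LA1 LA2
def S_LA : Prop := ∀ c T₀ : ℝ, 0 < c → c < Z3 / 4 →
  μ2 {z | ∀ T, T₀ ≤ T → Solv z.1 z.2 (eps c T) T} = 0

-- deps: LA
def S_LFIN : Prop := ∀ᵐ z ∂μ2, ∀ c : ℝ, c < Z3 / 4 →
  ¬ BddAbove {T : ℝ | 0 < T ∧ ¬ Solv z.1 z.2 (eps c T) T}

-- deps: UBC LFIN TR ZT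
def S_FINAL : Prop := ∀ᵐ z : ℝ × ℝ, ∀ c : ℝ,
  ((riemannZeta 3).re / 4 < c → ∃ T₀ : ℝ, ∀ T, T₀ ≤ T →
    Solv z.1 z.2 (c * Real.log (Real.log T) / Real.log T) T) ∧
  (c < (riemannZeta 3).re / 4 → ¬ BddAbove {T : ℝ | 0 < T ∧
    ¬ Solv z.1 z.2 (c * Real.log (Real.log T) / Real.log T) T})

end Pool.Agent.P.MP_e45b92_nt.UG
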