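import Pool.Agent.P.MP_e45b92_nt.UG.IfaceA

/-! Step GB1. -/

set_option autoImplicit false

namespace Pool.Agent.P.MP_e45b92_nt.UG

open MeasureTheory Set

namespace GB1x

theorem gap {H κ Q₀ Q₁ : ℝ} (hH : 20 ≤ H) (h1 : 0.69 ≤ H * (κ - 1)) (_h2 : κ ≤ 1.05) (h3 : 1 < κ)
    (hQ : Q₁ = κ * Q₀) : Q₁ ^ 2 ≤ H * (Q₁ ^ 2 - Q₀ ^ 2) := by
  have e : H * (Q₁ ^ 2 - Q₀ ^ 2) = (H * (κ - 1)) * (κ + 1) * Q₀ ^ 2 := by rw [hQ]; ring
  have h4 : κ ^ 2 ≤ (H * (κ - 1)) * (κ + 1) := by nlinarith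
  rw [e, hQ, mul_pow]
  exact mul_le_mul_of_nonneg_right h4 (sq_nonneg _)

theorem fin {H P u r D : ℝ} (hH : 0 < H) (hP : 0 < P) (hu : P ≤ 8 * H ^ 2 * u)
    (hr : r ≤ 2) (hD : 0 < D) {w : ℝ} (hw : 0 < w) (hDP : D ≤ 2 * H ^ 2 * w * P) :
    9 * P * (1 + r) / u ^ 2 ≤ 3456 * H ^ 6 * w / D := by
  have hu0 : 0 < u := by
    by_contra hc
    push Not at hc
    nlinarith [sq_pos_of_pos hH]
  rw [div_le_div_iff₀ (by positivity) hD]
  have h1 : P ^ 2 ≤ (8 * H ^ 2 * u) ^ 2 := pow_le_pow_left₀ hP.le hu 2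
  calc 9 * P * (1 + r) * D ≤ 9 * P * 3 * (2 * H ^ 2 * w * P) := by
        refine mul_le_mul (mul_le_mul_of_nonneg_left (by linarith) (by positivity)) hDP hD.le
          (by positivity)
    _ = 54 * H ^ 2 * w * P ^ 2 := by ring
    _ ≤ 54 * H ^ 2 * w * (8 * H ^ 2 * u) ^ 2 := mul_le_mul_of_nonneg_left h1 (by positivity)
    _ = 3456 * H ^ 6 * w * u ^ 2 := by ring

end GB1x

theorem p_GB1 (hPC : S_PC) : S_GB1 := by
  intro h S t a b σ k T X ℓ Λ hh hX hℓ hΛ hT h24 hsm ha hb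
  have hh0 : 0 < h := by omega
  have hH : (20 : ℝ) ≤ h := by exact_mod_cast hh
  have hHp : (0 : ℝ) < h := by linarith
  have hκ1 := one_lt_kap hh0
  have hκ0 : 0 < kap h := by linarith
  have hκl : 0.69 ≤ h * (kap h - 1) := le_trans log_two_bounds.1.le (kap_lower hh0)
  have hκu : kap h ≤ 1.05 := by
    have := kap_le hh0
    have h2 : 1 / (h : ℝ) ≤ 1 / 20 := one_div_le_one_div_of_le (by norm_num) hH
    linarith
  have h2t : (0 : ℝ) < 2 ^ t := by positivity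
  have hT0 : 0 < T := lt_of_lt_of_le (by positivity) h24
  have hb1 : kap h ^ (b + 1) ≤ 2 ^ t := by
    rw [← kap_pow_mul hh0]; exact pow_le_pow_right₀ hκ1.le hb
  have ha1 : kap h ^ (a + 1) ≤ 2 ^ S := by
    rw [← kap_pow_mul hh0]; exact pow_le_pow_right₀ hκ1.le ha
  have hb0 : 1 ≤ kap h ^ b := one_le_pow₀ hκ1.le
  have ha0 : 1 ≤ kap h ^ a := one_le_pow₀ hκ1.le
  set Q₀ := T / kap h ^ (b + 1) with hQ₀
  set Q₁ := T / kap h ^ b with hQ₁
  set X' := X * kap h ^ a * (kap h - 1) with hX'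
  set ω := ℓ / h with hω
  have hQ : Q₁ = kap h * Q₀ := by rw [hQ₀, hQ₁, pow_succ]; field_simp
  have hQl : T / 2 ^ t ≤ Q₀ := div_le_div_of_nonneg_left hT0.le (by positivity) hb1
  have hQ24 : 24 * (h : ℝ) ^ 2 ≤ Q₀ := le_trans ((le_div_iff₀ h2t).2 h24) hQl
  have hQ1 : 1 ≤ Q₀ := by nlinarith
  have hQ01 : Q₀ ≤ Q₁ := by rw [hQ]; nlinarith
  have hQT : Q₁ ≤ T := div_le_self hT0.le hb0
  have hQp : 0 < Q₁ := by linarith
  have hX'0 : 0 < X' := mul_pos (by positivity) (by linarith)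
  have hω0 : 0 < ω := by positivity
  have hX'u : X' ≤ X * 2 ^ S := by
    have : kap h ^ a * (kap h - 1) ≤ kap h ^ (a + 1) := by rw [pow_succ]; nlinarith
    rw [hX', mul_assoc]
    exact mul_le_mul_of_nonneg_left (this.trans ha1) hX.le
  have hX'l : X ≤ 2 * h * X' := by
    have h1 : X * (kap h - 1) ≤ X' := by
      rw [hX']
      exact mul_le_mul_of_nonneg_right (le_mul_of_one_le_right hX.le ha0) (by linarith)
    have h2 : X * 0.69 ≤ X * (h * (kap h - 1)) := mul_le_mul_of_nonneg_left hκl hX.le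
    nlinarith
  have hωu : ω ≤ ℓ := div_le_self hℓ.le (by linarith)
  have hωe : ℓ = h * ω := by rw [hω]; field_simp
  have hG : gmean h T X ℓ a b = c0 * X' * ω * ((Q₁ ^ 2 - Q₀ ^ 2) / 2) := rfl
  have hgap := GB1x.gap hH hκl hκu hκ1 hQ
  set G := gmean h T X ℓ a b with hGd
  have hP0 : 0 < X' * ω * Q₁ ^ 2 := by positivity
  have hGl : X' * ω * Q₁ ^ 2 ≤ 4 * h * G := by
    have h1 : X' * ω * Q₁ ^ 2 ≤ X' * ω * (h * (Q₁ ^ 2 - Q₀ ^ 2)) :=
      mul_le_mul_of_nonneg_left hgap (by positivity)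
    have h2 : 0 ≤ X' * ω * (h * (Q₁ ^ 2 - Q₀ ^ 2)) := hP0.le.trans h1
    have h3 : 4 * h * G = (2 * c0) * (X' * ω * (h * (Q₁ ^ 2 - Q₀ ^ 2))) := by rw [hG]; ring
    rw [h3]
    exact h1.trans (le_mul_of_one_le_left h2 (by linarith [c0_bounds.1]))
  have hu8 : X' * ω * Q₁ ^ 2 ≤ 8 * (h : ℝ) ^ 2 * (G / (2 * h)) := by
    have : 8 * (h : ℝ) ^ 2 * (G / (2 * h)) = 4 * h * G := by field_simp; ring
    rw [this]; exact hGl
  have hu0 : 0 < G / (2 * h) := by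
    exact (pos_iff_pos_of_mul_pos (hP0.trans_le hu8)).1 (by positivity)
  have hu3 : 3 * X' * ω * Q₁ ≤ G / (2 * h) := by
    have h1 : 8 * (h : ℝ) ^ 2 * (3 * X' * ω * Q₁) ≤ X' * ω * Q₁ ^ 2 := by
      have h2 : X' * ω * Q₁ * (24 * (h : ℝ) ^ 2) ≤ X' * ω * Q₁ * Q₁ :=
        mul_le_mul_of_nonneg_left (hQ24.trans hQ01) (by positivity)
      calc _ = X' * ω * Q₁ * (24 * (h : ℝ) ^ 2) := by ring
        _ ≤ _ := h2
        _ = _ := by ring
    exact le_of_mul_le_mul_left (h1.trans hu8) (by positivity)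
  have hsm' : (X' + Q₁ * ω) * (1 + Λ) ≤ 1 := by
    refine le_trans (mul_le_mul_of_nonneg_right ?_ (by linarith)) hsm
    have : Q₁ * ω ≤ T * ℓ := mul_le_mul hQT hωu hω0.le hT0.le
    linarith
  have key := hPC Q₀ Q₁ (if σ then X * kap h ^ a else -(X * kap h ^ (a + 1))) X' (k * ω) ω Λ
    (G / (2 * h)) hQ1 hQ01 hX'0.le hω0.le hΛ ((Real.log_le_log hQp hQT).trans hT) hsm' hu0
  refine le_trans (measureReal_mono ?_) (key.trans ?_)
  · intro z hz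
    simp only [mem_ofPred_eq] at hz ⊢
    rw [← hG]
    have e : G / h = G / (2 * h) + G / (2 * h) := by field_simp; ring
    have hz' : G / h < |((pbox z.1 z.2 Q₀ Q₁ (if σ then X * kap h ^ a else -(X * kap h ^ (a + 1)))
      X' (k * ω) ω).card : ℝ) - G| := hz
    linarith
  · have e : 9 * X' * ω * Q₁ ^ 2 = 9 * (X' * ω * Q₁ ^ 2) := by ring
    rw [e]
    refine GB1x.fin hHp hP0 hu8 ?_ (by positivity) (by positivity) ?_
    · rw [div_le_iff₀ (by linarith), hQ]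
      exact mul_le_mul_of_nonneg_right (by linarith) (by linarith)
    · have h1 : T ≤ 2 ^ t * Q₁ := by
        have := (div_le_iff₀ h2t).1 (hQl.trans hQ01); linarith
      have h2 : T ^ 2 ≤ 4 ^ t * Q₁ ^ 2 := by
        have := pow_le_pow_left₀ hT0.le h1 2
        rwa [mul_pow, ← pow_mul, mul_comm t 2, pow_mul, show (2 : ℝ) ^ 2 = 4 by norm_num] at this
      calc X * ℓ * T ^ 2 ≤ (2 * h * X') * (h * ω) * (4 ^ t * Q₁ ^ 2) :=
            mul_le_mul (mul_le_mul hX'l hωe.le hℓ.le (by positivity)) h2 (by positivity)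
              (by positivity)
        _ = 2 * (h : ℝ) ^ 2 * 4 ^ t * (X' * ω * Q₁ ^ 2) := by ring

end Pool.Agent.P.MP_e45b92_nt.UG
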