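import Pool.Agent.P.MP_e45b92_nt.UG.IfaceC

/-! Step LA1. -/

set_option autoImplicit false

namespace Pool.Agent.P.MP_e45b92_nt.UG

open MeasureTheory Set

namespace LA1x

theorem exp_le {p H : ℝ} (hH : 0 < H) (h0 : 0 ≤ p) (h1 : p ≤ 1 / (H + 1)) :
    Real.exp (-(p * (1 + 1 / H))) ≤ 1 - p := by
  have h2 : p * (H + 1) ≤ 1 := (le_div_iff₀ (by linarith)).1 h1
  have h3 : 0 < 1 - p := by nlinarith
  rw [Real.exp_neg, inv_le_comm₀ (Real.exp_pos _) h3]
  refine le_trans ?_ (Real.add_one_le_exp _)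
  rw [inv_le_iff_one_le_mul₀ h3]
  have h4 : (p * (1 + 1 / H) + 1) * (1 - p) = 1 + p * (1 - p * (H + 1)) / H := by
    field_simp
    ring
  rw [h4]
  have : 0 ≤ p * (1 - p * (H + 1)) / H := div_nonneg (mul_nonneg h0 (by linarith)) hH.le
  linarith

theorem div_le {h J z : ℕ} (hJ : 5 ≤ J) : z ^ (J - 3) / h * z ^ 3 * h ≤ z ^ J := by
  have e : z ^ J = z ^ (J - 3) * z ^ 3 := by
    rw [← pow_add]
    congr 1
    omega
  rw [e, mul_right_comm]
  exact Nat.mul_le_mul_right _ (Nat.div_mul_le_self _ _)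

end LA1x

theorem p_LA1 : S_LA1 := by
  intro h J z g c γ ε hh hJ hz hc hγ hγ1 hc1 hε hp
  have hH : (20 : ℝ) ≤ h := by exact_mod_cast hh
  have hJ' : (5 : ℝ) ≤ J := by exact_mod_cast hJ
  have hZ : (2 : ℝ) ≤ z := by exact_mod_cast hz
  have hΛ1 : (1 : ℝ) ≤ (z : ℝ) ^ J := one_le_pow₀ (by linarith)
  have hl2 : 0 < Real.log 2 := Real.log_pos (by norm_num)
  have hl21 : Real.log 2 ≤ 1 := by
    have := Real.log_le_sub_one_of_pos (show (0 : ℝ) < 2 by norm_num)
    linarith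
  have hlz : 0 ≤ Real.log z := Real.log_nonneg (by linarith)
  have hL : 0 ≤ Real.log (2 * (z : ℝ) ^ J) := Real.log_nonneg (by linarith)
  have hc0 : 0 ≤ c0 := by linarith [c0_bounds.1]
  have hd := LA1x.div_le (h := h) (z := z) hJ
  constructor
  · set m : ℕ := (z ^ J + z ^ (J - 3) / h * z ^ 3) / (z ^ 2 + g) with hm
    set p : ℝ := pu h ε (z ^ 2) with hpd
    have hpe : p = (1 + 12 / h) * (4 * c0 * c) * Real.log (2 * z ^ J) * (z ^ 2 / z ^ J) := by
      rw [hpd, pu, hε]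
      push_cast
      field_simp
    have hp0 : 0 ≤ p := by
      rw [hpe]
      positivity
    have hm1 : m * z ^ 2 ≤ z ^ J + z ^ (J - 3) / h * z ^ 3 :=
      (Nat.mul_le_mul_left _ (Nat.le_add_right _ g)).trans (Nat.div_mul_le_self _ _)
    have hm2 : m * z ^ 2 * h ≤ z ^ J * (h + 1) := by
      calc m * z ^ 2 * h ≤ (z ^ J + z ^ (J - 3) / h * z ^ 3) * h := Nat.mul_le_mul_right _ hm1
        _ = z ^ J * h + z ^ (J - 3) / h * z ^ 3 * h := by ring
        _ ≤ z ^ J * h + z ^ J := Nat.add_le_add_left hd _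
        _ = z ^ J * (h + 1) := by ring
    have hm3 : (m : ℝ) * (z ^ 2 / z ^ J) ≤ 1 + 1 / h := by
      have : (m : ℝ) * z ^ 2 * h ≤ z ^ J * (h + 1) := by exact_mod_cast hm2
      rw [← mul_div_assoc, div_le_iff₀ (by linarith)]
      have e : (1 + 1 / (h : ℝ)) * z ^ J = z ^ J * (h + 1) / h := by field_simp
      rw [e, le_div_iff₀ (by linarith)]
      exact this
    have h4 : (m : ℝ) * (p * (1 + 1 / h)) ≤ (1 - γ) * Real.log (2 * z ^ J) := by
      calc (m : ℝ) * (p * (1 + 1 / h))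
          = (1 + 12 / h) * (1 + 1 / h) * (4 * c0 * c) * Real.log (2 * z ^ J) *
              (m * (z ^ 2 / z ^ J)) := by rw [hpe]; ring
        _ ≤ (1 + 12 / h) * (1 + 1 / h) * (4 * c0 * c) * Real.log (2 * z ^ J) * (1 + 1 / h) := by
            gcongr
        _ = (1 + 12 / h) * (1 + 1 / h) ^ 2 * (4 * c0 * c) * Real.log (2 * z ^ J) := by ring
        _ ≤ _ := by gcongr
    have hγ0 : 0 ≤ γ := by
      by_contra hn
      push Not at hn
      nlinarith
    have h5 : (1 - γ) * Real.log (2 * z ^ J) ≤ Real.log (2 * z ^ (J - 4)) := by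
      rw [Real.log_mul (by norm_num) (by positivity), Real.log_mul (by norm_num) (by positivity),
        Real.log_pow, Real.log_pow, Nat.cast_sub (by omega)]
      push_cast
      nlinarith [mul_nonneg hγ0 hl2.le, mul_le_mul_of_nonneg_right hγ hlz]
    have h6 : Real.exp (-(p * (1 + 1 / h))) ^ m ≤ (1 - p) ^ m :=
      pow_le_pow_left₀ (Real.exp_pos _).le (LA1x.exp_le (by linarith) hp0 hp) m
    have h7 : (0 : ℝ) < 2 * z ^ (J - 4) := by positivity
    calc (1 : ℝ) = Real.exp 0 := Real.exp_zero.symm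
      _ ≤ Real.exp (Real.log (2 * z ^ (J - 4)) + m * -(p * (1 + 1 / h))) :=
          Real.exp_le_exp.2 (by linarith)
      _ = 2 * z ^ (J - 4) * Real.exp (-(p * (1 + 1 / h))) ^ m := by
          rw [Real.exp_add, Real.exp_log h7, Real.exp_nat_mul]
      _ ≤ _ := by gcongr
  · intro k hk
    have h1 : k * z ^ 3 ≤ z ^ J := by
      calc k * z ^ 3 ≤ z ^ (J - 3) / h * z ^ 3 := Nat.mul_le_mul_right _ hk.le
        _ ≤ z ^ (J - 3) / h * z ^ 3 * h := Nat.le_mul_of_pos_right _ (by omega)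
        _ ≤ _ := hd
    have h2 : (k : ℝ) * z ^ 3 ≤ z ^ J := by exact_mod_cast h1
    have h3 : (0 : ℝ) ≤ (k : ℝ) * z ^ 3 := by positivity
    rw [eps, Tk, Real.log_pow, hε]
    push_cast
    have h4 : Real.log (((z : ℝ) ^ J + k * z ^ 3) * Real.log 2) ≤ Real.log (2 * z ^ J) :=
      Real.log_le_log (by positivity) (by nlinarith)
    calc c * Real.log (((z : ℝ) ^ J + k * z ^ 3) * Real.log 2) / ((z ^ J + k * z ^ 3) * Real.log 2)
        ≤ c * Real.log (2 * z ^ J) / ((z ^ J + k * z ^ 3) * Real.log 2) := by gcongr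
      _ ≤ _ := by
        gcongr
        linarith

end Pool.Agent.P.MP_e45b92_nt.UG
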