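import Pool.Agent.P.MP_e45b92_nt.UG.IfaceA

/-! Step LMV. -/

set_option autoImplicit false

namespace Pool.Agent.P.MP_e45b92_nt.UG

open MeasureTheory Set

namespace LMVx

theorem point (A : ℕ → Set ℝ) (W : ℕ → ℝ) (Bad : Set ℝ) (K n₀ k : ℕ) (Wm β : ℝ) (hk : k < K)
    (h0 : ∀ k < K, 0 ≤ W k) (h1 : ∀ k < K, W k ≤ Wm)
    (few : β ∉ Bad → {k | k < K ∧ β ∈ A k}.ncard ≤ n₀) :
    ∑ k' ∈ Finset.range K, W k * W k' * (A k ∩ A k').indicator 1 β ≤
      Wm * n₀ * (W k * (A k).indicator 1 β) + K * Wm ^ 2 * Bad.indicator 1 β := by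
  classical
  have hk0 := h0 k hk
  have hk1 := h1 k hk
  have hWm : 0 ≤ Wm := hk0.trans hk1
  have hi0 : ∀ (B : Set ℝ), (0 : ℝ) ≤ B.indicator 1 β := fun B =>
    indicator_nonneg (fun _ _ => zero_le_one) _
  have hi1 : ∀ (B : Set ℝ), B.indicator (1 : ℝ → ℝ) β ≤ 1 := fun B =>
    indicator_le_self' (fun _ _ => zero_le_one) β
  by_cases hB : β ∈ Bad
  · have e : Bad.indicator (1 : ℝ → ℝ) β = 1 := by rw [indicator_of_mem hB]; rfl
    have h2 : ∑ k' ∈ Finset.range K, W k * W k' * (A k ∩ A k').indicator 1 β ≤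
        ∑ _k' ∈ Finset.range K, Wm ^ 2 := by
      refine Finset.sum_le_sum fun k' hk' => ?_
      have a0 := h0 k' (Finset.mem_range.1 hk')
      have a1 := h1 k' (Finset.mem_range.1 hk')
      have a2 : W k * W k' ≤ Wm * Wm := mul_le_mul hk1 a1 a0 hWm
      have a3 := mul_le_of_le_one_right (mul_nonneg hk0 a0) (hi1 (A k ∩ A k'))
      nlinarith
    rw [Finset.sum_const, Finset.card_range, nsmul_eq_mul] at h2
    have h3 : 0 ≤ Wm * n₀ * (W k * (A k).indicator 1 β) :=
      mul_nonneg (by positivity) (mul_nonneg hk0 (hi0 _))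
    rw [e]; linarith
  · have e : Bad.indicator (1 : ℝ → ℝ) β = 0 := indicator_of_notMem hB _
    rw [e, mul_zero, add_zero]
    by_cases hA : β ∈ A k
    · have e1 : (A k).indicator (1 : ℝ → ℝ) β = 1 := by rw [indicator_of_mem hA]; rfl
      have h2 : ∑ k' ∈ Finset.range K, W k * W k' * (A k ∩ A k').indicator 1 β ≤
          ∑ k' ∈ Finset.range K, if β ∈ A k' then W k * Wm else 0 := by
        refine Finset.sum_le_sum fun k' hk' => ?_
        have a0 := h0 k' (Finset.mem_range.1 hk')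
        have a1 := h1 k' (Finset.mem_range.1 hk')
        split_ifs with h
        · exact (mul_le_of_le_one_right (mul_nonneg hk0 a0) (hi1 _)).trans
            (mul_le_mul_of_nonneg_left a1 hk0)
        · rw [indicator_of_notMem fun h' => h h'.2, mul_zero]
      rw [← Finset.sum_filter, Finset.sum_const, nsmul_eq_mul] at h2
      have h3 : ((Finset.range K).filter fun k' => β ∈ A k').card ≤ n₀ := by
        refine le_trans (le_of_eq ?_) (few hB)
        rw [← Set.ncard_coe_finset]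
        congr 1
        ext k'
        simp
      have h4 : (((Finset.range K).filter fun k' => β ∈ A k').card : ℝ) ≤ n₀ := by
        exact_mod_cast h3
      have h5 := mul_le_mul_of_nonneg_right h4 (mul_nonneg hk0 hWm)
      rw [e1]; linarith
    · rw [indicator_of_notMem hA, mul_zero, mul_zero]
      refine le_of_eq (Finset.sum_eq_zero fun k' _ => ?_)
      rw [indicator_of_notMem fun h' => hA h'.1, mul_zero]

theorem LS_inter {n : ℕ} {A B : Set ℝ} (hA : LS n A) (hB : LS n B) : LS n (A ∩ B) :=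
  fun β β' e h => ⟨hA β β' e h.1, hB β β' e h.2⟩

end LMVx

theorem p_LMV (hW2 : S_W2) (hW3 : S_W3) (hW4 : S_W4) : S_LMV := by
  classical
  intro n H Γ act Bad K m m₀ n₀ p p' Wm F hp
  have hp2 : ∀ k < K, ∀ i, ∀ β ∈ Ico (0 : ℝ) 1, Pr (n i) (H k i) β ≤ 1 / 2 :=
    fun k hk i β hβ => (hp k hk i β hβ).trans F.p1
  have hLC : ∀ k j, LC (n j) (Wt n (H k) j) := fun k j => LC_Wt F.mono fun i _ => F.lsH k i
  have h0 : ∀ i, ∀ β ∈ Ico (0 : ℝ) 1, ∀ k < K, 0 ≤ Wt n (H k) i β :=
    fun i β hβ k hk => Wt_nonneg fun j _ => hp2 k hk j β hβ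
  have h1 : ∀ i, ∀ β ∈ Ico (0 : ℝ) 1, ∀ k < K, Wt n (H k) i β ≤ Wm :=
    fun i β hβ k hk => hW4 n (H k) (act k) i m₀ p Wm β F.p0 F.p1 (F.card k hk) F.W
      (fun j hj => (F.off k hk j hj).1) fun j _ => hp k hk j β hβ
  have hWm : 0 ≤ Wm := (h0 0 0 (by simp) 0 F.K0).trans (h1 0 0 (by simp) 0 F.K0)
  have h3 := fun k (hk : k < K) => hW3 n (H k) m F.mono (fun i _ => F.lsH k i)
    fun i _ => hp2 k hk i
  have hI1 : ∀ k i, Integrable (fun β => Wt n (H k) i β * (H k i).indicator 1 β) μ1 :=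
    fun k i => (((hLC k i).mono (F.mono (Nat.le_succ i))).mul (F.lsH k i).indicator).integrable
  have hI2 : ∀ k k' i, Integrable
      (fun β => Wt n (H k) i β * Wt n (H k') i β * (H k i ∩ H k' i).indicator 1 β) μ1 :=
    fun k k' i => ((((hLC k i).mul (hLC k' i)).mono (F.mono (Nat.le_succ i))).mul
      (LMVx.LS_inter (F.lsH k i) (F.lsH k' i)).indicator).integrable
  have hI3 : Integrable (Bad.indicator (1 : ℝ → ℝ)) μ1 := (integrable_const 1).indicator F.bad
  have hA : ∀ k < K, ∀ i, ∑ k' ∈ Finset.range K,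
      ∫ β, Wt n (H k) i β * Wt n (H k') i β * (H k i ∩ H k' i).indicator 1 β ∂μ1 ≤
      Wm * n₀ * ∫ β, Wt n (H k) i β * (H k i).indicator 1 β ∂μ1 + K * Wm ^ 2 * μ1.real Bad := by
    intro k hk i
    rw [← integral_finsetSum _ fun k' _ => hI2 k k' i, ← integral_indicator_one F.bad,
      ← integral_const_mul, ← integral_const_mul,
      ← integral_add ((hI1 k i).const_mul _) (hI3.const_mul _)]
    refine integral_mono_ae (integrable_finsetSum _ fun k' _ => hI2 k k' i)
      (((hI1 k i).const_mul _).add (hI3.const_mul _)) ?_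
    refine (ae_restrict_iff' measurableSet_Ico).2 (Filter.Eventually.of_forall fun β hβ => ?_)
    exact LMVx.point (fun k => H k i) (fun k => Wt n (H k) i β) Bad K n₀ k Wm β hk (h0 i β hβ)
      (h1 i β hβ) fun hB => F.few β hβ hB i
  have hB : ∀ k < K, ∑ i ∈ Finset.range m,
      ∫ β, Wt n (H k) i β * (H k i).indicator 1 β ∂μ1 ≤ m₀ * p := by
    intro k hk
    have a : ∑ i ∈ Finset.range m, ∫ β, Wt n (H k) i β * (H k i).indicator 1 β ∂μ1 ≤
        ∑ i ∈ Finset.range m, if i ∈ act k then p else 0 := by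
      refine Finset.sum_le_sum fun i hi => ?_
      split_ifs with h
      · exact (h3 k hk).2.1 i (Finset.mem_range.1 hi).le _ _ p (F.lsH k i) (hp k hk i)
      · rw [(F.off k hk i h).1]; simp
    rw [← Finset.sum_filter, Finset.sum_const, nsmul_eq_mul] at a
    have b : ((Finset.range m).filter fun i => i ∈ act k).card ≤ m₀ :=
      (Finset.card_le_card fun i hi => (Finset.mem_filter.1 hi).2).trans (F.card k hk)
    have c : (((Finset.range m).filter fun i => i ∈ act k).card : ℝ) ≤ m₀ := by exact_mod_cast b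
    exact a.trans (mul_le_mul_of_nonneg_right c F.p0)
  have hI4 : ∀ k k', Integrable (fun β => Wt n (H k) m β * Wt n (H k') m β) μ1 :=
    fun k k' => ((hLC k m).mul (hLC k' m)).integrable
  have hC : ∀ k < K, ∑ k' ∈ Finset.range K, ∫ β, Wt n (H k) m β * Wt n (H k') m β ∂μ1 ≤
      K + 4 * (Wm * n₀ * (m₀ * p) + m * (K * Wm ^ 2 * μ1.real Bad)) := by
    intro k hk
    have a := Finset.sum_le_sum (s := Finset.range K) fun k' hk' =>
      hW2 n (H k) (H k') m F.mono (fun i _ => F.lsH k i) (fun i _ => F.lsH k' i)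
        (fun i _ => hp2 k hk i) fun i _ => hp2 k' (Finset.mem_range.1 hk') i
    rw [Finset.sum_add_distrib, Finset.sum_const, Finset.card_range, nsmul_eq_mul, mul_one,
      ← Finset.mul_sum, Finset.sum_comm] at a
    have b := Finset.sum_le_sum (s := Finset.range m) fun i _ => hA k hk i
    rw [Finset.sum_add_distrib, Finset.sum_const, Finset.card_range, nsmul_eq_mul,
      ← Finset.mul_sum] at b
    have c := mul_le_mul_of_nonneg_left (hB k hk) (show 0 ≤ Wm * n₀ by positivity)
    linarith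
  have hI5 : Integrable (fun β => ∑ k ∈ Finset.range K, Wt n (H k) m β) μ1 :=
    integrable_finsetSum _ fun k _ => (hLC k m).integrable
  have hI6 : Integrable (fun β => ∑ k ∈ Finset.range K, ∑ k' ∈ Finset.range K,
      Wt n (H k) m β * Wt n (H k') m β) μ1 :=
    integrable_finsetSum _ fun k _ => integrable_finsetSum _ fun k' _ => hI4 k k'
  have e1 : ∀ β, (∑ k ∈ Finset.range K, Wt n (H k) m β - K) ^ 2 =
      (∑ k ∈ Finset.range K, ∑ k' ∈ Finset.range K, Wt n (H k) m β * Wt n (H k') m β -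
        2 * K * ∑ k ∈ Finset.range K, Wt n (H k) m β) + (K : ℝ) ^ 2 := by
    intro β
    rw [← Finset.sum_mul_sum]; ring
  have e2 : ∫ β, ∑ k ∈ Finset.range K, Wt n (H k) m β ∂μ1 = K := by
    rw [integral_finsetSum _ fun k _ => (hLC k m).integrable,
      Finset.sum_congr rfl fun k hk => (h3 k (Finset.mem_range.1 hk)).1 m le_rfl]
    simp
  have e3 : ∫ β, ∑ k ∈ Finset.range K, ∑ k' ∈ Finset.range K,
      Wt n (H k) m β * Wt n (H k') m β ∂μ1 ≤
      K * (K + 4 * (Wm * n₀ * (m₀ * p) + m * (K * Wm ^ 2 * μ1.real Bad))) := by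
    rw [integral_finsetSum _ fun k _ => integrable_finsetSum _ fun k' _ => hI4 k k']
    have a := Finset.sum_le_sum (s := Finset.range K) fun k hk => hC k (Finset.mem_range.1 hk)
    rw [Finset.sum_const, Finset.card_range, nsmul_eq_mul] at a
    refine le_trans (le_of_eq (Finset.sum_congr rfl fun k _ => ?_)) a
    exact integral_finsetSum _ fun k' _ => hI4 k k'
  have hI7 : Integrable (fun β => ∑ k ∈ Finset.range K, ∑ k' ∈ Finset.range K,
      Wt n (H k) m β * Wt n (H k') m β - 2 * K * ∑ k ∈ Finset.range K, Wt n (H k) m β) μ1 :=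
    hI6.sub (hI5.const_mul _)
  simp only [e1]
  rw [integral_add hI7 (integrable_const _),
    integral_sub hI6 (hI5.const_mul _), integral_const_mul, e2]
  simp only [integral_const, probReal_univ, smul_eq_mul, one_mul]
  nlinarith

end Pool.Agent.P.MP_e45b92_nt.UG
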