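import Pool.Agent.P.MP_e45b92_nt.UG.IfaceC

/-! Step N0A. -/

set_option autoImplicit false

namespace Pool.Agent.P.MP_e45b92_nt.UG

open MeasureTheory Set

theorem p_N0A : S_N0A := by
  rintro α β T ε X h t D g n' h1 T0 e0 X0 hn ⟨β', hc, ⟨q, p, r⟩, hp, q0, qT, hin, hxy⟩
  have h1' : (1 : ℝ) ≤ h := by exact_mod_cast h1
  have q1 : (0 : ℝ) < q := lt_trans (by positivity) q0
  have D1 : X ≤ X * 2 ^ D := le_mul_of_one_le_right X0.le (one_le_pow₀ one_le_two)
  have hx : X ≤ |xc α (q, p, r)| ∧ |xc α (q, p, r)| ≤ X * 2 ^ D := by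
    rcases hin with ⟨a, b⟩ | ⟨a, b⟩
    · rw [abs_of_nonneg (by linarith)]
      constructor <;> linarith
    · rw [abs_of_nonpos (by linarith)]
      constructor <;> linarith
  have hy : |yc β (q, p, r)| ≤ |yc β' (q, p, r)| + ε / (T * (X * 2 ^ D)) := by
    have e : yc β (q, p, r) = yc β' (q, p, r) + q * (β - β') := by
      simp only [yc]
      ring
    rw [e]
    refine (abs_add_le _ _).trans (add_le_add_right ?_ _)
    rw [abs_mul, abs_of_pos q1]
    calc _ ≤ T * (ε / (h * T ^ 2 * X * 2 ^ D)) := by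
          gcongr
          exact (abs_sub_lt_of_cell hc.symm).le.trans hn
      _ ≤ T * (ε / (1 * T ^ 2 * X * 2 ^ D)) := by gcongr
      _ = _ := by field_simp
  have h2 : |xc α (q, p, r)| * |yc β (q, p, r)| < 2 * ε / T := by
    calc _ ≤ |xc α (q, p, r)| * |yc β' (q, p, r)| + |xc α (q, p, r)| * (ε / (T * (X * 2 ^ D))) := by
          rw [← mul_add]
          gcongr
      _ < ε / T + X * 2 ^ D * (ε / (T * (X * 2 ^ D))) :=
          add_lt_add_of_lt_of_le hxy (by gcongr; exact hx.2)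
      _ = _ := by field_simp; ring
  rcases le_or_gt |yc β (q, p, r)| (ε / (2 ^ g * T * X * 2 ^ D)) with a | a
  · exact Or.inl ⟨_, by exact_mod_cast q1, qT, hx.2, a⟩
  have b : |yc β (q, p, r)| < ε / (2 ^ g * T * X * 2 ^ D) * 2 ^ (D + g + 1) := by
    refine lt_of_mul_lt_mul_left ?_ X0.le
    calc _ ≤ |xc α (q, p, r)| * |yc β (q, p, r)| := by gcongr; exact hx.1
      _ < _ := h2
      _ = _ := by field_simp; ring
  refine Or.inr ⟨(q, r, p), ?_, q0, qT, ?_, ?_⟩
  · unfold Prim at hp ⊢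
    rwa [Int.gcd_comm r p]
  · change InR _ _ _ (yc β (q, p, r))
    unfold InR
    rcases abs_cases (yc β (q, p, r)) with ⟨e, -⟩ | ⟨e, -⟩ <;> rw [e] at a b
    · exact Or.inl ⟨by linarith, b⟩
    · exact Or.inr ⟨by linarith, by linarith⟩
  · change |yc β (q, p, r)| * |xc α (q, p, r)| < _
    rw [mul_comm]
    exact h2.trans (by gcongr; norm_num)

end Pool.Agent.P.MP_e45b92_nt.UG
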