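import Pool.Agent.P.MP_e45b92_nt.UG.IfaceA

/-! Step PROD. -/

set_option autoImplicit false

namespace Pool.Agent.P.MP_e45b92_nt.UG

open MeasureTheory Set

theorem p_PROD (hCORE : S_CORE) : S_PROD := by
  classical
  intro n H Bad p m hn h0 h1 hL h
  have cl : ∀ {k : ℕ} {β β' : ℝ}, cell k β = cell k β' → Cl k β = Cl k β' := fun e => by
    simp only [Cl, e]
  set Z : ℕ → ℝ → ℝ := fun i β => if Cl (n i) β ⊆ Bad then 0 else 1 - (H i).indicator 1 β with hZ
  have lc : ∀ i < m, LC (n (i + 1)) (Z i) := fun i hi β β' e => by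
    simp only [hZ, cl (cell_mono (hn (Nat.le_succ i)) e), (hL i hi).indicator β β' e]
  have z0 : ∀ i β, 0 ≤ Z i β := fun i β => by
    simp only [hZ, indicator]
    split_ifs <;> simp
  have key := hCORE n Z (1 - p) m hn (by linarith) lc (fun i _ => z0 i) fun i hi β hβ => by
    by_cases hb : Cl (n i) β ⊆ Bad
    · rw [setIntegral_eq_zero_of_forall_eq_zero fun x hx => by simp only [hZ, cl hx, hb, if_true]]
      exact div_nonneg (by linarith) (by positivity)
    · obtain ⟨x, hx, hx'⟩ := not_subset.1 hb
      have h2 := h i hi x (Cl_subset hβ hx) hx'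
      rw [LC_Pr _ _ x β hx] at h2
      rw [setIntegral_congr_fun (measurableSet_Cl _ _)
          (g := fun x => 1 - (H i).indicator (1 : ℝ → ℝ) x)
          fun x hx => by simp only [hZ, cl hx, hb, if_false],
        integral_sub (integrableOn_Cl hβ (integrable_const _))
          (integrableOn_Cl hβ (hL i hi).indicator.integrable),
        integral_indicator_Cl (hL i hi).measurableSet]
      simp only [integral_const, measureReal_restrict_apply_univ, volume_Cl, smul_eq_mul, mul_one]
      rw [← sub_div]
      gcongr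
  have lp : LC (n m) fun β => ∏ i ∈ Finset.range m, Z i β := fun β β' e =>
    Finset.prod_congr rfl fun i hi =>
      (lc i (Finset.mem_range.1 hi)).mono (hn (Finset.mem_range.1 hi)) β β' e
  have mk := markov (μ := μ1) (Filter.Eventually.of_forall fun β =>
    Finset.prod_nonneg fun i _ => z0 i β) lp.integrable one_pos
  have sub : {β | ∀ i < m, β ∉ H i} ⊆ {β | 1 ≤ ∏ i ∈ Finset.range m, Z i β} ∪ Bad := by
    intro β hβ
    by_cases hb : β ∈ Bad
    · exact Or.inr hb
    · left
      show 1 ≤ ∏ i ∈ Finset.range m, Z i β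
      refine le_of_eq (Finset.prod_eq_one fun i hi => ?_).symm
      have : ¬ Cl (n i) β ⊆ Bad := fun hc => hb (hc (mem_Cl _ _))
      simp [hZ, this, hβ i (Finset.mem_range.1 hi)]
  have := (measureReal_mono (μ := μ1) sub).trans (measureReal_union_le _ _)
  linarith

end Pool.Agent.P.MP_e45b92_nt.UG
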