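import Pool.Agent.P.MP_e45b92_nt.UG.IfaceB
import Pool.Agent.P.MP_e45b92_nt.UG.IfaceA

/-! Step UB. -/

set_option autoImplicit false

namespace Pool.Agent.P.MP_e45b92_nt.UG

open MeasureTheory Set

namespace UBx

theorem num (x y M E l S S1 S2 V : ℝ) (hx : 0 < x) (hx1 : x ≤ 1 / 20) (hy1 : y ≤ x)
    (hl : 0 < l) (hE0 : 0 ≤ E) (hE : E ≤ M) (h1 : (1 - 5 * x) * (1 - y) * (1 - 3 * x) * (M * l) ≤ S)
    (h2 : S1 + S2 = S) (h3 : S2 ≤ 2 * (E * l * x)) (h4 : (1 - 2 * x) * S1 ≤ V) :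
    (1 - 13 * x) * M * l ≤ V := by
  have hM : 0 ≤ M * l := mul_nonneg (hE0.trans hE) hl.le
  have a1 : 1 - 9 * x ≤ (1 - 5 * x) * (1 - y) * (1 - 3 * x) := by
    have b1 : 1 - 6 * x ≤ (1 - 5 * x) * (1 - y) := by nlinarith
    have b2 : (1 - 6 * x) * (1 - 3 * x) ≤ (1 - 5 * x) * (1 - y) * (1 - 3 * x) :=
      mul_le_mul_of_nonneg_right b1 (by linarith)
    nlinarith
  have a2 : (1 - 9 * x) * (M * l) ≤ S := (mul_le_mul_of_nonneg_right a1 hM).trans h1
  have a3 : E * l * x ≤ M * l * x := by gcongr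
  have a4 : (1 - 11 * x) * (M * l) ≤ S1 := by linarith
  have a5 : (1 - 2 * x) * ((1 - 11 * x) * (M * l)) ≤ V :=
    (mul_le_mul_of_nonneg_left a4 (by linarith)).trans h4
  nlinarith [mul_nonneg (mul_nonneg hx.le hx.le) hM]

theorem le_abs {X x : ℝ} {D : ℕ} (h : InR X 0 D x) : X ≤ |x| := by
  rcases h with h | h
  · have := le_abs_self x
    linarith [h.1]
  · have := neg_le_abs x
    linarith [h.2]

theorem le_M {ε D : ℝ} (hε : 0 ≤ ε) (hD : 0 ≤ D) : ε * D ≤ 4 * c0 * ε * Real.log 2 * D := by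
  have a : 1 ≤ 4 * c0 * Real.log 2 := by nlinarith [c0_bounds.1, log_two_bounds.1]
  nlinarith [mul_nonneg hε hD]

theorem pos {h w j u z : ℝ} (hw : 0 < w) (j1 : j * w ≤ u) (j2 : u < (j + 1) * w)
    (j3 : 0 ≤ j) (j4 : j < h) (b1 : (j - h + 2) * w ≤ z) (b2 : z < (j - 1) * w) :
    |z| ≤ h * w ∧ w ≤ u - z ∧ u - z + w ≤ h * w := by
  have := mul_nonneg j3 hw.le
  have := mul_lt_mul_of_pos_right j4 hw
  exact ⟨abs_le.2 ⟨by linarith, by linarith⟩, by linarith, by linarith⟩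

end UBx

theorem p_UB (hWSL : S_WSL) (hUB1 : S_UB1) (hUB2 : S_UB2) : S_UB := by
  classical
  intro α β T X ε A h D n n' hh hT hX hε hA h1 h2 h3 hG hF
  have hr : (20 : ℝ) ≤ h := by exact_mod_cast hh
  have h0 : (0 : ℝ) < h := by linarith
  have hn : (0 : ℝ) < 2 ^ n := by positivity
  obtain ⟨l, hl⟩ : ∃ l : ℝ, l = 1 / 2 ^ n := ⟨_, rfl⟩
  obtain ⟨c, hc⟩ : ∃ c : ℝ, c = (cell n β : ℝ) / 2 ^ n := ⟨_, rfl⟩
  have hCl : Cl n β = Ico c (c + l) := by rw [Cl_eq, hc, hl, add_div]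
  rw [← hl] at h2 hG hF
  have l0 : 0 < l := by rw [hl]; positivity
  have hβ := mem_Cl n β
  rw [hCl] at hβ
  have om : 0 < l / h := by positivity
  have eom : h * (l / h) = l := by field_simp
  obtain ⟨j, hj⟩ : ∃ j : ℤ, j = ⌊(β - c) / (l / h)⌋ := ⟨_, rfl⟩
  have j1 : j * (l / h) ≤ β - c := by
    rw [← le_div_iff₀ om, hj]; exact Int.floor_le _
  have j2 : β - c < (j + 1) * (l / h) := by
    rw [← div_lt_iff₀ om, hj]; exact Int.lt_floor_add_one _
  have j3 : 0 ≤ j := by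
    rw [hj]; exact Int.floor_nonneg.2 (div_nonneg (by linarith [hβ.1]) om.le)
  have j4 : j < h := by
    rw [hj, Int.floor_lt, div_lt_iff₀ om]
    push_cast; linarith [hβ.2]
  have j3' : (0 : ℝ) ≤ j := by exact_mod_cast j3
  have j4' : (j : ℝ) < h := by exact_mod_cast j4
  have hW := hWSL α β h D h 0 D (j - h + 2) (j - 1) T X l hh hT hX l0 hG (Nat.zero_le _) le_rfl
    (by omega) (by omega) (by omega)
  obtain ⟨F, hFe⟩ : ∃ F, F = fam α β h T X l h 0 D (j - h + 2) (j - 1) := ⟨_, rfl⟩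
  rw [← hFe] at hW
  have key : ∀ v ∈ F, Prim v ∧ T / 2 ^ h < v.1 ∧ (v.1 : ℝ) ≤ T ∧ InR X 0 D (xc α v) ∧
      |yc β v| ≤ v.1 * l ∧ Ioo (ctr v - rad α T ε v) (ctr v + rad α T ε v) ⊆ Cl n β := by
    intro v hv
    rw [hFe, mem_fam hX] at hv
    obtain ⟨a1, a2, a3, a4, a5, a6⟩ := hv
    have q0 : (0 : ℝ) < v.1 := lt_trans (by positivity) a2
    have qne : v.1 ≠ 0 := by
      intro e; rw [e] at q0; simp at q0
    rw [yc_eq qne] at a5 a6
    have b1 := le_of_mul_le_mul_left a5 q0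
    have b2 := lt_of_mul_lt_mul_left a6 q0.le
    push_cast at b1 b2
    have b3 : rad α T ε v ≤ l / h := by
      refine le_trans ?_ h2
      have e : ε * 2 ^ h / (T ^ 2 * X) = ε / (T * (T / 2 ^ h) * X) := by field_simp
      rw [e, rad]
      have := UBx.le_abs a4
      gcongr
    obtain ⟨c1, c2, c3⟩ := UBx.pos om j1 j2 j3' j4' b1 b2
    rw [eom] at c1 c3
    refine ⟨a1, a2, a3, a4, ?_, ?_⟩
    · rw [yc_eq qne, abs_mul, abs_of_pos q0]
      exact mul_le_mul_of_nonneg_left c1 q0.le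
    · rw [hCl]
      rintro x ⟨x1, x2⟩
      constructor <;> linarith
  have u1 := hUB1 α β T X l ε A h D
    (F.filter fun v => ¬ Iso v (A * ε / |xc α v|) (A * T * |xc α v| / 2)) (by omega) hT hX l0 hε hA
    hF fun v hv => by
      obtain ⟨a, b⟩ := Finset.mem_filter.1 hv
      obtain ⟨a1, a2, a3, a4, a5, -⟩ := key v a
      exact ⟨a1, a2, a3, a4, a5, b⟩
  have u2 := hUB2 α β T X ε A h D n n'
    (F.filter fun v => Iso v (A * ε / |xc α v|) (A * T * |xc α v| / 2)) (by omega) hT hX hε hA h1 h3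
    fun v hv => by
      obtain ⟨a, b⟩ := Finset.mem_filter.1 hv
      obtain ⟨a1, a2, a3, a4, -, a6⟩ := key v a
      exact ⟨a1, a2, a3, a4, b, a6⟩
  have es : ∑ v ∈ F, 2 * rad α T ε v = 2 * ε / T * ∑ v ∈ F, 1 / (v.1 * |xc α v|) := by
    rw [Finset.mul_sum]
    refine Finset.sum_congr rfl fun v _ => ?_
    rw [rad, mul_assoc T, ← div_div]; ring
  have hD : (0 : ℝ) ≤ D := by positivity
  have fin := UBx.num (1 / h) (1 / 2 ^ h) (4 * c0 * ε * Real.log 2 * D) (ε * D) l _ _ _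
    (volume.real (Full n' α T ε ∩ Cl n β))
    (by positivity) (one_div_le_one_div_of_le (by norm_num) hr)
    (one_div_le_one_div_of_le h0 (by exact_mod_cast Nat.lt_two_pow_self.le)) l0 (by positivity)
    (UBx.le_M hε.le hD)
    (by
      rw [es]
      refine le_trans (le_of_eq ?_) (mul_le_mul_of_nonneg_left hW (by positivity))
      push_cast; field_simp; ring)
    (Finset.sum_filter_add_sum_filter_not F
      (fun v => Iso v (A * ε / |xc α v|) (A * T * |xc α v| / 2)) fun v => 2 * rad α T ε v)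
    (by
      rw [← Finset.mul_sum]
      refine mul_le_mul_of_nonneg_left (u1.trans (le_of_eq ?_)) (by norm_num)
      ring)
    (by rw [mul_one_div]; exact u2)
  rw [hl, mul_one_div, mul_one_div, div_le_iff₀ hn] at fin
  rw [Pr, mul_comm (2 ^ n : ℝ)]
  exact fin

end Pool.Agent.P.MP_e45b92_nt.UG
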