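import Pool.Agent.P.MP_e45b92_nt.UG.IfaceA

/-! Step WSL. -/

set_option autoImplicit false

namespace Pool.Agent.P.MP_e45b92_nt.UG

open MeasureTheory Set

namespace WSLx

theorem uq {ι : Type} [LinearOrder ι] [Add ι] [One ι] [SuccAddOrder ι] (P : ι → Prop)
    (hP : ∀ i j, i ≤ j → P j → P i) {a b : ι} (h1 : P a) (h2 : ¬P (a + 1)) (h3 : P b)
    (h4 : ¬P (b + 1)) : a = b := by
  rcases lt_trichotomy a b with h | h | h
  · exact absurd (hP _ _ (Order.add_one_le_of_lt h) h3) h2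
  · exact h
  · exact absurd (hP _ _ (Order.add_one_le_of_lt h) h1) h4

theorem mem_gbox {α β : ℝ} {h : ℕ} {T X ℓ : ℝ} {a b : ℕ} {σ : Bool} {k : ℤ} {v : V3}
    (H : v ∈ gbox α β h T X ℓ a b σ k) : Prim v ∧ T / kap h ^ (b + 1) < v.1 ∧
      (v.1 : ℝ) ≤ T / kap h ^ b ∧
      (σ = true ∧ X * kap h ^ a ≤ xc α v ∧ xc α v < X * kap h ^ (a + 1) ∨
        σ = false ∧ -(X * kap h ^ (a + 1)) ≤ xc α v ∧ xc α v < -(X * kap h ^ a)) ∧
      v.1 * (k * (ℓ / h)) ≤ yc β v ∧ yc β v < v.1 * (((k + 1 : ℤ) : ℝ) * (ℓ / h)) := by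
  obtain ⟨h1, h2, h3, h4, h5, h6, h7⟩ := mem_pbox.1 H
  refine ⟨h1, h2, h3, ?_, h6, by push_cast; linarith⟩
  cases σ
  · exact .inr ⟨rfl, h4, by simp only [Bool.false_eq_true, if_false, pow_succ] at h5; linarith⟩
  · exact .inl ⟨rfl, h4, by simp only [if_true] at h5; rw [pow_succ]; linarith⟩

theorem num {c X A κ ω Q : ℝ} (hc : 0 ≤ c) (hX : 0 < X) (hA : 0 < A) (hκ : 1 < κ) (hω : 0 ≤ ω)
    (hQ : 0 < Q) : c * (κ - 1) * ω / κ ^ 2 * (Q - Q / κ) ≤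
      c * (X * A * (κ - 1)) * ω * ((Q ^ 2 - (Q / κ) ^ 2) / 2) * (1 / (Q * (X * (A * κ)))) := by
  have k0 : 0 < κ := by linarith
  have k1 : 0 < κ - 1 := by linarith
  have e : c * (X * A * (κ - 1)) * ω * ((Q ^ 2 - (Q / κ) ^ 2) / 2) * (1 / (Q * (X * (A * κ)))) -
      c * (κ - 1) * ω / κ ^ 2 * (Q - Q / κ) = c * (κ - 1) ^ 3 * ω * Q / (2 * κ ^ 3) := by
    field_simp
    ring
  have : 0 ≤ c * (κ - 1) ^ 3 * ω * Q / (2 * κ ^ 3) := by positivity
  linarith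

end WSLx

open WSLx in
theorem p_WSL : S_WSL := by
  intro α β h S t s₀ s₁ k₀ k₁ T X ℓ hh hT hX hℓ hG s01 s1S k0 k01 k1
  have h0 : 0 < h := by omega
  have h20 : (20 : ℝ) ≤ h := by exact_mod_cast hh
  have κ1 := one_lt_kap h0
  have κ0 : 0 < kap h := by linarith
  have ω0 : 0 < ℓ / h := by positivity
  have c0' : 0 ≤ c0 := by linarith [c0_bounds.1]
  have m1 : ∀ i j : ℕ, i ≤ j → X * kap h ^ i ≤ X * kap h ^ j := fun i j e => by
    gcongr; exact κ1.le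
  have m2 : ∀ i j : ℕ, i ≤ j → T / kap h ^ j ≤ T / kap h ^ i := fun i j e => by
    gcongr; exact κ1.le
  have m3 : ∀ v : V3, 0 < (v.1 : ℝ) → ∀ i j : ℤ, i ≤ j →
      (v.1 : ℝ) * (i * (ℓ / h)) ≤ v.1 * (j * (ℓ / h)) := fun v hv i j e => by gcongr
  have p1 : ∀ i : ℕ, 0 < X * kap h ^ i := fun i => by positivity
  have p2 : ∀ i : ℕ, 0 < T / kap h ^ i := fun i => by positivity
  let I := Finset.Ico (h * s₀) (h * s₁) ×ˢ (Finset.univ : Finset Bool) ×ˢ Finset.Ico k₀ k₁ ×ˢ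
    Finset.range (h * t)
  let g : ℕ × Bool × ℤ × ℕ → Finset V3 := fun i => gbox α β h T X ℓ i.1 i.2.2.2 i.2.1 i.2.2.1
  have sub : I.biUnion g ⊆ fam α β h T X ℓ t s₀ s₁ k₀ k₁ := fun v hv => by
    obtain ⟨⟨a, σ, k, b⟩, hi, hv⟩ := Finset.mem_biUnion.1 hv
    simp only [I, Finset.mem_product, Finset.mem_Ico, Finset.mem_range] at hi
    obtain ⟨⟨a0, a1⟩, -, ⟨l0, l1⟩, b1⟩ := hi
    obtain ⟨h1, h2, h3, h4, h5, h6⟩ := mem_gbox hv
    have q0 := (p2 _).trans h2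
    have e0 := m1 _ _ a0
    have e1 := m1 _ _ (Nat.succ_le_of_lt a1)
    have e2 := m2 _ _ (Nat.succ_le_of_lt b1)
    have e3 := m2 _ _ (Nat.zero_le b)
    rw [kap_pow_mul h0] at e0 e1 e2
    rw [pow_zero, div_one] at e3
    refine (mem_fam hX).2 ⟨h1, e2.trans_lt h2, h3.trans e3, ?_, (m3 v q0 _ _ l0).trans h5,
      h6.trans_le (m3 v q0 _ _ l1)⟩
    rcases h4 with ⟨-, h4, h4'⟩ | ⟨-, h4, h4'⟩
    · exact .inl ⟨e0.trans h4, h4'.trans_le e1⟩
    · exact .inr ⟨(neg_le_neg e1).trans h4, h4'.trans_le (neg_le_neg e0)⟩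
  have dis : (I : Set (ℕ × Bool × ℤ × ℕ)).PairwiseDisjoint g := by
    rintro ⟨a, σ, k, b⟩ - ⟨a', σ', k', b'⟩ - hne
    refine Finset.disjoint_left.2 fun v hv hv' => hne ?_
    obtain ⟨-, h2, h3, h4, h5, h6⟩ := mem_gbox hv
    obtain ⟨-, h2', h3', h4', h5', h6'⟩ := mem_gbox hv'
    obtain rfl : b = b' := uq (fun i => (v.1 : ℝ) ≤ T / kap h ^ i)
      (fun i j e c => c.trans (m2 i j e)) h3 h2.not_ge h3' h2'.not_ge
    obtain rfl : k = k' := uq (fun i : ℤ => (v.1 : ℝ) * (i * (ℓ / h)) ≤ yc β v)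
      (fun i j e c => (m3 v ((p2 _).trans h2) i j e).trans c) h5 h6.not_ge h5' h6'.not_ge
    rcases h4 with ⟨e, x1, x2⟩ | ⟨e, x1, x2⟩ <;> rcases h4' with ⟨e', y1, y2⟩ | ⟨e', y1, y2⟩
    · exact Prod.ext (uq (fun i => X * kap h ^ i ≤ xc α v) (fun i j e c => (m1 i j e).trans c)
        x1 x2.not_ge y1 y2.not_ge) (Prod.ext (e.trans e'.symm) rfl)
    · linarith [p1 a, p1 a']
    · linarith [p1 a, p1 a']
    · exact Prod.ext (uq (fun i => xc α v < -(X * kap h ^ i))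
        (fun i j e c => c.trans_le (neg_le_neg (m1 i j e)))
        x2 x1.not_gt y2 y1.not_gt) (Prod.ext (e.trans e'.symm) rfl)
  have u0 : (0 : ℝ) < 1 / h := by positivity
  have u1 : (1 : ℝ) / h ≤ 1 / 20 := by gcongr
  have one : ∀ i ∈ I, (1 - 1 / h) * (c0 * (kap h - 1) * (ℓ / h) / kap h ^ 2) *
      (T / kap h ^ i.2.2.2 - T / kap h ^ (i.2.2.2 + 1)) ≤ ∑ v ∈ g i, 1 / (v.1 * |xc α v|) := by
    rintro ⟨a, σ, k, b⟩ hi
    simp only [I, Finset.mem_product, Finset.mem_Ico, Finset.mem_range] at hi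
    obtain ⟨⟨-, a1⟩, -, ⟨l0, l1⟩, b1⟩ := hi
    have c1 := (abs_le.1 (hG a (a1.trans_le (Nat.mul_le_mul_left h s1S)) b b1 σ k
      (abs_le.2 ⟨by omega, by omega⟩))).1
    have c2 := Finset.card_nsmul_le_sum (g (a, σ, k, b)) (fun v => 1 / (v.1 * |xc α v|))
      (1 / (T / kap h ^ b * (X * kap h ^ (a + 1)))) fun v hv => by
        obtain ⟨-, h2, h3, h4, -⟩ := mem_gbox hv
        have q0 := (p2 _).trans h2
        have x : 0 < |xc α v| ∧ |xc α v| ≤ X * kap h ^ (a + 1) := by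
          have := p1 a
          rcases h4 with ⟨-, x1, x2⟩ | ⟨-, x1, x2⟩
          · rw [abs_of_pos (by linarith)]; exact ⟨by linarith, x2.le⟩
          · rw [abs_of_neg (by linarith)]; exact ⟨by linarith, by linarith⟩
        exact one_div_le_one_div_of_le (mul_pos q0 x.1) (mul_le_mul h3 x.2 x.1.le (p2 _).le)
    refine le_trans ?_ c2
    have c3 := num c0' hX (pow_pos κ0 a) κ1 ω0.le (p2 b)
    rw [div_div T, ← pow_succ, ← pow_succ] at c3
    have c4 : (1 - 1 / h) * gmean h T X ℓ a b ≤ (g (a, σ, k, b)).card := by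
      rw [div_eq_mul_one_div] at c1
      linarith
    have := p1 (a + 1)
    have := p2 b
    rw [nsmul_eq_mul, mul_assoc]
    refine (mul_le_mul_of_nonneg_left c3 (by linarith)).trans ?_
    rw [← mul_assoc]
    exact mul_le_mul_of_nonneg_right c4 (by positivity)
  refine le_trans ?_ (Finset.sum_le_sum_of_subset_of_nonneg sub fun v hv _ => ?_)
  swap
  · have := (div_pos hT (pow_pos two_pos t)).trans ((mem_fam hX).1 hv).2.1
    positivity
  rw [Finset.sum_biUnion dis]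
  refine le_trans ?_ (Finset.sum_le_sum one)
  have e1 : ((h * s₁ - h * s₀ : ℕ) : ℝ) = h * (s₁ - s₀) := by
    rw [Nat.cast_sub (Nat.mul_le_mul_left h s01)]; push_cast; ring
  have e2 : (((k₁ - k₀).toNat : ℕ) : ℝ) = k₁ - k₀ := by
    have : (((k₁ - k₀).toNat : ℕ) : ℤ) = k₁ - k₀ := Int.toNat_of_nonneg (by omega)
    exact_mod_cast this
  simp only [I, Finset.sum_product, ← Finset.mul_sum, Finset.sum_const, nsmul_eq_mul,
    Finset.sum_range_sub' fun b => T / kap h ^ b, Nat.card_Ico, Int.card_Ico, Finset.card_univ,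
    Fintype.card_bool, e1, e2, kap_pow_mul h0]
  have f1 : (1 - 5 / h) * Real.log 2 ≤ (1 - 1 / h) * (h * (kap h - 1)) / kap h ^ 2 := by
    rw [le_div_iff₀ (by positivity), div_eq_mul_one_div 5]
    have a1 := kap_le h0
    have a2 := kap_lower h0
    have a3 := log_two_bounds.1
    generalize (1 : ℝ) / h = u at *
    have a4 : kap h ^ 2 ≤ (1 + u) ^ 2 := by gcongr
    have a5 : (1 - 5 * u) * kap h ^ 2 ≤ 1 - u :=
      (mul_le_mul_of_nonneg_left a4 (by linarith)).trans (by nlinarith [mul_pos u0 u0])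
    have a6 := mul_le_mul a5 a2 (by linarith) (by linarith)
    linarith
  have f2 : (0 : ℝ) ≤ 1 - 1 / 2 ^ t := sub_nonneg.2 (by
    rw [div_le_one (by positivity)]; exact one_le_pow₀ one_le_two)
  have f3 : (0 : ℝ) ≤ s₁ - s₀ := sub_nonneg.2 (by exact_mod_cast s01)
  have f4 : (0 : ℝ) ≤ k₁ - k₀ := sub_nonneg.2 (by exact_mod_cast k01)
  have f5 := mul_le_mul_of_nonneg_right f1 (show (0 : ℝ) ≤ (1 - 1 / 2 ^ t) *
    (2 * c0 * (s₁ - s₀) * (k₁ - k₀) * (ℓ / h) * T) by positivity)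
  refine le_trans (le_of_eq (by ring)) (f5.trans (le_of_eq ?_))
  push_cast
  ring

end Pool.Agent.P.MP_e45b92_nt.UG
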